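import Pool.Agent.Lib.H15P.WD
import Pool.Agent.Lib.Sieve.Averages

/-!
# Chunk AV: classes modulo a primorial
-/

open Finset

namespace Pool.Agent.Lib.H15P

/-- The shifts `h ≤ H` with `n + h` coprime to `M`. -/
def CC (H M n : ℕ) : Finset ℕ := (Icc 1 H).filter (fun h => Nat.Coprime (n + h) M)

theorem CC_add (H M n t : ℕ) : CC H M (n + M * t) = CC H M n := by
  unfold CC
  apply filter_congr
  intro h _
  rw [show n + M * t + h = (n + h) + M * t by ring]
  exact Nat.coprime_add_mul_left_left (n + h) M t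

/-- Double counting: `Σ_{a < M} #CC = H φ(M)` (`Nat.filter_coprime_Ico_eq_totient`). -/
theorem sum_card_CC (H M : ℕ) (hM : 0 < M) :
    ∑ a ∈ range M, (CC H M a).card = H * M.totient := by
  have h1 : ∀ a ∈ range M, (CC H M a).card =
      ∑ h ∈ Icc 1 H, if Nat.Coprime (a + h) M then 1 else 0 := by
    intro a _
    rw [CC, card_filter]
  rw [sum_congr rfl h1, sum_comm]
  have h2 : ∀ h ∈ Icc 1 H, (∑ a ∈ range M, if Nat.Coprime (a + h) M then 1 else 0) =
      M.totient := by
    intro h _
    rw [← card_filter, ← Nat.filter_coprime_Ico_eq_totient M h]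
    apply card_bij (fun a _ => a + h)
    · intro a ha
      rw [mem_filter, mem_range] at ha
      rw [mem_filter, mem_Ico]
      exact ⟨⟨by omega, by omega⟩, ha.2.symm⟩
    · intro a _ b _ hab
      exact Nat.add_right_cancel hab
    · intro b hb
      rw [mem_filter, mem_Ico] at hb
      refine ⟨b - h, ?_, by omega⟩
      rw [mem_filter, mem_range]
      refine ⟨by omega, ?_⟩
      rw [show b - h + h = b by omega]
      exact hb.2.symm
  rw [sum_congr rfl h2, sum_const, Nat.card_Icc, smul_eq_mul]
  simp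

/-- `φ(primorial y)/primorial y = ∏_{p ≤ y} (1 - 1/p) ≤ 1/log y` (`Sieve.prod_one_sub_inv_le`). -/
theorem totient_primorial_le (y : ℕ) (hy : 2 ≤ y) :
    ((primorial y).totient : ℝ) ≤ (primorial y : ℝ) / Real.log y := by
  have h1 := Nat.totient_eq_mul_prod_factors (primorial y)
  have h2 : ((primorial y).totient : ℝ) =
      (primorial y : ℝ) * ∏ p ∈ (primorial y).primeFactors, (1 - (p : ℝ)⁻¹) := by
    have h5 := congrArg (fun q : ℚ => (q : ℝ)) h1
    push_cast at h5
    exact h5
  have h3 : (primorial y).primeFactors = Sieve.primesUpTo y := by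
    ext p
    rw [Nat.mem_primeFactors, Sieve.mem_primesUpTo]
    constructor
    · rintro ⟨hp, hd, -⟩
      exact ⟨hp, hp.dvd_primorial_iff.mp hd⟩
    · rintro ⟨hp, hle⟩
      exact ⟨hp, hp.dvd_primorial_iff.mpr hle, primorial_ne_zero y⟩
  rw [h2, h3, div_eq_mul_one_div]
  apply mul_le_mul_of_nonneg_left _ (Nat.cast_nonneg _)
  have h4 := Sieve.prod_one_sub_inv_le y hy
  simp only [one_div] at h4 ⊢
  exact h4

/-- Markov. -/
theorem card_bad_le (H K y : ℕ) (hy : 2 ≤ y) (hK : 1 ≤ K) :
    (((range (primorial y)).filter (fun a => K < (CC H (primorial y) a).card)).card : ℝ)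
      ≤ (H : ℝ) / (K * Real.log y) * primorial y := by
  set M := primorial y with hM
  set B := (range M).filter (fun a => K < (CC H M a).card) with hB
  have hlog : 0 < Real.log y := Real.log_pos (by exact_mod_cast (by omega : 1 < y))
  have hK0 : (0 : ℝ) < K := by exact_mod_cast hK
  have h1 : K * B.card ≤ H * M.totient := by
    rw [← sum_card_CC H M (primorial_pos y)]
    calc K * B.card = ∑ a ∈ B, K := by rw [sum_const, smul_eq_mul, mul_comm]
      _ ≤ ∑ a ∈ B, (CC H M a).card := by
          apply sum_le_sum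
          intro a ha
          exact (mem_filter.mp ha).2.le
      _ ≤ _ := sum_le_sum_of_subset (filter_subset _ _)
  have h2 : (K : ℝ) * B.card ≤ H * M.totient := by exact_mod_cast h1
  have h3 := totient_primorial_le y hy
  have h4 : (K : ℝ) * B.card ≤ H * (M / Real.log y) :=
    h2.trans (mul_le_mul_of_nonneg_left h3 (Nat.cast_nonneg _))
  calc (B.card : ℝ) = (K * B.card) / K := by field_simp
    _ ≤ (H * (M / Real.log y)) / K := div_le_div_of_nonneg_right h4 hK0.le
    _ = _ := by field_simp

/-- Sum over an interval, class by class: `n = a + M t`. -/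
theorem sum_classes (M Y0 Y : ℕ) (hM : 0 < M) (F : ℕ → ℝ) :
    ∑ n ∈ Ico (M * Y0) (M * (Y0 + Y)), F n
      = ∑ a ∈ range M, ∑ t ∈ Ico Y0 (Y0 + Y), F (a + M * t) := by
  rw [sum_comm]
  induction Y with
  | zero => simp
  | succ Y ih =>
    rw [show Y0 + (Y + 1) = (Y0 + Y) + 1 by ring, Finset.sum_Ico_succ_top (by omega), ← ih,
      ← Finset.sum_Ico_consecutive F (Nat.mul_le_mul_left M (by omega : Y0 ≤ Y0 + Y))
        (Nat.mul_le_mul_left M (by omega : Y0 + Y ≤ Y0 + Y + 1))]
    congr 1
    rw [Finset.sum_Ico_eq_sum_range]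
    have : M * (Y0 + Y + 1) - M * (Y0 + Y) = M := by
      rw [Nat.mul_succ]
      omega
    rw [this]
    exact sum_congr rfl fun a _ => by rw [add_comm]

/-- The weight function: weight of `{n + h : h ∈ CC H M n}`, `0` if this set is too large. -/
noncomputable def WD.wt (w : WD) (H M n : ℕ) : ℝ :=
  if (CC H M n).card ≤ w.K then w.om ((CC H M n).image (fun h => n + h)) else 0

/-- Number of the shifts `h ∈ CC H M n` with `n + h` free of primes of `P`. -/
def WD.rg (w : WD) (H M n : ℕ) : ℕ := w.rough ((CC H M n).image (fun h => n + h))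

end Pool.Agent.Lib.H15P
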