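import Pool.Agent.Lib.H15P.Defs

/-!
# Chunk BH1: the alternating binomial sums
-/

open Finset

namespace Pool.Agent.Lib.H15P

theorem TT_zero (r : ℕ) : TT r 0 = 1 := by
  unfold TT
  rw [Finset.sum_range_succ']
  simp

/-- `Σ_{l ≤ 2r} (-1)^l (s+1 choose l) = (s choose 2r)`
(`Int.alternating_sum_range_choose_eq_choose` or Pascal and induction). -/
theorem TT_succ (r s : ℕ) : TT r (s + 1) = (s.choose (2 * r) : ℝ) := by
  unfold TT
  have key : ∀ m : ℕ, ∑ l ∈ range (m + 1), (-1 : ℝ) ^ l * ((s + 1).choose l : ℝ)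
      = (-1) ^ m * (s.choose m : ℝ) := by
    intro m
    induction m with
    | zero => simp
    | succ m ih =>
      rw [Finset.sum_range_succ, ih, Nat.choose_succ_succ]
      push_cast
      ring
  rw [key (2 * r)]
  rw [pow_mul]
  norm_num

theorem TT_nonneg (r s : ℕ) : 0 ≤ TT r s := by
  cases s with
  | zero => rw [TT_zero]; norm_num
  | succ s => rw [TT_succ]; positivity

theorem TT_le (r s : ℕ) : TT r s ≤ 2 ^ s := by
  cases s with
  | zero => rw [TT_zero]; norm_num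
  | succ s =>
    rw [TT_succ]
    have h1 : s.choose (2 * r) ≤ 2 ^ s := Nat.choose_le_two_pow s (2 * r)
    have h2 : ((s.choose (2 * r) : ℕ) : ℝ) ≤ 2 ^ s := by exact_mod_cast h1
    have h3 : (0 : ℝ) ≤ 2 ^ s := by positivity
    calc ((s.choose (2 * r) : ℕ) : ℝ) ≤ 2 ^ s := h2
      _ ≤ 2 ^ (s + 1) := by rw [pow_succ]; linarith

theorem TT_eq_zero (r s : ℕ) (h1 : 1 ≤ s) (h2 : s ≤ 2 * r) : TT r s = 0 := by
  obtain ⟨t, rfl⟩ : ∃ t, s = t + 1 := ⟨s - 1, by omega⟩
  rw [TT_succ, Nat.choose_eq_zero_of_lt (by omega)]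
  norm_num

theorem lam_nonneg {ι : Type} (blk : ι → ℕ) (r0 N i : ℕ) (A : Finset ι) :
    0 ≤ lam blk r0 N i A := by
  unfold lam
  exact Finset.prod_nonneg (fun b _ => TT_nonneg _ _)

theorem lam_empty {ι : Type} (blk : ι → ℕ) (r0 N i : ℕ) : lam blk r0 N i ∅ = 1 := by
  unfold lam
  apply Finset.prod_eq_one
  intro b _
  simp [AB, TT_zero]

theorem DB_empty {ι : Type} [Fintype ι] [DecidableEq ι] (q : ι → ℝ) (blk : ι → ℕ)
    (r0 N i : ℕ) (ht : tau q blk r0 i < 1) : DB q blk r0 N i ∅ = 1 := by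
  unfold DB
  have h1 : ∏ b ∈ Ico (i + 1) N, TT (r0 + (b - i)) (AB blk b (∅ : Finset ι)).card = 1 := by
    apply Finset.prod_eq_one
    intro b _
    simp [AB, TT_zero]
  have h2 : TT r0 (AB blk i (∅ : Finset ι)).card = 1 := by simp [AB, TT_zero]
  rw [h1, h2, one_mul, div_self]
  intro h
  linarith

end Pool.Agent.Lib.H15P
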