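import Pool.Agent.Lib.H15P.PB1

/-!
# Chunk BH2: independence of the blocks
-/

open Finset

namespace Pool.Agent.Lib.H15P

variable {ι : Type} [Fintype ι] [DecidableEq ι]

/-- Bijection `A ↦ (A ∩ s, A \ s)`. -/
theorem bh2_sum_split (s : Finset ι) (H K : Finset ι → ℝ) :
    ∑ A : Finset ι, H (A ∩ s) * K (A \ s)
      = (∑ B ∈ s.powerset, H B) * (∑ C ∈ sᶜ.powerset, K C) := by
  rw [Finset.sum_mul_sum, ← Finset.sum_product']
  refine Finset.sum_bij' (fun A _ => (A ∩ s, A \ s)) (fun p _ => p.1 ∪ p.2) ?_ ?_ ?_ ?_ ?_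
  · intro A _
    simp only [mem_product, mem_powerset]
    refine ⟨Finset.inter_subset_right, ?_⟩
    intro x hx
    simp only [mem_sdiff] at hx
    simp [hx.2]
  · intro p _
    exact mem_univ _
  · intro A _
    ext x
    simp only [mem_union, mem_inter, mem_sdiff]
    tauto
  · rintro ⟨B, C⟩ hp
    simp only [mem_product, mem_powerset] at hp
    obtain ⟨hB, hC⟩ := hp
    have hC' : ∀ x ∈ C, x ∉ s := fun x hx => by simpa using hC hx
    ext x
    · simp only [mem_inter, mem_union]
      constructor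
      · rintro ⟨h | h, hs⟩
        · exact h
        · exact absurd hs (hC' x h)
      · intro h
        exact ⟨Or.inl h, hB h⟩
    · simp only [mem_sdiff, mem_union]
      constructor
      · rintro ⟨h | h, hs⟩
        · exact absurd (hB h) hs
        · exact h
      · intro h
        exact ⟨Or.inr h, hC' x h⟩
  · intro A _
    rfl

/-- Partial weight. -/
noncomputable def bh2w (q : ι → ℝ) (s A : Finset ι) : ℝ :=
  ∏ i ∈ s, if i ∈ A then q i else 1 - q i

theorem bh2_bw (q : ι → ℝ) (s A : Finset ι) :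
    bw q A = bh2w q s (A ∩ s) * bh2w q sᶜ (A \ s) := by
  unfold bw bh2w
  rw [← Finset.prod_mul_prod_compl s (fun i => if i ∈ A then q i else 1 - q i)]
  congr 1
  · apply Finset.prod_congr rfl
    intro i hi
    simp [hi]
  · apply Finset.prod_congr rfl
    intro i hi
    have : i ∉ s := by simpa using hi
    simp [this]

/-- Independence: a function of `A ∩ s` times a function of `A \ s`. Bijection
`A ↦ (A ∩ s, A \ s)` onto `powerset s ×ˢ powerset sᶜ`, and the weight `bw` is the product of the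
weights of the two parts. -/
theorem ex_mul_of_split (q : ι → ℝ) (s : Finset ι) (F G : Finset ι → ℝ)
    (hF : ∀ A, F A = F (A ∩ s)) (hG : ∀ A, G A = G (A \ s)) :
    ex q (fun A => F A * G A) = ex q F * ex q G := by
  have gen : ∀ F G : Finset ι → ℝ, (∀ A, F A = F (A ∩ s)) → (∀ A, G A = G (A \ s)) →
      ex q (fun A => F A * G A)
        = (∑ B ∈ s.powerset, F B * bh2w q s B) * (∑ C ∈ sᶜ.powerset, G C * bh2w q sᶜ C) := by
    intro F G hF hG
    rw [← bh2_sum_split s (fun B => F B * bh2w q s B) (fun C => G C * bh2w q sᶜ C)]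
    unfold ex
    apply Finset.sum_congr rfl
    intro A _
    dsimp only
    rw [bh2_bw q s A, hF A, hG A]
    ring
  have h1 := gen F G hF hG
  have h2 := gen F (fun _ => 1) hF (fun _ => rfl)
  have h3 := gen (fun _ => 1) G (fun _ => rfl) hG
  have h4 := gen (fun _ => 1) (fun _ => 1) (fun _ => rfl) (fun _ => rfl)
  have h5 : ex q (fun _ => 1) = 1 := ex_one q
  simp only [mul_one, one_mul] at h2 h3 h4
  rw [h5] at h4
  have h2' : ex q F = (∑ B ∈ s.powerset, F B * bh2w q s B) * ∑ C ∈ sᶜ.powerset, bh2w q sᶜ C := h2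
  have h3' : ex q G = (∑ B ∈ s.powerset, bh2w q s B) * ∑ C ∈ sᶜ.powerset, G C * bh2w q sᶜ C := h3
  rw [h1, h2', h3']
  calc (∑ B ∈ s.powerset, F B * bh2w q s B) * ∑ C ∈ sᶜ.powerset, G C * bh2w q sᶜ C
      = (∑ B ∈ s.powerset, F B * bh2w q s B) * (∑ C ∈ sᶜ.powerset, G C * bh2w q sᶜ C) * 1 := by
        ring
    _ = _ := by rw [h4]; ring

/-- Induction with `ex_mul_of_split` (`s` = one block). -/
theorem ex_prod_blocks (q : ι → ℝ) (blk : ι → ℕ) (F : ℕ → Finset ι → ℝ) (T : Finset ℕ) :
    ex q (fun A => ∏ b ∈ T, F b (AB blk b A)) = ∏ b ∈ T, ex q (fun A => F b (AB blk b A)) := by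
  induction T using Finset.induction_on with
  | empty => simpa using ex_one q
  | insert b T hb ih =>
    simp only [Finset.prod_insert hb]
    rw [← ih]
    refine ex_mul_of_split q (univ.filter (fun i => blk i = b)) (fun A => F b (AB blk b A))
      (fun A => ∏ b ∈ T, F b (AB blk b A)) ?_ ?_
    · intro A
      congr 1
      ext x
      simp only [AB, mem_filter, mem_inter, mem_univ, true_and]
      tauto
    · intro A
      apply Finset.prod_congr rfl
      intro c hc
      have hcb : c ≠ b := fun h => hb (h ▸ hc)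
      congr 1
      ext x
      simp only [AB, mem_filter, mem_sdiff, mem_univ, true_and]
      constructor
      · rintro ⟨h1, h2⟩
        exact ⟨⟨h1, fun h => hcb (h2 ▸ h)⟩, h2⟩
      · rintro ⟨⟨h1, _⟩, h2⟩
        exact ⟨h1, h2⟩

end Pool.Agent.Lib.H15P
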