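import Pool.Agent.Lib.H15P.PB1
import Pool.Agent.Lib.H15P.BH1
import Pool.Agent.Lib.H15P.BH2

/-!
# Chunk BH3: moments of the factor of one block
-/

open Finset

namespace Pool.Agent.Lib.H15P

theorem bh3_pow_add (S y : ℝ) (hS : 0 ≤ S) (hy : 0 ≤ y) (s : ℕ) :
    S ^ (s + 1) + (s + 1) * y * S ^ s ≤ (S + y) ^ (s + 1) := by
  induction s with
  | zero => simp
  | succ s ih =>
    have h1 : (S + y) * (S ^ (s + 1) + (s + 1) * y * S ^ s) ≤ (S + y) * (S + y) ^ (s + 1) :=
      mul_le_mul_of_nonneg_left ih (by positivity)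
    have h2 : 0 ≤ ((s : ℝ) + 1) * y ^ 2 * S ^ s := by positivity
    have h3 : (S + y) * (S ^ (s + 1) + (s + 1) * y * S ^ s)
        = S ^ (s + 1 + 1) + ((s : ℝ) + 1 + 1) * y * S ^ (s + 1)
          + ((s : ℝ) + 1) * y ^ 2 * S ^ s := by ring
    have h4 : (S + y) ^ (s + 1 + 1) = (S + y) * (S + y) ^ (s + 1) := by ring
    push_cast
    rw [h4]
    linarith

/-- Elementary symmetric sums: `e_s ≤ (Σ y)^s/s!`. -/
theorem bh3_esymm_le {ι : Type} [DecidableEq ι] (y : ι → ℝ) (hy : ∀ i, 0 ≤ y i)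
    (B : Finset ι) : ∀ s : ℕ, ∑ C ∈ B.powersetCard s, ∏ i ∈ C, y i
      ≤ (∑ i ∈ B, y i) ^ s / (s.factorial : ℝ) := by
  induction B using Finset.induction_on with
  | empty =>
    intro s
    cases s with
    | zero => simp
    | succ s => rw [Finset.powersetCard_eq_empty.mpr (by simp)]; simp
  | insert a B ha ih =>
    intro s
    cases s with
    | zero => simp
    | succ s =>
      rw [Finset.powersetCard_succ_insert ha, Finset.sum_union, Finset.sum_image,
        Finset.sum_insert ha]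
      · have h1 := ih (s + 1)
        have h2 := ih s
        have hS : 0 ≤ ∑ i ∈ B, y i := Finset.sum_nonneg (fun i _ => hy i)
        have h3 : ∑ C ∈ B.powersetCard s, ∏ i ∈ insert a C, y i
            = y a * ∑ C ∈ B.powersetCard s, ∏ i ∈ C, y i := by
          rw [Finset.mul_sum]
          apply Finset.sum_congr rfl
          intro C hC
          rw [Finset.prod_insert]
          intro h
          exact ha ((Finset.mem_powersetCard.mp hC).1 h)
        rw [h3]
        have h4 := mul_le_mul_of_nonneg_left h2 (hy a)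
        have h5 := bh3_pow_add (∑ i ∈ B, y i) (y a) hS (hy a) s
        have hf : (0 : ℝ) < (s.factorial : ℝ) := by exact_mod_cast s.factorial_pos
        have hs1 : (0 : ℝ) < (s : ℝ) + 1 := by positivity
        have h6 : (((s + 1).factorial : ℕ) : ℝ) = ((s : ℝ) + 1) * s.factorial := by
          rw [Nat.factorial_succ]; push_cast; ring
        rw [h6] at h1 ⊢
        calc ∑ C ∈ B.powersetCard (s + 1), ∏ i ∈ C, y i
              + y a * ∑ C ∈ B.powersetCard s, ∏ i ∈ C, y i
            ≤ (∑ i ∈ B, y i) ^ (s + 1) / (((s : ℝ) + 1) * s.factorial)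
              + y a * ((∑ i ∈ B, y i) ^ s / s.factorial) := add_le_add h1 h4
          _ = ((∑ i ∈ B, y i) ^ (s + 1) + (s + 1) * y a * (∑ i ∈ B, y i) ^ s)
              / (((s : ℝ) + 1) * s.factorial) := by
              field_simp
          _ ≤ (y a + ∑ i ∈ B, y i) ^ (s + 1) / (((s : ℝ) + 1) * s.factorial) := by
              rw [add_comm (y a)]
              apply div_le_div_of_nonneg_right h5
              positivity
      · intro C hC D hD hCD
        have hC' : a ∉ C := fun h => ha ((Finset.mem_powersetCard.mp hC).1 h)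
        have hD' : a ∉ D := fun h => ha ((Finset.mem_powersetCard.mp hD).1 h)
        have := congrArg (fun X => X.erase a) hCD
        simpa [Finset.erase_insert hC', Finset.erase_insert hD'] using this
      · rw [Finset.disjoint_left]
        intro C hC hC2
        obtain ⟨D, _, rfl⟩ := Finset.mem_image.mp hC2
        exact ha ((Finset.mem_powersetCard.mp hC).1 (Finset.mem_insert_self a D))

variable {ι : Type} [Fintype ι] [DecidableEq ι]

/-- Expectation of a function of the part in `B`. -/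
theorem bh3_ex_inter (q : ι → ℝ) (B : Finset ι) (f : Finset ι → ℝ) :
    ex q (fun A => f (A ∩ B)) = ∑ C ∈ B.powerset, f C * bh2w q B C := by
  have h1 := bh2_sum_split B (fun C => f C * bh2w q B C) (fun C => bh2w q Bᶜ C)
  have h2 : ∑ C ∈ Bᶜ.powerset, bh2w q Bᶜ C = 1 := by
    have h3 := Finset.prod_add (fun i => q i) (fun i => 1 - q i) Bᶜ
    have h4 : ∏ i ∈ Bᶜ, (q i + (1 - q i)) = 1 := by
      apply Finset.prod_eq_one
      intro i _
      ring
    rw [h4] at h3
    rw [h3]
    apply Finset.sum_congr rfl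
    intro C hC
    rw [Finset.mem_powerset] at hC
    unfold bh2w
    rw [← Finset.prod_sdiff hC, mul_comm]
    congr 1
    · apply Finset.prod_congr rfl
      intro i hi
      simp [hi]
    · apply Finset.prod_congr rfl
      intro i hi
      have : i ∉ C := (Finset.mem_sdiff.mp hi).2
      simp [this]
  rw [h2, mul_one] at h1
  rw [← h1]
  unfold ex
  apply Finset.sum_congr rfl
  intro A _
  rw [bh2_bw q B A]
  ring

theorem bh3_AB (blk : ι → ℕ) (b : ℕ) (A : Finset ι) :
    AB blk b A = A ∩ univ.filter (fun i => blk i = b) := by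
  ext x
  simp [AB]

/-- `P(|A ∩ block| = s) = p0 e_s(q/(1-q)) ≤ p0 σ^s/s!`. -/
theorem ex_card_eq_le (q : ι → ℝ) (blk : ι → ℕ) (b : ℕ) (σ : ℝ) (h0 : ∀ i, 0 ≤ q i)
    (h1 : ∀ i, q i ≤ 1 / 2)
    (hσ : ∑ i ∈ univ.filter (fun i => blk i = b), q i / (1 - q i) ≤ σ) (s : ℕ) :
    ex q (fun A => if (AB blk b A).card = s then 1 else 0)
      ≤ p0 q blk b * (σ ^ s / s.factorial) := by
  have hq : ∀ i, 0 < 1 - q i := fun i => by linarith [h1 i]
  have hy : ∀ i, 0 ≤ q i / (1 - q i) := fun i => div_nonneg (h0 i) (hq i).le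
  simp only [bh3_AB]
  rw [bh3_ex_inter q (univ.filter (fun i => blk i = b)) (fun C => if C.card = s then 1 else 0)]
  set B := univ.filter (fun i => blk i = b) with hB
  have e1 : ∑ C ∈ B.powerset, (if C.card = s then (1 : ℝ) else 0) * bh2w q B C
      = ∑ C ∈ B.powersetCard s, bh2w q B C := by
    rw [Finset.powersetCard_eq_filter, Finset.sum_filter]
    apply Finset.sum_congr rfl
    intro C _
    split_ifs <;> simp
  have e2 : ∀ C ∈ B.powersetCard s, bh2w q B C
      = p0 q blk b * ∏ i ∈ C, q i / (1 - q i) := by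
    intro C hC
    have hC' : C ⊆ B := (Finset.mem_powersetCard.mp hC).1
    unfold bh2w p0
    rw [← hB, ← Finset.prod_sdiff hC', ← Finset.prod_sdiff hC' (f := fun i => 1 - q i), mul_assoc,
      ← Finset.prod_mul_distrib]
    congr 1
    · apply Finset.prod_congr rfl
      intro i hi
      have : i ∉ C := (Finset.mem_sdiff.mp hi).2
      simp [this]
    · apply Finset.prod_congr rfl
      intro i hi
      rw [if_pos hi, mul_div_cancel₀]
      exact (hq i).ne'
  rw [e1, Finset.sum_congr rfl e2, ← Finset.mul_sum]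
  have hp : 0 ≤ p0 q blk b := Finset.prod_nonneg (fun i _ => (hq i).le)
  apply mul_le_mul_of_nonneg_left _ hp
  refine (bh3_esymm_le (fun i => q i / (1 - q i)) hy B s).trans ?_
  apply div_le_div_of_nonneg_right _ (by positivity)
  exact pow_le_pow_left₀ (Finset.sum_nonneg (fun i _ => hy i)) hσ s

theorem ex_card_zero (q : ι → ℝ) (blk : ι → ℕ) (b : ℕ) :
    ex q (fun A => if (AB blk b A).card = 0 then 1 else 0) = p0 q blk b := by
  simp only [bh3_AB]
  rw [bh3_ex_inter q (univ.filter (fun i => blk i = b)) (fun C => if C.card = 0 then 1 else 0)]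
  rw [Finset.sum_eq_single ∅]
  · simp [bh2w, p0]
  · intro C _ hC
    rw [if_neg, zero_mul]
    simpa using hC
  · intro h
    exact absurd (Finset.empty_mem_powerset _) h

/-- `TT = 1` at `0`, `0` at `1, .., 2r`, at most `2^s` at `s > 2r`, and `(2^s)^a ≤ 16^s`. -/
theorem ex_TT_pow_le (q : ι → ℝ) (blk : ι → ℕ) (b r : ℕ) (σ : ℝ) (h0 : ∀ i, 0 ≤ q i)
    (h1 : ∀ i, q i ≤ 1 / 2)
    (hσ : ∑ i ∈ univ.filter (fun i => blk i = b), q i / (1 - q i) ≤ σ)
    (a : ℕ) (ha1 : 1 ≤ a) (ha : a ≤ 4) :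
    ex q (fun A => TT r (AB blk b A).card ^ a)
      ≤ p0 q blk b *
        (1 + ∑ s ∈ Ioc (2 * r) (Fintype.card ι), (16 * σ) ^ s / (s.factorial : ℝ)) := by
  have h1' : ∀ i, q i ≤ 1 := fun i => by linarith [h1 i]
  have hpt : ∀ A : Finset ι, TT r (AB blk b A).card ^ a
      ≤ (if (AB blk b A).card = 0 then (1 : ℝ) else 0)
        + ∑ s ∈ Ioc (2 * r) (Fintype.card ι),
          (16 : ℝ) ^ s * (if (AB blk b A).card = s then (1 : ℝ) else 0) := by
    intro A
    have hcard : (AB blk b A).card ≤ Fintype.card ι := Finset.card_le_univ _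
    have hnn : 0 ≤ ∑ s ∈ Ioc (2 * r) (Fintype.card ι),
          (16 : ℝ) ^ s * (if (AB blk b A).card = s then (1 : ℝ) else 0) := by
      apply Finset.sum_nonneg
      intro s _
      split_ifs <;> positivity
    generalize (AB blk b A).card = t at *
    rcases Nat.eq_zero_or_pos t with h | h
    · subst h
      rw [TT_zero, if_pos rfl, one_pow]
      linarith
    · rw [if_neg (by omega), zero_add]
      rcases le_or_gt t (2 * r) with h2 | h2
      · rw [TT_eq_zero r t h h2, zero_pow (by omega)]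
        exact hnn
      · have hmem : t ∈ Ioc (2 * r) (Fintype.card ι) := Finset.mem_Ioc.mpr ⟨h2, hcard⟩
        have hterm : (16 : ℝ) ^ t * (if t = t then (1 : ℝ) else 0)
            ≤ ∑ s ∈ Ioc (2 * r) (Fintype.card ι),
              (16 : ℝ) ^ s * (if t = s then (1 : ℝ) else 0) := by
          apply Finset.single_le_sum (f := fun s => (16 : ℝ) ^ s * (if t = s then (1 : ℝ) else 0))
            _ hmem
          intro s _
          split_ifs <;> positivity
        rw [if_pos rfl, mul_one] at hterm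
        refine le_trans ?_ hterm
        calc TT r t ^ a ≤ (2 ^ t) ^ a := pow_le_pow_left₀ (TT_nonneg r t) (TT_le r t) a
          _ ≤ (2 ^ t) ^ 4 := by
              apply pow_le_pow_right₀ _ ha
              exact one_le_pow₀ (by norm_num)
          _ = 16 ^ t := by rw [← pow_mul, mul_comm, pow_mul]; norm_num
  refine (ex_mono q h0 h1' _ _ hpt).trans ?_
  rw [ex_add]
  have hsum : ex q (fun A => ∑ s ∈ Ioc (2 * r) (Fintype.card ι),
      (16 : ℝ) ^ s * (if (AB blk b A).card = s then (1 : ℝ) else 0))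
      = ∑ s ∈ Ioc (2 * r) (Fintype.card ι), (16 : ℝ) ^ s *
        ex q (fun A => if (AB blk b A).card = s then (1 : ℝ) else 0) := by
    unfold ex
    simp only [Finset.mul_sum, Finset.sum_mul]
    rw [Finset.sum_comm]
    apply Finset.sum_congr rfl
    intro s _
    apply Finset.sum_congr rfl
    intro A _
    ring
  rw [hsum, ex_card_zero, mul_add, mul_one, Finset.mul_sum]
  apply add_le_add le_rfl
  apply Finset.sum_le_sum
  intro s _
  have := mul_le_mul_of_nonneg_left (ex_card_eq_le q blk b σ h0 h1 hσ s)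
    (by positivity : (0 : ℝ) ≤ 16 ^ s)
  refine this.trans (le_of_eq ?_)
  rw [mul_pow]
  ring

theorem bh3_geom (m S : ℕ) : ∑ s ∈ Ioc m S, (1 / 8 : ℝ) ^ s ≤ (1 / 8) ^ m := by
  rcases le_or_gt m S with h | h
  · have : ∑ s ∈ Ioc m S, (1 / 8 : ℝ) ^ s ≤ (1 / 8) ^ m - (1 / 8) ^ S := by
      induction S, h using Nat.le_induction with
      | base => simp
      | succ S hS ih =>
        have e : Ioc m (S + 1) = insert (S + 1) (Ioc m S) := by
          ext x
          simp only [Finset.mem_Ioc, Finset.mem_insert]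
          omega
        rw [e, Finset.sum_insert (by simp)]
        have h8 : (0 : ℝ) < (1 / 8) ^ S := by positivity
        have h9 : (1 / 8 : ℝ) ^ (S + 1) = (1 / 8) ^ S * (1 / 8) := pow_succ _ _
        rw [h9]
        linarith
    have h8 : (0 : ℝ) < (1 / 8) ^ S := by positivity
    linarith
  · rw [Finset.Ioc_eq_empty (by omega)]
    simp

/-- For every `σ` the tails of the exponential series are small: for `s ≥ 2 r0 ≥ 200 σ`,
`(16 σ)^s/s! ≤ (16 e σ/s)^s ≤ 4^(-s)`. -/
theorem exists_r0 (σ : ℝ) (hσ : 0 ≤ σ) : ∃ r0 : ℕ, ∀ c S : ℕ,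
    ∑ s ∈ Ioc (2 * (r0 + c)) S, (16 * σ) ^ s / (s.factorial : ℝ) ≤ (1 / 4) ^ (c + 1) := by
  have ht := FloorSemiring.tendsto_pow_div_factorial_atTop (8 * (16 * σ))
  have hev := (ht.eventually (gt_mem_nhds (show (0 : ℝ) < 1 by norm_num)))
  obtain ⟨s0, hs0⟩ := Filter.eventually_atTop.mp hev
  refine ⟨s0 + 1, ?_⟩
  intro c S
  have hle : ∀ s ∈ Ioc (2 * (s0 + 1 + c)) S,
      (16 * σ) ^ s / (s.factorial : ℝ) ≤ (1 / 8) ^ s := by
    intro s hs
    rw [Finset.mem_Ioc] at hs
    have h1 := (hs0 s (by omega)).le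
    rw [mul_pow] at h1
    have h8 : (0 : ℝ) < 8 ^ s := by positivity
    rw [one_div, inv_pow]
    rw [← div_le_one (by positivity)]
    calc (16 * σ) ^ s / (s.factorial : ℝ) / (8 ^ s)⁻¹
        = 8 ^ s * (16 * σ) ^ s / (s.factorial : ℝ) := by
          rw [div_inv_eq_mul]; ring
      _ ≤ 1 := h1
  calc ∑ s ∈ Ioc (2 * (s0 + 1 + c)) S, (16 * σ) ^ s / (s.factorial : ℝ)
      ≤ ∑ s ∈ Ioc (2 * (s0 + 1 + c)) S, (1 / 8 : ℝ) ^ s := Finset.sum_le_sum hle
    _ ≤ (1 / 8) ^ (2 * (s0 + 1 + c)) := bh3_geom _ _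
    _ ≤ (1 / 8) ^ (c + 1) :=
        pow_le_pow_of_le_one (by norm_num) (by norm_num) (by omega)
    _ ≤ (1 / 4) ^ (c + 1) := pow_le_pow_left₀ (by norm_num) (by norm_num) _

end Pool.Agent.Lib.H15P
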