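import Pool.Agent.Lib.H15P.BH2
import Pool.Agent.Lib.H15P.BH3

/-!
# Chunk BH4: the one form functions
-/

open Finset

namespace Pool.Agent.Lib.H15P

variable {ι : Type} [Fintype ι] [DecidableEq ι]

/-- The common hypotheses. -/
structure Blocks (q : ι → ℝ) (blk : ι → ℕ) (σ : ℝ) (r0 n N : ℕ) : Prop where
  q0 : ∀ i, 0 ≤ q i
  q1 : ∀ i, q i ≤ 1 / 2
  sum : ∀ b, ∑ i ∈ univ.filter (fun i => blk i = b), q i / (1 - q i) ≤ σ
  r0 : ∀ c S : ℕ,
    ∑ s ∈ Ioc (2 * (r0 + c)) S, (16 * σ) ^ s / (s.factorial : ℝ) ≤ (1 / 4) ^ (c + 1)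
  nN : n ≤ N
  small : ∀ b, b < n → p0 q blk b ≤ 1 / 4

theorem bh4_q1 {q : ι → ℝ} {blk : ι → ℕ} {σ : ℝ} {r0 n N : ℕ} (h : Blocks q blk σ r0 n N) :
    ∀ i, q i ≤ 1 := fun i => by linarith [h.q1 i]

theorem bh4_p0_nonneg {q : ι → ℝ} {blk : ι → ℕ} {σ : ℝ} {r0 n N : ℕ}
    (h : Blocks q blk σ r0 n N) (b : ℕ) : 0 ≤ p0 q blk b :=
  Finset.prod_nonneg (fun i _ => by linarith [h.q1 i])

theorem bh4_p0_le_one {q : ι → ℝ} {blk : ι → ℕ} {σ : ℝ} {r0 n N : ℕ}
    (h : Blocks q blk σ r0 n N) (b : ℕ) : p0 q blk b ≤ 1 :=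
  Finset.prod_le_one (fun i _ => by linarith [h.q1 i]) (fun i _ => by linarith [h.q0 i])

theorem bh4_pow_le (q : ι → ℝ) (blk : ι → ℕ) (σ : ℝ) (r0 n N : ℕ) (h : Blocks q blk σ r0 n N)
    (b c a : ℕ) (ha1 : 1 ≤ a) (ha : a ≤ 4) :
    ex q (fun A => TT (r0 + c) (AB blk b A).card ^ a)
      ≤ p0 q blk b * (1 + (1 / 4) ^ (c + 1)) := by
  refine (ex_TT_pow_le q blk b (r0 + c) σ h.q0 h.q1 (h.sum b) a ha1 ha).trans ?_
  apply mul_le_mul_of_nonneg_left _ (bh4_p0_nonneg h b)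
  have := h.r0 c (Fintype.card ι)
  linarith

/-- `p0 ≤ tau ≤ p0 (1 + 1/4) ≤ 1/2`. -/
theorem tau_le (q : ι → ℝ) (blk : ι → ℕ) (σ : ℝ) (r0 n N : ℕ) (h : Blocks q blk σ r0 n N)
    (i : ℕ) (hi : i < n) : 0 ≤ tau q blk r0 i ∧ tau q blk r0 i ≤ 1 / 2 := by
  constructor
  · exact ex_nonneg q h.q0 (bh4_q1 h) _ (fun A => TT_nonneg _ _)
  · have h1 := bh4_pow_le q blk σ r0 n N h i 0 1 le_rfl (by norm_num)
    simp only [pow_one, add_zero, zero_add] at h1
    unfold tau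
    have h2 := h.small i hi
    have h3 := bh4_p0_nonneg h i
    linarith

theorem bh4_prod_le (i k : ℕ) :
    ∏ b ∈ Ico i (i + k), (1 + (1 / 4 : ℝ) ^ (b - i + 1)) ≤ 2 - (1 / 4) ^ k := by
  induction k with
  | zero => simp; norm_num
  | succ k ih =>
    rw [← add_assoc, Finset.prod_Ico_succ_top (by omega)]
    have e : i + k - i + 1 = k + 1 := by omega
    rw [e]
    have h4 : (0 : ℝ) < (1 / 4) ^ k := by positivity
    have h5 : (1 / 4 : ℝ) ^ (k + 1) = (1 / 4) ^ k * (1 / 4) := pow_succ _ _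
    rw [h5]
    have h6 : (0 : ℝ) ≤ 1 + (1 / 4) ^ k * (1 / 4) := by positivity
    have h7 := mul_le_mul_of_nonneg_right ih h6
    refine h7.trans ?_
    nlinarith [mul_pos h4 h4]

theorem bh4_prod_le' (i N : ℕ) :
    ∏ b ∈ Ico i N, (1 + (1 / 4 : ℝ) ^ (b - i + 1)) ≤ 2 := by
  rcases le_or_gt i N with h | h
  · obtain ⟨k, rfl⟩ := Nat.exists_eq_add_of_le h
    have h1 := bh4_prod_le i k
    have h4 : (0 : ℝ) < (1 / 4) ^ k := by positivity
    linarith
  · rw [Finset.Ico_eq_empty (by omega)]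
    norm_num

theorem bh4_prod_ex (q : ι → ℝ) (blk : ι → ℕ) (σ : ℝ) (r0 n N : ℕ) (h : Blocks q blk σ r0 n N)
    (i j a : ℕ) (hij : i ≤ j) (ha1 : 1 ≤ a) (ha : a ≤ 4) :
    ∏ b ∈ Ico j N, ex q (fun A => TT (r0 + (b - i)) (AB blk b A).card ^ a)
      ≤ 2 * ∏ b ∈ Ico j N, p0 q blk b := by
  calc ∏ b ∈ Ico j N, ex q (fun A => TT (r0 + (b - i)) (AB blk b A).card ^ a)
      ≤ ∏ b ∈ Ico j N, (p0 q blk b * (1 + (1 / 4 : ℝ) ^ (b - j + 1))) := by
        apply Finset.prod_le_prod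
        · intro b _
          exact ex_nonneg q h.q0 (bh4_q1 h) _ (fun A => pow_nonneg (TT_nonneg _ _) _)
        · intro b hb
          rw [Finset.mem_Ico] at hb
          refine (bh4_pow_le q blk σ r0 n N h b (b - i) a ha1 ha).trans ?_
          apply mul_le_mul_of_nonneg_left _ (bh4_p0_nonneg h b)
          have : (1 / 4 : ℝ) ^ (b - i + 1) ≤ (1 / 4) ^ (b - j + 1) :=
            pow_le_pow_of_le_one (by norm_num) (by norm_num) (by omega)
          linarith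
    _ = (∏ b ∈ Ico j N, p0 q blk b) * ∏ b ∈ Ico j N, (1 + (1 / 4 : ℝ) ^ (b - j + 1)) :=
        Finset.prod_mul_distrib
    _ ≤ (∏ b ∈ Ico j N, p0 q blk b) * 2 :=
        mul_le_mul_of_nonneg_left (bh4_prod_le' j N)
          (Finset.prod_nonneg (fun b _ => bh4_p0_nonneg h b))
    _ = 2 * ∏ b ∈ Ico j N, p0 q blk b := mul_comm _ _

/-- `∏_b (1 + 4^-(b - i + 1)) ≤ e^(1/3) ≤ 2`. -/
theorem ex_lam_le (q : ι → ℝ) (blk : ι → ℕ) (σ : ℝ) (r0 n N : ℕ) (h : Blocks q blk σ r0 n N)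
    (i : ℕ) : ex q (lam blk r0 N i) ≤ 2 * ∏ b ∈ Ico i N, p0 q blk b := by
  have h1 := bh4_prod_ex q blk σ r0 n N h i i 1 le_rfl le_rfl (by norm_num)
  simp only [pow_one] at h1
  refine le_trans (le_of_eq ?_) h1
  exact ex_prod_blocks q blk (fun b A => TT (r0 + (b - i)) A.card) (Ico i N)

/-- Factorization of the moments of `DB`. -/
theorem bh4_ex_DB (q : ι → ℝ) (blk : ι → ℕ) (r0 N i a : ℕ) :
    ex q (fun A => DB q blk r0 N i A ^ a)
      = ex q (fun A => ((TT r0 (AB blk i A).card - tau q blk r0 i) / (1 - tau q blk r0 i)) ^ a)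
        * ∏ b ∈ Ico (i + 1) N, ex q (fun A => TT (r0 + (b - i)) (AB blk b A).card ^ a) := by
  have h1 := ex_prod_blocks q blk
    (fun b A => if b = i then ((TT r0 A.card - tau q blk r0 i) / (1 - tau q blk r0 i)) ^ a
      else TT (r0 + (b - i)) A.card ^ a) (insert i (Ico (i + 1) N))
  have hni : i ∉ Ico (i + 1) N := by simp
  simp only [Finset.prod_insert hni, if_true] at h1
  have hb : ∀ b ∈ Ico (i + 1) N, b ≠ i := by
    intro b hb
    rw [Finset.mem_Ico] at hb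
    omega
  have e2 : ∏ b ∈ Ico (i + 1) N, ex q (fun A =>
      if b = i then ((TT r0 (AB blk b A).card - tau q blk r0 i) / (1 - tau q blk r0 i)) ^ a
      else TT (r0 + (b - i)) (AB blk b A).card ^ a)
      = ∏ b ∈ Ico (i + 1) N, ex q (fun A => TT (r0 + (b - i)) (AB blk b A).card ^ a) := by
    apply Finset.prod_congr rfl
    intro b hb'
    simp only [if_neg (hb b hb')]
  rw [e2] at h1
  rw [← h1]
  congr 1
  funext A
  unfold DB
  rw [mul_pow, mul_comm, ← Finset.prod_pow]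
  congr 1
  apply Finset.prod_congr rfl
  intro b hb'
  rw [if_neg (hb b hb')]

theorem bh4_bound (q : ι → ℝ) (blk : ι → ℕ) (σ : ℝ) (r0 n N : ℕ)
    (h : Blocks q blk σ r0 n N) (i a : ℕ) (ha1 : 1 ≤ a) (ha : a ≤ 4) (c : ℝ) (hc : 0 ≤ c)
    (hb : ex q (fun A => ((TT r0 (AB blk i A).card - tau q blk r0 i) /
      (1 - tau q blk r0 i)) ^ a) ≤ c) :
    ex q (fun A => DB q blk r0 N i A ^ a) ≤ c * (2 * ∏ b ∈ Ico (i + 1) N, p0 q blk b) := by
  rw [bh4_ex_DB]
  apply mul_le_mul hb (bh4_prod_ex q blk σ r0 n N h i (i + 1) a (by omega) ha1 ha) _ hc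
  exact Finset.prod_nonneg (fun b _ => ex_nonneg q h.q0 (bh4_q1 h) _
    (fun A => pow_nonneg (TT_nonneg _ _) _))

/-- `E D_i^2 = ∏_{b > i} E T_b^2 * E(T_i - tau)^2/(1 - tau)^2 ≤ 2 ∏ p0 * (1/2) * 4`. -/
theorem ex_DB_sq_le (q : ι → ℝ) (blk : ι → ℕ) (σ : ℝ) (r0 n N : ℕ)
    (h : Blocks q blk σ r0 n N) (i : ℕ) (hi : i < n) :
    ex q (fun A => DB q blk r0 N i A ^ 2) ≤ 4 * ∏ b ∈ Ico (i + 1) N, p0 q blk b := by
  obtain ⟨ht0, ht1⟩ := tau_le q blk σ r0 n N h i hi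
  have key : ex q (fun A => ((TT r0 (AB blk i A).card - tau q blk r0 i) /
      (1 - tau q blk r0 i)) ^ 2) ≤ 2 := by
    set τ := tau q blk r0 i with hτ
    have e1 : (fun A => ((TT r0 (AB blk i A).card - τ) / (1 - τ)) ^ 2)
        = fun A => (1 / (1 - τ) ^ 2) * (TT r0 (AB blk i A).card ^ 2
          + ((-2 * τ) * TT r0 (AB blk i A).card + τ ^ 2 * 1)) := by
      funext A
      have : (1 - τ) ≠ 0 := by intro h0; linarith
      field_simp
      ring
    rw [e1, ex_const_mul, ex_add, ex_add, ex_const_mul, ex_const_mul, ex_one]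
    have e2 : ex q (fun A => TT r0 (AB blk i A).card) = τ := rfl
    rw [e2]
    have h2 := bh4_pow_le q blk σ r0 n N h i 0 2 (by norm_num) (by norm_num)
    simp only [add_zero, zero_add, pow_one] at h2
    have h3 := h.small i hi
    have h4 := bh4_p0_nonneg h i
    have h5 : ex q (fun A => TT r0 (AB blk i A).card ^ 2) ≤ 5 / 16 := by linarith
    have h6 : ex q (fun A => TT r0 (AB blk i A).card ^ 2) + (-2 * τ * τ + τ ^ 2 * 1) ≤ 5 / 16 := by
      nlinarith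
    have h7 : 1 / (1 - τ) ^ 2 ≤ 4 := by
      rw [div_le_iff₀ (by nlinarith)]
      nlinarith
    have h8 : 0 ≤ 1 / (1 - τ) ^ 2 := by positivity
    nlinarith
  have := bh4_bound q blk σ r0 n N h i 2 (by norm_num) (by norm_num) 2 (by norm_num) key
  linarith

theorem bh4_four (x τ : ℝ) (hx : 0 ≤ x) (hτ : 0 ≤ τ) : (x - τ) ^ 4 ≤ x ^ 4 + τ ^ 4 := by
  have h1 : (x - τ) ^ 2 ≤ x ^ 2 + τ ^ 2 := by nlinarith [mul_nonneg hx hτ]
  rcases le_total τ x with h | h
  · have : (x - τ) ^ 4 ≤ x ^ 4 := pow_le_pow_left₀ (by linarith) (by linarith) 4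
    have : 0 ≤ τ ^ 4 := by positivity
    linarith
  · have h2 : (τ - x) ^ 4 ≤ τ ^ 4 := pow_le_pow_left₀ (by linarith) (by linarith) 4
    have h3 : (x - τ) ^ 4 = (τ - x) ^ 4 := by ring
    have : 0 ≤ x ^ 4 := by positivity
    linarith

/-- `E D_i^4 ≤ 2 ∏ p0 * 8 (1/2 + 1/16) * 16 = 144 ∏ p0`. -/
theorem ex_DB_four_le (q : ι → ℝ) (blk : ι → ℕ) (σ : ℝ) (r0 n N : ℕ)
    (h : Blocks q blk σ r0 n N) (i : ℕ) (hi : i < n) :
    ex q (fun A => DB q blk r0 N i A ^ 4) ≤ 144 * ∏ b ∈ Ico (i + 1) N, p0 q blk b := by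
  obtain ⟨ht0, ht1⟩ := tau_le q blk σ r0 n N h i hi
  have key : ex q (fun A => ((TT r0 (AB blk i A).card - tau q blk r0 i) /
      (1 - tau q blk r0 i)) ^ 4) ≤ 6 := by
    set τ := tau q blk r0 i with hτ
    have hpt : ∀ A, ((TT r0 (AB blk i A).card - τ) / (1 - τ)) ^ 4
        ≤ 16 * (TT r0 (AB blk i A).card ^ 4 + 1 / 16 * 1) := by
      intro A
      have h1 := bh4_four (TT r0 (AB blk i A).card) τ (TT_nonneg _ _) ht0
      have h2 : τ ^ 4 ≤ 1 / 16 := by
        calc τ ^ 4 ≤ (1 / 2) ^ 4 := pow_le_pow_left₀ ht0 ht1 4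
          _ = 1 / 16 := by norm_num
      have h3 : 1 / 16 ≤ (1 - τ) ^ 4 := by
        calc (1 / 16 : ℝ) = (1 / 2) ^ 4 := by norm_num
          _ ≤ (1 - τ) ^ 4 := pow_le_pow_left₀ (by norm_num) (by linarith) 4
      have h4 : 0 ≤ TT r0 (AB blk i A).card ^ 4 := pow_nonneg (TT_nonneg _ _) _
      rw [div_pow, div_le_iff₀ (by linarith)]
      have h5 : TT r0 (AB blk i A).card ^ 4 + 1 / 16 * 1
          ≤ 16 * (TT r0 (AB blk i A).card ^ 4 + 1 / 16 * 1) * (1 - τ) ^ 4 := by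
        have h6 : 0 ≤ TT r0 (AB blk i A).card ^ 4 + 1 / 16 * 1 := by positivity
        nlinarith
      linarith
    refine (ex_mono q h.q0 (bh4_q1 h) _ _ hpt).trans ?_
    rw [ex_const_mul, ex_add, ex_const_mul, ex_one]
    have h2 := bh4_pow_le q blk σ r0 n N h i 0 4 (by norm_num) (by norm_num)
    simp only [add_zero, zero_add, pow_one] at h2
    have h3 := h.small i hi
    have h4 := bh4_p0_nonneg h i
    linarith
  have := bh4_bound q blk σ r0 n N h i 4 (by norm_num) (by norm_num) 6 (by norm_num) key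
  have hp : 0 ≤ ∏ b ∈ Ico (i + 1) N, p0 q blk b :=
    Finset.prod_nonneg (fun b _ => bh4_p0_nonneg h b)
  linarith

theorem bh4_centered (q : ι → ℝ) (blk : ι → ℕ) (r0 i : ℕ) :
    ex q (fun A => (TT r0 (AB blk i A).card - tau q blk r0 i) / (1 - tau q blk r0 i)) = 0 := by
  have e1 : (fun A => (TT r0 (AB blk i A).card - tau q blk r0 i) / (1 - tau q blk r0 i))
      = fun A => (1 / (1 - tau q blk r0 i)) * (TT r0 (AB blk i A).card
        + (-tau q blk r0 i) * 1) := by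
    funext A
    ring
  rw [e1, ex_const_mul, ex_add, ex_const_mul, ex_one]
  have e2 : ex q (fun A => TT r0 (AB blk i A).card) = tau q blk r0 i := rfl
  rw [e2]
  ring

theorem bh4_orth (q : ι → ℝ) (blk : ι → ℕ) (r0 N i i' : ℕ) (hii : i < i') :
    ex q (fun A => DB q blk r0 N i A * DB q blk r0 N i' A) = 0 := by
  have h1 := ex_mul_of_split q (univ.filter (fun x => blk x = i))
    (fun A => (TT r0 (AB blk i A).card - tau q blk r0 i) / (1 - tau q blk r0 i))
    (fun A => (∏ b ∈ Ico (i + 1) N, TT (r0 + (b - i)) (AB blk b A).card)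
      * DB q blk r0 N i' A) ?_ ?_
  · rw [bh4_centered, zero_mul] at h1
    rw [← h1]
    congr 1
    funext A
    rw [DB]
    ring
  · intro A
    have : AB blk i (A ∩ univ.filter (fun x => blk x = i)) = AB blk i A := by
      ext x
      simp only [AB, mem_filter, mem_inter, mem_univ, true_and]
      tauto
    simp only [this]
  · intro A
    have hAB : ∀ b, b ≠ i → AB blk b (A \ univ.filter (fun x => blk x = i)) = AB blk b A := by
      intro b hb
      ext x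
      simp only [AB, mem_filter, mem_sdiff, mem_univ, true_and]
      constructor
      · rintro ⟨⟨h1, _⟩, h2⟩
        exact ⟨h1, h2⟩
      · rintro ⟨h1, h2⟩
        exact ⟨⟨h1, fun h => hb (h2 ▸ h)⟩, h2⟩
    simp only [DB]
    rw [hAB i' (by omega)]
    congr 1
    · apply Finset.prod_congr rfl
      intro b hb
      rw [Finset.mem_Ico] at hb
      rw [hAB b (by omega)]
    · congr 1
      apply Finset.prod_congr rfl
      intro b hb
      rw [Finset.mem_Ico] at hb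
      rw [hAB b (by omega)]

/-- Mean value `0`: the factor of the block `i` has mean value `0` and is independent of the
others. Orthogonality for `i < i'`: the product is a function of the blocks `≠ i` times the factor
of the block `i` of `D_i` (`D_i'` does not involve the block `i`). `0 ≤ p0 ≤ 1`, so the products
over `Ico (i+1) N` are at most the product over `Ico n N`. -/
theorem good_DB (q : ι → ℝ) (blk : ι → ℕ) (σ : ℝ) (r0 n N : ℕ) (h : Blocks q blk σ r0 n N) :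
    Good q (fun (i : Fin n) => DB q blk r0 N i) (144 * ∏ b ∈ Ico n N, p0 q blk b) := by
  have hprod : ∀ i : Fin n, ∏ b ∈ Ico ((i : ℕ) + 1) N, p0 q blk b
      ≤ ∏ b ∈ Ico n N, p0 q blk b := by
    intro i
    have hi := i.2
    rw [← Finset.prod_Ico_consecutive (fun b => p0 q blk b) (show (i : ℕ) + 1 ≤ n by omega) h.nN]
    have h1 : ∏ b ∈ Ico ((i : ℕ) + 1) n, p0 q blk b ≤ 1 :=
      Finset.prod_le_one (fun b _ => bh4_p0_nonneg h b) (fun b _ => bh4_p0_le_one h b)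
    have h2 : 0 ≤ ∏ b ∈ Ico n N, p0 q blk b :=
      Finset.prod_nonneg (fun b _ => bh4_p0_nonneg h b)
    nlinarith
  have hnn : 0 ≤ ∏ b ∈ Ico n N, p0 q blk b :=
    Finset.prod_nonneg (fun b _ => bh4_p0_nonneg h b)
  refine ⟨h.q0, bh4_q1 h, ?_, ?_, ?_, ?_, ?_⟩
  · intro i
    apply DB_empty
    have := (tau_le q blk σ r0 n N h i i.2).2
    linarith
  · intro i
    have h1 := bh4_ex_DB q blk r0 N i 1
    simp only [pow_one] at h1
    rw [bh4_centered, zero_mul] at h1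
    exact h1
  · intro i i' hii
    have hne : (i : ℕ) ≠ i' := fun hh => hii (Fin.ext hh)
    rcases lt_or_gt_of_ne hne with hlt | hlt
    · exact bh4_orth q blk r0 N i i' hlt
    · have := bh4_orth q blk r0 N i' i hlt
      rw [← this]
      congr 1
      funext A
      ring
  · intro i
    have h1 := ex_DB_sq_le q blk σ r0 n N h i i.2
    have h2 := hprod i
    linarith
  · intro i
    have h1 := ex_DB_four_le q blk σ r0 n N h i i.2
    have h2 := hprod i
    linarith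

end Pool.Agent.Lib.H15P
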