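import Pool.Agent.Lib.H15P.Defs
import Pool.Agent.Lib.H56G.Crt

/-!
# Chunk LV1: the level norm
-/

open Finset

namespace Pool.Agent.Lib.H15P

variable {Q : ℕ}

theorem Lev.nonneg {G : ℕ → ℝ} {K : ℝ} (h : Lev Q G K) : 0 ≤ K := by
  induction h with
  | base g d c hd0 hd hper hc =>
    have hc0 : 0 ≤ c := le_trans (abs_nonneg _) (hc 0)
    positivity
  | add G G' K K' h h' ih ih' => exact add_nonneg ih ih'
  | mono G K K' h hK ih => exact ih.trans hK

theorem Lev.const (hQ : 0 < Q) (c : ℝ) : Lev Q (fun _ => c) |c| := by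
  have h := Lev.base (Q := Q) (fun _ => c) 1 |c| one_pos (one_dvd Q) (fun _ => rfl)
    (fun _ => le_rfl)
  exact Lev.mono _ _ _ h (by simp)

theorem Lev.const_mul {G : ℕ → ℝ} {K : ℝ} (h : Lev Q G K) (c : ℝ) :
    Lev Q (fun t => c * G t) (|c| * K) := by
  induction h with
  | base g d c' hd0 hd hper hc =>
    have h1 := Lev.base (Q := Q) (fun t => c * g t) d (|c| * c') hd0 hd
      (fun t => by simp only [hper t]) (fun t => by
        rw [abs_mul]
        exact mul_le_mul_of_nonneg_left (hc t) (abs_nonneg c))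
    exact Lev.mono _ _ _ h1 (by nlinarith)
  | add G G' K K' h h' ih ih' =>
    have h1 := Lev.add _ _ _ _ ih ih'
    have h2 : (fun t => c * G t + c * G' t) = fun t => c * (G t + G' t) := by
      funext t
      ring
    rw [h2] at h1
    exact Lev.mono _ _ _ h1 (by nlinarith)
  | mono G K K' h hK ih =>
    exact Lev.mono _ _ _ ih (mul_le_mul_of_nonneg_left hK (abs_nonneg c))

theorem lv1_mul_base {g : ℕ → ℝ} {d : ℕ} {c : ℝ} (hd0 : 0 < d) (hd : d ∣ Q)
    (hper : Function.Periodic g d) (hc : ∀ t, |g t| ≤ c) {G' : ℕ → ℝ} {K' : ℝ}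
    (h' : Lev Q G' K') : Lev Q (fun t => g t * G' t) (d * c * K') := by
  have hc0 : 0 ≤ c := le_trans (abs_nonneg _) (hc 0)
  induction h' with
  | base g' d' c' hd0' hd' hper' hc' =>
    have hc0' : 0 ≤ c' := le_trans (abs_nonneg _) (hc' 0)
    have hl : 0 < Nat.lcm d d' := Nat.lcm_pos hd0 hd0'
    have hl' : Nat.lcm d d' ∣ Q := Nat.lcm_dvd hd hd'
    have hp : Function.Periodic (fun t => g t * g' t) (Nat.lcm d d') := by
      intro t
      obtain ⟨k, hk⟩ := Nat.dvd_lcm_left d d'
      obtain ⟨k', hk'⟩ := Nat.dvd_lcm_right d d'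
      have h1 : g (t + Nat.lcm d d') = g t := by
        rw [hk, mul_comm]
        simpa using (hper.nat_mul k) t
      have h2 : g' (t + Nat.lcm d d') = g' t := by
        rw [hk', mul_comm]
        simpa using (hper'.nat_mul k') t
      show g (t + Nat.lcm d d') * g' (t + Nat.lcm d d') = g t * g' t
      rw [h1, h2]
    have h1 := Lev.base (Q := Q) (fun t => g t * g' t) (Nat.lcm d d') (c * c') hl hl' hp
      (fun t => by
        rw [abs_mul]
        exact mul_le_mul (hc t) (hc' t) (abs_nonneg _) hc0)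
    refine Lev.mono _ _ _ h1 ?_
    have h2 : ((Nat.lcm d d' : ℕ) : ℝ) ≤ d * d' := by
      exact_mod_cast Nat.le_of_dvd (Nat.mul_pos hd0 hd0') (Nat.lcm_dvd_mul d d')
    calc ((Nat.lcm d d' : ℕ) : ℝ) * (c * c') ≤ (d * d') * (c * c') :=
          mul_le_mul_of_nonneg_right h2 (mul_nonneg hc0 hc0')
      _ = d * c * (d' * c') := by ring
  | add G G' K K' h h' ih ih' =>
    have h1 := Lev.add _ _ _ _ ih ih'
    have h2 : (fun t => g t * G t + g t * G' t) = fun t => g t * (G t + G' t) := by
      funext t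
      ring
    rw [h2] at h1
    exact Lev.mono _ _ _ h1 (by nlinarith)
  | mono G K K' h hK ih =>
    exact Lev.mono _ _ _ ih (mul_le_mul_of_nonneg_left hK (by positivity))

/-- Double induction; the product of functions with periods `d, d' ∣ Q` has the period
`lcm d d' ∣ Q`, `lcm d d' ≤ d d'`. -/
theorem Lev.mul (hQ : 0 < Q) {G G' : ℕ → ℝ} {K K' : ℝ} (h : Lev Q G K) (h' : Lev Q G' K') :
    Lev Q (fun t => G t * G' t) (K * K') := by
  have hK0' := h'.nonneg
  induction h with
  | base g d c hd0 hd hper hc => exact lv1_mul_base hd0 hd hper hc h'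
  | add G1 G2 K1 K2 h1 h2 ih1 ih2 =>
    have h3 := Lev.add _ _ _ _ ih1 ih2
    have h4 : (fun t => G1 t * G' t + G2 t * G' t) = fun t => (G1 t + G2 t) * G' t := by
      funext t
      ring
    rw [h4] at h3
    exact Lev.mono _ _ _ h3 (by nlinarith)
  | mono G K1 K2 h hK ih =>
    exact Lev.mono _ _ _ ih (mul_le_mul_of_nonneg_right hK hK0')

theorem Lev.sum {α : Type} (s : Finset α) (G : α → ℕ → ℝ) (K : α → ℝ)
    (hQ : 0 < Q) (h : ∀ a ∈ s, Lev Q (G a) (K a)) :
    Lev Q (fun t => ∑ a ∈ s, G a t) (∑ a ∈ s, K a) := by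
  classical
  induction s using Finset.induction_on with
  | empty =>
    have h1 := Lev.const hQ 0
    rw [abs_zero] at h1
    simpa using h1
  | insert a s ha ih =>
    have h1 := Lev.add _ _ _ _ (h a (Finset.mem_insert_self a s))
      (ih fun b hb => h b (Finset.mem_insert_of_mem hb))
    rw [Finset.sum_insert ha]
    have h2 : (fun t => ∑ b ∈ insert a s, G b t) = fun t => G a t + ∑ b ∈ s, G b t := by
      funext t
      rw [Finset.sum_insert ha]
    rw [h2]
    exact h1

theorem Lev.prod {α : Type} (s : Finset α) (G : α → ℕ → ℝ) (K : α → ℝ)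
    (hQ : 0 < Q) (h : ∀ a ∈ s, Lev Q (G a) (K a)) :
    Lev Q (fun t => ∏ a ∈ s, G a t) (∏ a ∈ s, K a) := by
  classical
  induction s using Finset.induction_on with
  | empty =>
    have h1 := Lev.const hQ 1
    rw [abs_one] at h1
    simpa using h1
  | insert a s ha ih =>
    have h1 := Lev.mul hQ (h a (Finset.mem_insert_self a s))
      (ih fun b hb => h b (Finset.mem_insert_of_mem hb))
    rw [Finset.prod_insert ha]
    have h2 : (fun t => ∏ b ∈ insert a s, G b t) = fun t => G a t * ∏ b ∈ s, G b t := by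
      funext t
      rw [Finset.prod_insert ha]
    rw [h2]
    exact h1

theorem Lev.pow (hQ : 0 < Q) {G : ℕ → ℝ} {K : ℝ} (h : Lev Q G K) (n : ℕ) :
    Lev Q (fun t => G t ^ n) (K ^ n) := by
  have h1 := Lev.prod (Finset.range n) (fun _ => G) (fun _ => K) hQ (fun _ _ => h)
  simpa using h1

theorem lv1_range_mul (d : ℕ) (g : ℕ → ℝ) (hg : Function.Periodic g d) (k : ℕ) :
    ∑ t ∈ range (k * d), g t = k * ∑ t ∈ range d, g t := by
  rw [← H56G.crt_sum_Icc_mul d g hg k]
  have h1 : Function.Periodic g (k * d) := by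
    have := hg.nat_mul k
    simpa using this
  rw [← H56G.crt_sum_Icc_period (k * d) g h1 1]

theorem lv1_avg_base {g : ℕ → ℝ} {d : ℕ} {c : ℝ} (hQ : 0 < Q) (hd0 : 0 < d) (hd : d ∣ Q)
    (hper : Function.Periodic g d) (hc : ∀ t, |g t| ≤ c) (a Y : ℕ) :
    |∑ t ∈ Ico a (a + Y), g t - Y * ((∑ t ∈ range Q, g t) / Q)| ≤ 2 * (d * c) := by
  have hF : Function.Periodic (fun t => g (t + (a + (d - 1)))) d := by
    intro t
    show g (t + d + (a + (d - 1))) = g (t + (a + (d - 1)))
    have h1 : t + d + (a + (d - 1)) = t + (a + (d - 1)) + d := by ring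
    rw [h1]
    exact hper _
  have h := H56G.abs_sum_Icc_sub_le d hd0 (fun t => g (t + (a + (d - 1)))) hF c
    (fun t => hc _) Y
  have h1 : ∑ t ∈ Icc 1 Y, g (t + (a + (d - 1))) = ∑ t ∈ Ico a (a + Y), g t := by
    have h2 : Ico a (a + Y) = (range Y).image (fun t => t + a) := by
      ext t
      simp only [Finset.mem_Ico, Finset.mem_image, Finset.mem_range]
      constructor
      · rintro ⟨h3, h4⟩
        exact ⟨t - a, by omega, by omega⟩
      · rintro ⟨u, h3, rfl⟩
        omega
    have h3 : Icc 1 Y = (range Y).image (fun t => t + 1) := by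
      ext t
      simp only [Finset.mem_Icc, Finset.mem_image, Finset.mem_range]
      constructor
      · rintro ⟨h3, h4⟩
        exact ⟨t - 1, by omega, by omega⟩
      · rintro ⟨u, h3, rfl⟩
        omega
    rw [h2, h3, Finset.sum_image (fun x _ y _ h => by simpa using h),
      Finset.sum_image (fun x _ y _ h => by simpa using h)]
    apply Finset.sum_congr rfl
    intro t _
    have h4 : t + 1 + (a + (d - 1)) = t + a + d := by omega
    rw [h4]
    exact hper _
  have h2 : ∑ t ∈ range d, g (t + (a + (d - 1))) = ∑ t ∈ range d, g t := by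
    rw [← H56G.crt_sum_Icc_period d g hper (a + (d - 1))]
    have h3 : Ico (a + (d - 1)) (a + (d - 1) + d) =
        (range d).image (fun t => t + (a + (d - 1))) := by
      ext t
      simp only [Finset.mem_Ico, Finset.mem_image, Finset.mem_range]
      constructor
      · rintro ⟨h3, h4⟩
        exact ⟨t - (a + (d - 1)), by omega, by omega⟩
      · rintro ⟨u, h3, rfl⟩
        omega
    rw [h3, Finset.sum_image (fun x _ y _ h => by simpa using h)]
  obtain ⟨k, hk⟩ := hd
  have hk0 : 0 < k := by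
    rcases Nat.eq_zero_or_pos k with h3 | h3
    · subst h3
      omega
    · exact h3
  have h3 : (∑ t ∈ range Q, g t) / (Q : ℝ) = (∑ t ∈ range d, g t) / d := by
    rw [hk, mul_comm d k, lv1_range_mul d g hper k]
    push_cast
    have hk' : (k : ℝ) ≠ 0 := by exact_mod_cast hk0.ne'
    have hd' : (d : ℝ) ≠ 0 := by exact_mod_cast hd0.ne'
    field_simp
  rw [h1, h2] at h
  rw [h3]
  refine h.trans (le_of_eq ?_)
  ring

/-- Incomplete sums. Each term `g` (period `d`, `|g| ≤ c`) contributes at most `2 d c`: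
`H56G.abs_sum_Icc_sub_le` for the translate `t ↦ g (t + a - 1)` (or directly), and the mean value
over `range Q` is the mean value over `range d` as `d ∣ Q`. Induction over `Lev`. -/
theorem Lev.avg (hQ : 0 < Q) {G : ℕ → ℝ} {K : ℝ} (h : Lev Q G K) (a Y : ℕ) :
    |∑ t ∈ Ico a (a + Y), G t - Y * ((∑ t ∈ range Q, G t) / Q)| ≤ 2 * K := by
  induction h with
  | base g d c hd0 hd hper hc => exact lv1_avg_base hQ hd0 hd hper hc a Y
  | add G G' K K' h h' ih ih' =>
    have h1 : ∑ t ∈ Ico a (a + Y), (G t + G' t) -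
        Y * ((∑ t ∈ range Q, (G t + G' t)) / Q) =
        (∑ t ∈ Ico a (a + Y), G t - Y * ((∑ t ∈ range Q, G t) / Q)) +
        (∑ t ∈ Ico a (a + Y), G' t - Y * ((∑ t ∈ range Q, G' t) / Q)) := by
      rw [Finset.sum_add_distrib, Finset.sum_add_distrib]
      ring
    rw [h1]
    refine (abs_add_le _ _).trans ?_
    linarith
  | mono G K K' h hK ih => linarith

end Pool.Agent.Lib.H15P
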