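import Pool.Agent.Lib.H15P.Defs

/-!
# Chunk PB3: sums over labelings, Chernoff bound
-/

open Finset

namespace Pool.Agent.Lib.H15P

variable {J : Type} [Fintype J] [DecidableEq J]

/-- `Σ_l ∏_j a (l j)` over the `l : J → Ω` which are `ω0` outside `B` is
`∏_{j ∈ B} (Σ_ω a ω) ∏_{j ∉ B} a ω0` (`Finset.prod_univ_sum` with the sets `univ` (`j ∈ B`) and
`{ω0}` (`j ∉ B`)). -/
theorem sum_supp {Ω : Type} [Fintype Ω] [DecidableEq Ω] (ω0 : Ω) (a : Ω → ℝ) (h0 : a ω0 = 1)
    (B : Finset J) :
    ∑ l ∈ univ.filter (fun l : J → Ω => ∀ j, j ∉ B → l j = ω0), ∏ j, a (l j)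
      = (∑ ω, a ω) ^ B.card := by
  classical
  set t : J → Finset Ω := fun j => if j ∈ B then univ else {ω0} with ht
  have h1 : univ.filter (fun l : J → Ω => ∀ j, j ∉ B → l j = ω0) = Fintype.piFinset t := by
    ext l
    simp only [mem_filter, mem_univ, true_and, Fintype.mem_piFinset, ht]
    constructor
    · intro h j
      by_cases hj : j ∈ B
      · rw [if_pos hj]; exact mem_univ _
      · rw [if_neg hj, mem_singleton]; exact h j hj
    · intro h j hj
      have := h j
      rw [if_neg hj, mem_singleton] at this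
      exact this
  rw [h1, ← Finset.prod_univ_sum t (fun _ ω => a ω)]
  have h2 : ∀ j, ∑ ω ∈ t j, a ω = if j ∈ B then ∑ ω, a ω else 1 := by
    intro j
    by_cases hj : j ∈ B
    · simp only [ht, if_pos hj]
    · simp only [ht, if_neg hj, sum_singleton, h0]
  rw [Finset.prod_congr rfl (fun j _ => h2 j), Finset.prod_ite_mem, Finset.univ_inter,
    Finset.prod_const]

variable {I : Type} [Fintype I] [DecidableEq I]

omit [DecidableEq J] [Fintype I] in
theorem pb3_exp_cnt (l : J → Option I) (i0 : I) (e : ℝ) :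
    ∏ j, (if l j = some i0 then e else 1) = e ^ cnt l i0 := by
  unfold cnt
  rw [Finset.prod_ite, Finset.prod_const, Finset.prod_const_one, mul_one]

/-- Chernoff: `1[m0 ≤ cnt l i0] ≤ e^(cnt l i0 - m0)` and `e^(cnt l i0) = ∏_j (e if l j = some i0
else 1)`, so by `sum_supp` (`ω0 = none`) the sum is at most
`e^(-m0) (1 + Σ_i a_i + (e - 1) a_(i0))^|B| ≤ e^(-m0) (1 + Σ_i a_i)^|B| (1 + 2 a_(i0))^|B|`
(`e - 1 ≤ 2`, `1 + Σ a_i ≥ 1`) and `(1 + 2 a)^|B| ≤ e^(2 a |B|)`. -/
theorem tail_supp (a : Option I → ℝ) (ha : ∀ o, 0 ≤ a o) (h0 : a none = 1) (B : Finset J)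
    (i0 : I) (m0 : ℕ) (R : ℝ) (hm : 2 * B.card * a (some i0) + R ≤ m0) :
    ∑ l ∈ univ.filter (fun l : J → Option I => (∀ j, j ∉ B → l j = none) ∧ m0 ≤ cnt l i0),
        ∏ j, a (l j)
      ≤ Real.exp (-R) * (1 + ∑ i, a (some i)) ^ B.card := by
  classical
  set e : ℝ := Real.exp 1 with he
  have he2 : e - 1 ≤ 2 := by
    have := Real.exp_one_lt_d9
    rw [he]; linarith
  have he1 : 1 ≤ e := by
    rw [he]; exact Real.one_le_exp (by norm_num)
  set a' : Option I → ℝ := fun o => a o * (if o = some i0 then e else 1) with ha'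
  have hprod : ∀ l : J → Option I, ∏ j, a' (l j) = (∏ j, a (l j)) * e ^ cnt l i0 := by
    intro l
    simp only [ha']
    rw [Finset.prod_mul_distrib, pb3_exp_cnt]
  have hP0 : ∀ l : J → Option I, 0 ≤ ∏ j, a (l j) := fun l =>
    Finset.prod_nonneg (fun j _ => ha _)
  have hexp : ∀ n : ℕ, e ^ n = Real.exp n := by
    intro n
    rw [he, ← Real.exp_nat_mul, mul_one]
  have step1 : ∑ l ∈ univ.filter (fun l : J → Option I => (∀ j, j ∉ B → l j = none) ∧
        m0 ≤ cnt l i0), ∏ j, a (l j)
      ≤ ∑ l ∈ univ.filter (fun l : J → Option I => ∀ j, j ∉ B → l j = none),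
        Real.exp (-(m0 : ℝ)) * ∏ j, a' (l j) := by
    calc ∑ l ∈ univ.filter (fun l : J → Option I => (∀ j, j ∉ B → l j = none) ∧
          m0 ≤ cnt l i0), ∏ j, a (l j)
        ≤ ∑ l ∈ univ.filter (fun l : J → Option I => (∀ j, j ∉ B → l j = none) ∧
          m0 ≤ cnt l i0), Real.exp (-(m0 : ℝ)) * ∏ j, a' (l j) := by
          apply Finset.sum_le_sum
          intro l hl
          have hl2 := (Finset.mem_filter.1 hl).2.2
          rw [hprod, hexp]
          have h1 : 1 ≤ Real.exp (-(m0 : ℝ)) * Real.exp (cnt l i0) := by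
            rw [← Real.exp_add]
            apply Real.one_le_exp
            have : (m0 : ℝ) ≤ cnt l i0 := by exact_mod_cast hl2
            linarith
          calc ∏ j, a (l j) = 1 * ∏ j, a (l j) := by ring
            _ ≤ (Real.exp (-(m0 : ℝ)) * Real.exp (cnt l i0)) * ∏ j, a (l j) :=
                mul_le_mul_of_nonneg_right h1 (hP0 l)
            _ = _ := by ring
      _ ≤ ∑ l ∈ univ.filter (fun l : J → Option I => ∀ j, j ∉ B → l j = none),
            Real.exp (-(m0 : ℝ)) * ∏ j, a' (l j) := by
          apply Finset.sum_le_sum_of_subset_of_nonneg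
          · intro l hl
            have := (Finset.mem_filter.1 hl).2.1
            exact Finset.mem_filter.2 ⟨Finset.mem_univ _, this⟩
          · intro l _ _
            rw [hprod]
            exact mul_nonneg (Real.exp_pos _).le
              (mul_nonneg (hP0 l) (pow_nonneg (by linarith) _))
  refine step1.trans ?_
  rw [← Finset.mul_sum, sum_supp (none : Option I) a' (by simp [ha', h0]) B]
  have hsum : ∑ o, a' o = 1 + ∑ i, a (some i) + (e - 1) * a (some i0) := by
    rw [Fintype.sum_option]
    have h1 : a' none = 1 := by simp [ha', h0]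
    have h2 : ∀ i, a' (some i) = a (some i) + (if i = i0 then (e - 1) * a (some i0) else 0) := by
      intro i
      by_cases hi : i = i0
      · subst hi
        simp only [ha', if_true]
        ring
      · have : ¬ ((some i : Option I) = some i0) := fun h => hi (Option.some_inj.1 h)
        simp only [ha', if_neg hi, if_neg this]
        ring
    rw [h1, Finset.sum_congr rfl (fun i _ => h2 i), Finset.sum_add_distrib,
      Finset.sum_ite_eq' univ i0 (fun _ => (e - 1) * a (some i0)), if_pos (Finset.mem_univ _)]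
    ring
  set S : ℝ := 1 + ∑ i, a (some i) with hS
  have hS1 : 1 ≤ S := by
    have : 0 ≤ ∑ i, a (some i) := Finset.sum_nonneg (fun i _ => ha _)
    rw [hS]; linarith
  set α := a (some i0) with hα
  have hα0 : 0 ≤ α := ha _
  rw [hsum]
  have h3 : (S + (e - 1) * α) ^ B.card ≤ S ^ B.card * Real.exp (2 * B.card * α) := by
    calc (S + (e - 1) * α) ^ B.card ≤ (S * (1 + 2 * α)) ^ B.card := by
          apply pow_le_pow_left₀
          · have : 0 ≤ (e - 1) * α := mul_nonneg (by linarith) hα0
            linarith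
          · have h4 : (e - 1) * α ≤ 2 * α := mul_le_mul_of_nonneg_right he2 hα0
            nlinarith
      _ = S ^ B.card * (1 + 2 * α) ^ B.card := mul_pow _ _ _
      _ ≤ S ^ B.card * Real.exp (2 * B.card * α) := by
          apply mul_le_mul_of_nonneg_left _ (pow_nonneg (by linarith) _)
          calc (1 + 2 * α) ^ B.card ≤ (Real.exp (2 * α)) ^ B.card := by
                apply pow_le_pow_left₀ (by linarith)
                rw [add_comm]
                exact Real.add_one_le_exp _
            _ = Real.exp (2 * B.card * α) := by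
                rw [← Real.exp_nat_mul]
                congr 1
                ring
  calc Real.exp (-(m0 : ℝ)) * (S + (e - 1) * α) ^ B.card
      ≤ Real.exp (-(m0 : ℝ)) * (S ^ B.card * Real.exp (2 * B.card * α)) :=
        mul_le_mul_of_nonneg_left h3 (Real.exp_pos _).le
    _ = Real.exp (-(m0 : ℝ) + 2 * B.card * α) * S ^ B.card := by
        rw [Real.exp_add]
        ring
    _ ≤ Real.exp (-R) * S ^ B.card := by
        apply mul_le_mul_of_nonneg_right _ (pow_nonneg (by linarith) _)
        apply Real.exp_le_exp.2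
        linarith

end Pool.Agent.Lib.H15P
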