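import Pool.Agent.Lib.H15P.TR2

/-!
# Chunk TR3: lower bound for the mean value over a period by the independent model
-/

open Finset

namespace Pool.Agent.Lib.H15P

variable {J : Type} [Fintype J] [DecidableEq J]

/-- What the lower bound loses at the configuration `S`: `1` if some prime is in two of the sets,
and `2K/p` for every prime `p` of every set. -/
noncomputable def loss (P : Finset ℕ) (K : ℕ) (S : J → Finset {p // p ∈ P}) : ℝ :=
  (if ∃ j j', j ≠ j' ∧ ¬ Disjoint (S j) (S j') then 1 else 0) +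
    ∑ j, ∑ p ∈ S j, 2 * (K : ℝ) / (p.1 : ℝ)

/-! ### products -/

theorem tr3_prod_one_sub {α : Type} [DecidableEq α] (s : Finset α) (x : α → ℝ)
    (h0 : ∀ a ∈ s, 0 ≤ x a) (h1 : ∀ a ∈ s, x a ≤ 1) :
    1 - ∑ a ∈ s, x a ≤ ∏ a ∈ s, (1 - x a) ∧ 0 ≤ ∏ a ∈ s, (1 - x a) ∧
      ∏ a ∈ s, (1 - x a) ≤ 1 := by
  induction s using Finset.induction_on with
  | empty => simp
  | insert a s ha ih =>
    obtain ⟨i1, i2, i3⟩ := ih (fun b hb => h0 b (Finset.mem_insert_of_mem hb))
      (fun b hb => h1 b (Finset.mem_insert_of_mem hb))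
    have ha0 := h0 a (Finset.mem_insert_self a s)
    have ha1 := h1 a (Finset.mem_insert_self a s)
    rw [Finset.sum_insert ha, Finset.prod_insert ha]
    refine ⟨?_, mul_nonneg (by linarith) i2, ?_⟩
    · nlinarith
    · nlinarith

/-- the product of the weights, prime by prime -/
theorem tr3_prod_bw (P : Finset ℕ) (K : ℕ) (κ : {p // p ∈ P} → Option J) :
    ∏ j, bw (qq P K) (cfg κ j) =
      ∏ i, ∏ j : J, (if κ i = some j then qq P K i else 1 - qq P K i) := by
  unfold bw
  rw [Finset.prod_comm]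
  refine Finset.prod_congr rfl fun i _ => Finset.prod_congr rfl fun j _ => ?_
  simp only [cfg, Finset.mem_filter, Finset.mem_univ, true_and]

/-- the product over the forms at one prime -/
theorem tr3_prod_one (a c : ℝ) (o : Option J) :
    ∏ j : J, (if o = some j then a else c) =
      match o with
      | none => c ^ Fintype.card J
      | some _ => a * c ^ (Fintype.card J - 1) := by
  rcases o with _ | j0
  · simp
  · simp only [Option.some.injEq]
    rw [← Finset.mul_prod_erase Finset.univ _ (Finset.mem_univ j0), if_pos rfl]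
    congr 1
    rw [Finset.prod_congr rfl (g := fun _ => c)]
    · rw [Finset.prod_const, Finset.card_erase_of_mem (Finset.mem_univ j0), Finset.card_univ]
    · intro j hj
      rw [if_neg (Finset.ne_of_mem_erase hj).symm]

theorem tr3_pow_le (k : ℕ) (u : ℝ) (h0 : 0 ≤ u) (h1 : u ≤ 1) :
    (1 - u) ^ k ≤ 1 - k * u + k ^ 2 * u ^ 2 / 2 := by
  induction k with
  | zero => simp
  | succ k ih =>
    rw [pow_succ]
    have h2 : 0 ≤ 1 - u := by linarith
    have h3 := mul_le_mul_of_nonneg_right ih h2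
    refine h3.trans ?_
    push_cast
    have h4 : 0 ≤ (k : ℝ) := Nat.cast_nonneg _
    have h5 : 0 ≤ u ^ 2 := sq_nonneg _
    have h6 : 0 ≤ (k : ℝ) ^ 2 * u ^ 3 := by positivity
    nlinarith

/-- one prime -/
theorem tr3_one (P : Finset ℕ) (W K : ℕ) (hK : 1 ≤ K) (hKW : 4 * K ^ 2 ≤ W)
    (hb : ∀ p ∈ P, W < p) (hJ : Fintype.card J ≤ K) (p : {p // p ∈ P}) (o : Option J) :
    (1 - (if o = none then (K : ℝ) ^ 2 / (p.1 : ℝ) ^ 2 else 2 * K / (p.1 : ℝ))) *
      ∏ j : J, (if o = some j then qq P K p else 1 - qq P K p) ≤ ww J p.1 o := by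
  have hp : W < p.1 := hb p.1 p.2
  have hK1 : (1 : ℝ) ≤ K := by exact_mod_cast hK
  have hpK : 4 * (K : ℝ) ^ 2 ≤ p.1 := by
    have : 4 * K ^ 2 ≤ p.1 := hKW.trans hp.le
    exact_mod_cast this
  set x : ℝ := (p.1 : ℝ) with hx
  have hx0 : 0 < x := by nlinarith
  have hKx : 4 * (K : ℝ) ≤ x := by nlinarith
  have hk : (Fintype.card J : ℝ) ≤ K := by exact_mod_cast hJ
  have hk0 : (0 : ℝ) ≤ Fintype.card J := Nat.cast_nonneg _
  have hN : (1 : ℝ) ≤ 1 + 2 * K / x ^ 2 := by
    have : 0 ≤ 2 * (K : ℝ) / x ^ 2 := by positivity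
    linarith
  have hq : qq P K p = (1 / x + 2 * K / x ^ 2) / (1 + 2 * K / x ^ 2) := rfl
  have hq1 : 1 - qq P K p = (1 - 1 / x) / (1 + 2 * K / x ^ 2) := by
    rw [hq, eq_div_iff (by linarith), sub_mul, div_mul_cancel₀ _ (by linarith)]
    ring
  have hu0 : 0 ≤ 1 / x := by positivity
  have hu1 : 1 / x ≤ 1 := by rw [div_le_one hx0]; linarith
  have hqn0 : 0 ≤ 1 - qq P K p := by
    rw [hq1]
    exact div_nonneg (by linarith) (by linarith)
  have hqn1 : 1 - qq P K p ≤ 1 - 1 / x := by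
    rw [hq1]
    exact div_le_self (by linarith) hN
  have hqn : 1 - qq P K p ≤ 1 := by linarith
  have hqp0 : 0 ≤ qq P K p := by rw [hq]; positivity
  have hqp : qq P K p ≤ 1 / x + 2 * K / x ^ 2 := by
    rw [hq]
    exact div_le_self (by positivity) hN
  rw [tr3_prod_one]
  rcases o with _ | j0
  · simp only [if_true, ww]
    set k : ℝ := (Fintype.card J : ℝ) with hkdef
    have e1 : (1 - qq P K p) ^ Fintype.card J ≤ (1 - 1 / x) ^ Fintype.card J :=
      pow_le_pow_left₀ hqn0 hqn1 _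
    have e2 := tr3_pow_le (Fintype.card J) (1 / x) hu0 hu1
    rw [← hkdef] at e2
    have e3 : 0 ≤ 1 - (K : ℝ) ^ 2 / x ^ 2 := by
      rw [sub_nonneg, div_le_one (by positivity)]
      nlinarith
    have e4 := mul_le_mul_of_nonneg_left (e1.trans e2) e3
    refine e4.trans ?_
    have e5 : k * (1 / x) = k / x := by ring
    have e6 : k ^ 2 * (1 / x) ^ 2 / 2 = (k ^ 2 / x ^ 2) / 2 := by ring
    rw [e5, e6]
    set A : ℝ := k / x with hA
    have e7 : k ^ 2 / x ^ 2 = A ^ 2 := by rw [hA]; ring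
    set B : ℝ := (K : ℝ) ^ 2 / x ^ 2 with hB
    have hA0 : 0 ≤ A := by positivity
    have hA1 : A ≤ 1 / 4 := by
      rw [hA, div_le_iff₀ hx0]
      linarith
    have hAB : A ^ 2 ≤ B := by
      rw [← e7, hB]
      apply div_le_div_of_nonneg_right _ (by positivity)
      exact pow_le_pow_left₀ hk0 hk 2
    rw [e7]
    have hB0 : 0 ≤ B := by positivity
    nlinarith [mul_nonneg hB0 hA0, mul_nonneg hB0 (sq_nonneg A)]
  · simp only [reduceCtorEq, if_false, ww]
    have e1 : (1 - qq P K p) ^ (Fintype.card J - 1) ≤ 1 := pow_le_one₀ hqn0 hqn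
    have e2 : 0 ≤ (1 - qq P K p) ^ (Fintype.card J - 1) := pow_nonneg hqn0 _
    have e3 : qq P K p * (1 - qq P K p) ^ (Fintype.card J - 1) ≤ 1 / x + 2 * K / x ^ 2 := by
      calc qq P K p * (1 - qq P K p) ^ (Fintype.card J - 1) ≤ qq P K p * 1 :=
            mul_le_mul_of_nonneg_left e1 hqp0
        _ ≤ _ := by rw [mul_one]; exact hqp
    have e4 : 0 ≤ 1 - 2 * (K : ℝ) / x := by
      rw [sub_nonneg, div_le_one hx0]
      linarith
    refine (mul_le_mul_of_nonneg_left e3 e4).trans ?_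
    have e5 : (1 - 2 * (K : ℝ) / x) * (1 / x + 2 * K / x ^ 2) =
        1 / x - (2 * K / x) ^ 2 * (1 / x) := by
      field_simp
      ring
    rw [e5]
    have : 0 ≤ (2 * (K : ℝ) / x) ^ 2 * (1 / x) := by positivity
    linarith

/-- One prime: `ww none = 1 - k/p ≥ (1 - K^2/p^2) (1 - 1/p)^k`, and
`ww (some j) = 1/p ≥ (1 - 2K/p) α β^(k-1)`. Together (`∏ (1 - x_i) ≥ 1 - Σ x_i` for
`0 ≤ x_i ≤ 1`): `∏_p ww (κ p) ≥ (1 - K^2/W - Σ_(p used) 2K/p) ∏_j bw (cfg κ j)`; note that
`∏_p (1 + 2K/p^2)^k ≥ 1`. -/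
theorem prod_ww_ge (P : Finset ℕ) (W K M : ℕ) (b : J → ℕ) (hF : Forms P W K M b)
    (κ : {p // p ∈ P} → Option J) :
    (1 - (K : ℝ) ^ 2 / W - ∑ j, ∑ p ∈ cfg κ j, 2 * (K : ℝ) / (p.1 : ℝ)) *
      ∏ j, bw (qq P K) (cfg κ j) ≤ ∏ i, ww J i.1 (κ i) := by
  classical
  have hK1 : (1 : ℝ) ≤ K := by exact_mod_cast hF.one_le
  have hW1 : 1 ≤ W := by
    have := hF.KW
    have := hF.one_le
    nlinarith
  have hpK : ∀ i : {p // p ∈ P}, 4 * (K : ℝ) ^ 2 ≤ i.1 := by
    intro i
    have : 4 * K ^ 2 ≤ i.1 := hF.KW.trans (hF.big i.1 i.2).le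
    exact_mod_cast this
  have hp0 : ∀ i : {p // p ∈ P}, (0 : ℝ) < i.1 := fun i => by
    have := hpK i
    nlinarith
  set x : {p // p ∈ P} → ℝ := fun i =>
    if κ i = none then (K : ℝ) ^ 2 / (i.1 : ℝ) ^ 2 else 2 * K / (i.1 : ℝ) with hx
  have hx0 : ∀ i ∈ (univ : Finset {p // p ∈ P}), 0 ≤ x i := by
    intro i _
    simp only [hx]
    have := hp0 i
    split_ifs <;> positivity
  have hx1 : ∀ i ∈ (univ : Finset {p // p ∈ P}), x i ≤ 1 := by
    intro i _
    simp only [hx]
    have h1 := hp0 i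
    have h2 := hpK i
    split_ifs
    · rw [div_le_one (by positivity)]
      have h3 : (K : ℝ) ≤ i.1 := by nlinarith
      exact pow_le_pow_left₀ (by linarith) h3 2
    · rw [div_le_one h1]
      nlinarith
  obtain ⟨g1, g2, -⟩ := tr3_prod_one_sub univ x hx0 hx1
  have hbw : 0 ≤ ∏ j, bw (qq P K) (cfg κ j) := by
    refine Finset.prod_nonneg fun j _ => bw_nonneg _ (qq_nonneg P K) (fun p => ?_) _
    have h1 := qq_le P W K hF.one_le hF.KW hF.big p
    have h2 := hpK p
    refine h1.trans ?_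
    rw [div_le_one (hp0 p)]
    nlinarith
  have hone : (∏ i, (1 - x i)) * ∏ j, bw (qq P K) (cfg κ j) ≤ ∏ i, ww J i.1 (κ i) := by
    rw [tr3_prod_bw, ← Finset.prod_mul_distrib]
    refine Finset.prod_le_prod (fun i hi => ?_) (fun i _ => ?_)
    · refine mul_nonneg (by linarith [hx1 i hi]) (Finset.prod_nonneg fun j _ => ?_)
      have h1 := qq_nonneg P K i
      have h2 := qq_le P W K hF.one_le hF.KW hF.big i
      have h3 : 2 / ((i.1 : ℕ) : ℝ) ≤ 1 := by
        rw [div_le_one (hp0 i)]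
        have := hpK i
        nlinarith
      split_ifs
      · exact h1
      · linarith
    · exact tr3_one P W K hF.one_le hF.KW hF.big hF.card i (κ i)
  refine le_trans (mul_le_mul_of_nonneg_right ?_ hbw) hone
  refine le_trans ?_ g1
  -- compare the sums
  have s1 : ∑ i, x i ≤ (K : ℝ) ^ 2 / W + ∑ j, ∑ p ∈ cfg κ j, 2 * (K : ℝ) / (p.1 : ℝ) := by
    have t1 : ∀ i, x i ≤ (K : ℝ) ^ 2 * (1 / (i.1 : ℝ) ^ 2) +
        ∑ j : J, (if κ i = some j then 2 * (K : ℝ) / (i.1 : ℝ) else 0) := by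
      intro i
      have h1 := hp0 i
      simp only [hx]
      rcases hκ : κ i with _ | j0
      · simp only [if_true]
        have : (K : ℝ) ^ 2 / (i.1 : ℝ) ^ 2 = (K : ℝ) ^ 2 * (1 / (i.1 : ℝ) ^ 2) := by ring
        rw [this]
        simp
      · simp only [reduceCtorEq, if_false, Option.some.injEq]
        rw [Finset.sum_ite_eq univ j0]
        simp only [Finset.mem_univ, if_true]
        have : 0 ≤ (K : ℝ) ^ 2 * (1 / (i.1 : ℝ) ^ 2) := by positivity
        linarith
    refine (Finset.sum_le_sum fun i _ => t1 i).trans ?_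
    rw [Finset.sum_add_distrib, ← Finset.mul_sum]
    refine add_le_add ?_ ?_
    · have h1 := sum_inv_sq_le P W hW1 hF.big
      have h2 : ∑ i : {p // p ∈ P}, 1 / ((i.1 : ℕ) : ℝ) ^ 2 = ∑ p ∈ P, 1 / (p : ℝ) ^ 2 :=
        Finset.sum_coe_sort P (fun p => 1 / (p : ℝ) ^ 2)
      rw [h2]
      calc (K : ℝ) ^ 2 * ∑ p ∈ P, 1 / (p : ℝ) ^ 2 ≤ (K : ℝ) ^ 2 * (1 / W) :=
            mul_le_mul_of_nonneg_left h1 (by positivity)
        _ = (K : ℝ) ^ 2 / W := by ring
    · rw [Finset.sum_comm]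
      refine Finset.sum_le_sum fun j _ => ?_
      unfold cfg
      rw [Finset.sum_filter]
  linarith

/-! ### moments of the loss -/

/-- probability that the random set contains `B` -/
theorem tr3_ex_subset {ι : Type} [Fintype ι] [DecidableEq ι] (q : ι → ℝ) (B : Finset ι) :
    ex q (fun A => if B ⊆ A then 1 else 0) = ∏ i ∈ B, q i := by
  unfold ex bw
  have h1 : ∀ A : Finset ι, (if B ⊆ A then (1 : ℝ) else 0) * ∏ i, (if i ∈ A then q i else 1 - q i)
      = (∏ i ∈ A, q i) * ∏ i ∈ univ \ A, (if i ∈ B then 0 else 1 - q i) := by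
    intro A
    have e1 : ∏ i, (if i ∈ A then q i else 1 - q i) =
        (∏ i ∈ A, q i) * ∏ i ∈ univ \ A, (1 - q i) := by
      rw [← Finset.prod_sdiff (Finset.subset_univ A), mul_comm]
      congr 1
      · exact Finset.prod_congr rfl fun i hi => by rw [if_pos hi]
      · exact Finset.prod_congr rfl fun i hi => by
          rw [if_neg (Finset.mem_sdiff.mp hi).2]
    rw [e1]
    by_cases hB : B ⊆ A
    · rw [if_pos hB, one_mul]
      congr 1
      refine Finset.prod_congr rfl fun i hi => ?_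
      rw [if_neg fun h => (Finset.mem_sdiff.mp hi).2 (hB h)]
    · rw [if_neg hB, zero_mul]
      obtain ⟨i, hi, hiA⟩ := Finset.not_subset.mp hB
      have : ∏ i ∈ univ \ A, (if i ∈ B then (0 : ℝ) else 1 - q i) = 0 :=
        Finset.prod_eq_zero (Finset.mem_sdiff.mpr ⟨Finset.mem_univ i, hiA⟩) (by rw [if_pos hi])
      rw [this, mul_zero]
  simp_rw [h1]
  have h2 := Finset.prod_add (fun i => q i) (fun i => if i ∈ B then (0 : ℝ) else 1 - q i)
    (univ : Finset ι)
  have h3 : (univ : Finset ι).powerset = (univ : Finset (Finset ι)) := Finset.powerset_univ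
  rw [h3] at h2
  rw [← h2]
  have h4 : ∀ i, q i + (if i ∈ B then (0 : ℝ) else 1 - q i) = if i ∈ B then q i else 1 := by
    intro i
    split_ifs <;> ring
  simp_rw [h4]
  rw [Finset.prod_ite_mem, Finset.univ_inter]

/-- two forms -/
theorem tr3_EX_pair {ι : Type} [Fintype ι] [DecidableEq ι] (q : ι → ℝ) (f g : Finset ι → ℝ)
    (j j' : J) (h : j ≠ j') :
    EX q (fun S : J → Finset ι => f (S j) * g (S j')) = ex q f * ex q g := by
  have h1 : (fun S : J → Finset ι => f (S j) * g (S j')) =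
      fun S : J → Finset ι => ∏ l, (if l = j then f else if l = j' then g else fun _ => 1) (S l) := by
    funext S
    rw [← Finset.mul_prod_erase univ _ (Finset.mem_univ j), if_pos rfl,
      ← Finset.mul_prod_erase (univ.erase j) _
        (Finset.mem_erase.mpr ⟨h.symm, Finset.mem_univ j'⟩), if_neg h.symm, if_pos rfl]
    rw [Finset.prod_eq_one, mul_one]
    intro l hl
    have h2 := Finset.ne_of_mem_erase hl
    have h3 := Finset.ne_of_mem_erase (Finset.mem_of_mem_erase hl)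
    rw [if_neg h3, if_neg h2]
  rw [h1, EX_prod]
  rw [← Finset.mul_prod_erase univ _ (Finset.mem_univ j), if_pos rfl,
      ← Finset.mul_prod_erase (univ.erase j) _
        (Finset.mem_erase.mpr ⟨h.symm, Finset.mem_univ j'⟩), if_neg h.symm, if_pos rfl]
  rw [Finset.prod_eq_one, mul_one]
  intro l hl
  have h2 := Finset.ne_of_mem_erase hl
  have h3 := Finset.ne_of_mem_erase (Finset.mem_of_mem_erase hl)
  rw [if_neg h3, if_neg h2, ex_one]

/-- one form -/
theorem tr3_EX_single {ι : Type} [Fintype ι] [DecidableEq ι] (q : ι → ℝ) (f : Finset ι → ℝ)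
    (j : J) : EX q (fun S : J → Finset ι => f (S j)) = ex q f := by
  have h1 : (fun S : J → Finset ι => f (S j)) =
      fun S : J → Finset ι => ∏ l, (if l = j then f else fun _ => 1) (S l) := by
    funext S
    rw [← Finset.mul_prod_erase univ _ (Finset.mem_univ j), if_pos rfl]
    rw [Finset.prod_eq_one, mul_one]
    intro l hl
    rw [if_neg (Finset.ne_of_mem_erase hl)]
  rw [h1, EX_prod]
  rw [← Finset.mul_prod_erase univ _ (Finset.mem_univ j), if_pos rfl]
  rw [Finset.prod_eq_one, mul_one]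
  intro l hl
  rw [if_neg (Finset.ne_of_mem_erase hl), ex_one]

/-- indicator of `p ∈ S j` -/
noncomputable def tr3_ind {ι : Type} [DecidableEq ι] (S : J → Finset ι) (a : J × ι) : ℝ :=
  if a.2 ∈ S a.1 then 1 else 0

theorem tr3_EX_ind_pair {ι : Type} [Fintype ι] [DecidableEq ι] (q : ι → ℝ)
    (h0 : ∀ i, 0 ≤ q i) (a a' : J × ι) :
    EX q (fun S : J → Finset ι => tr3_ind S a * tr3_ind S a') ≤
      q a.2 * q a'.2 + if a = a' then q a.2 else 0 := by
  have hs : ∀ (i : ι), ex q (fun A => if i ∈ A then (1 : ℝ) else 0) = q i := by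
    intro i
    have := tr3_ex_subset q {i}
    simpa using this
  by_cases hj : a.1 = a'.1
  · by_cases hi : a.2 = a'.2
    · have haa : a = a' := Prod.ext hj hi
      subst haa
      rw [if_pos rfl]
      have h1 : (fun S : J → Finset ι => tr3_ind S a * tr3_ind S a) =
          fun S : J → Finset ι => (fun A => if a.2 ∈ A then (1 : ℝ) else 0) (S a.1) := by
        funext S
        unfold tr3_ind
        simp only
        split_ifs <;> norm_num
      rw [h1, tr3_EX_single q (fun A => if a.2 ∈ A then (1 : ℝ) else 0) a.1, hs]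
      have := mul_nonneg (h0 a.2) (h0 a.2)
      linarith
    · rw [if_neg fun h => hi (congrArg Prod.snd h), add_zero]
      have h1 : (fun S : J → Finset ι => tr3_ind S a * tr3_ind S a') =
          fun S : J → Finset ι =>
            (fun A => if ({a.2, a'.2} : Finset ι) ⊆ A then (1 : ℝ) else 0) (S a.1) := by
        funext S
        unfold tr3_ind
        rw [← hj]
        simp only [Finset.insert_subset_iff, Finset.singleton_subset_iff]
        by_cases c1 : a.2 ∈ S a.1 <;> by_cases c2 : a'.2 ∈ S a.1 <;> simp [c1, c2]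
      rw [h1, tr3_EX_single q (fun A => if ({a.2, a'.2} : Finset ι) ⊆ A then (1 : ℝ) else 0) a.1,
        tr3_ex_subset, Finset.prod_pair hi]
  · rw [if_neg fun h => hj (congrArg Prod.fst h), add_zero]
    have h1 : (fun S : J → Finset ι => tr3_ind S a * tr3_ind S a') =
          fun S : J → Finset ι => (fun A => if a.2 ∈ A then (1 : ℝ) else 0) (S a.1) *
            (fun A => if a'.2 ∈ A then (1 : ℝ) else 0) (S a'.1) := by
      funext S
      rfl
    rw [h1, tr3_EX_pair q (fun A => if a.2 ∈ A then (1 : ℝ) else 0)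
      (fun A => if a'.2 ∈ A then (1 : ℝ) else 0) a.1 a'.1 hj, hs, hs]

/-- the sum over the used primes as a sum of indicators -/
theorem tr3_sum_eq (P : Finset ℕ) (K : ℕ) (S : J → Finset {p // p ∈ P}) :
    ∑ j, ∑ p ∈ S j, 2 * (K : ℝ) / (p.1 : ℝ) =
      ∑ a : J × {p // p ∈ P}, 2 * (K : ℝ) / (a.2.1 : ℝ) * tr3_ind S a := by
  rw [Fintype.sum_prod_type]
  refine Finset.sum_congr rfl fun j _ => ?_
  unfold tr3_ind
  simp only [mul_ite, mul_one, mul_zero]
  rw [Finset.sum_ite_mem, Finset.univ_inter]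

/-- Second moment of the loss. `(a + b)^2 ≤ 2 a^2 + 2 b^2`. The probability that a prime is in two
sets is at most `Σ_p (K^2/2) (2/p)^2 ≤ 2 K^2/W`; the second moment of the sum
`Σ_{j,p} (2K/p) 1[p ∈ S j]` of independent variables is at most
`(K Σ_p (2K/p)(2/p))^2 + K Σ_p (2K/p)^2 (2/p) ≤ 16 K^4/W^2 + 8 K^3/W^2 ≤ 24 K^4/W^2 ≤ 24 K^2/W`.
Total at most `52 K^2/W`. -/
theorem EX_loss_sq (P : Finset ℕ) (W K M : ℕ) (b : J → ℕ) (hF : Forms P W K M b) :
    EX (qq P K) (fun S : J → Finset {p // p ∈ P} => loss P K S ^ 2) ≤ 52 * (K : ℝ) ^ 2 / W := by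
  classical
  have hK1 : (1 : ℝ) ≤ K := by exact_mod_cast hF.one_le
  have hW1 : 1 ≤ W := by
    have := hF.KW
    have := hF.one_le
    nlinarith
  have hWr : (1 : ℝ) ≤ W := by exact_mod_cast hW1
  have hKW : 4 * (K : ℝ) ^ 2 ≤ W := by exact_mod_cast hF.KW
  have hJ : (Fintype.card J : ℝ) ≤ K := by exact_mod_cast hF.card
  have hJ0 : (0 : ℝ) ≤ Fintype.card J := Nat.cast_nonneg _
  have hpW : ∀ i : {p // p ∈ P}, (W : ℝ) ≤ i.1 := by
    intro i
    exact_mod_cast (hF.big i.1 i.2).le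
  have hp0 : ∀ i : {p // p ∈ P}, (0 : ℝ) < i.1 := fun i => by
    have := hpW i
    linarith
  set q := qq P K with hq
  have hq0 : ∀ i, 0 ≤ q i := qq_nonneg P K
  have hq2 : ∀ i, q i ≤ 2 / (i.1 : ℝ) := qq_le P W K hF.one_le hF.KW hF.big
  have hq1 : ∀ i, q i ≤ 1 := by
    intro i
    refine (hq2 i).trans ?_
    rw [div_le_one (hp0 i)]
    have := hpW i
    nlinarith
  have hsq : ∑ i : {p // p ∈ P}, 1 / ((i.1 : ℕ) : ℝ) ^ 2 ≤ 1 / (W : ℝ) := by
    have h1 := sum_inv_sq_le P W hW1 hF.big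
    have h2 : ∑ i : {p // p ∈ P}, 1 / ((i.1 : ℕ) : ℝ) ^ 2 = ∑ p ∈ P, 1 / (p : ℝ) ^ 2 :=
      Finset.sum_coe_sort P (fun p => 1 / (p : ℝ) ^ 2)
    rw [h2]
    exact h1
  set c : J × {p // p ∈ P} → ℝ := fun a => 2 * (K : ℝ) / (a.2.1 : ℝ) with hc
  have hc0 : ∀ a, 0 ≤ c a := fun a => by
    have := hp0 a.2
    simp only [hc]
    positivity
  -- pointwise bound
  have hpt : ∀ S : J → Finset {p // p ∈ P}, loss P K S ^ 2 ≤
      2 * (∑ j : J, ∑ j' : J, ∑ i : {p // p ∈ P},
        (if j = j' then 0 else tr3_ind S (j, i) * tr3_ind S (j', i))) +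
      2 * (∑ a, ∑ a', c a * c a' * (tr3_ind S a * tr3_ind S a')) := by
    intro S
    unfold loss
    rw [tr3_sum_eq]
    set X : ℝ := ∑ a : J × {p // p ∈ P}, 2 * (K : ℝ) / (a.2.1 : ℝ) * tr3_ind S a with hX
    have e1 : X ^ 2 = ∑ a, ∑ a', c a * c a' * (tr3_ind S a * tr3_ind S a') := by
      rw [hX, sq, Finset.sum_mul_sum]
      refine Finset.sum_congr rfl fun a _ => Finset.sum_congr rfl fun a' _ => ?_
      simp only [hc]
      ring
    rw [← e1]
    set I : ℝ := if ∃ j j', j ≠ j' ∧ ¬ Disjoint (S j) (S j') then 1 else 0 with hI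
    have e2 : I ^ 2 ≤ ∑ j : J, ∑ j' : J, ∑ i : {p // p ∈ P},
        (if j = j' then 0 else tr3_ind S (j, i) * tr3_ind S (j', i)) := by
      have hn : ∀ (j j' : J) (i : {p // p ∈ P}),
          0 ≤ (if j = j' then (0 : ℝ) else tr3_ind S (j, i) * tr3_ind S (j', i)) := by
        intro j j' i
        unfold tr3_ind
        split_ifs <;> norm_num
      by_cases h : ∃ j j', j ≠ j' ∧ ¬ Disjoint (S j) (S j')
      · rw [hI, if_pos h]
        obtain ⟨j, j', hjj, hd⟩ := h
        rw [Finset.not_disjoint_iff] at hd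
        obtain ⟨i, hi, hi'⟩ := hd
        have f1 : (1 : ℝ) ^ 2 = (if j = j' then (0 : ℝ) else tr3_ind S (j, i) * tr3_ind S (j', i)) := by
          rw [if_neg hjj]
          unfold tr3_ind
          simp [hi, hi']
        rw [f1]
        refine le_trans ?_ (Finset.single_le_sum
          (f := fun j : J => ∑ j' : J, ∑ i : {p // p ∈ P},
            (if j = j' then (0 : ℝ) else tr3_ind S (j, i) * tr3_ind S (j', i)))
          (fun a _ => Finset.sum_nonneg fun a' _ => Finset.sum_nonneg fun i _ => hn a a' i)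
          (Finset.mem_univ j))
        refine le_trans ?_ (Finset.single_le_sum
          (f := fun j' : J => ∑ i : {p // p ∈ P},
            (if j = j' then (0 : ℝ) else tr3_ind S (j, i) * tr3_ind S (j', i)))
          (fun a' _ => Finset.sum_nonneg fun i _ => hn j a' i)
          (Finset.mem_univ j'))
        exact Finset.single_le_sum
          (f := fun i : {p // p ∈ P} =>
            (if j = j' then (0 : ℝ) else tr3_ind S (j, i) * tr3_ind S (j', i)))
          (fun i _ => hn j j' i) (Finset.mem_univ i)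
      · rw [hI, if_neg h]
        have : (0 : ℝ) ^ 2 = 0 := by norm_num
        rw [this]
        exact Finset.sum_nonneg fun a _ => Finset.sum_nonneg fun a' _ =>
          Finset.sum_nonneg fun i _ => hn a a' i
    nlinarith [sq_nonneg (I - X)]
  have h1 := EX_mono q hq0 hq1 _ _ hpt
  have hadd : ∀ F G : (J → Finset {p // p ∈ P}) → ℝ,
      EX q (fun S => F S + G S) = EX q F + EX q G := by
    intro F G
    unfold EX
    rw [← Finset.sum_add_distrib]
    exact Finset.sum_congr rfl fun S _ => by ring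
  rw [hadd] at h1
  rw [EX_const_mul, EX_const_mul] at h1
  -- first part
  have p1 : EX q (fun S : J → Finset {p // p ∈ P} => ∑ j : J, ∑ j' : J, ∑ i : {p // p ∈ P},
        (if j = j' then 0 else tr3_ind S (j, i) * tr3_ind S (j', i))) ≤ 4 * (K : ℝ) ^ 2 / W := by
    rw [EX_sum]
    have e1 : ∀ j : J, EX q (fun S : J → Finset {p // p ∈ P} => ∑ j' : J, ∑ i : {p // p ∈ P},
        (if j = j' then 0 else tr3_ind S (j, i) * tr3_ind S (j', i))) ≤ K * (4 * (1 / W)) := by
      intro j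
      rw [EX_sum]
      have e2 : ∀ j' : J, EX q (fun S : J → Finset {p // p ∈ P} => ∑ i : {p // p ∈ P},
        (if j = j' then 0 else tr3_ind S (j, i) * tr3_ind S (j', i))) ≤ 4 * (1 / W) := by
        intro j'
        rw [EX_sum]
        calc ∑ i : {p // p ∈ P}, EX q (fun S : J → Finset {p // p ∈ P} =>
              (if j = j' then 0 else tr3_ind S (j, i) * tr3_ind S (j', i)))
            ≤ ∑ i : {p // p ∈ P}, 4 * (1 / ((i.1 : ℕ) : ℝ) ^ 2) := by
              refine Finset.sum_le_sum fun i _ => ?_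
              have hi0 := hp0 i
              by_cases hjj : j = j'
              · simp only [hjj, if_true]
                have : EX q (fun _ : J → Finset {p // p ∈ P} => (0 : ℝ)) = 0 := by
                  unfold EX
                  simp
                rw [this]
                positivity
              · simp only [hjj, if_false]
                have := tr3_EX_ind_pair q hq0 (j, i) (j', i)
                rw [if_neg fun h => hjj (congrArg Prod.fst h), add_zero] at this
                refine this.trans ?_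
                simp only
                have h2 := hq2 i
                calc q i * q i ≤ (2 / (i.1 : ℝ)) * (2 / (i.1 : ℝ)) :=
                      mul_le_mul h2 h2 (hq0 i) (by positivity)
                  _ = 4 * (1 / (i.1 : ℝ) ^ 2) := by field_simp; ring
          _ = 4 * ∑ i : {p // p ∈ P}, 1 / ((i.1 : ℕ) : ℝ) ^ 2 := by rw [Finset.mul_sum]
          _ ≤ 4 * (1 / W) := by linarith
      calc ∑ j' : J, EX q (fun S : J → Finset {p // p ∈ P} => ∑ i : {p // p ∈ P},
        (if j = j' then 0 else tr3_ind S (j, i) * tr3_ind S (j', i)))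
          ≤ ∑ j' : J, 4 * (1 / (W : ℝ)) := Finset.sum_le_sum fun j' _ => e2 j'
        _ = Fintype.card J * (4 * (1 / (W : ℝ))) := by
            rw [Finset.sum_const, nsmul_eq_mul, Finset.card_univ]
        _ ≤ K * (4 * (1 / W)) := mul_le_mul_of_nonneg_right hJ (by positivity)
    calc _ ≤ ∑ j : J, (K : ℝ) * (4 * (1 / W)) := Finset.sum_le_sum fun j _ => e1 j
      _ = Fintype.card J * ((K : ℝ) * (4 * (1 / W))) := by
          rw [Finset.sum_const, nsmul_eq_mul, Finset.card_univ]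
      _ ≤ K * ((K : ℝ) * (4 * (1 / W))) := mul_le_mul_of_nonneg_right hJ (by positivity)
      _ = 4 * (K : ℝ) ^ 2 / W := by ring
  -- second part
  have p2 : EX q (fun S : J → Finset {p // p ∈ P} =>
      ∑ a, ∑ a', c a * c a' * (tr3_ind S a * tr3_ind S a')) ≤ 6 * (K : ℝ) ^ 2 / W := by
    rw [EX_sum]
    have e1 : ∀ a : J × {p // p ∈ P}, EX q (fun S : J → Finset {p // p ∈ P} =>
        ∑ a', c a * c a' * (tr3_ind S a * tr3_ind S a')) ≤
        ∑ a', c a * c a' * (q a.2 * q a'.2) + c a * c a * q a.2 := by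
      intro a
      rw [EX_sum]
      have e2 : ∀ a' : J × {p // p ∈ P}, EX q (fun S : J → Finset {p // p ∈ P} =>
          c a * c a' * (tr3_ind S a * tr3_ind S a')) ≤
          c a * c a' * (q a.2 * q a'.2) + (if a = a' then c a * c a * q a.2 else 0) := by
        intro a'
        rw [EX_const_mul]
        have f1 := tr3_EX_ind_pair q hq0 a a'
        have f2 : 0 ≤ c a * c a' := mul_nonneg (hc0 a) (hc0 a')
        refine (mul_le_mul_of_nonneg_left f1 f2).trans ?_
        rw [mul_add]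
        refine add_le_add le_rfl ?_
        by_cases h : a = a'
        · subst h
          simp
        · simp [h]
      refine (Finset.sum_le_sum fun a' _ => e2 a').trans ?_
      rw [Finset.sum_add_distrib, Finset.sum_ite_eq univ a]
      simp
    refine (Finset.sum_le_sum fun a _ => e1 a).trans ?_
    rw [Finset.sum_add_distrib]
    have e3 : ∑ a : J × {p // p ∈ P}, ∑ a', c a * c a' * (q a.2 * q a'.2) =
        (∑ a : J × {p // p ∈ P}, c a * q a.2) ^ 2 := by
      rw [sq, Finset.sum_mul_sum]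
      refine Finset.sum_congr rfl fun a _ => Finset.sum_congr rfl fun a' _ => ?_
      ring
    rw [e3]
    have e4 : ∑ a : J × {p // p ∈ P}, c a * q a.2 ≤ 4 * (K : ℝ) ^ 2 / W := by
      rw [Fintype.sum_prod_type]
      have f1 : ∀ j : J, ∑ i : {p // p ∈ P}, c (j, i) * q i ≤ 4 * K * (1 / W) := by
        intro j
        calc ∑ i : {p // p ∈ P}, c (j, i) * q i
            ≤ ∑ i : {p // p ∈ P}, 4 * K * (1 / ((i.1 : ℕ) : ℝ) ^ 2) := by
              refine Finset.sum_le_sum fun i _ => ?_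
              have hi0 := hp0 i
              simp only [hc]
              calc 2 * (K : ℝ) / (i.1 : ℝ) * q i ≤ 2 * (K : ℝ) / (i.1 : ℝ) * (2 / (i.1 : ℝ)) :=
                    mul_le_mul_of_nonneg_left (hq2 i) (by positivity)
                _ = 4 * K * (1 / (i.1 : ℝ) ^ 2) := by field_simp; ring
          _ = 4 * K * ∑ i : {p // p ∈ P}, 1 / ((i.1 : ℕ) : ℝ) ^ 2 := by rw [Finset.mul_sum]
          _ ≤ 4 * K * (1 / W) := mul_le_mul_of_nonneg_left hsq (by positivity)
      calc ∑ j : J, ∑ i : {p // p ∈ P}, c (j, i) * q i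
          ≤ ∑ j : J, 4 * (K : ℝ) * (1 / W) := Finset.sum_le_sum fun j _ => f1 j
        _ = Fintype.card J * (4 * (K : ℝ) * (1 / W)) := by
            rw [Finset.sum_const, nsmul_eq_mul, Finset.card_univ]
        _ ≤ K * (4 * (K : ℝ) * (1 / W)) := mul_le_mul_of_nonneg_right hJ (by positivity)
        _ = 4 * (K : ℝ) ^ 2 / W := by ring
    have e4' : 0 ≤ ∑ a : J × {p // p ∈ P}, c a * q a.2 :=
      Finset.sum_nonneg fun a _ => mul_nonneg (hc0 a) (hq0 a.2)
    have e5 : ∑ a : J × {p // p ∈ P}, c a * c a * q a.2 ≤ 8 * (K : ℝ) ^ 3 * (1 / W) * (1 / W) := by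
      rw [Fintype.sum_prod_type]
      have f1 : ∀ j : J, ∑ i : {p // p ∈ P}, c (j, i) * c (j, i) * q i ≤
          8 * (K : ℝ) ^ 2 * (1 / W) * (1 / W) := by
        intro j
        calc ∑ i : {p // p ∈ P}, c (j, i) * c (j, i) * q i
            ≤ ∑ i : {p // p ∈ P}, 8 * (K : ℝ) ^ 2 * (1 / W) * (1 / ((i.1 : ℕ) : ℝ) ^ 2) := by
              refine Finset.sum_le_sum fun i _ => ?_
              have hi0 := hp0 i
              have hiW : 1 / ((i.1 : ℕ) : ℝ) ≤ 1 / W :=
                one_div_le_one_div_of_le (by linarith) (hpW i)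
              simp only [hc]
              calc 2 * (K : ℝ) / (i.1 : ℝ) * (2 * (K : ℝ) / (i.1 : ℝ)) * q i
                  ≤ 2 * (K : ℝ) / (i.1 : ℝ) * (2 * (K : ℝ) / (i.1 : ℝ)) * (2 / (i.1 : ℝ)) :=
                    mul_le_mul_of_nonneg_left (hq2 i) (by positivity)
                _ = 8 * (K : ℝ) ^ 2 * (1 / (i.1 : ℝ)) * (1 / (i.1 : ℝ) ^ 2) := by field_simp; ring
                _ ≤ 8 * (K : ℝ) ^ 2 * (1 / W) * (1 / (i.1 : ℝ) ^ 2) := by gcongr
          _ = 8 * (K : ℝ) ^ 2 * (1 / W) * ∑ i : {p // p ∈ P}, 1 / ((i.1 : ℕ) : ℝ) ^ 2 := by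
              rw [Finset.mul_sum]
          _ ≤ 8 * (K : ℝ) ^ 2 * (1 / W) * (1 / W) :=
              mul_le_mul_of_nonneg_left hsq (by positivity)
      calc ∑ j : J, ∑ i : {p // p ∈ P}, c (j, i) * c (j, i) * q i
          ≤ ∑ j : J, 8 * (K : ℝ) ^ 2 * (1 / W) * (1 / W) := Finset.sum_le_sum fun j _ => f1 j
        _ = Fintype.card J * (8 * (K : ℝ) ^ 2 * (1 / W) * (1 / W)) := by
            rw [Finset.sum_const, nsmul_eq_mul, Finset.card_univ]
        _ ≤ K * (8 * (K : ℝ) ^ 2 * (1 / W) * (1 / W)) := mul_le_mul_of_nonneg_right hJ (by positivity)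
        _ = 8 * (K : ℝ) ^ 3 * (1 / W) * (1 / W) := by ring
    have e6 : (∑ a : J × {p // p ∈ P}, c a * q a.2) ^ 2 ≤ (4 * (K : ℝ) ^ 2 / W) ^ 2 :=
      pow_le_pow_left₀ e4' e4 2
    set y : ℝ := (K : ℝ) ^ 2 / W with hy
    have hy0 : 0 ≤ y := by positivity
    have hy1 : y ≤ 1 / 4 := by
      rw [hy, div_le_iff₀ (by linarith)]
      linarith
    have e7 : (4 * (K : ℝ) ^ 2 / W) ^ 2 = 16 * y ^ 2 := by rw [hy]; ring
    have e8 : 8 * (K : ℝ) ^ 3 * (1 / W) * (1 / W) ≤ 8 * y ^ 2 := by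
      have : 8 * y ^ 2 = 8 * (K : ℝ) ^ 4 * (1 / W) * (1 / W) := by rw [hy]; ring
      rw [this]
      have h3 : (K : ℝ) ^ 3 ≤ (K : ℝ) ^ 4 := pow_le_pow_right₀ hK1 (by norm_num)
      gcongr
    have e9 : 6 * (K : ℝ) ^ 2 / W = 6 * y := by rw [hy]; ring
    rw [e9]
    rw [e7] at e6
    nlinarith
  refine h1.trans ?_
  have hfin : 52 * (K : ℝ) ^ 2 / W = 52 * ((K : ℝ) ^ 2 / W) := by ring
  have hfin1 : 4 * (K : ℝ) ^ 2 / W = 4 * ((K : ℝ) ^ 2 / W) := by ring
  have hfin2 : 6 * (K : ℝ) ^ 2 / W = 6 * ((K : ℝ) ^ 2 / W) := by ring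
  rw [hfin]
  rw [hfin1] at p1
  rw [hfin2] at p2
  have hyy : 0 ≤ (K : ℝ) ^ 2 / W := by positivity
  linarith

/-- the configuration of a disjoint family -/
theorem tr3_exists_cfg {P : Finset ℕ} (S : J → Finset {p // p ∈ P})
    (h : ∀ j j', j ≠ j' → Disjoint (S j) (S j')) :
    ∃ κ : {p // p ∈ P} → Option J, cfg κ = S := by
  classical
  refine ⟨fun i => if h : ∃ j, i ∈ S j then some h.choose else none, ?_⟩
  funext j
  ext i
  simp only [cfg, Finset.mem_filter, Finset.mem_univ, true_and]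
  constructor
  · intro hi
    by_cases hex : ∃ j, i ∈ S j
    · rw [dif_pos hex] at hi
      have h1 := hex.choose_spec
      rw [Option.some.injEq] at hi
      rwa [hi] at h1
    · rw [dif_neg hex] at hi
      exact absurd hi (by simp)
  · intro hi
    have hex : ∃ j, i ∈ S j := ⟨j, hi⟩
    rw [dif_pos hex]
    congr 1
    by_contra hne
    have h1 := hex.choose_spec
    exact Finset.disjoint_left.mp (h _ _ hne) h1 hi

theorem tr3_cfg_inj {P : Finset ℕ} :
    Function.Injective (cfg : ({p // p ∈ P} → Option J) → J → Finset {p // p ∈ P}) := by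
  intro κ κ' h
  funext i
  have h1 : ∀ j, (κ i = some j ↔ κ' i = some j) := by
    intro j
    have h2 := congrFun h j
    have h3 : i ∈ cfg κ j ↔ i ∈ cfg κ' j := by rw [h2]
    simpa [cfg] using h3
  rcases h4 : κ i with _ | j
  · rcases h5 : κ' i with _ | j'
    · rfl
    · have := (h1 j').mpr h5
      rw [h4] at this
      exact absurd this (by simp)
  · have := (h1 j).mp h4
    rw [this]

theorem tr3_cfg_disj {P : Finset ℕ} (κ : {p // p ∈ P} → Option J) (j j' : J) (h : j ≠ j') :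
    Disjoint (cfg κ j) (cfg κ j') := by
  rw [Finset.disjoint_left]
  intro i hi hi'
  simp only [cfg, Finset.mem_filter, Finset.mem_univ, true_and] at hi hi'
  rw [hi, Option.some.injEq] at hi'
  exact h hi'

/-- From `EP_eq` and `prod_ww_ge`, as `κ ↦ cfg κ` is a bijection onto the `S` with disjoint sets:
`EP F ≥ Σ_S F(S) (1 - K^2/W - loss S) ∏ bw (S j)` (for the `S` with a common prime the bracket is
`≤ 0`; the left side terms are nonnegative). Then `EX_mul_le` and `EX_loss_sq`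
(`√52 ≤ 40`). -/
theorem le_EP (P : Finset ℕ) (W K M : ℕ) (b : J → ℕ) (hF : Forms P W K M b)
    (F : (J → Finset {p // p ∈ P}) → ℝ) (h0 : ∀ S, 0 ≤ F S) :
    (1 - (K : ℝ) ^ 2 / W) * EX (qq P K) F
        - 40 * ((K : ℝ) / Real.sqrt W) * Real.sqrt (EX (qq P K) (fun S => F S ^ 2))
      ≤ EP P M b F := by
  classical
  have hK1 : (1 : ℝ) ≤ K := by exact_mod_cast hF.one_le
  have hW1 : 1 ≤ W := by
    have := hF.KW
    have := hF.one_le
    nlinarith
  have hWr : (1 : ℝ) ≤ W := by exact_mod_cast hW1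
  have hpW : ∀ i : {p // p ∈ P}, (W : ℝ) ≤ i.1 := by
    intro i
    exact_mod_cast (hF.big i.1 i.2).le
  have hKW : 4 * (K : ℝ) ^ 2 ≤ W := by exact_mod_cast hF.KW
  have hp0 : ∀ i : {p // p ∈ P}, (0 : ℝ) < i.1 := fun i => by
    have := hpW i
    linarith
  have hq0 : ∀ i, 0 ≤ qq P K i := qq_nonneg P K
  have hq1 : ∀ i, qq P K i ≤ 1 := by
    intro i
    refine (qq_le P W K hF.one_le hF.KW hF.big i).trans ?_
    rw [div_le_one (hp0 i)]
    have := hpW i
    nlinarith
  have hbw : ∀ S : J → Finset {p // p ∈ P}, 0 ≤ ∏ j, bw (qq P K) (S j) := fun S =>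
    Finset.prod_nonneg fun j _ => bw_nonneg _ hq0 hq1 _
  -- step 1: the sum over the families
  have step1 : EX (qq P K) (fun S : J → Finset {p // p ∈ P} =>
      F S * ((1 - (K : ℝ) ^ 2 / W) - loss P K S)) ≤ EP P M b F := by
    rw [EP_eq P W K M b hF F]
    have e1 : ∑ κ : {p // p ∈ P} → Option J,
        F (cfg κ) * ((1 - (K : ℝ) ^ 2 / W - ∑ j, ∑ p ∈ cfg κ j, 2 * (K : ℝ) / (p.1 : ℝ)) *
          ∏ j, bw (qq P K) (cfg κ j)) ≤
        ∑ κ : {p // p ∈ P} → Option J, F (cfg κ) * ∏ i, ww J i.1 (κ i) :=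
      Finset.sum_le_sum fun κ _ => mul_le_mul_of_nonneg_left (prod_ww_ge P W K M b hF κ) (h0 _)
    refine le_trans ?_ e1
    set g : (J → Finset {p // p ∈ P}) → ℝ := fun S =>
      F S * ((1 - (K : ℝ) ^ 2 / W) - loss P K S) * ∏ j, bw (qq P K) (S j) with hg
    have e2 : ∑ κ : {p // p ∈ P} → Option J, g (cfg κ) =
        ∑ S ∈ (univ : Finset ({p // p ∈ P} → Option J)).image cfg, g S :=
      (Finset.sum_image (fun a _ b _ h => tr3_cfg_inj h)).symm
    have e3 : ∑ κ : {p // p ∈ P} → Option J,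
        F (cfg κ) * ((1 - (K : ℝ) ^ 2 / W - ∑ j, ∑ p ∈ cfg κ j, 2 * (K : ℝ) / (p.1 : ℝ)) *
          ∏ j, bw (qq P K) (cfg κ j)) = ∑ κ : {p // p ∈ P} → Option J, g (cfg κ) := by
      refine Finset.sum_congr rfl fun κ _ => ?_
      simp only [hg]
      have : loss P K (cfg κ) = ∑ j, ∑ p ∈ cfg κ j, 2 * (K : ℝ) / (p.1 : ℝ) := by
        unfold loss
        rw [if_neg, zero_add]
        rintro ⟨j, j', hjj, hd⟩
        exact hd (tr3_cfg_disj κ j j' hjj)
      rw [this]
      ring
    rw [e3, e2]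
    have e4 : EX (qq P K) (fun S : J → Finset {p // p ∈ P} =>
        F S * ((1 - (K : ℝ) ^ 2 / W) - loss P K S)) = ∑ S, g S := rfl
    rw [e4, ← Finset.sum_sdiff (Finset.subset_univ
      ((univ : Finset ({p // p ∈ P} → Option J)).image cfg))]
    have e5 : ∑ S ∈ univ \ (univ : Finset ({p // p ∈ P} → Option J)).image cfg, g S ≤ 0 := by
      refine Finset.sum_nonpos fun S hS => ?_
      rw [Finset.mem_sdiff, Finset.mem_image] at hS
      have hex : ∃ j j', j ≠ j' ∧ ¬ Disjoint (S j) (S j') := by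
        by_contra hcon
        push Not at hcon
        obtain ⟨κ, hκ⟩ := tr3_exists_cfg S hcon
        exact hS.2 ⟨κ, Finset.mem_univ _, hκ⟩
      have hl : 1 ≤ loss P K S := by
        unfold loss
        rw [if_pos hex]
        have : 0 ≤ ∑ j, ∑ p ∈ S j, 2 * (K : ℝ) / (p.1 : ℝ) :=
          Finset.sum_nonneg fun j _ => Finset.sum_nonneg fun p _ => by positivity
        linarith
      have hKW0 : 0 ≤ (K : ℝ) ^ 2 / W := by positivity
      simp only [hg]
      refine mul_nonpos_of_nonpos_of_nonneg ?_ (hbw S)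
      exact mul_nonpos_of_nonneg_of_nonpos (h0 S) (by linarith)
    linarith
  refine le_trans ?_ step1
  have e6 : EX (qq P K) (fun S : J → Finset {p // p ∈ P} =>
      F S * ((1 - (K : ℝ) ^ 2 / W) - loss P K S)) =
      (1 - (K : ℝ) ^ 2 / W) * EX (qq P K) F - EX (qq P K) (fun S => F S * loss P K S) := by
    unfold EX
    rw [Finset.mul_sum, ← Finset.sum_sub_distrib]
    exact Finset.sum_congr rfl fun S _ => by ring
  rw [e6]
  have e7 := EX_mul_le (qq P K) hq0 hq1 F (fun S : J → Finset {p // p ∈ P} => loss P K S)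
  have e8 := EX_loss_sq P W K M b hF
  have e9 : Real.sqrt (EX (qq P K) (fun S : J → Finset {p // p ∈ P} => loss P K S ^ 2)) ≤
      40 * ((K : ℝ) / Real.sqrt W) := by
    rw [Real.sqrt_le_left (by positivity)]
    refine e8.trans ?_
    rw [mul_pow, div_pow, Real.sq_sqrt (by linarith)]
    have : 52 * (K : ℝ) ^ 2 / W = 52 * ((K : ℝ) ^ 2 / W) := by ring
    rw [this]
    have : 0 ≤ (K : ℝ) ^ 2 / W := by positivity
    nlinarith
  have e10 := mul_le_mul_of_nonneg_left e9
    (Real.sqrt_nonneg (EX (qq P K) (fun S : J → Finset {p // p ∈ P} => F S ^ 2)))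
  linarith

end Pool.Agent.Lib.H15P
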