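import Pool.Agent.Lib.H15P.WIN1
import Pool.Agent.Lib.H15P.TR3
import Pool.Agent.Lib.H15P.LV1
import Pool.Agent.Lib.H15P.PB6

/-!
# Chunk WIN2: mean value and mean square of the weight
-/

open Finset

namespace Pool.Agent.Lib.H15P

theorem win2_Qpos (w : WD) : 0 < ∏ p ∈ w.P, p :=
  Finset.prod_pos fun p hp => (w.prime p hp).pos

theorem win2_ZZ (w : WD) (k : ℕ) : 1 ≤ ZZ (qq w.P (2 * w.K)) w.D k := one_le_ZZ _ _ _ w.good _

theorem win2_GG (w : WD) (i : Fin w.n) : 0 ≤ GG (qq w.P (2 * w.K)) w.D (some i) :=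
  GG_nonneg _ _ _ w.good _

theorem win2_C (w : WD) : 1 ≤ w.C := by
  refine le_trans ?_ w.hC
  apply Real.one_le_exp
  have := w.h0
  positivity

/-- the constants: `2 lv^k ≤ e Y/2` for `k ≤ 4`, also `2 K lv^k ≤ e Y/2` -/
theorem win2_err (w : WD) (Y : ℕ) (hY : 4 * w.K * w.lv ^ 4 ≤ w.e * Y) (k : ℕ) (hk : k ≤ 4) :
    2 * w.K * w.lv ^ k ≤ w.e * Y / 2 ∧ 2 * w.lv ^ k ≤ w.e * Y / 2 := by
  have h1 : w.lv ^ k ≤ w.lv ^ 4 := pow_le_pow_right₀ w.lv1 hk
  have h2 : (1 : ℝ) ≤ w.K := by exact_mod_cast w.Kpos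
  have h3 : 0 ≤ w.lv ^ k := pow_nonneg (zero_le_one.trans w.lv1) k
  have h4 : (w.K : ℝ) * w.lv ^ k ≤ w.K * w.lv ^ 4 := mul_le_mul_of_nonneg_left h1 (by linarith)
  have h5 : w.lv ^ k ≤ w.K * w.lv ^ k := le_mul_of_one_le_left h3 h2
  constructor <;> linarith

/-- the weight of one window -/
theorem win2_om (w : WD) (M : ℕ) (B : Finset ℕ) (t : ℕ) :
    w.om (B.image (fun b => b + M * t)) =
      (LL w.D w.m (univ : Finset {b // b ∈ B}) (fun j => hit w.P (j.1 + M * t))) ^ 2 /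
        ZZ (qq w.P (2 * w.K)) w.D B.card := by
  have h1 := w.om_image (fun j : {b // b ∈ B} => j.1 + M * t)
    (fun a b hab => Subtype.ext (Nat.add_right_cancel hab)) univ
  have h2 : (univ : Finset {b // b ∈ B}).image (fun j : {b // b ∈ B} => j.1 + M * t) =
      B.image (fun b => b + M * t) := by
    ext x
    simp only [Finset.mem_image, Finset.mem_univ, true_and]
    constructor
    · rintro ⟨a, ha⟩
      exact ⟨a.1, a.2, ha⟩
    · rintro ⟨a, haB, ha⟩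
      exact ⟨⟨a, haB⟩, ha⟩
  rw [h2] at h1
  rw [h1, Finset.card_univ, Fintype.card_coe]

/-- incomplete sums of a function of the configuration -/
theorem win2_avg (w : WD) (M : ℕ) {J : Type} [Fintype J] [DecidableEq J] (b : J → ℕ)
    (F : (J → Finset {p // p ∈ w.P}) → ℝ) (L : ℝ)
    (hL : Lev (∏ p ∈ w.P, p) (fun t => F (fun j => hit w.P (b j + M * t))) L) (Y0 Y : ℕ) :
    |∑ t ∈ Ico Y0 (Y0 + Y), F (fun j => hit w.P (b j + M * t)) - Y * EP w.P M b F| ≤ 2 * L :=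
  Lev.avg (win2_Qpos w) hL Y0 Y

theorem win2_EP_le (w : WD) (M : ℕ) {J : Type} [Fintype J] [DecidableEq J] (b : J → ℕ)
    (hF : Forms w.P w.W (2 * w.K) M b)
    (F : (J → Finset {p // p ∈ w.P}) → ℝ) (h0 : ∀ S, 0 ≤ F S) :
    EP w.P M b F ≤ (1 + w.e) * EX (qq w.P (2 * w.K)) F :=
  (EP_le w.P w.W (2 * w.K) M b hF F h0).trans
    (mul_le_mul_of_nonneg_right w.hKW (EX_nonneg _ w.good.q0 w.good.q1 F h0))

theorem win2_four (w : WD) {J : Type} [Fintype J] [DecidableEq J] (B : Finset J)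
    (hB : B.card ≤ w.K) :
    EX (qq w.P (2 * w.K)) (fun S : J → Finset {p // p ∈ w.P} => LL w.D w.m B S ^ 4) ≤ w.C := by
  refine (EX_LL_four_le _ _ _ w.good w.h0 w.m B).trans (le_trans ?_ w.hC)
  apply Real.exp_le_exp.2
  rw [Fintype.card_fin]
  have h1 : (B.card : ℝ) ≤ w.K := by exact_mod_cast hB
  have h2 := w.h0
  exact mul_le_mul_of_nonneg_left h1 (by positivity)

/-- Mean value. `J = {b // b ∈ B}`, `om_image` with `E j = j + M t`; the function
`t ↦ LL^2` has level `lv^2` (`Lev.avg`: error `2 lv^2 ≤ e Y/2`), its mean over a period is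
`EP (LL^2)`, between `(1 - e) EX - e` (`le_EP`, `EX_LL_four_le`, `hC`, `hKW2`, `hKW3`) and
`(1 + e) EX` (`EP_le`, `hKW`), and `(1 - e) ZZ ≤ EX ≤ ZZ` (`le_EX_LL_sq`, `hm`, `hR`,
`EX_LL_sq_le`), `ZZ ≥ 1`. -/
theorem WD.win_mean (w : WD) (M : ℕ) (hM : ∀ p ∈ w.P, ¬ p ∣ M) (B : Finset ℕ)
    (hB : B.card ≤ w.K) (hd : ∀ b ∈ B, ∀ b' ∈ B, b ≤ b' + w.W) (Y0 Y : ℕ)
    (hY : 4 * w.K * w.lv ^ 4 ≤ w.e * Y) :
    (1 - 4 * w.e) * Y ≤ ∑ t ∈ Ico Y0 (Y0 + Y), w.om (B.image (fun b => b + M * t)) ∧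
      ∑ t ∈ Ico Y0 (Y0 + Y), w.om (B.image (fun b => b + M * t)) ≤ (1 + 3 * w.e) * Y := by
  have hF := w.forms M hM B (by omega) hd
  have hcard : (univ : Finset {b // b ∈ B}).card = B.card := by
    rw [Finset.card_univ, Fintype.card_coe]
  set Z := ZZ (qq w.P (2 * w.K)) w.D B.card with hZ
  have hZ1 : 1 ≤ Z := win2_ZZ w _
  set F : ({b // b ∈ B} → Finset {p // p ∈ w.P}) → ℝ := fun S => LL w.D w.m univ S ^ 2 with hFdef
  have hF0 : ∀ S, 0 ≤ F S := fun S => sq_nonneg _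
  have hsum : ∑ t ∈ Ico Y0 (Y0 + Y), w.om (B.image (fun b => b + M * t)) =
      (∑ t ∈ Ico Y0 (Y0 + Y), F (fun j => hit w.P (j.1 + M * t))) / Z := by
    rw [Finset.sum_div]
    exact Finset.sum_congr rfl fun t _ => win2_om w M B t
  have hlev : Lev (∏ p ∈ w.P, p) (fun t => F (fun j => hit w.P (j.1 + M * t))) (w.lv ^ 2) :=
    Lev.pow (win2_Qpos w) (w.levL {b // b ∈ B} univ M (fun j => j.1)
      (by rw [Fintype.card_coe]; omega)) 2
  have havg := win2_avg w M (fun j : {b // b ∈ B} => j.1) F (w.lv ^ 2) hlev Y0 Y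
  have herr := (win2_err w Y hY 2 (by norm_num)).2
  have hup := win2_EP_le w M (fun j : {b // b ∈ B} => j.1) hF F hF0
  have hEX1 : EX (qq w.P (2 * w.K)) F ≤ Z := by
    have := EX_LL_sq_le (qq w.P (2 * w.K)) w.D w.h w.good w.m (univ : Finset {b // b ∈ B})
    rw [hcard] at this
    exact this
  have hEX2 : (1 - w.e) * Z ≤ EX (qq w.P (2 * w.K)) F := by
    have h1 := le_EX_LL_sq (qq w.P (2 * w.K)) w.D w.h w.good w.m (univ : Finset {b // b ∈ B}) w.R
      (by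
        intro i
        refine le_trans ?_ (w.hm i)
        rw [hcard]
        have h2 : (B.card : ℝ) ≤ w.K := by exact_mod_cast hB
        have h3 := win2_GG w i
        have h4 := mul_le_mul_of_nonneg_right h2 h3
        linarith)
    rw [hcard, Fintype.card_fin] at h1
    refine le_trans ?_ h1
    apply mul_le_mul_of_nonneg_right _ (by linarith)
    have := w.hR
    linarith
  have hlow : (1 - w.e) * EX (qq w.P (2 * w.K)) F - w.e ≤ EP w.P M (fun j : {b // b ∈ B} => j.1) F := by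
    refine le_trans ?_ (le_EP w.P w.W (2 * w.K) M _ hF F hF0)
    have h1 : EX (qq w.P (2 * w.K)) (fun S => F S ^ 2) ≤ w.C := by
      have := win2_four w (univ : Finset {b // b ∈ B}) (by rw [hcard]; exact hB)
      refine le_trans (le_of_eq ?_) this
      congr 1
      funext S
      rw [hFdef]
      ring
    have h2 := Real.sqrt_le_sqrt h1
    have h3 := w.hKW3
    have h4 := w.hKW2
    have h5 : 0 ≤ EX (qq w.P (2 * w.K)) F := EX_nonneg _ w.good.q0 w.good.q1 F hF0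
    have h6 : 40 * (((2 * w.K : ℕ) : ℝ) / Real.sqrt w.W) *
        Real.sqrt (EX (qq w.P (2 * w.K)) (fun S => F S ^ 2)) ≤ w.e := by
      refine le_trans (mul_le_mul_of_nonneg_left h2 ?_) h3
      positivity
    have h7 : (((2 * w.K : ℕ) : ℝ) ^ 2 / w.W) * EX (qq w.P (2 * w.K)) F ≤
        w.e * EX (qq w.P (2 * w.K)) F := mul_le_mul_of_nonneg_right h4 h5
    linarith
  have he0 := w.e0
  have he1 := w.e1
  have hYr : (0 : ℝ) ≤ Y := Nat.cast_nonneg Y
  rw [abs_le] at havg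
  obtain ⟨ha1, ha2⟩ := havg
  have hZpos : 0 < Z := by linarith
  have hEP_up : EP w.P M (fun j : {b // b ∈ B} => j.1) F ≤ (1 + w.e) * Z :=
    hup.trans (mul_le_mul_of_nonneg_left hEX1 (by linarith))
  have hEP_low : (1 - 3 * w.e) * Z ≤ EP w.P M (fun j : {b // b ∈ B} => j.1) F := by
    have h1 : (1 - w.e) * ((1 - w.e) * Z) ≤ (1 - w.e) * EX (qq w.P (2 * w.K)) F :=
      mul_le_mul_of_nonneg_left hEX2 (by linarith)
    have h2 : 0 ≤ w.e ^ 2 * Z := by positivity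
    have h3 : w.e * 1 ≤ w.e * Z := mul_le_mul_of_nonneg_left hZ1 he0.le
    nlinarith
  have h8 := mul_le_mul_of_nonneg_left hEP_up hYr
  have h9 := mul_le_mul_of_nonneg_left hEP_low hYr
  have h10 : w.e * Y * 1 ≤ w.e * Y * Z := mul_le_mul_of_nonneg_left hZ1 (by positivity)
  rw [hsum]
  constructor
  · rw [le_div_iff₀ hZpos]
    nlinarith
  · rw [div_le_iff₀ hZpos]
    nlinarith

/-- Mean square: `LL^4` has level `lv^4`, `EP (LL^4) ≤ (1 + e) C`, `ZZ ≥ 1`, `C ≥ 1`. -/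
theorem WD.win_sq (w : WD) (M : ℕ) (hM : ∀ p ∈ w.P, ¬ p ∣ M) (B : Finset ℕ)
    (hB : B.card ≤ w.K) (hd : ∀ b ∈ B, ∀ b' ∈ B, b ≤ b' + w.W) (Y0 Y : ℕ)
    (hY : 4 * w.K * w.lv ^ 4 ≤ w.e * Y) :
    ∑ t ∈ Ico Y0 (Y0 + Y), w.om (B.image (fun b => b + M * t)) ^ 2 ≤ 2 * w.C * Y := by
  have hF := w.forms M hM B (by omega) hd
  have hcard : (univ : Finset {b // b ∈ B}).card = B.card := by
    rw [Finset.card_univ, Fintype.card_coe]
  set Z := ZZ (qq w.P (2 * w.K)) w.D B.card with hZ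
  have hZ1 : 1 ≤ Z := win2_ZZ w _
  set F : ({b // b ∈ B} → Finset {p // p ∈ w.P}) → ℝ := fun S => LL w.D w.m univ S ^ 4 with hFdef
  have hF0 : ∀ S, 0 ≤ F S := fun S => by
    rw [hFdef]
    positivity
  have hsum : ∑ t ∈ Ico Y0 (Y0 + Y), w.om (B.image (fun b => b + M * t)) ^ 2 ≤
      ∑ t ∈ Ico Y0 (Y0 + Y), F (fun j => hit w.P (j.1 + M * t)) := by
    refine Finset.sum_le_sum fun t _ => ?_
    rw [win2_om w M B t, div_pow, ← hZ]
    have h1 : ((LL w.D w.m (univ : Finset {b // b ∈ B}) (fun j => hit w.P (j.1 + M * t))) ^ 2) ^ 2 =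
        F (fun j => hit w.P (j.1 + M * t)) := by
      rw [hFdef]
      ring
    rw [h1]
    exact div_le_self (hF0 _) (one_le_pow₀ hZ1)
  have hlev : Lev (∏ p ∈ w.P, p) (fun t => F (fun j => hit w.P (j.1 + M * t))) (w.lv ^ 4) :=
    Lev.pow (win2_Qpos w) (w.levL {b // b ∈ B} univ M (fun j => j.1)
      (by rw [Fintype.card_coe]; omega)) 4
  have havg := win2_avg w M (fun j : {b // b ∈ B} => j.1) F (w.lv ^ 4) hlev Y0 Y
  have herr := (win2_err w Y hY 4 le_rfl).2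
  have hup := win2_EP_le w M (fun j : {b // b ∈ B} => j.1) hF F hF0
  have hEX : EX (qq w.P (2 * w.K)) F ≤ w.C :=
    win2_four w (univ : Finset {b // b ∈ B}) (by rw [hcard]; exact hB)
  have he0 := w.e0
  have he1 := w.e1
  have hC := win2_C w
  have hYr : (0 : ℝ) ≤ Y := Nat.cast_nonneg Y
  rw [abs_le] at havg
  obtain ⟨ha1, ha2⟩ := havg
  have h1 : EP w.P M (fun j : {b // b ∈ B} => j.1) F ≤ (1 + w.e) * w.C :=
    hup.trans (mul_le_mul_of_nonneg_left hEX (by linarith))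
  have h2 := mul_le_mul_of_nonneg_left h1 hYr
  have h3 : w.e * Y * 1 ≤ w.e * Y * w.C := mul_le_mul_of_nonneg_left hC (by positivity)
  have h4 : (w.e * Y) * w.C ≤ (1 / 10 * Y) * w.C := by
    apply mul_le_mul_of_nonneg_right _ (by linarith)
    exact mul_le_mul_of_nonneg_right he1 hYr
  have h5 : 0 ≤ Y * w.C := by positivity
  refine hsum.trans ?_
  nlinarith

end Pool.Agent.Lib.H15P
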