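import Pool.Agent.Lib.H15P.Defs

/-!
# Chunk PB5: `LL` at a configuration where no prime divides the form `j0`
-/

open Finset

namespace Pool.Agent.Lib.H15P

variable {ι J I : Type} [Fintype J] [DecidableEq J] [Fintype I] [DecidableEq I]

theorem pb5_cnt (l : J → Option I) (j0 : J) (i : I) :
    cnt l i = (if l j0 = some i then 1 else 0) +
      ∑ j ∈ univ.erase j0, if l j = some i then 1 else 0 := by
  unfold cnt
  rw [Finset.card_filter, ← Finset.add_sum_erase univ _ (Finset.mem_univ j0)]

theorem pb5_cnt_update (l : J → Option I) (j0 : J) (hl : l j0 = none) (o : Option I) (i : I) :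
    cnt (Function.update l j0 o) i = (if o = some i then 1 else 0) + cnt l i := by
  have h0 : (if (none : Option I) = some i then 1 else 0) = 0 := if_neg (by simp)
  rw [pb5_cnt _ j0, pb5_cnt l j0, Function.update_self, hl, h0, zero_add]
  congr 1
  refine Finset.sum_congr rfl fun j hj => ?_
  rw [Function.update_of_ne (Finset.ne_of_mem_erase hj)]

theorem pb5_prod_update (D : I → Finset ι → ℝ) (l : J → Option I) (j0 : J) (o : Option I)
    (S : J → Finset ι) (hl : l j0 = none) :
    ∏ j, dd D (Function.update l j0 o j) (S j) = dd D o (S j0) * ∏ j, dd D (l j) (S j) := by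
  rw [← Finset.mul_prod_erase univ (fun j => dd D (Function.update l j0 o j) (S j))
      (Finset.mem_univ j0),
    ← Finset.mul_prod_erase univ (fun j => dd D (l j) (S j)) (Finset.mem_univ j0),
    Function.update_self, hl]
  have h1 : ∏ j ∈ univ.erase j0, dd D (Function.update l j0 o j) (S j) =
      ∏ j ∈ univ.erase j0, dd D (l j) (S j) := by
    refine Finset.prod_congr rfl fun j hj => ?_
    rw [Function.update_of_ne (Finset.ne_of_mem_erase hj)]
  rw [h1]
  have h2 : dd D (none : Option I) (S j0) = 1 := rfl
  rw [h2, one_mul]

/-- Group the labelings `l ∈ adm B m` by `l'` = `l` with `l j0` replaced by `none`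
(`l' ∈ adm (B.erase j0) m`). For given `l'` the possible values of `l j0` are `none` and the
`some i` with `cnt l' i < m i`; all factors `dd D (some i) ∅ = -1/|I|`. The sum of the factors is
`1 - #{i : cnt l' i < m i}/|I| = #{i : cnt l' i = m i}/|I| = sat m l'`. (`Function.update l' j0 o`;
`cnt (update l' j0 (some i)) i = cnt l' i + 1`, the other counts do not change.) -/
theorem LL_eq_LP (D : I → Finset ι → ℝ) (hD : ∀ i, D i ∅ = 1) (hI : 0 < Fintype.card I)
    (m : I → ℕ) (B : Finset J) (j0 : J) (hj0 : j0 ∈ B) (S : J → Finset ι) (hS : S j0 = ∅) :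
    LL D m B S = LP D m (B.erase j0) S := by
  have hmem : ∀ (B : Finset J) (l : J → Option I), l ∈ adm B m ↔
      (∀ j, j ∉ B → l j = none) ∧ ∀ i, cnt l i ≤ m i := by
    intro B l
    simp [adm]
  unfold LL LP
  have hmaps : ∀ l ∈ adm B m, Function.update l j0 none ∈ adm (B.erase j0) m := by
    intro l hl
    rw [hmem] at hl ⊢
    constructor
    · intro j hj
      by_cases h : j = j0
      · rw [h, Function.update_self]
      · rw [Function.update_of_ne h]
        exact hl.1 j (fun hjB => hj (Finset.mem_erase.2 ⟨h, hjB⟩))
    · intro i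
      refine le_trans ?_ (hl.2 i)
      rw [pb5_cnt _ j0, pb5_cnt l j0, Function.update_self, if_neg (by simp), zero_add]
      refine le_trans (le_of_eq ?_) (Nat.le_add_left _ _)
      refine Finset.sum_congr rfl fun j hj => ?_
      rw [Function.update_of_ne (Finset.ne_of_mem_erase hj)]
  rw [← Finset.sum_fiberwise_of_maps_to hmaps]
  refine Finset.sum_congr rfl fun l' hl' => ?_
  rw [hmem] at hl'
  have hn : l' j0 = none := hl'.1 j0 (Finset.notMem_erase j0 B)
  have h1 : ∑ l ∈ (adm B m).filter (fun l => Function.update l j0 none = l'),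
      ∏ j, dd D (l j) (S j) =
      ∑ o ∈ (univ : Finset (Option I)).filter (fun o => ∀ i, o = some i → cnt l' i < m i),
        dd D o ∅ * ∏ j, dd D (l' j) (S j) := by
    symm
    refine Finset.sum_bij (fun o _ => Function.update l' j0 o) ?_ ?_ ?_ ?_
    · intro o ho
      rw [Finset.mem_filter] at ho
      rw [Finset.mem_filter, hmem]
      refine ⟨⟨?_, ?_⟩, ?_⟩
      · intro j hj
        have hne : j ≠ j0 := fun h => hj (h ▸ hj0)
        rw [Function.update_of_ne hne]
        exact hl'.1 j (fun h => hj (Finset.mem_of_mem_erase h))
      · intro i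
        rw [pb5_cnt_update l' j0 hn]
        by_cases h : o = some i
        · have := ho.2 i h
          rw [if_pos h]
          omega
        · rw [if_neg h, zero_add]
          exact hl'.2 i
      · rw [Function.update_idem, ← hn, Function.update_eq_self]
    · intro o1 _ o2 _ h
      have := congrFun h j0
      simpa using this
    · intro l hl
      rw [Finset.mem_filter, hmem] at hl
      obtain ⟨⟨_, h3⟩, h4⟩ := hl
      have h5 : Function.update l' j0 (l j0) = l := by
        rw [← h4, Function.update_idem, Function.update_eq_self]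
      refine ⟨l j0, ?_, h5⟩
      rw [Finset.mem_filter]
      refine ⟨Finset.mem_univ _, ?_⟩
      intro i hi
      have h6 := h3 i
      rw [← h5, pb5_cnt_update l' j0 hn, if_pos hi] at h6
      omega
    · intro o _
      rw [pb5_prod_update D l' j0 o S hn, hS]
  rw [h1, ← Finset.sum_mul]
  congr 1
  have h2 : (univ : Finset (Option I)).filter (fun o => ∀ i, o = some i → cnt l' i < m i) =
      insert none (((univ : Finset I).filter (fun i => cnt l' i < m i)).image some) := by
    ext o
    cases o with
    | none => simp
    | some i =>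
      simp
  rw [h2, Finset.sum_insert (by simp), Finset.sum_image (by
    intro a _ b _ hab
    exact Option.some_injective _ hab)]
  have h3 : ∀ i, dd D (some i) ∅ = - 1 / (Fintype.card I : ℝ) := by
    intro i
    have : dd D (some i) ∅ = - (D i ∅) / (Fintype.card I : ℝ) := rfl
    rw [this, hD i]
  have h4 : dd D (none : Option I) (∅ : Finset ι) = 1 := rfl
  rw [h4, Finset.sum_congr rfl (fun i _ => h3 i), Finset.sum_const, nsmul_eq_mul]
  unfold sat
  have h5 : (((univ : Finset I).filter (fun i => cnt l' i < m i)).card : ℝ) +
      (((univ : Finset I).filter (fun i => cnt l' i = m i)).card : ℝ) = Fintype.card I := by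
    have h6 := Finset.card_filter_add_card_filter_not (s := (univ : Finset I))
      (fun i => cnt l' i < m i)
    have h7 : (univ : Finset I).filter (fun i => ¬ cnt l' i < m i) =
        (univ : Finset I).filter (fun i => cnt l' i = m i) := by
      refine Finset.filter_congr fun i _ => ?_
      have := hl'.2 i
      omega
    rw [h7, Finset.card_univ] at h6
    exact_mod_cast h6
  have hI' : (Fintype.card I : ℝ) ≠ 0 := by
    have : (0 : ℝ) < Fintype.card I := by exact_mod_cast hI
    exact this.ne'
  field_simp
  linarith

end Pool.Agent.Lib.H15P
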