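import Pool.Agent.Lib.H15P.PB1

/-!
# Chunk PB7: two disjoint sets of forms
-/

open Finset

namespace Pool.Agent.Lib.H15P

variable {ι J I : Type} [Fintype ι] [DecidableEq ι] [Fintype J] [DecidableEq J]
  [Fintype I] [DecidableEq I]

omit [Fintype ι] [DecidableEq ι] in
theorem PB7_sq (D : I → Finset ι → ℝ) (m : I → ℕ) (B : Finset J) (S : J → Finset ι) :
    LL D m B S ^ 2 = ∑ p ∈ adm B m ×ˢ adm B m,
      ∏ j, (dd D (p.1 j) (S j) * dd D (p.2 j) (S j)) := by
  unfold LL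
  rw [sq, sum_mul_sum, sum_product]
  refine sum_congr rfl fun l _ => sum_congr rfl fun l' _ => ?_
  rw [prod_mul_distrib]

omit [Fintype ι] [DecidableEq ι] in
theorem PB7_one (D : I → Finset ι → ℝ) (m : I → ℕ) {B : Finset J}
    {p : (J → Option I) × (J → Option I)} (hp : p ∈ adm B m ×ˢ adm B m) {j : J} (hj : j ∉ B)
    (A : Finset ι) : dd D (p.1 j) A * dd D (p.2 j) A = 1 := by
  obtain ⟨h1, h2⟩ := mem_product.1 hp
  rw [(mem_filter.1 h1).2.1 j hj, (mem_filter.1 h2).2.1 j hj]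
  simp [dd]

/-- `LL D m B1 S ^ 2` is a sum of products `∏_j F_j(S j)` with `F_j = 1` for `j ∉ B1`, similarly for
`B2`. Expand both squares, `EX_prod`, and for each `j` one of the two factors is the constant `1`
(`ex_one`), so `ex (F_j G_j) = ex F_j * ex G_j`. -/
theorem EX_LL_sq_mul (q : ι → ℝ) (D : I → Finset ι → ℝ) (m : I → ℕ) (B1 B2 : Finset J)
    (hB : Disjoint B1 B2) :
    EX q (fun S : J → Finset ι => LL D m B1 S ^ 2 * LL D m B2 S ^ 2)
      = EX q (fun S : J → Finset ι => LL D m B1 S ^ 2) *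
        EX q (fun S : J → Finset ι => LL D m B2 S ^ 2) := by
  have h1 : ∀ B : Finset J, EX q (fun S : J → Finset ι => LL D m B S ^ 2) =
      ∑ p ∈ adm B m ×ˢ adm B m, ∏ j, ex q (fun A => dd D (p.1 j) A * dd D (p.2 j) A) := by
    intro B
    simp only [PB7_sq]
    rw [EX_sum]
    refine sum_congr rfl fun p _ => ?_
    exact EX_prod q (fun j A => dd D (p.1 j) A * dd D (p.2 j) A)
  have h2 : ∀ S : J → Finset ι, LL D m B1 S ^ 2 * LL D m B2 S ^ 2 =
      ∑ p ∈ adm B1 m ×ˢ adm B1 m, ∑ r ∈ adm B2 m ×ˢ adm B2 m,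
        ∏ j, ((dd D (p.1 j) (S j) * dd D (p.2 j) (S j)) *
          (dd D (r.1 j) (S j) * dd D (r.2 j) (S j))) := by
    intro S
    rw [PB7_sq, PB7_sq, sum_mul_sum]
    refine sum_congr rfl fun p _ => sum_congr rfl fun r _ => ?_
    rw [← prod_mul_distrib]
  simp only [h2]
  rw [EX_sum, h1 B1, h1 B2, sum_mul_sum]
  refine sum_congr rfl fun p hp => ?_
  rw [EX_sum]
  refine sum_congr rfl fun r hr => ?_
  rw [EX_prod q (fun j A => (dd D (p.1 j) A * dd D (p.2 j) A) *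
    (dd D (r.1 j) A * dd D (r.2 j) A)), ← prod_mul_distrib]
  refine prod_congr rfl fun j _ => ?_
  by_cases hj : j ∈ B1
  · have hj2 : j ∉ B2 := disjoint_left.1 hB hj
    simp only [PB7_one D m hr hj2, mul_one, ex_one]
  · simp only [PB7_one D m hp hj, one_mul, ex_one]

end Pool.Agent.Lib.H15P
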