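import Pool.Agent.Lib.H15P.Defs

/-!
# Chunk PB1: expectations
-/

open Finset

namespace Pool.Agent.Lib.H15P

variable {ι J : Type} [Fintype ι] [DecidableEq ι] [Fintype J] [DecidableEq J]

theorem bw_nonneg (q : ι → ℝ) (h0 : ∀ i, 0 ≤ q i) (h1 : ∀ i, q i ≤ 1) (A : Finset ι) :
    0 ≤ bw q A := by
  unfold bw
  refine prod_nonneg fun i _ => ?_
  split_ifs
  · exact h0 i
  · linarith [h1 i]

/-- `∏ (q i + (1 - q i)) = 1` (`Finset.prod_add`). -/
theorem sum_bw (q : ι → ℝ) : ∑ A : Finset ι, bw q A = 1 := by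
  have h := Finset.prod_add (fun i => q i) (fun i => 1 - q i) (univ : Finset ι)
  have h1 : ∏ i : ι, (q i + (1 - q i)) = 1 := prod_eq_one fun i _ => by ring
  rw [h1, powerset_univ] at h
  rw [h]
  refine sum_congr rfl fun A _ => ?_
  unfold bw
  rw [← prod_mul_prod_compl A (fun i => if i ∈ A then q i else 1 - q i), compl_eq_univ_sdiff]
  congr 1
  · exact prod_congr rfl fun i hi => by rw [if_pos hi]
  · exact prod_congr rfl fun i hi => by rw [if_neg (mem_sdiff.1 hi).2]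

theorem ex_one (q : ι → ℝ) : ex q (fun _ => 1) = 1 := by
  unfold ex
  simp only [one_mul]
  exact sum_bw q

theorem ex_const_mul (q : ι → ℝ) (c : ℝ) (F : Finset ι → ℝ) :
    ex q (fun A => c * F A) = c * ex q F := by
  unfold ex
  rw [mul_sum]
  exact sum_congr rfl fun A _ => by ring

theorem ex_add (q : ι → ℝ) (F G : Finset ι → ℝ) :
    ex q (fun A => F A + G A) = ex q F + ex q G := by
  unfold ex
  rw [← sum_add_distrib]
  exact sum_congr rfl fun A _ => by ring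

theorem ex_mono (q : ι → ℝ) (h0 : ∀ i, 0 ≤ q i) (h1 : ∀ i, q i ≤ 1) (F G : Finset ι → ℝ)
    (h : ∀ A, F A ≤ G A) : ex q F ≤ ex q G := by
  unfold ex
  exact sum_le_sum fun A _ => mul_le_mul_of_nonneg_right (h A) (bw_nonneg q h0 h1 A)

theorem ex_nonneg (q : ι → ℝ) (h0 : ∀ i, 0 ≤ q i) (h1 : ∀ i, q i ≤ 1) (F : Finset ι → ℝ)
    (h : ∀ A, 0 ≤ F A) : 0 ≤ ex q F := by
  unfold ex
  exact sum_nonneg fun A _ => mul_nonneg (h A) (bw_nonneg q h0 h1 A)

/-- Independence (`Finset.prod_univ_sum`, `Fintype.piFinset_univ`). -/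
theorem EX_prod (q : ι → ℝ) (F : J → Finset ι → ℝ) :
    EX q (fun S : J → Finset ι => ∏ j, F j (S j)) = ∏ j, ex q (F j) := by
  unfold EX ex
  rw [Finset.prod_univ_sum, Fintype.piFinset_univ]
  exact sum_congr rfl fun S _ => by rw [prod_mul_distrib]

theorem EX_one (q : ι → ℝ) : EX q (fun _ : J → Finset ι => 1) = 1 := by
  have h := EX_prod (J := J) q (fun _ _ => 1)
  simp only [prod_const_one] at h
  rw [h]
  exact prod_eq_one fun j _ => ex_one q

theorem EX_sum {α : Type} (q : ι → ℝ) (s : Finset α) (F : α → (J → Finset ι) → ℝ) :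
    EX q (fun S => ∑ a ∈ s, F a S) = ∑ a ∈ s, EX q (F a) := by
  unfold EX
  rw [sum_comm]
  exact sum_congr rfl fun S _ => by rw [sum_mul]

theorem EX_const_mul (q : ι → ℝ) (c : ℝ) (F : (J → Finset ι) → ℝ) :
    EX q (fun S => c * F S) = c * EX q F := by
  unfold EX
  rw [mul_sum]
  exact sum_congr rfl fun A _ => by ring

theorem EX_mono (q : ι → ℝ) (h0 : ∀ i, 0 ≤ q i) (h1 : ∀ i, q i ≤ 1)
    (F G : (J → Finset ι) → ℝ) (h : ∀ S, F S ≤ G S) : EX q F ≤ EX q G := by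
  unfold EX
  exact sum_le_sum fun S _ => mul_le_mul_of_nonneg_right (h S)
    (prod_nonneg fun j _ => bw_nonneg q h0 h1 (S j))

theorem EX_nonneg (q : ι → ℝ) (h0 : ∀ i, 0 ≤ q i) (h1 : ∀ i, q i ≤ 1)
    (F : (J → Finset ι) → ℝ) (h : ∀ S, 0 ≤ F S) : 0 ≤ EX q F := by
  unfold EX
  exact sum_nonneg fun S _ => mul_nonneg (h S)
    (prod_nonneg fun j _ => bw_nonneg q h0 h1 (S j))

/-- Cauchy-Schwarz (`Finset.sum_mul_le_sqrt_mul_sqrt` or `Real.inner_le_nnnorm_mul_nnnorm`; the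
weights are nonnegative). -/
theorem EX_mul_le (q : ι → ℝ) (h0 : ∀ i, 0 ≤ q i) (h1 : ∀ i, q i ≤ 1)
    (F G : (J → Finset ι) → ℝ) :
    EX q (fun S => F S * G S)
      ≤ Real.sqrt (EX q (fun S => F S ^ 2)) * Real.sqrt (EX q (fun S => G S ^ 2)) := by
  have hw : ∀ S : J → Finset ι, 0 ≤ ∏ j, bw q (S j) := fun S =>
    prod_nonneg fun j _ => bw_nonneg q h0 h1 (S j)
  have h := Real.sum_mul_le_sqrt_mul_sqrt (univ : Finset (J → Finset ι))
    (fun S => F S * Real.sqrt (∏ j, bw q (S j))) (fun S => G S * Real.sqrt (∏ j, bw q (S j)))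
  have e1 : ∀ S : J → Finset ι, F S * Real.sqrt (∏ j, bw q (S j)) *
      (G S * Real.sqrt (∏ j, bw q (S j))) = F S * G S * ∏ j, bw q (S j) := by
    intro S
    have := Real.mul_self_sqrt (hw S)
    calc _ = F S * G S * (Real.sqrt (∏ j, bw q (S j)) * Real.sqrt (∏ j, bw q (S j))) := by ring
      _ = _ := by rw [this]
  have e2 : ∀ (H : (J → Finset ι) → ℝ) (S : J → Finset ι),
      (H S * Real.sqrt (∏ j, bw q (S j))) ^ 2 = H S ^ 2 * ∏ j, bw q (S j) := by
    intro H S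
    rw [mul_pow, Real.sq_sqrt (hw S)]
  simp only [e1, e2] at h
  exact h

end Pool.Agent.Lib.H15P
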