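import Pool.Agent.Lib.H15P.TR1
import Pool.Agent.Lib.H15P.PB1

/-!
# Chunk TR2: upper bound for the mean value over a period by the independent model
-/

open Finset

namespace Pool.Agent.Lib.H15P

variable {J : Type} [Fintype J] [DecidableEq J]

/-- The numbers of `P` are distinct and `> W`: `Σ p^-2 ≤ 1/W` (see `H56G.cnt_sum_inv_sq`). -/
theorem sum_inv_sq_le (P : Finset ℕ) (W : ℕ) (hW : 1 ≤ W) (hb : ∀ p ∈ P, W < p) :
    ∑ p ∈ P, 1 / (p : ℝ) ^ 2 ≤ 1 / (W : ℝ) := by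
  obtain ⟨N, hN⟩ : ∃ N, W ≤ N ∧ ∀ p ∈ P, p ≤ N :=
    ⟨max W (P.sup id), le_max_left _ _, fun p hp =>
      (Finset.le_sup (f := id) hp).trans (le_max_right _ _)⟩
  have hsub : P ⊆ Ioc W N := fun n hn => Finset.mem_Ioc.2 ⟨hb n hn, hN.2 n hn⟩
  have h0 : ∑ p ∈ P, 1 / (p : ℝ) ^ 2 = ∑ p ∈ P, ((p : ℝ) ^ 2)⁻¹ :=
    Finset.sum_congr rfl (fun p _ => one_div _)
  rw [h0, one_div]
  calc ∑ n ∈ P, ((n : ℝ) ^ 2)⁻¹
      ≤ ∑ n ∈ Ioc W N, ((n : ℝ) ^ 2)⁻¹ :=
        Finset.sum_le_sum_of_subset_of_nonneg hsub (fun _ _ _ => by positivity)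
    _ ≤ (W : ℝ)⁻¹ - (N : ℝ)⁻¹ := sum_Ioc_inv_sq_le_sub (by omega) hN.1
    _ ≤ (W : ℝ)⁻¹ := by
        have : (0 : ℝ) ≤ (N : ℝ)⁻¹ := by positivity
        linarith

theorem qq_nonneg (P : Finset ℕ) (K : ℕ) (p : {p // p ∈ P}) : 0 ≤ qq P K p := by
  unfold qq
  positivity

theorem tr2_big (P : Finset ℕ) (W K : ℕ) (hK : 1 ≤ K) (hKW : 4 * K ^ 2 ≤ W)
    (hb : ∀ p ∈ P, W < p) (p : {p // p ∈ P}) : 4 * (K : ℝ) ≤ (p.1 : ℝ) ∧ (1 : ℝ) ≤ (p.1 : ℝ) := by
  have h1 := hb p.1 p.2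
  have h2 : 4 * K ≤ p.1 := by nlinarith
  have h3 : 1 ≤ p.1 := by omega
  exact ⟨by exact_mod_cast h2, by exact_mod_cast h3⟩

/-- `qq ≤ 2/p`, in particular `≤ 1` (`p ≥ W ≥ 4 K^2 ≥ 4 K`). -/
theorem qq_le (P : Finset ℕ) (W K : ℕ) (hK : 1 ≤ K) (hKW : 4 * K ^ 2 ≤ W)
    (hb : ∀ p ∈ P, W < p) (p : {p // p ∈ P}) : qq P K p ≤ 2 / (p.1 : ℝ) := by
  obtain ⟨h1, h2⟩ := tr2_big P W K hK hKW hb p
  unfold qq
  have hp : (0 : ℝ) < (p.1 : ℝ) := by linarith
  have hK0 : (0 : ℝ) ≤ K := by positivity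
  have hc : (1 : ℝ) ≤ 1 + 2 * K / (p.1 : ℝ) ^ 2 := by
    have : (0 : ℝ) ≤ 2 * K / (p.1 : ℝ) ^ 2 := by positivity
    linarith
  have ha : 1 / (p.1 : ℝ) + 2 * K / (p.1 : ℝ) ^ 2 ≤ 2 / (p.1 : ℝ) := by
    have e : 2 / (p.1 : ℝ) - (1 / (p.1 : ℝ) + 2 * K / (p.1 : ℝ) ^ 2)
        = ((p.1 : ℝ) - 2 * K) / (p.1 : ℝ) ^ 2 := by
      field_simp
      ring
    have : (0 : ℝ) ≤ ((p.1 : ℝ) - 2 * K) / (p.1 : ℝ) ^ 2 :=
      div_nonneg (by linarith) (by positivity)
    linarith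
  refine (div_le_self (by positivity) hc).trans ha

theorem tr2_qq_le_one (P : Finset ℕ) (W K : ℕ) (hK : 1 ≤ K) (hKW : 4 * K ^ 2 ≤ W)
    (hb : ∀ p ∈ P, W < p) (p : {p // p ∈ P}) : qq P K p ≤ 1 := by
  obtain ⟨h1, h2⟩ := tr2_big P W K hK hKW hb p
  refine (qq_le P W K hK hKW hb p).trans ?_
  have hp : (0 : ℝ) < (p.1 : ℝ) := by linarith
  rw [div_le_one hp]
  have : (1 : ℝ) ≤ K := by exact_mod_cast hK
  linarith

/-- One prime: `ww (κ p) ≤ ∏_j (factor of j)`, where the factor is `α = 1/p + 2K/p^2` for the form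
`κ p` and `β = 1 - 1/p` for the other forms: `1 - k/p ≤ (1 - 1/p)^k` (Bernoulli) and
`1/p ≤ α (1 - 1/p)^(k-1)` since `(1 + 2K/p)(1 - 1/p)^(k-1) ≥ (1 + 2K/p)(1 - K/p) ≥ 1` for
`2 K ≤ p`. -/
theorem ww_le (P : Finset ℕ) (W K : ℕ) (hK : 1 ≤ K) (hKW : 4 * K ^ 2 ≤ W)
    (hb : ∀ p ∈ P, W < p) (hJ : Fintype.card J ≤ K) (p : {p // p ∈ P}) (o : Option J) :
    ww J p.1 o ≤ ∏ j : J, (if o = some j then 1 / (p.1 : ℝ) + 2 * K / (p.1 : ℝ) ^ 2
      else 1 - 1 / (p.1 : ℝ)) := by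
  obtain ⟨h1, h2⟩ := tr2_big P W K hK hKW hb p
  have hp : (0 : ℝ) < (p.1 : ℝ) := by linarith
  have hinv : 1 / (p.1 : ℝ) ≤ 1 := by rw [div_le_one hp]; exact h2
  have hinv0 : 0 ≤ 1 / (p.1 : ℝ) := by positivity
  have hJr : (Fintype.card J : ℝ) ≤ K := by exact_mod_cast hJ
  have hK0 : (0 : ℝ) ≤ K := by positivity
  rcases o with _ | j0
  · have e : ∏ j : J, (if (none : Option J) = some j then 1 / (p.1 : ℝ) + 2 * K / (p.1 : ℝ) ^ 2
        else 1 - 1 / (p.1 : ℝ)) = (1 - 1 / (p.1 : ℝ)) ^ Fintype.card J := by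
      rw [Finset.prod_congr rfl (g := fun _ => 1 - 1 / (p.1 : ℝ))]
      · rw [Finset.prod_const, Finset.card_univ]
      · intro j _
        rw [if_neg (by simp)]
    rw [e]
    have hB := one_add_mul_le_pow (a := -(1 / (p.1 : ℝ))) (by linarith) (Fintype.card J)
    have e2 : ww J p.1 none = 1 + (Fintype.card J : ℝ) * (-(1 / (p.1 : ℝ))) := by
      unfold ww
      ring
    rw [e2]
    calc 1 + (Fintype.card J : ℝ) * (-(1 / (p.1 : ℝ))) ≤ (1 + -(1 / (p.1 : ℝ))) ^ Fintype.card J := hB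
      _ = (1 - 1 / (p.1 : ℝ)) ^ Fintype.card J := by rw [← sub_eq_add_neg]
  · have e : ∏ j : J, (if (some j0 : Option J) = some j then 1 / (p.1 : ℝ) + 2 * K / (p.1 : ℝ) ^ 2
        else 1 - 1 / (p.1 : ℝ)) = (1 / (p.1 : ℝ) + 2 * K / (p.1 : ℝ) ^ 2) *
          (1 - 1 / (p.1 : ℝ)) ^ (Fintype.card J - 1) := by
      rw [← Finset.mul_prod_erase univ _ (Finset.mem_univ j0), if_pos rfl]
      congr 1
      rw [Finset.prod_congr rfl (g := fun _ => 1 - 1 / (p.1 : ℝ))]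
      · rw [Finset.prod_const, Finset.card_erase_of_mem (Finset.mem_univ j0), Finset.card_univ]
      · intro j hj
        rw [if_neg]
        intro h
        exact (Finset.ne_of_mem_erase hj) (Option.some_inj.1 h).symm
    rw [e]
    have hB := one_add_mul_le_pow (a := -(1 / (p.1 : ℝ))) (by linarith) (Fintype.card J - 1)
    have hc1 : ((Fintype.card J - 1 : ℕ) : ℝ) ≤ K := by
      have : Fintype.card J - 1 ≤ K := by omega
      exact_mod_cast this
    have hlow : 1 - K * (1 / (p.1 : ℝ)) ≤ (1 - 1 / (p.1 : ℝ)) ^ (Fintype.card J - 1) := by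
      have h3 : 1 - K * (1 / (p.1 : ℝ)) ≤ 1 + ((Fintype.card J - 1 : ℕ) : ℝ) * (-(1 / (p.1 : ℝ))) := by
        nlinarith
      have h4 : (1 + -(1 / (p.1 : ℝ))) = 1 - 1 / (p.1 : ℝ) := by ring
      rw [h4] at hB
      exact h3.trans hB
    have hα : 0 ≤ 1 / (p.1 : ℝ) + 2 * K / (p.1 : ℝ) ^ 2 := by positivity
    have e2 : ww J p.1 (some j0) = 1 / (p.1 : ℝ) := rfl
    rw [e2]
    refine le_trans ?_ (mul_le_mul_of_nonneg_left hlow hα)
    have e3 : (1 / (p.1 : ℝ) + 2 * K / (p.1 : ℝ) ^ 2) * (1 - K * (1 / (p.1 : ℝ))) - 1 / (p.1 : ℝ)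
        = K * ((p.1 : ℝ) - 2 * K) / (p.1 : ℝ) ^ 3 := by
      field_simp
      ring
    have : 0 ≤ K * ((p.1 : ℝ) - 2 * K) / (p.1 : ℝ) ^ 3 :=
      div_nonneg (mul_nonneg hK0 (by linarith)) (by positivity)
    linarith

omit [Fintype J] in
theorem tr2_cfg_injective {P : Finset ℕ} :
    Function.Injective (cfg : ({p // p ∈ P} → Option J) → J → Finset {p // p ∈ P}) := by
  intro κ κ' h
  funext i
  apply Option.ext
  intro j
  have h1 : i ∈ cfg κ j ↔ i ∈ cfg κ' j := by rw [h]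
  unfold cfg at h1
  simp only [mem_filter, mem_univ, true_and] at h1
  exact h1

theorem tr2_factor (P : Finset ℕ) (K : ℕ) (hb : ∀ p ∈ P, 0 < p) (κ : {p // p ∈ P} → Option J) :
    ∏ i : {p // p ∈ P}, ∏ j : J, (if κ i = some j then 1 / (i.1 : ℝ) + 2 * K / (i.1 : ℝ) ^ 2
      else 1 - 1 / (i.1 : ℝ))
      = (∏ i : {p // p ∈ P}, (1 + 2 * K / (i.1 : ℝ) ^ 2)) ^ Fintype.card J *
        ∏ j, bw (qq P K) (cfg κ j) := by
  rw [Finset.prod_comm, ← Finset.card_univ, ← Finset.prod_const, ← Finset.prod_mul_distrib]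
  refine Finset.prod_congr rfl (fun j _ => ?_)
  unfold bw
  rw [← Finset.prod_mul_distrib]
  refine Finset.prod_congr rfl (fun i _ => ?_)
  have hi : (0 : ℝ) < (i.1 : ℝ) := by exact_mod_cast hb i.1 i.2
  have hc : (1 + 2 * K / (i.1 : ℝ) ^ 2) ≠ 0 := by
    have : (0 : ℝ) ≤ 2 * K / (i.1 : ℝ) ^ 2 := by positivity
    linarith
  have hmem : i ∈ cfg κ j ↔ κ i = some j := by
    unfold cfg
    simp only [mem_filter, mem_univ, true_and]
  by_cases h : κ i = some j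
  · rw [if_pos h, if_pos (hmem.2 h)]
    unfold qq
    rw [mul_div_cancel₀]
    exact hc
  · rw [if_neg h, if_neg (fun h' => h (hmem.1 h'))]
    unfold qq
    rw [mul_sub, mul_one, mul_div_cancel₀]
    · ring
    · exact hc

/-- `α = (1 + 2K/p^2) qq`, `β = (1 + 2K/p^2) (1 - qq)`. Multiply `ww_le` over the primes:
`∏_p ww (κ p) ≤ ∏_p (1 + 2K/p^2)^|J| ∏_j bw (cfg κ j)`, the first factor is at most
`exp (2 K |J| Σ p^-2) ≤ exp (2 K^2/W)`; `κ ↦ cfg κ` is injective and all terms are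
nonnegative. -/
theorem EP_le (P : Finset ℕ) (W K M : ℕ) (b : J → ℕ) (hF : Forms P W K M b)
    (F : (J → Finset {p // p ∈ P}) → ℝ) (h0 : ∀ S, 0 ≤ F S) :
    EP P M b F ≤ Real.exp (2 * (K : ℝ) ^ 2 / W) * EX (qq P K) F := by
  classical
  have hW1 : 1 ≤ W := by
    have := hF.KW
    have := hF.one_le
    nlinarith
  have hWr : (0 : ℝ) < W := by exact_mod_cast hW1
  have hpos : ∀ p ∈ P, 0 < p := fun p hp => (hF.prime p hp).pos
  have hbw : ∀ A, 0 ≤ bw (qq P K) A := bw_nonneg _ (qq_nonneg P K)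
    (tr2_qq_le_one P W K hF.one_le hF.KW hF.big)
  have hc : (∏ i : {p // p ∈ P}, (1 + 2 * K / (i.1 : ℝ) ^ 2)) ^ Fintype.card J
      ≤ Real.exp (2 * (K : ℝ) ^ 2 / W) := by
    have h1 : ∏ i : {p // p ∈ P}, (1 + 2 * K / (i.1 : ℝ) ^ 2) ≤ Real.exp (2 * K / W) := by
      calc ∏ i : {p // p ∈ P}, (1 + 2 * K / (i.1 : ℝ) ^ 2)
          ≤ ∏ i : {p // p ∈ P}, Real.exp (2 * K / (i.1 : ℝ) ^ 2) := by
            apply Finset.prod_le_prod
            · intro i _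
              positivity
            · intro i _
              rw [add_comm]
              exact Real.add_one_le_exp _
        _ = Real.exp (∑ i : {p // p ∈ P}, 2 * K / (i.1 : ℝ) ^ 2) := by rw [Real.exp_sum]
        _ ≤ Real.exp (2 * K / W) := by
            apply Real.exp_le_exp.2
            have e1 : ∑ i : {p // p ∈ P}, 2 * (K : ℝ) / (i.1 : ℝ) ^ 2
                = ∑ p ∈ P, 2 * (K : ℝ) / (p : ℝ) ^ 2 :=
              Finset.sum_coe_sort P (fun p => 2 * (K : ℝ) / (p : ℝ) ^ 2)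
            rw [e1]
            have e2 : ∑ p ∈ P, 2 * (K : ℝ) / (p : ℝ) ^ 2 = 2 * (K : ℝ) * ∑ p ∈ P, 1 / (p : ℝ) ^ 2 := by
              rw [Finset.mul_sum]
              refine Finset.sum_congr rfl (fun p _ => ?_)
              ring
            rw [e2]
            calc 2 * (K : ℝ) * ∑ p ∈ P, 1 / (p : ℝ) ^ 2 ≤ 2 * K * (1 / W) :=
                  mul_le_mul_of_nonneg_left (sum_inv_sq_le P W hW1 hF.big) (by positivity)
              _ = 2 * K / W := by ring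
    calc (∏ i : {p // p ∈ P}, (1 + 2 * K / (i.1 : ℝ) ^ 2)) ^ Fintype.card J
        ≤ (Real.exp (2 * K / W)) ^ Fintype.card J := by
          apply pow_le_pow_left₀ _ h1
          apply Finset.prod_nonneg
          intro i _
          positivity
      _ = Real.exp (Fintype.card J * (2 * K / W)) := by rw [← Real.exp_nat_mul]
      _ ≤ Real.exp (2 * (K : ℝ) ^ 2 / W) := by
          apply Real.exp_le_exp.2
          have hJr : (Fintype.card J : ℝ) ≤ K := by exact_mod_cast hF.card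
          calc (Fintype.card J : ℝ) * (2 * K / W) ≤ K * (2 * K / W) :=
                mul_le_mul_of_nonneg_right hJr (by positivity)
            _ = 2 * (K : ℝ) ^ 2 / W := by ring
  have hww : ∀ κ : {p // p ∈ P} → Option J, ∏ i, ww J i.1 (κ i)
      ≤ Real.exp (2 * (K : ℝ) ^ 2 / W) * ∏ j, bw (qq P K) (cfg κ j) := by
    intro κ
    calc ∏ i, ww J i.1 (κ i)
        ≤ ∏ i : {p // p ∈ P}, ∏ j : J, (if κ i = some j then
            1 / (i.1 : ℝ) + 2 * K / (i.1 : ℝ) ^ 2 else 1 - 1 / (i.1 : ℝ)) := by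
          apply Finset.prod_le_prod
          · intro i _
            have h2 := tr2_big P W K hF.one_le hF.KW hF.big i
            have hJr : (Fintype.card J : ℝ) ≤ K := by exact_mod_cast hF.card
            rcases h : κ i with _ | j
            · have hp : (0 : ℝ) < (i.1 : ℝ) := by linarith [h2.2]
              have : (Fintype.card J : ℝ) / (i.1 : ℝ) ≤ 1 := by
                rw [div_le_one hp]
                linarith [h2.1, (Nat.cast_nonneg K : (0 : ℝ) ≤ K)]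
              simp only [ww]
              linarith
            · simp only [ww]
              positivity
          · intro i _
            exact ww_le P W K hF.one_le hF.KW hF.big hF.card i (κ i)
      _ = _ := tr2_factor P K hpos κ
      _ ≤ _ := mul_le_mul_of_nonneg_right hc (Finset.prod_nonneg (fun j _ => hbw _))
  rw [EP_eq P W K M b hF F]
  calc ∑ κ : {p // p ∈ P} → Option J, F (cfg κ) * ∏ i, ww J i.1 (κ i)
      ≤ ∑ κ : {p // p ∈ P} → Option J, F (cfg κ) *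
          (Real.exp (2 * (K : ℝ) ^ 2 / W) * ∏ j, bw (qq P K) (cfg κ j)) :=
        Finset.sum_le_sum (fun κ _ => mul_le_mul_of_nonneg_left (hww κ) (h0 _))
    _ = Real.exp (2 * (K : ℝ) ^ 2 / W) *
          ∑ κ : {p // p ∈ P} → Option J, F (cfg κ) * ∏ j, bw (qq P K) (cfg κ j) := by
        rw [Finset.mul_sum]
        refine Finset.sum_congr rfl (fun κ _ => ?_)
        ring
    _ ≤ Real.exp (2 * (K : ℝ) ^ 2 / W) * EX (qq P K) F := by
        apply mul_le_mul_of_nonneg_left _ (Real.exp_pos _).le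
        unfold EX
        have e : ∑ κ : {p // p ∈ P} → Option J, F (cfg κ) * ∏ j, bw (qq P K) (cfg κ j)
            = ∑ S ∈ (univ : Finset ({p // p ∈ P} → Option J)).image cfg,
                F S * ∏ j, bw (qq P K) (S j) := by
          rw [Finset.sum_image (fun a _ b _ h => tr2_cfg_injective h)]
        rw [e]
        exact Finset.sum_le_sum_of_subset_of_nonneg (Finset.subset_univ _)
          (fun S _ _ => mul_nonneg (h0 S) (Finset.prod_nonneg (fun j _ => hbw _)))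

end Pool.Agent.Lib.H15P
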