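import Pool.Agent.Lib.H15P.WIN1
import Pool.Agent.Lib.H15P.TR2
import Pool.Agent.Lib.H15P.LV1
import Pool.Agent.Lib.H15P.PB5
import Pool.Agent.Lib.H15P.PB7

/-!
# Chunk WIN3: rough values are rare for the weight; two windows
-/

open Finset

namespace Pool.Agent.Lib.H15P

theorem win3_Qpos (w : WD) : 0 < ∏ p ∈ w.P, p :=
  Finset.prod_pos fun p hp => (w.prime p hp).pos

theorem win3_ZZ (w : WD) (k : ℕ) : 1 ≤ ZZ (qq w.P (2 * w.K)) w.D k := one_le_ZZ _ _ _ w.good _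

theorem win3_err (w : WD) (Y : ℕ) (hY : 4 * w.K * w.lv ^ 4 ≤ w.e * Y) (k : ℕ) (hk : k ≤ 4) :
    2 * w.K * w.lv ^ k ≤ w.e * Y / 2 ∧ 2 * w.lv ^ k ≤ w.e * Y / 2 := by
  have h1 : w.lv ^ k ≤ w.lv ^ 4 := pow_le_pow_right₀ w.lv1 hk
  have h2 : (1 : ℝ) ≤ w.K := by exact_mod_cast w.Kpos
  have h3 : 0 ≤ w.lv ^ k := pow_nonneg (zero_le_one.trans w.lv1) k
  have h4 : (w.K : ℝ) * w.lv ^ k ≤ w.K * w.lv ^ 4 := mul_le_mul_of_nonneg_left h1 (by linarith)
  have h5 : w.lv ^ k ≤ w.K * w.lv ^ k := le_mul_of_one_le_left h3 h2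
  constructor <;> linarith

/-- the weight of a part of a system -/
theorem win3_om (w : WD) (M : ℕ) (B B' : Finset ℕ) (hB' : B' ⊆ B) (t : ℕ) :
    w.om (B'.image (fun b => b + M * t)) =
      (LL w.D w.m ((univ : Finset {b // b ∈ B}).filter (fun j => j.1 ∈ B'))
        (fun j => hit w.P (j.1 + M * t))) ^ 2 / ZZ (qq w.P (2 * w.K)) w.D B'.card := by
  have h1 := w.om_image (fun j : {b // b ∈ B} => j.1 + M * t)
    (fun a b hab => Subtype.ext (Nat.add_right_cancel hab))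
    ((univ : Finset {b // b ∈ B}).filter (fun j => j.1 ∈ B'))
  have h2 : ((univ : Finset {b // b ∈ B}).filter (fun j => j.1 ∈ B')).image
      (fun j : {b // b ∈ B} => j.1 + M * t) = B'.image (fun b => b + M * t) := by
    ext x
    simp only [Finset.mem_image, Finset.mem_filter, Finset.mem_univ, true_and]
    constructor
    · rintro ⟨a, haB, ha⟩
      exact ⟨a.1, haB, ha⟩
    · rintro ⟨a, haB, ha⟩
      exact ⟨⟨a, hB' haB⟩, haB, ha⟩
  have h3 : ((univ : Finset {b // b ∈ B}).filter (fun j => j.1 ∈ B')).card = B'.card := by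
    rw [← Finset.card_map (Function.Embedding.subtype (fun b => b ∈ B))]
    congr 1
    ext x
    simp only [Finset.mem_map, Finset.mem_filter, Finset.mem_univ, true_and,
      Function.Embedding.coe_subtype]
    constructor
    · rintro ⟨a, ha, rfl⟩
      exact ha
    · intro hx
      exact ⟨⟨x, hB' hx⟩, hx, rfl⟩
  rw [h2] at h1
  rw [h1, h3]

theorem win3_om' (w : WD) (M : ℕ) (B : Finset ℕ) (t : ℕ) :
    w.om (B.image (fun b => b + M * t)) =
      (LL w.D w.m (univ : Finset {b // b ∈ B})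
        (fun j => hit w.P (j.1 + M * t))) ^ 2 / ZZ (qq w.P (2 * w.K)) w.D B.card := by
  rw [win3_om w M B B (Finset.Subset.refl _) t]
  congr 3
  ext j
  simp

/-- incomplete sums of a function of the configuration -/
theorem win3_avg (w : WD) (M : ℕ) {J : Type} [Fintype J] [DecidableEq J] (b : J → ℕ)
    (hF : Forms w.P w.W (2 * w.K) M b)
    (F : (J → Finset {p // p ∈ w.P}) → ℝ) (h0 : ∀ S, 0 ≤ F S) (L : ℝ)
    (hL : Lev (∏ p ∈ w.P, p) (fun t => F (fun j => hit w.P (b j + M * t))) L) (Y0 Y : ℕ) :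
    ∑ t ∈ Ico Y0 (Y0 + Y), F (fun j => hit w.P (b j + M * t)) ≤
      Y * ((1 + w.e) * EX (qq w.P (2 * w.K)) F) + 2 * L := by
  have h1 : |∑ t ∈ Ico Y0 (Y0 + Y), F (fun j => hit w.P (b j + M * t)) -
      Y * EP w.P M b F| ≤ 2 * L := Lev.avg (win3_Qpos w) hL Y0 Y
  have h2 : EP w.P M b F ≤ (1 + w.e) * EX (qq w.P (2 * w.K)) F :=
    (EP_le w.P w.W (2 * w.K) M b hF F h0).trans
      (mul_le_mul_of_nonneg_right w.hKW (EX_nonneg _ w.good.q0 w.good.q1 F h0))
  have h3 := mul_le_mul_of_nonneg_left h2 (Nat.cast_nonneg Y : (0 : ℝ) ≤ Y)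
  rw [abs_le] at h1
  linarith [h1.2]

/-- the number of rough elements -/
theorem win3_rough (w : WD) (M : ℕ) (B : Finset ℕ) (t : ℕ) :
    (w.rough (B.image (fun b => b + M * t)) : ℝ) =
      ∑ j : {b // b ∈ B}, if hit w.P (j.1 + M * t) = ∅ then (1 : ℝ) else 0 := by
  have h1 : w.rough (B.image (fun b => b + M * t)) =
      ((univ : Finset {b // b ∈ B}).filter (fun j => hit w.P (j.1 + M * t) = ∅)).card := by
    unfold WD.rough
    rw [← Finset.card_image_of_injective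
      ((univ : Finset {b // b ∈ B}).filter (fun j => hit w.P (j.1 + M * t) = ∅))
      (f := fun j : {b // b ∈ B} => j.1 + M * t)
      (fun a b hab => Subtype.ext (Nat.add_right_cancel hab))]
    congr 1
    ext x
    simp only [Finset.mem_image, Finset.mem_filter, Finset.mem_univ, true_and]
    have hh : ∀ e : ℕ, hit w.P e = ∅ ↔ ∀ p ∈ w.P, ¬ p ∣ e := by
      intro e
      unfold hit
      rw [Finset.filter_eq_empty_iff]
      constructor
      · intro h p hp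
        exact h (Finset.mem_univ (⟨p, hp⟩ : {p // p ∈ w.P}))
      · intro h p _
        exact h p.1 p.2
    constructor
    · rintro ⟨⟨a, haB, rfl⟩, hx⟩
      exact ⟨⟨a, haB⟩, (hh _).2 hx, rfl⟩
    · rintro ⟨a, ha, rfl⟩
      exact ⟨⟨a.1, a.2, rfl⟩, (hh _).1 ha⟩
  rw [h1, Finset.card_filter]
  push_cast
  rfl

/-- For `j0 ∈ B` and the `t` where no prime of `P` divides `j0 + M t`: `hit = ∅`, so
`LL = LP (erase j0)` (`LL_eq_LP`) and `1 ≤ lm (hit j0)` (`lm1`); for all `t` the function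
`LP^2 lm(hit j0)` is nonnegative, so the sum over these `t` is at most the full sum, which is
`≤ Y EP(LP^2 lm) + 2 lv^3 ≤ Y (1 + e) e^(-R) ZZ ex lm + 2 lv^3` (`Lev.avg`, `EP_le`,
`EX_LP_sq_mul_le`). Sum over `j0 ∈ B`, divide by `ZZ ≥ 1`, use `hlm`. -/
theorem WD.win_rough (w : WD) (M : ℕ) (hM : ∀ p ∈ w.P, ¬ p ∣ M) (B : Finset ℕ)
    (hB : B.card ≤ w.K) (hd : ∀ b ∈ B, ∀ b' ∈ B, b ≤ b' + w.W) (Y0 Y : ℕ)
    (hY : 4 * w.K * w.lv ^ 4 ≤ w.e * Y) :
    ∑ t ∈ Ico Y0 (Y0 + Y), w.om (B.image (fun b => b + M * t)) *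
        w.rough (B.image (fun b => b + M * t)) ≤ 3 * w.e * Y := by
  have hF := w.forms M hM B (by omega) hd
  have hcard : (univ : Finset {b // b ∈ B}).card = B.card := by
    rw [Finset.card_univ, Fintype.card_coe]
  set Z := ZZ (qq w.P (2 * w.K)) w.D B.card with hZ
  have hZ1 : 1 ≤ Z := win3_ZZ w _
  have hZpos : 0 < Z := by linarith
  have hBK : (B.card : ℝ) ≤ w.K := by exact_mod_cast hB
  set X := ex (qq w.P (2 * w.K)) w.lm with hX
  have hX0 : 0 ≤ X := ex_nonneg _ w.good.q0 w.good.q1 _ w.lm0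
  -- the function of `j0`
  set G : {b // b ∈ B} → ({b // b ∈ B} → Finset {p // p ∈ w.P}) → ℝ := fun j0 S =>
    LP w.D w.m (univ.erase j0) S ^ 2 * w.lm (S j0) with hG
  have hG0 : ∀ j0 S, 0 ≤ G j0 S := fun j0 S => mul_nonneg (sq_nonneg _) (w.lm0 _)
  have hterm : ∀ t, w.om (B.image (fun b => b + M * t)) *
      w.rough (B.image (fun b => b + M * t)) ≤
        ∑ j0 : {b // b ∈ B}, G j0 (fun j => hit w.P (j.1 + M * t)) / Z := by
    intro t
    rw [win3_om' w M B t, win3_rough w M B t, Finset.mul_sum]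
    refine Finset.sum_le_sum fun j0 _ => ?_
    rw [div_mul_eq_mul_div]
    apply div_le_div_of_nonneg_right _ hZpos.le
    split_ifs with hh
    · rw [mul_one, LL_eq_LP w.D w.good.empty (by rw [Fintype.card_fin]; exact w.npos) w.m univ j0
        (Finset.mem_univ _) (fun j => hit w.P (j.1 + M * t)) hh]
      show _ ≤ LP w.D w.m (univ.erase j0) _ ^ 2 * w.lm (hit w.P (j0.1 + M * t))
      rw [hh, w.lm1, mul_one]
    · rw [mul_zero]
      exact hG0 _ _
  have hlev : ∀ j0 : {b // b ∈ B}, Lev (∏ p ∈ w.P, p)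
      (fun t => G j0 (fun j => hit w.P (j.1 + M * t))) (w.lv ^ 3) := by
    intro j0
    have h1 := Lev.pow (win3_Qpos w) (w.levP {b // b ∈ B} (univ.erase j0) M (fun j => j.1)
      (by rw [Fintype.card_coe]; omega)) 2
    have h2 := w.levlm M j0.1
    have h3 := Lev.mul (win3_Qpos w) h1 h2
    have h4 : w.lv ^ 2 * w.lv = w.lv ^ 3 := by ring
    rw [h4] at h3
    exact h3
  have hEX : ∀ j0 : {b // b ∈ B}, EX (qq w.P (2 * w.K)) (G j0) ≤ Real.exp (-w.R) * Z * X := by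
    intro j0
    have h1 := EX_LP_sq_mul_le (qq w.P (2 * w.K)) w.D w.h w.good
      (by rw [Fintype.card_fin]; exact w.npos) w.m (univ : Finset {b // b ∈ B}) w.R
      (by
        intro i
        refine le_trans ?_ (w.hm i)
        rw [hcard]
        have h3 : 0 ≤ GG (qq w.P (2 * w.K)) w.D (some i) := GG_nonneg _ _ _ w.good _
        have h4 := mul_le_mul_of_nonneg_right hBK h3
        linarith) j0 (Finset.mem_univ _) w.lm w.lm0
    rw [hcard] at h1
    exact h1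
  have hone : ∀ j0 : {b // b ∈ B}, ∑ t ∈ Ico Y0 (Y0 + Y), G j0 (fun j => hit w.P (j.1 + M * t)) ≤
      Y * ((1 + w.e) * (Real.exp (-w.R) * Z * X)) + 2 * w.lv ^ 3 := by
    intro j0
    have h1 := win3_avg w M (fun j : {b // b ∈ B} => j.1) hF (G j0) (hG0 j0) _ (hlev j0) Y0 Y
    refine h1.trans ?_
    have he0 := w.e0
    have h2 := mul_le_mul_of_nonneg_left (hEX j0) (by linarith : 0 ≤ 1 + w.e)
    have h3 := mul_le_mul_of_nonneg_left h2 (Nat.cast_nonneg Y : (0 : ℝ) ≤ Y)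
    linarith
  have htot : ∑ t ∈ Ico Y0 (Y0 + Y), w.om (B.image (fun b => b + M * t)) *
      w.rough (B.image (fun b => b + M * t)) ≤
        ∑ j0 : {b // b ∈ B}, (Y * ((1 + w.e) * (Real.exp (-w.R) * Z * X)) + 2 * w.lv ^ 3) / Z := by
    refine (Finset.sum_le_sum fun t _ => hterm t).trans ?_
    rw [Finset.sum_comm]
    refine Finset.sum_le_sum fun j0 _ => ?_
    rw [← Finset.sum_div]
    exact div_le_div_of_nonneg_right (hone j0) hZpos.le
  refine htot.trans ?_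
  rw [Finset.sum_const, hcard, nsmul_eq_mul]
  have he0 := w.e0
  have he1 := w.e1
  have hR0 := Real.exp_pos (-w.R)
  have hlv0 : 0 ≤ w.lv ^ 3 := pow_nonneg (zero_le_one.trans w.lv1) 3
  have herr := (win3_err w Y hY 3 (by norm_num)).1
  have hYr : (0 : ℝ) ≤ Y := Nat.cast_nonneg Y
  have h1 : (Y * ((1 + w.e) * (Real.exp (-w.R) * Z * X)) + 2 * w.lv ^ 3) / Z ≤
      Y * ((1 + w.e) * (Real.exp (-w.R) * X)) + 2 * w.lv ^ 3 := by
    rw [div_le_iff₀ hZpos]
    have h2 : 2 * w.lv ^ 3 * 1 ≤ 2 * w.lv ^ 3 * Z := mul_le_mul_of_nonneg_left hZ1 (by positivity)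
    nlinarith
  have h3 : (B.card : ℝ) * ((Y * ((1 + w.e) * (Real.exp (-w.R) * Z * X)) + 2 * w.lv ^ 3) / Z) ≤
      w.K * (Y * ((1 + w.e) * (Real.exp (-w.R) * X)) + 2 * w.lv ^ 3) := by
    apply mul_le_mul hBK h1
    · positivity
    · exact Nat.cast_nonneg _
  refine h3.trans ?_
  have h4 : w.K * Real.exp (-w.R) * X ≤ w.e := w.hlm
  have h5 : (Y * (1 + w.e)) * (w.K * Real.exp (-w.R) * X) ≤ (Y * (1 + w.e)) * w.e :=
    mul_le_mul_of_nonneg_left h4 (by positivity)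
  have h6 : Y * w.e * w.e ≤ Y * w.e * (1 / 10) := mul_le_mul_of_nonneg_left he1 (by positivity)
  have h7 : 0 ≤ Y * w.e := by positivity
  nlinarith

/-- The system of the forms `b + M t`, `b ∈ B1 ∪ B2`; `om_image` for the two subsets,
`Lev.avg` with level `lv^4`, `EP_le`, `EX_LL_sq_mul`, `EX_LL_sq_le`. -/
theorem WD.win_pair (w : WD) (M : ℕ) (hM : ∀ p ∈ w.P, ¬ p ∣ M) (B1 B2 : Finset ℕ)
    (hB1 : B1.card ≤ w.K) (hB2 : B2.card ≤ w.K) (hdisj : Disjoint B1 B2)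
    (hd : ∀ b ∈ B1 ∪ B2, ∀ b' ∈ B1 ∪ B2, b ≤ b' + w.W) (Y0 Y : ℕ)
    (hY : 4 * w.K * w.lv ^ 4 ≤ w.e * Y) :
    ∑ t ∈ Ico Y0 (Y0 + Y), w.om (B1.image (fun b => b + M * t)) *
        w.om (B2.image (fun b => b + M * t)) ≤ (1 + 3 * w.e) * Y := by
  have hcardU : (B1 ∪ B2).card ≤ 2 * w.K := by
    have := Finset.card_union_le B1 B2
    omega
  have hF := w.forms M hM (B1 ∪ B2) hcardU hd
  set C1 := (univ : Finset {b // b ∈ B1 ∪ B2}).filter (fun j => j.1 ∈ B1) with hC1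
  set C2 := (univ : Finset {b // b ∈ B1 ∪ B2}).filter (fun j => j.1 ∈ B2) with hC2
  have hcd : ∀ B' : Finset ℕ, B' ⊆ B1 ∪ B2 →
      ((univ : Finset {b // b ∈ B1 ∪ B2}).filter (fun j => j.1 ∈ B')).card = B'.card := by
    intro B' hB'
    rw [← Finset.card_map (Function.Embedding.subtype (fun b => b ∈ B1 ∪ B2))]
    congr 1
    ext x
    simp only [Finset.mem_map, Finset.mem_filter, Finset.mem_univ, true_and,
      Function.Embedding.coe_subtype]
    constructor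
    · rintro ⟨a, ha, rfl⟩
      exact ha
    · intro hx
      exact ⟨⟨x, hB' hx⟩, hx, rfl⟩
  have hc1 : C1.card = B1.card := hcd B1 Finset.subset_union_left
  have hc2 : C2.card = B2.card := hcd B2 Finset.subset_union_right
  set Z1 := ZZ (qq w.P (2 * w.K)) w.D B1.card with hZ1d
  set Z2 := ZZ (qq w.P (2 * w.K)) w.D B2.card with hZ2d
  have hZ1 : 1 ≤ Z1 := win3_ZZ w _
  have hZ2 : 1 ≤ Z2 := win3_ZZ w _
  set F : ({b // b ∈ B1 ∪ B2} → Finset {p // p ∈ w.P}) → ℝ := fun S =>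
    LL w.D w.m C1 S ^ 2 * LL w.D w.m C2 S ^ 2 with hFdef
  have hF0 : ∀ S, 0 ≤ F S := fun S => mul_nonneg (sq_nonneg _) (sq_nonneg _)
  have hlev : Lev (∏ p ∈ w.P, p) (fun t => F (fun j => hit w.P (j.1 + M * t))) (w.lv ^ 4) := by
    have h1 := Lev.pow (win3_Qpos w) (w.levL {b // b ∈ B1 ∪ B2} C1 M (fun j => j.1)
      (by rw [Fintype.card_coe]; exact hcardU)) 2
    have h2 := Lev.pow (win3_Qpos w) (w.levL {b // b ∈ B1 ∪ B2} C2 M (fun j => j.1)
      (by rw [Fintype.card_coe]; exact hcardU)) 2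
    have h3 := Lev.mul (win3_Qpos w) h1 h2
    have h4 : w.lv ^ 2 * w.lv ^ 2 = w.lv ^ 4 := by ring
    rw [h4] at h3
    exact h3
  have havg := win3_avg w M (fun j : {b // b ∈ B1 ∪ B2} => j.1) hF F hF0 _ hlev Y0 Y
  have hdC : Disjoint C1 C2 := by
    rw [Finset.disjoint_left]
    intro j h1 h2
    exact (Finset.disjoint_left.1 hdisj) (Finset.mem_filter.1 h1).2 (Finset.mem_filter.1 h2).2
  have hEX : EX (qq w.P (2 * w.K)) F ≤ Z1 * Z2 := by
    have h0 : EX (qq w.P (2 * w.K)) F = _ := EX_LL_sq_mul (qq w.P (2 * w.K)) w.D w.m C1 C2 hdC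
    rw [h0]
    have h1 := EX_LL_sq_le (qq w.P (2 * w.K)) w.D w.h w.good w.m C1
    have h2 := EX_LL_sq_le (qq w.P (2 * w.K)) w.D w.h w.good w.m C2
    rw [hc1] at h1
    rw [hc2] at h2
    apply mul_le_mul h1 h2
    · exact EX_nonneg _ w.good.q0 w.good.q1 _ fun S => sq_nonneg _
    · linarith
  have hsum : ∑ t ∈ Ico Y0 (Y0 + Y), w.om (B1.image (fun b => b + M * t)) *
        w.om (B2.image (fun b => b + M * t)) =
      (∑ t ∈ Ico Y0 (Y0 + Y), F (fun j => hit w.P (j.1 + M * t))) / (Z1 * Z2) := by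
    rw [Finset.sum_div]
    refine Finset.sum_congr rfl fun t _ => ?_
    rw [win3_om w M (B1 ∪ B2) B1 Finset.subset_union_left t,
      win3_om w M (B1 ∪ B2) B2 Finset.subset_union_right t, div_mul_div_comm]
  have hZZ : 1 ≤ Z1 * Z2 := one_le_mul_of_one_le_of_one_le hZ1 hZ2
  have hZpos : 0 < Z1 * Z2 := by linarith
  rw [hsum, div_le_iff₀ hZpos]
  refine havg.trans ?_
  have he0 := w.e0
  have he1 := w.e1
  have hYr : (0 : ℝ) ≤ Y := Nat.cast_nonneg Y
  have herr := (win3_err w Y hY 4 le_rfl).2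
  have h1 := mul_le_mul_of_nonneg_left hEX (by linarith : 0 ≤ 1 + w.e)
  have h2 := mul_le_mul_of_nonneg_left h1 hYr
  have h3 : w.e * Y * 1 ≤ w.e * Y * (Z1 * Z2) := mul_le_mul_of_nonneg_left hZZ (by positivity)
  nlinarith

end Pool.Agent.Lib.H15P
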