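import Pool.Agent.Lib.H15P.AV
import Pool.Agent.Lib.H15P.WIN2
import Pool.Agent.Lib.H15P.WIN3

/-!
# Chunk CL: the weight function on an interval of integers

`M = primorial y`; no prime of `P` divides `M` (they are `> y`). For a shift `s` and a class
`a < M`: with `B = (CC H M (a + s)).image (fun h => a + s + h)` we have, for `n = a + M t`,
`wt (n + s) = om (B.image (· + M t))` if `#B ≤ K`, and `0` otherwise (`CC_add`).
-/

open Finset

namespace Pool.Agent.Lib.H15P

/-- The common hypotheses. `bad` = proportion of the residue classes `a` with `#CC > K`. -/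
structure Setup (w : WD) (H y Y0 Y : ℕ) (bad : ℝ) : Prop where
  y2 : 2 ≤ y
  yW : y ≤ w.W
  bad : (((range (primorial y)).filter
    (fun a => w.K < (CC H (primorial y) a).card)).card : ℝ) ≤ bad * primorial y
  hY : 4 * w.K * w.lv ^ 4 ≤ w.e * Y

theorem cl_not_dvd (w : WD) (y : ℕ) (hy : y ≤ w.W) : ∀ p ∈ w.P, ¬ p ∣ primorial y := by
  intro p hp hd
  have h1 := (w.prime p hp).dvd_primorial_iff.mp hd
  have h2 := w.big p hp
  omega

/-- The values `c + h`, `h ∈ CC H M c`. -/
def cl_B (H M c : ℕ) : Finset ℕ := (CC H M c).image (fun h => c + h)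

theorem cl_card (H M c : ℕ) : (cl_B H M c).card = (CC H M c).card :=
  card_image_of_injective _ fun _ _ h => Nat.add_left_cancel h

theorem cl_mem {H M c b : ℕ} (hb : b ∈ cl_B H M c) : c + 1 ≤ b ∧ b ≤ c + H := by
  rw [cl_B, mem_image] at hb
  obtain ⟨h, hh, rfl⟩ := hb
  rw [CC, mem_filter, mem_Icc] at hh
  omega

theorem cl_image (H M c t : ℕ) :
    (CC H M (c + M * t)).image (fun h => c + M * t + h) =
      (cl_B H M c).image (fun b => b + M * t) := by
  rw [CC_add, cl_B, image_image]
  apply image_congr
  intro h _
  simp only [Function.comp]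
  ring

theorem cl_wt (w : WD) (H M c t : ℕ) : w.wt H M (c + M * t) =
    if (cl_B H M c).card ≤ w.K then w.om ((cl_B H M c).image (fun b => b + M * t)) else 0 := by
  rw [WD.wt, cl_image, CC_add, cl_card]

theorem cl_rg (w : WD) (H M c t : ℕ) : w.rg H M (c + M * t) =
    w.rough ((cl_B H M c).image (fun b => b + M * t)) := by
  rw [WD.rg, cl_image]

theorem cl_bad_nonneg {w : WD} {H y Y0 Y : ℕ} {bad : ℝ} (h : Setup w H y Y0 Y bad) :
    0 ≤ bad := by
  have h1 : (0 : ℝ) ≤ bad * primorial y := (Nat.cast_nonneg _).trans h.bad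
  have h2 : (0 : ℝ) < primorial y := by exact_mod_cast primorial_pos y
  exact nonneg_of_mul_nonneg_left h1 h2

/-- The number of good classes `a + s`. -/
theorem cl_good_card {w : WD} {H y Y0 Y : ℕ} {bad : ℝ} (h : Setup w H y Y0 Y bad) (s : ℕ) :
    (1 - bad) * primorial y ≤ (((range (primorial y)).filter
      (fun a => (CC H (primorial y) (a + s)).card ≤ w.K)).card : ℝ) := by
  set M := primorial y with hM
  have hM0 : 0 < M := primorial_pos y
  have hper : ∀ n t, CC H M (n + M * t) = CC H M n := CC_add H M
  have hmod : ∀ n, CC H M (n % M) = CC H M n := by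
    intro n
    conv_rhs => rw [← Nat.mod_add_div n M]
    rw [hper]
  have h1 : ((range M).filter (fun a => (CC H M (a + s)).card ≤ w.K)).card =
      ((range M).filter (fun a => (CC H M a).card ≤ w.K)).card := by
    have hs : ∀ a, (a + s) % M < M := fun a => Nat.mod_lt _ hM0
    apply card_bij (fun a _ => (a + s) % M)
    · intro a ha
      rw [mem_filter, mem_range] at ha ⊢
      refine ⟨hs a, ?_⟩
      rw [hmod]
      exact ha.2
    · intro a ha b hb hab
      rw [mem_filter, mem_range] at ha hb
      have h2 : a + s ≡ b + s [MOD M] := hab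
      have h3 : a ≡ b [MOD M] := Nat.ModEq.add_right_cancel' s h2
      exact Nat.ModEq.eq_of_lt_of_lt h3 ha.1 hb.1
    · intro b hb
      rw [mem_filter, mem_range] at hb
      refine ⟨(b + (M * s - s)) % M, ?_, ?_⟩
      · have hle : s ≤ M * s := Nat.le_mul_of_pos_left s hM0
        have h2 : (b + (M * s - s)) % M + s ≡ b [MOD M] := by
          have h3 : (b + (M * s - s)) % M + s ≡ b + (M * s - s) + s [MOD M] :=
            (Nat.mod_modEq _ _).add_right s
          have h4 : b + (M * s - s) + s = b + M * s := by omega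
          rw [h4] at h3
          exact h3.trans (by simp [Nat.ModEq])
        rw [mem_filter, mem_range]
        refine ⟨Nat.mod_lt _ hM0, ?_⟩
        rw [← hmod, h2, Nat.mod_eq_of_lt hb.1]
        exact hb.2
      · have hle : s ≤ M * s := Nat.le_mul_of_pos_left s hM0
        have h2 : (b + (M * s - s)) % M + s ≡ b [MOD M] := by
          have h3 : (b + (M * s - s)) % M + s ≡ b + (M * s - s) + s [MOD M] :=
            (Nat.mod_modEq _ _).add_right s
          have h4 : b + (M * s - s) + s = b + M * s := by omega
          rw [h4] at h3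
          exact h3.trans (by simp [Nat.ModEq])
        change ((b + (M * s - s)) % M + s) % M = b
        rw [h2, Nat.mod_eq_of_lt hb.1]
  have h2 : ((range M).filter (fun a => (CC H M a).card ≤ w.K)).card +
      ((range M).filter (fun a => w.K < (CC H M a).card)).card = M := by
    have h3 := card_filter_add_card_filter_not (s := range M) (fun a => (CC H M a).card ≤ w.K)
    simp only [not_le, card_range] at h3
    exact h3
  have h3 : (((range M).filter (fun a => (CC H M a).card ≤ w.K)).card : ℝ) +
      (((range M).filter (fun a => w.K < (CC H M a).card)).card : ℝ) = M := by exact_mod_cast h2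
  have h4 := h.bad
  rw [h1]
  rw [← hM] at h4
  linarith

/-- Lower bound for the total weight; the number of good classes `a + s` is the same as the number
of good classes `a` (shift modulo `M`). -/
theorem WD.sum_wt_ge (w : WD) (H y Y0 Y : ℕ) (bad : ℝ) (h : Setup w H y Y0 Y bad) (s : ℕ)
    (hs : s + H ≤ w.W) :
    (1 - bad - 4 * w.e) * (primorial y * Y)
      ≤ ∑ n ∈ Ico (primorial y * Y0) (primorial y * (Y0 + Y)), w.wt H (primorial y) (n + s) := by
  have hb := cl_bad_nonneg h
  have hg := cl_good_card h s
  have hnd := cl_not_dvd w y h.yW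
  set M := primorial y with hM
  have hM0 : 0 < M := primorial_pos y
  rw [sum_classes M Y0 Y hM0]
  have he0 := w.e0
  have he1 := w.e1
  have hclass : ∀ a ∈ range M, (if (CC H M (a + s)).card ≤ w.K then (1 - 4 * w.e) * (Y : ℝ) else 0) ≤
      ∑ t ∈ Ico Y0 (Y0 + Y), w.wt H M (a + M * t + s) := by
    intro a _
    have h1 : ∀ t, w.wt H M (a + M * t + s) = if (cl_B H M (a + s)).card ≤ w.K then
        w.om ((cl_B H M (a + s)).image (fun b => b + M * t)) else 0 := by
      intro t
      rw [← cl_wt]
      congr 1
      ring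
    simp only [h1]
    rw [cl_card]
    by_cases hc : (CC H M (a + s)).card ≤ w.K
    · simp only [hc, if_true]
      exact (w.win_mean M hnd (cl_B H M (a + s)) (by rw [cl_card]; exact hc) (by
        intro b hb b' hb'
        have h3 := cl_mem hb
        have h4 := cl_mem hb'
        omega) Y0 Y h.hY).1
    · simp only [hc, if_false, sum_const_zero]
      exact le_rfl
  refine le_trans ?_ (sum_le_sum hclass)
  rw [← sum_filter, sum_const, nsmul_eq_mul]
  have hY : (0 : ℝ) ≤ (1 - 4 * w.e) * Y := mul_nonneg (by linarith) (Nat.cast_nonneg _)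
  have h5 := mul_le_mul_of_nonneg_right hg hY
  have h6 : (0 : ℝ) ≤ 4 * w.e * bad * (M * Y) := by positivity
  nlinarith [h5, h6]

theorem WD.sum_wt_sq_le (w : WD) (H y Y0 Y : ℕ) (bad : ℝ) (h : Setup w H y Y0 Y bad) (s : ℕ)
    (hs : s + H ≤ w.W) :
    ∑ n ∈ Ico (primorial y * Y0) (primorial y * (Y0 + Y)), w.wt H (primorial y) (n + s) ^ 2
      ≤ 2 * w.C * (primorial y * Y) := by
  have hnd := cl_not_dvd w y h.yW
  set M := primorial y with hM
  have hM0 : 0 < M := primorial_pos y
  have hC : 0 ≤ w.C := (Real.exp_pos _).le.trans w.hC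
  rw [sum_classes M Y0 Y hM0]
  have hclass : ∀ a ∈ range M,
      ∑ t ∈ Ico Y0 (Y0 + Y), w.wt H M (a + M * t + s) ^ 2 ≤ 2 * w.C * Y := by
    intro a _
    have h1 : ∀ t, w.wt H M (a + M * t + s) = if (cl_B H M (a + s)).card ≤ w.K then
        w.om ((cl_B H M (a + s)).image (fun b => b + M * t)) else 0 := by
      intro t
      rw [← cl_wt]
      congr 1
      ring
    simp only [h1]
    rw [cl_card]
    by_cases hc : (CC H M (a + s)).card ≤ w.K
    · simp only [hc, if_true]
      exact w.win_sq M hnd (cl_B H M (a + s)) (by rw [cl_card]; exact hc) (by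
        intro b hb b' hb'
        have h3 := cl_mem hb
        have h4 := cl_mem hb'
        omega) Y0 Y h.hY
    · simp only [hc, if_false]
      rw [sum_eq_zero (fun _ _ => by norm_num)]
      positivity
  refine (sum_le_sum hclass).trans (le_of_eq ?_)
  rw [sum_const, card_range, nsmul_eq_mul]
  ring

theorem WD.sum_wt_rg_le (w : WD) (H y Y0 Y : ℕ) (bad : ℝ) (h : Setup w H y Y0 Y bad)
    (hs : H ≤ w.W) :
    ∑ n ∈ Ico (primorial y * Y0) (primorial y * (Y0 + Y)),
        w.wt H (primorial y) n * w.rg H (primorial y) n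
      ≤ 3 * w.e * (primorial y * Y) := by
  have hnd := cl_not_dvd w y h.yW
  set M := primorial y with hM
  have hM0 : 0 < M := primorial_pos y
  have he0 := w.e0
  rw [sum_classes M Y0 Y hM0]
  have hclass : ∀ a ∈ range M,
      ∑ t ∈ Ico Y0 (Y0 + Y), w.wt H M (a + M * t) * w.rg H M (a + M * t) ≤ 3 * w.e * Y := by
    intro a _
    simp only [cl_wt, cl_rg]
    by_cases hc : (cl_B H M a).card ≤ w.K
    · simp only [hc, if_true]
      exact w.win_rough M hnd (cl_B H M a) hc (by
        intro b hb b' hb'
        have h3 := cl_mem hb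
        have h4 := cl_mem hb'
        omega) Y0 Y h.hY
    · simp only [hc, if_false, zero_mul, sum_const_zero]
      positivity
  refine (sum_le_sum hclass).trans (le_of_eq ?_)
  rw [sum_const, card_range, nsmul_eq_mul]
  ring

/-- Two shifts whose difference is at least `H`: the two windows are disjoint (`win_pair`). -/
theorem WD.sum_wt_wt_le (w : WD) (H y Y0 Y : ℕ) (bad : ℝ) (h : Setup w H y Y0 Y bad)
    (s s' : ℕ) (hss : s + H ≤ s') (hs : s' + H ≤ w.W) :
    ∑ n ∈ Ico (primorial y * Y0) (primorial y * (Y0 + Y)),
        w.wt H (primorial y) (n + s) * w.wt H (primorial y) (n + s')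
      ≤ (1 + 3 * w.e) * (primorial y * Y) := by
  have hnd := cl_not_dvd w y h.yW
  set M := primorial y with hM
  have hM0 : 0 < M := primorial_pos y
  have he0 := w.e0
  rw [sum_classes M Y0 Y hM0]
  have hclass : ∀ a ∈ range M,
      ∑ t ∈ Ico Y0 (Y0 + Y), w.wt H M (a + M * t + s) * w.wt H M (a + M * t + s') ≤
        (1 + 3 * w.e) * Y := by
    intro a _
    have h1 : ∀ r t, w.wt H M (a + M * t + r) = if (cl_B H M (a + r)).card ≤ w.K then
        w.om ((cl_B H M (a + r)).image (fun b => b + M * t)) else 0 := by
      intro r t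
      rw [← cl_wt]
      congr 1
      ring
    simp only [h1]
    by_cases hc : (cl_B H M (a + s)).card ≤ w.K
    · by_cases hc' : (cl_B H M (a + s')).card ≤ w.K
      · simp only [hc, hc', if_true]
        refine w.win_pair M hnd (cl_B H M (a + s)) (cl_B H M (a + s')) hc hc' ?_ ?_ Y0 Y h.hY
        · rw [Finset.disjoint_left]
          intro b hb hb'
          have h3 := cl_mem hb
          have h4 := cl_mem hb'
          omega
        · intro b hb b' hb'
          rw [mem_union] at hb hb'
          have h3 : a + s + 1 ≤ b ∧ b ≤ a + s' + H := by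
            rcases hb with hb | hb
            · have := cl_mem hb
              omega
            · have := cl_mem hb
              omega
          have h4 : a + s + 1 ≤ b' ∧ b' ≤ a + s' + H := by
            rcases hb' with hb' | hb'
            · have := cl_mem hb'
              omega
            · have := cl_mem hb'
              omega
          omega
      · simp only [hc', if_false, mul_zero, sum_const_zero]
        positivity
    · simp only [hc, if_false, zero_mul, sum_const_zero]
      positivity
  refine (sum_le_sum hclass).trans (le_of_eq ?_)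
  rw [sum_const, card_range, nsmul_eq_mul]
  ring

end Pool.Agent.Lib.H15P
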