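import Mathlib

/-!
# Chunk DEC: decorrelation (pure inequalities)
-/

open Finset

namespace Pool.Agent.Lib.H15P

private theorem DEC_shift (N0 N1 s : ℕ) (f : ℕ → ℝ) (h : N0 + s ≤ N1) :
    ∑ n ∈ Ico (N0 + s) N1, f n = ∑ n ∈ Ico N0 (N1 - s), f (n + s) := by
  rw [Finset.sum_Ico_add' f N0 (N1 - s) s]
  congr 2
  omega

/-- telescoping -/
private theorem DEC_tel (g : ℕ → ℝ) (n s : ℕ) :
    |g (n + s) - g n| ≤ ∑ j ∈ range s, |g (n + j + 1) - g (n + j)| := by
  induction s with
  | zero => simp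
  | succ s ih =>
    rw [Finset.sum_range_succ]
    have h1 : g (n + (s + 1)) - g n = (g (n + s + 1) - g (n + s)) + (g (n + s) - g n) := by
      rw [← add_assoc]
      ring
    rw [h1]
    refine (abs_add_le _ _).trans ?_
    linarith

/-- For each `s` in `S = Ioc H (H + U)`:
`Σ_{[N0,N1)} w g ≤ Σ_{[N0,N1)} w(n+s) g(n) + Σ_{[N0,N1)} w(n+s) |g(n+s) - g(n)| + Σ_{[N0,N0+s)} w`
(the middle interval is shifted; everything is nonnegative, `g ≤ 1`).
Average over `s`, `wbar(n) = (1/U) Σ_s w(n+s)`: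
first term `≤ Σ g + Σ |wbar - 1| ≤ (1 - c0) N + √N √(Σ (wbar-1)^2)` and
`Σ (wbar-1)^2 = Σ wbar^2 - 2 Σ wbar + N ≤ (e2 + 2 e1 + (2H+1) C/U) N` (the at most `U (2H+1)` pairs
`|s - s'| ≤ H` by Cauchy-Schwarz and (c), the others by (d));
second term `≤ √(C N) √(Σ |g(n+s) - g(n)|) ≤ √(C N) √((H+U) Tr)` (telescoping; `|..| ≤ 1`);
third term `≤ √(Σ_{[N0,N1)} w^2) √(H+U) ≤ √(C N) √(H + U)` if `H + U ≤ N`.
Together with (a): `(c0 - e1) N ≤ η N + ...`. -/
theorem decorrelate (N0 N1 H U : ℕ) (hU : 1 ≤ U) (hN : N0 + H + U ≤ N1) (w g : ℕ → ℝ)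
    (C c0 e1 e2 Tr : ℝ) (hw : ∀ n, 0 ≤ w n) (hg0 : ∀ n, 0 ≤ g n) (hg1 : ∀ n, g n ≤ 1)
    (hC : 0 ≤ C) (he1 : 0 ≤ e1) (he2 : 0 ≤ e2) (hTr : 0 ≤ Tr)
    (ha : (1 - e1) * ((N1 : ℝ) - N0) ≤ ∑ n ∈ Ico N0 N1, w n * g n)
    (hb : ∑ n ∈ Ico N0 N1, g n ≤ (1 - c0) * ((N1 : ℝ) - N0))
    (hc : ∀ s, s ≤ H + U → ∑ n ∈ Ico N0 N1, w (n + s) ^ 2 ≤ C * ((N1 : ℝ) - N0))
    (hd : ∀ s s', s + H < s' → s' ≤ H + U →
      ∑ n ∈ Ico N0 N1, w (n + s) * w (n + s') ≤ (1 + e2) * ((N1 : ℝ) - N0))
    (he : ∀ s, s ≤ H + U → (1 - e1) * ((N1 : ℝ) - N0) ≤ ∑ n ∈ Ico N0 N1, w (n + s))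
    (hf : ∑ n ∈ Ico N0 (N1 + H + U), |g (n + 1) - g n| ≤ Tr) :
    (c0 - e1 - Real.sqrt (e2 + 2 * e1 + (2 * H + 1) * C / U)) * ((N1 : ℝ) - N0)
      ≤ Real.sqrt (C * ((N1 : ℝ) - N0)) * Real.sqrt ((H + U) * Tr) +
        Real.sqrt (C * ((N1 : ℝ) - N0)) * Real.sqrt (H + U) := by
  set N : ℝ := (N1 : ℝ) - N0 with hNdef
  have hN01 : N0 ≤ N1 := by omega
  have hN0 : 0 ≤ N := by
    have : (N0 : ℝ) ≤ N1 := by exact_mod_cast hN01
    rw [hNdef]
    linarith
  have hUr : (1 : ℝ) ≤ U := by exact_mod_cast hU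
  have hU0 : (0 : ℝ) < U := by linarith
  have hcard : ((Ico N0 N1).card : ℝ) = N := by
    rw [Nat.card_Ico, Nat.cast_sub hN01]
  set S := Ioc H (H + U) with hS
  have hScard : (S.card : ℝ) = U := by
    rw [hS, Nat.card_Ioc]
    congr 1
    omega
  have hSmem : ∀ s ∈ S, H < s ∧ s ≤ H + U := fun s hs => Finset.mem_Ioc.mp hs
  -- third term
  have hT3 : ∀ s ∈ S, ∑ n ∈ Ico N0 (N0 + s), w n ≤ √(C * N) * √((H : ℝ) + U) := by
    intro s hs
    obtain ⟨hs1, hs2⟩ := hSmem s hs
    have h1 := Real.sum_mul_le_sqrt_mul_sqrt (Ico N0 (N0 + s)) w (fun _ => 1)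
    simp only [mul_one, one_pow, Finset.sum_const, nsmul_eq_mul] at h1
    rw [Nat.card_Ico] at h1
    refine h1.trans ?_
    apply mul_le_mul _ _ (Real.sqrt_nonneg _) (Real.sqrt_nonneg _)
    · apply Real.sqrt_le_sqrt
      calc ∑ n ∈ Ico N0 (N0 + s), w n ^ 2 ≤ ∑ n ∈ Ico N0 N1, w n ^ 2 := by
            apply Finset.sum_le_sum_of_subset_of_nonneg
            · apply Finset.Ico_subset_Ico_right
              omega
            · intro n _ _
              positivity
        _ ≤ C * N := by simpa using hc 0 (by omega)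
    · apply Real.sqrt_le_sqrt
      have h2 : N0 + s - N0 ≤ H + U := by omega
      exact_mod_cast h2
  -- second term
  have hT2 : ∀ s ∈ S, ∑ n ∈ Ico N0 N1, w (n + s) * |g (n + s) - g n| ≤
      √(C * N) * √(((H : ℝ) + U) * Tr) := by
    intro s hs
    obtain ⟨hs1, hs2⟩ := hSmem s hs
    have h1 := Real.sum_mul_le_sqrt_mul_sqrt (Ico N0 N1) (fun n => w (n + s))
      (fun n => |g (n + s) - g n|)
    refine h1.trans ?_
    apply mul_le_mul _ _ (Real.sqrt_nonneg _) (Real.sqrt_nonneg _)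
    · exact Real.sqrt_le_sqrt (hc s hs2)
    · apply Real.sqrt_le_sqrt
      calc ∑ n ∈ Ico N0 N1, |g (n + s) - g n| ^ 2 ≤ ∑ n ∈ Ico N0 N1, |g (n + s) - g n| := by
            apply Finset.sum_le_sum
            intro n _
            have h2 : |g (n + s) - g n| ≤ 1 := by
              rw [abs_le]
              constructor <;> linarith [hg0 n, hg1 n, hg0 (n + s), hg1 (n + s)]
            have h3 := abs_nonneg (g (n + s) - g n)
            nlinarith
        _ ≤ ∑ n ∈ Ico N0 N1, ∑ j ∈ range s, |g (n + j + 1) - g (n + j)| :=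
            Finset.sum_le_sum fun n _ => DEC_tel g n s
        _ = ∑ j ∈ range s, ∑ n ∈ Ico N0 N1, |g (n + j + 1) - g (n + j)| :=
            Finset.sum_comm
        _ ≤ ∑ _j ∈ range s, Tr := by
            apply Finset.sum_le_sum
            intro j hj
            have hj' : j < s := Finset.mem_range.mp hj
            refine le_trans ?_ hf
            have h2 := Finset.sum_Ico_add' (fun n => |g (n + 1) - g n|) N0 N1 j
            have h3 : ∑ n ∈ Ico N0 N1, |g (n + j + 1) - g (n + j)| =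
                ∑ n ∈ Ico (N0 + j) (N1 + j), |g (n + 1) - g n| := h2
            rw [h3]
            apply Finset.sum_le_sum_of_subset_of_nonneg
            · apply Finset.Ico_subset_Ico
              · omega
              · omega
            · intro n _ _
              exact abs_nonneg _
        _ = s * Tr := by
            rw [Finset.sum_const, Finset.card_range, nsmul_eq_mul]
        _ ≤ ((H : ℝ) + U) * Tr := by
            apply mul_le_mul_of_nonneg_right _ hTr
            exact_mod_cast hs2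
  -- pointwise in `s`
  have hpt : ∀ s ∈ S, ∑ n ∈ Ico N0 N1, w n * g n ≤ ∑ n ∈ Ico N0 N1, w (n + s) * g n +
      √(C * N) * √(((H : ℝ) + U) * Tr) + √(C * N) * √((H : ℝ) + U) := by
    intro s hs
    obtain ⟨hs1, hs2⟩ := hSmem s hs
    have hsplit : ∑ n ∈ Ico N0 N1, w n * g n =
        ∑ n ∈ Ico N0 (N0 + s), w n * g n + ∑ n ∈ Ico (N0 + s) N1, w n * g n :=
      (Finset.sum_Ico_consecutive (fun n => w n * g n) (by omega) (by omega)).symm
    have h1 : ∑ n ∈ Ico N0 (N0 + s), w n * g n ≤ ∑ n ∈ Ico N0 (N0 + s), w n := by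
      apply Finset.sum_le_sum
      intro n _
      exact mul_le_of_le_one_right (hw n) (hg1 n)
    have h2 : ∑ n ∈ Ico (N0 + s) N1, w n * g n ≤
        ∑ n ∈ Ico N0 N1, w (n + s) * g (n + s) := by
      rw [DEC_shift N0 N1 s (fun n => w n * g n) (by omega)]
      apply Finset.sum_le_sum_of_subset_of_nonneg
      · apply Finset.Ico_subset_Ico_right
        omega
      · intro n _ _
        exact mul_nonneg (hw _) (hg0 _)
    have h3 : ∑ n ∈ Ico N0 N1, w (n + s) * g (n + s) ≤
        ∑ n ∈ Ico N0 N1, w (n + s) * g n + ∑ n ∈ Ico N0 N1, w (n + s) * |g (n + s) - g n| := by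
      rw [← Finset.sum_add_distrib]
      apply Finset.sum_le_sum
      intro n _
      rw [← mul_add]
      apply mul_le_mul_of_nonneg_left _ (hw _)
      have := le_abs_self (g (n + s) - g n)
      linarith
    have h4 := hT2 s hs
    have h5 := hT3 s hs
    linarith
  -- average over `s`
  set wbar : ℕ → ℝ := fun n => (∑ s ∈ S, w (n + s)) / U with hwbar
  have havg : ∑ n ∈ Ico N0 N1, w n * g n ≤ ∑ n ∈ Ico N0 N1, wbar n * g n +
      √(C * N) * √(((H : ℝ) + U) * Tr) + √(C * N) * √((H : ℝ) + U) := by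
    have h1 := Finset.sum_le_sum hpt
    rw [Finset.sum_const, nsmul_eq_mul, hScard, Finset.sum_add_distrib, Finset.sum_add_distrib,
      Finset.sum_const, Finset.sum_const, nsmul_eq_mul, nsmul_eq_mul, hScard] at h1
    have h2 : ∑ s ∈ S, ∑ n ∈ Ico N0 N1, w (n + s) * g n = U * ∑ n ∈ Ico N0 N1, wbar n * g n := by
      rw [Finset.sum_comm, Finset.mul_sum]
      apply Finset.sum_congr rfl
      intro n _
      rw [hwbar]
      dsimp only
      rw [← Finset.sum_mul]
      field_simp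
    rw [h2] at h1
    have h3 : (U : ℝ) * ∑ n ∈ Ico N0 N1, w n * g n ≤
        U * (∑ n ∈ Ico N0 N1, wbar n * g n +
      √(C * N) * √(((H : ℝ) + U) * Tr) + √(C * N) * √((H : ℝ) + U)) := by linarith
    exact le_of_mul_le_mul_left h3 hU0
  -- first term
  set E : ℝ := e2 + 2 * e1 + (2 * H + 1) * C / U with hE
  have hvar : ∑ n ∈ Ico N0 N1, (wbar n - 1) ^ 2 ≤ E * N := by
    have hexp : ∑ n ∈ Ico N0 N1, (wbar n - 1) ^ 2 =
        ∑ n ∈ Ico N0 N1, wbar n ^ 2 - 2 * ∑ n ∈ Ico N0 N1, wbar n + N := by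
      have h1 : ∀ n ∈ Ico N0 N1, (wbar n - 1) ^ 2 = wbar n ^ 2 - 2 * wbar n + 1 := by
        intro n _
        ring
      rw [Finset.sum_congr rfl h1, Finset.sum_add_distrib, Finset.sum_sub_distrib,
        ← Finset.mul_sum, Finset.sum_const, nsmul_eq_mul, mul_one, hcard]
    have hlin : (1 - e1) * N ≤ ∑ n ∈ Ico N0 N1, wbar n := by
      have h1 : ∑ n ∈ Ico N0 N1, wbar n = (∑ s ∈ S, ∑ n ∈ Ico N0 N1, w (n + s)) / U := by
        rw [Finset.sum_comm, hwbar]
        dsimp only
        rw [Finset.sum_div]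
      rw [h1, le_div_iff₀ hU0]
      calc (1 - e1) * N * U = ∑ _s ∈ S, (1 - e1) * N := by
            rw [Finset.sum_const, nsmul_eq_mul, hScard]
            ring
        _ ≤ _ := Finset.sum_le_sum fun s hs => he s (hSmem s hs).2
    have hsq : ∑ n ∈ Ico N0 N1, wbar n ^ 2 ≤ (1 + e2 + (2 * H + 1) * C / U) * N := by
      have h1 : ∑ n ∈ Ico N0 N1, wbar n ^ 2 =
          (∑ s ∈ S, ∑ s' ∈ S, ∑ n ∈ Ico N0 N1, w (n + s) * w (n + s')) / U ^ 2 := by
        have h2 : ∀ n ∈ Ico N0 N1, wbar n ^ 2 =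
            (∑ s ∈ S, ∑ s' ∈ S, w (n + s) * w (n + s')) / U ^ 2 := by
          intro n _
          rw [hwbar]
          dsimp only
          rw [div_pow, sq (∑ s ∈ S, w (n + s)), Finset.sum_mul_sum]
        rw [Finset.sum_congr rfl h2, ← Finset.sum_div, Finset.sum_comm]
        congr 1
        apply Finset.sum_congr rfl
        intro s _
        rw [Finset.sum_comm]
      have hpair : ∀ s ∈ S, ∀ s' ∈ S, ∑ n ∈ Ico N0 N1, w (n + s) * w (n + s') ≤
          (1 + e2) * N + if s ≤ s' + H ∧ s' ≤ s + H then C * N else 0 := by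
        intro s hs s' hs'
        have hs2 := (hSmem s hs).2
        have hs2' := (hSmem s' hs').2
        have hpos : 0 ≤ (1 + e2) * N := by positivity
        split_ifs with h
        · have h3 : ∑ n ∈ Ico N0 N1, w (n + s) * w (n + s') ≤ C * N := by
            have h4 := hc s hs2
            have h5 := hc s' hs2'
            calc ∑ n ∈ Ico N0 N1, w (n + s) * w (n + s')
                ≤ ∑ n ∈ Ico N0 N1, (w (n + s) ^ 2 + w (n + s') ^ 2) / 2 := by
                  apply Finset.sum_le_sum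
                  intro n _
                  nlinarith [sq_nonneg (w (n + s) - w (n + s'))]
              _ = (∑ n ∈ Ico N0 N1, w (n + s) ^ 2 + ∑ n ∈ Ico N0 N1, w (n + s') ^ 2) / 2 := by
                  rw [← Finset.sum_div, Finset.sum_add_distrib]
              _ ≤ C * N := by linarith
          linarith
        · rw [add_zero]
          rcases lt_or_ge (s + H) s' with h6 | h6
          · exact hd s s' h6 hs2'
          · have h7 : s' + H < s := by
              by_contra h8
              exact h ⟨by omega, h6⟩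
            have h9 := hd s' s h7 hs2
            calc ∑ n ∈ Ico N0 N1, w (n + s) * w (n + s')
                = ∑ n ∈ Ico N0 N1, w (n + s') * w (n + s) := by
                  apply Finset.sum_congr rfl
                  intro n _
                  ring
              _ ≤ _ := h9
      have hrow : ∀ s ∈ S, ∑ s' ∈ S, ∑ n ∈ Ico N0 N1, w (n + s) * w (n + s') ≤
          U * ((1 + e2) * N) + (2 * H + 1) * (C * N) := by
        intro s hs
        refine (Finset.sum_le_sum (hpair s hs)).trans ?_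
        rw [Finset.sum_add_distrib, Finset.sum_const, nsmul_eq_mul, hScard, ← Finset.sum_filter,
          Finset.sum_const, nsmul_eq_mul]
        have h2 : (S.filter (fun s' => s ≤ s' + H ∧ s' ≤ s + H)).card ≤ 2 * H + 1 := by
          calc (S.filter (fun s' => s ≤ s' + H ∧ s' ≤ s + H)).card
              ≤ (Icc (s - H) (s + H)).card := by
                apply Finset.card_le_card
                intro s' hs'
                have h3 := (Finset.mem_filter.mp hs').2
                rw [Finset.mem_Icc]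
                omega
            _ ≤ 2 * H + 1 := by
                rw [Nat.card_Icc]
                omega
        have h3 : ((S.filter (fun s' => s ≤ s' + H ∧ s' ≤ s + H)).card : ℝ) ≤ 2 * H + 1 := by
          exact_mod_cast h2
        have h4 : 0 ≤ C * N := by positivity
        have h5 := mul_le_mul_of_nonneg_right h3 h4
        linarith
      rw [h1, div_le_iff₀ (by positivity)]
      refine (Finset.sum_le_sum hrow).trans ?_
      rw [Finset.sum_const, nsmul_eq_mul, hScard]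
      apply le_of_eq
      field_simp
    have h5 : E * N = (1 + e2 + (2 * H + 1) * C / U) * N - 2 * ((1 - e1) * N) + N := by
      rw [hE]
      ring
    rw [hexp, h5]
    linarith
  have hE0 : 0 ≤ E := by positivity
  have hT1 : ∑ n ∈ Ico N0 N1, wbar n * g n ≤ (1 - c0) * N + √E * N := by
    have h1 : ∑ n ∈ Ico N0 N1, wbar n * g n ≤
        ∑ n ∈ Ico N0 N1, g n + ∑ n ∈ Ico N0 N1, |wbar n - 1| * 1 := by
      rw [← Finset.sum_add_distrib]
      apply Finset.sum_le_sum
      intro n _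
      have h2 : (wbar n - 1) * g n ≤ |wbar n - 1| * 1 := by
        calc (wbar n - 1) * g n ≤ |wbar n - 1| * g n :=
              mul_le_mul_of_nonneg_right (le_abs_self _) (hg0 n)
          _ ≤ |wbar n - 1| * 1 := mul_le_mul_of_nonneg_left (hg1 n) (abs_nonneg _)
      linarith
    have h2 := Real.sum_mul_le_sqrt_mul_sqrt (Ico N0 N1) (fun n => |wbar n - 1|) (fun _ => 1)
    have h3 : √(∑ n ∈ Ico N0 N1, |wbar n - 1| ^ 2) * √(∑ n ∈ Ico N0 N1, (1 : ℝ) ^ 2) ≤
        √E * N := by
      simp only [sq_abs, one_pow, Finset.sum_const, nsmul_eq_mul, mul_one, hcard]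
      calc √(∑ n ∈ Ico N0 N1, (wbar n - 1) ^ 2) * √N ≤ √(E * N) * √N := by
            apply mul_le_mul_of_nonneg_right _ (Real.sqrt_nonneg _)
            exact Real.sqrt_le_sqrt hvar
        _ = √E * N := by
            rw [Real.sqrt_mul hE0, mul_assoc, Real.mul_self_sqrt hN0]
    linarith
  have h6 : (c0 - e1 - √E) * N = (1 - e1) * N - ((1 - c0) * N + √E * N) := by ring
  rw [h6]
  linarith

end Pool.Agent.Lib.H15P
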