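import Mathlib

/-!
# H15P: definitions

`ι` = index type of the primes, `J` = index type of the forms `b j + M t`, `I` = labels (scales).
-/

open Finset

namespace Pool.Agent.Lib.H15P

/-- Bernoulli weight of the set `A` (the element `i` is chosen with probability `q i`). -/
noncomputable def bw {ι : Type} [Fintype ι] [DecidableEq ι] (q : ι → ℝ) (A : Finset ι) : ℝ :=
  ∏ i, if i ∈ A then q i else 1 - q i

/-- Expectation of a function of one random set. -/
noncomputable def ex {ι : Type} [Fintype ι] [DecidableEq ι] (q : ι → ℝ)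
    (F : Finset ι → ℝ) : ℝ := ∑ A : Finset ι, F A * bw q A

/-- Expectation of a function of a family of independent random sets. -/
noncomputable def EX {ι J : Type} [Fintype ι] [DecidableEq ι] [Fintype J] [DecidableEq J]
    (q : ι → ℝ) (F : (J → Finset ι) → ℝ) : ℝ :=
  ∑ S : J → Finset ι, F S * ∏ j, bw q (S j)

/-- Number of the forms with label `i`. -/
def cnt {J I : Type} [Fintype J] [DecidableEq I] (l : J → Option I) (i : I) : ℕ :=
  (univ.filter (fun j => l j = some i)).card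

/-- Admissible labelings: only forms of `B` are labelled, at most `m i` of them with label `i`. -/
def adm {J I : Type} [Fintype J] [DecidableEq J] [Fintype I] [DecidableEq I]
    (B : Finset J) (m : I → ℕ) : Finset (J → Option I) :=
  univ.filter (fun l => (∀ j, j ∉ B → l j = none) ∧ ∀ i, cnt l i ≤ m i)

/-- Factor of one form. -/
noncomputable def dd {ι I : Type} [Fintype I] (D : I → Finset ι → ℝ) :
    Option I → Finset ι → ℝ
  | none, _ => 1
  | some i, A => - (D i A) / Fintype.card I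

/-- The weight function (before squaring). -/
noncomputable def LL {ι J I : Type} [Fintype J] [DecidableEq J] [Fintype I] [DecidableEq I]
    (D : I → Finset ι → ℝ) (m : I → ℕ) (B : Finset J) (S : J → Finset ι) : ℝ :=
  ∑ l ∈ adm B m, ∏ j, dd D (l j) (S j)

/-- Proportion of the saturated labels. -/
noncomputable def sat {J I : Type} [Fintype J] [Fintype I] [DecidableEq I] (m : I → ℕ)
    (l : J → Option I) : ℝ :=
  ((univ.filter (fun i => cnt l i = m i)).card : ℝ) / Fintype.card I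

/-- What remains of `LL (insert j0 B)` if no prime divides the form `j0`. -/
noncomputable def LP {ι J I : Type} [Fintype J] [DecidableEq J] [Fintype I] [DecidableEq I]
    (D : I → Finset ι → ℝ) (m : I → ℕ) (B : Finset J) (S : J → Finset ι) : ℝ :=
  ∑ l ∈ adm B m, sat m l * ∏ j, dd D (l j) (S j)

/-- Second moments of the factors. -/
noncomputable def GG {ι I : Type} [Fintype ι] [DecidableEq ι] [Fintype I] (q : ι → ℝ)
    (D : I → Finset ι → ℝ) : Option I → ℝ
  | none => 1
  | some i => ex q (fun A => D i A ^ 2) / (Fintype.card I : ℝ) ^ 2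

/-- Total weight of all labelings of `k` forms. -/
noncomputable def ZZ {ι I : Type} [Fintype ι] [DecidableEq ι] [Fintype I] (q : ι → ℝ)
    (D : I → Finset ι → ℝ) (k : ℕ) : ℝ := (1 + ∑ i, GG q D (some i)) ^ k

/-- The hypotheses on the one form functions `D i`. -/
structure Good {ι I : Type} [Fintype ι] [DecidableEq ι] (q : ι → ℝ)
    (D : I → Finset ι → ℝ) (h : ℝ) : Prop where
  q0 : ∀ i, 0 ≤ q i
  q1 : ∀ i, q i ≤ 1
  empty : ∀ i, D i ∅ = 1
  mean : ∀ i, ex q (D i) = 0
  orth : ∀ i i', i ≠ i' → ex q (fun A => D i A * D i' A) = 0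
  sq : ∀ i, ex q (fun A => D i A ^ 2) ≤ h
  fourth : ∀ i, ex q (fun A => D i A ^ 4) ≤ h

/-! ## Forms -/

/-- The primes of `P` which divide `e`. -/
def hit (P : Finset ℕ) (e : ℕ) : Finset {p // p ∈ P} := univ.filter (fun p => p.1 ∣ e)

/-- The probabilities: `1/p`, slightly increased (`K` = bound for the number of forms). -/
noncomputable def qq (P : Finset ℕ) (K : ℕ) (p : {p // p ∈ P}) : ℝ :=
  (1 / (p.1 : ℝ) + 2 * K / (p.1 : ℝ) ^ 2) / (1 + 2 * K / (p.1 : ℝ) ^ 2)

/-- Hypotheses on the primes `P` and the forms `b j + M t`. -/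
structure Forms {J : Type} [Fintype J] (P : Finset ℕ) (W K M : ℕ) (b : J → ℕ) : Prop where
  prime : ∀ p ∈ P, p.Prime
  big : ∀ p ∈ P, W < p
  cop : ∀ p ∈ P, ¬ p ∣ M
  dist : ∀ p ∈ P, ∀ j j', j ≠ j' → ¬ (b j ≡ b j' [MOD p])
  one_le : 1 ≤ K
  card : Fintype.card J ≤ K
  KW : 4 * K ^ 2 ≤ W

/-- Mean value over a full period. -/
noncomputable def EP {J : Type} (P : Finset ℕ) (M : ℕ) (b : J → ℕ)
    (F : (J → Finset {p // p ∈ P}) → ℝ) : ℝ :=
  (∑ t ∈ range (∏ p ∈ P, p), F (fun j => hit P (b j + M * t))) / ((∏ p ∈ P, p : ℕ) : ℝ)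

/-- `G` is a finite sum of functions `g` with periods `d ∣ Q` such that `Σ d ‖g‖ ≤ K`. -/
inductive Lev (Q : ℕ) : (ℕ → ℝ) → ℝ → Prop
  | base (g : ℕ → ℝ) (d : ℕ) (c : ℝ) (hd0 : 0 < d) (hd : d ∣ Q) (hper : Function.Periodic g d)
      (hc : ∀ t, |g t| ≤ c) : Lev Q g (d * c)
  | add (G G' : ℕ → ℝ) (K K' : ℝ) (h : Lev Q G K) (h' : Lev Q G' K') :
      Lev Q (fun t => G t + G' t) (K + K')
  | mono (G : ℕ → ℝ) (K K' : ℝ) (h : Lev Q G K) (hK : K ≤ K') : Lev Q G K'

/-- Level of a function of the set of the primes dividing a form. -/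
def LevS (P : Finset ℕ) (F : Finset {p // p ∈ P} → ℝ) (K : ℝ) : Prop :=
  ∀ M b : ℕ, Lev (∏ p ∈ P, p) (fun t => F (hit P (b + M * t))) K

/-! ## Blocks of primes and Brun-Hooley functions -/

/-- The part of `A` in the block `b`. -/
def AB {ι : Type} (blk : ι → ℕ) (b : ℕ) (A : Finset ι) : Finset ι := A.filter (fun i => blk i = b)

/-- `Σ_{l ≤ 2r} (-1)^l (s choose l)` -/
noncomputable def TT (r s : ℕ) : ℝ := ∑ l ∈ range (2 * r + 1), (-1 : ℝ) ^ l * (s.choose l : ℝ)

/-- Probability that no element of the block `b` is chosen. -/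
noncomputable def p0 {ι : Type} [Fintype ι] (q : ι → ℝ) (blk : ι → ℕ) (b : ℕ) : ℝ :=
  ∏ i ∈ univ.filter (fun i => blk i = b), (1 - q i)

/-- Brun-Hooley weight of the blocks `i, i+1, .., N-1` (`r0 + c` in the block `i + c`). -/
noncomputable def lam {ι : Type} (blk : ι → ℕ) (r0 N i : ℕ) (A : Finset ι) : ℝ :=
  ∏ b ∈ Ico i N, TT (r0 + (b - i)) (AB blk b A).card

/-- Mean value of the factor of the block `i`. -/
noncomputable def tau {ι : Type} [Fintype ι] [DecidableEq ι] (q : ι → ℝ) (blk : ι → ℕ)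
    (r0 i : ℕ) : ℝ := ex q (fun A => TT r0 (AB blk i A).card)

/-- The one form function of the scale `i`. -/
noncomputable def DB {ι : Type} [Fintype ι] [DecidableEq ι] (q : ι → ℝ) (blk : ι → ℕ)
    (r0 N i : ℕ) (A : Finset ι) : ℝ :=
  (∏ b ∈ Ico (i + 1) N, TT (r0 + (b - i)) (AB blk b A).card) *
    ((TT r0 (AB blk i A).card - tau q blk r0 i) / (1 - tau q blk r0 i))

/-- Sum of the primes of a block. -/
noncomputable def XB {ι : Type} [Fintype ι] (pr : ι → ℕ) (blk : ι → ℕ) (b : ℕ) : ℝ :=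
  ∑ i ∈ univ.filter (fun i => blk i = b), (pr i : ℝ)

/-! ## The concrete choice -/

/-- The primes `p` with `W < p`, `log p ≤ T`. -/
noncomputable def PP (W : ℕ) (T : ℝ) : Finset ℕ := (Ioc W ⌊Real.exp T⌋₊).filter Nat.Prime

/-- The block of `p`: `T / κ^(b+1) < log p ≤ T / κ^b`. -/
noncomputable def bk (κ : ℕ) (T : ℝ) (p : ℕ) : ℕ := Nat.log κ ⌊T / Real.log p⌋₊

end Pool.Agent.Lib.H15P
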