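import Pool.Agent.Lib.H15P.PN2
import Pool.Agent.Lib.H15P.CL

/-!
# Chunk FIN0: the set-up for large `x`
-/

open Finset

namespace Pool.Agent.Lib.H15P

/-- `M = primorial ⌊L/8⌋ ≤ exp (L/4)/2` for `L ≥ 16`. -/
theorem fin0_primorial_le (L : ℝ) (hL : 16 ≤ L) :
    2 * (primorial ⌊L / 8⌋₊ : ℝ) ≤ Real.exp (L / 4) := by
  have h1 : (primorial ⌊L / 8⌋₊ : ℝ) ≤ (4 : ℝ) ^ ⌊L / 8⌋₊ := by
    exact_mod_cast primorial_le_four_pow ⌊L / 8⌋₊
  have h2 : (4 : ℝ) ^ ⌊L / 8⌋₊ ≤ Real.exp (7 / 40 * L) := by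
    have h3 : (4 : ℝ) ^ ⌊L / 8⌋₊ = Real.exp (⌊L / 8⌋₊ * Real.log 4) := by
      rw [mul_comm, Real.exp_mul, Real.exp_log (by norm_num), Real.rpow_natCast]
    rw [h3]
    apply Real.exp_le_exp.mpr
    have h4 : Real.log 4 ≤ 7 / 5 := by
      have h5 : Real.log 4 = 2 * Real.log 2 := by
        rw [show (4 : ℝ) = 2 ^ 2 by norm_num, Real.log_pow]
        norm_num
      rw [h5]
      have := Real.log_two_lt_d9
      linarith
    have h6 : (⌊L / 8⌋₊ : ℝ) ≤ L / 8 := Nat.floor_le (by linarith)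
    have h7 : 0 ≤ Real.log 4 := Real.log_nonneg (by norm_num)
    calc (⌊L / 8⌋₊ : ℝ) * Real.log 4 ≤ L / 8 * Real.log 4 :=
          mul_le_mul_of_nonneg_right h6 h7
      _ ≤ L / 8 * (7 / 5) := mul_le_mul_of_nonneg_left h4 (by linarith)
      _ = 7 / 40 * L := by ring
  have h8 : 2 * Real.exp (7 / 40 * L) ≤ Real.exp (L / 4) := by
    have h9 : Real.exp (L / 4) = Real.exp (3 / 40 * L) * Real.exp (7 / 40 * L) := by
      rw [← Real.exp_add]
      congr 1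
      ring
    rw [h9]
    apply mul_le_mul_of_nonneg_right _ (Real.exp_pos _).le
    have := Real.add_one_le_exp (3 / 40 * L)
    linarith
  linarith

/-- `log ⌊L/8⌋ ≥ (log L)/2` for `L ≥ 100`. -/
theorem fin0_log_ge (L : ℝ) (hL : 100 ≤ L) :
    Real.log L / 2 ≤ Real.log (⌊L / 8⌋₊ : ℝ) := by
  have hL0 : 0 < L := by linarith
  have h1 : L / 8 < ⌊L / 8⌋₊ + 1 := Nat.lt_floor_add_one _
  have h2 : Real.sqrt L ≤ (⌊L / 8⌋₊ : ℝ) := by
    have h3 : 10 ≤ Real.sqrt L := by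
      apply Real.le_sqrt_of_sq_le
      linarith
    have h4 : Real.sqrt L * Real.sqrt L = L := Real.mul_self_sqrt hL0.le
    nlinarith
  have h5 : Real.log (Real.sqrt L) = Real.log L / 2 := Real.log_sqrt hL0.le
  rw [← h5]
  exact Real.log_le_log (Real.sqrt_pos.mpr hL0) h2

/-- `y = ⌊log x/8⌋`, `M = primorial y ≤ 4^y ≤ x^(1/4)/2` (`primorial_le_4_pow`),
`Y0 = ⌈x^(1/2)/M⌉`, `Y0 + Y = ⌊(x - x^(1/4))/M⌋`; `Y ≥ x^(1/4)`. The proportion of bad classes is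
at most `H/(K log y) ≤ 4 lam/Lam` (`card_bad_le`; `H ≤ lam L`, `K ≥ Lam L/(2 log L)`,
`log y ≥ (log L)/2`). -/
theorem exists_setup (lam Lam δ e : ℝ) (hl : 0 < lam) (hL : 0 < Lam) (hδ : 0 < δ) (he : 0 < e)
    (he1 : e ≤ 1 / 10) : ∃ C x0 : ℝ, ∀ x : ℝ, x0 ≤ x → ∃ (w : WD) (y Y0 Y : ℕ),
      w.C = C ∧ w.e = e ∧ w.W = ⌈Real.log x ^ 4⌉₊ ∧
      Setup w ⌊lam * Real.log x⌋₊ y Y0 Y (4 * lam / Lam) ∧
      (∀ p ∈ w.P, (p : ℝ) ≤ x ^ δ) ∧ (y : ℝ) ≤ Real.log x ∧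
      x ^ (1 / 2 : ℝ) ≤ ((primorial y * Y0 : ℕ) : ℝ) ∧
      ((primorial y * Y0 : ℕ) : ℝ) ≤ 2 * x ^ (1 / 2 : ℝ) ∧
      x - x ^ (1 / 2 : ℝ) ≤ ((primorial y * (Y0 + Y) : ℕ) : ℝ) ∧
      ((primorial y * (Y0 + Y) : ℕ) : ℝ) + x ^ (1 / 4 : ℝ) ≤ x := by
  obtain ⟨C, x1, hx1⟩ := exists_WD Lam e δ hL he he1 hδ
  refine ⟨C, max x1 (Real.exp 100), fun x hx => ?_⟩
  obtain ⟨w, hwC, hwe, hwW, hwK, hwP, hwlv⟩ := hx1 x ((le_max_left _ _).trans hx)
  have hx100 : Real.exp 100 ≤ x := (le_max_right _ _).trans hx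
  have hx0 : 0 < x := (Real.exp_pos _).trans_le hx100
  set L := Real.log x with hLdef
  have hL100 : 100 ≤ L := by
    rw [hLdef, Real.le_log_iff_exp_le hx0]
    exact hx100
  have hL0 : 0 < L := by linarith
  have hxe : x = Real.exp L := (Real.exp_log hx0).symm
  have hq : x ^ (1 / 4 : ℝ) = Real.exp (L / 4) := by
    rw [Real.rpow_def_of_pos hx0]
    congr 1
    ring
  have hh : x ^ (1 / 2 : ℝ) = Real.exp (L / 2) := by
    rw [Real.rpow_def_of_pos hx0]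
    congr 1
    ring
  set u : ℝ := Real.exp (L / 4) with hu
  have hu2 : Real.exp (L / 2) = u ^ 2 := by
    rw [hu, ← Real.exp_nat_mul]
    congr 1
    push_cast
    ring
  have hu4 : x = u ^ 4 := by
    rw [hxe, hu, ← Real.exp_nat_mul]
    congr 1
    push_cast
    ring
  have hu25 : 25 ≤ u := by
    have := Real.add_one_le_exp (L / 4)
    rw [← hu] at this
    linarith
  set y : ℕ := ⌊L / 8⌋₊ with hy
  set M : ℕ := primorial y with hM
  have hMu : 2 * (M : ℝ) ≤ u := fin0_primorial_le L (by linarith)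
  have hMpos : 0 < M := primorial_pos y
  have hM0 : (0 : ℝ) < M := by exact_mod_cast hMpos
  set Y0 : ℕ := ⌈u ^ 2 / M⌉₊ with hY0
  set Z : ℕ := ⌊(x - u) / M⌋₊ with hZ
  have hY0ge : u ^ 2 ≤ M * (Y0 : ℝ) := by
    have h1 : u ^ 2 / M ≤ Y0 := Nat.le_ceil _
    rw [div_le_iff₀ hM0] at h1
    linarith
  have hY0le : M * (Y0 : ℝ) ≤ 2 * u ^ 2 := by
    have h1 : (Y0 : ℝ) < u ^ 2 / M + 1 := Nat.ceil_lt_add_one (by positivity)
    have h2 : M * (Y0 : ℝ) ≤ M * (u ^ 2 / M + 1) := mul_le_mul_of_nonneg_left h1.le hM0.le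
    have h3 : M * (u ^ 2 / M + 1) = u ^ 2 + M := by
      field_simp
    rw [h3] at h2
    nlinarith
  have hxu : 0 ≤ x - u := by
    rw [hu4]
    have : u ≤ u ^ 4 := le_self_pow₀ (by linarith) (by norm_num)
    linarith
  have hZle : M * (Z : ℝ) ≤ x - u := by
    have h1 : (Z : ℝ) ≤ (x - u) / M := Nat.floor_le (by positivity)
    rw [le_div_iff₀ hM0] at h1
    linarith
  have hZge : x - 2 * u ≤ M * (Z : ℝ) := by
    have h1 : (x - u) / M < Z + 1 := Nat.lt_floor_add_one _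
    rw [div_lt_iff₀ hM0] at h1
    nlinarith
  have hu3 : 25 * u ≤ u ^ 2 := by nlinarith
  have hu44 : 625 * u ^ 2 ≤ x := by
    rw [hu4]
    nlinarith [sq_nonneg u, mul_self_nonneg (u ^ 2)]
  -- `Y0 ≤ Z`
  have hYZ : M * (u + Y0) ≤ M * (Z : ℝ) := by
    have h1 : M * u ≤ u ^ 2 := by nlinarith
    calc M * (u + Y0) = M * u + M * Y0 := by ring
      _ ≤ u ^ 2 + 2 * u ^ 2 := add_le_add h1 hY0le
      _ ≤ x - 2 * u := by nlinarith
      _ ≤ M * (Z : ℝ) := hZge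
  have hYZ' : u + Y0 ≤ (Z : ℝ) := le_of_mul_le_mul_left hYZ hM0
  have hYZn : Y0 ≤ Z := by
    have : (Y0 : ℝ) ≤ Z := by linarith
    exact_mod_cast this
  set Y : ℕ := Z - Y0 with hYdef
  have hsum : Y0 + Y = Z := by omega
  have hYu : u ≤ (Y : ℝ) := by
    have : (Y0 : ℝ) + Y = Z := by exact_mod_cast hsum
    linarith
  have hy8 : (y : ℝ) ≤ L / 8 := Nat.floor_le (by positivity)
  have hy2 : 2 ≤ y := by
    rw [hy]
    apply Nat.le_floor
    push_cast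
    linarith
  refine ⟨w, y, Y0, Y, hwC, hwe, hwW, ?_, hwP, by linarith, ?_, ?_, ?_, ?_⟩
  · refine ⟨hy2, ?_, ?_, ?_⟩
    · rw [hwW]
      have h1 : (y : ℝ) ≤ (⌈L ^ 4⌉₊ : ℝ) := by
        have h2 : L ^ 4 ≤ (⌈L ^ 4⌉₊ : ℝ) := Nat.le_ceil _
        have h3 : L ≤ L ^ 4 := le_self_pow₀ (by linarith) (by norm_num)
        linarith
      exact_mod_cast h1
    · have h1 := card_bad_le ⌊lam * L⌋₊ w.K y hy2 w.Kpos
      refine h1.trans ?_
      apply mul_le_mul_of_nonneg_right _ hM0.le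
      have hK1 : (1 : ℝ) ≤ w.K := by exact_mod_cast w.Kpos
      have hlogL : 0 < Real.log L := Real.log_pos (by linarith)
      have hKL : Lam * L / Real.log L ≤ 2 * w.K := by
        have h2 : Lam * L / Real.log L < w.K + 1 := by
          rw [hwK]
          exact Nat.lt_floor_add_one _
        linarith
      have hly : Real.log L / 2 ≤ Real.log (y : ℝ) := fin0_log_ge L hL100
      have hH : ((⌊lam * L⌋₊ : ℕ) : ℝ) ≤ lam * L := Nat.floor_le (by positivity)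
      rw [div_le_iff₀ hlogL] at hKL
      have h4 : Lam * L / 4 ≤ w.K * Real.log (y : ℝ) := by
        calc Lam * L / 4 ≤ 2 * w.K * Real.log L / 4 := by linarith
          _ = w.K * (Real.log L / 2) := by ring
          _ ≤ w.K * Real.log (y : ℝ) := mul_le_mul_of_nonneg_left hly (by linarith)
      have h5 : 0 < w.K * Real.log (y : ℝ) := lt_of_lt_of_le (by positivity) h4
      rw [div_le_div_iff₀ h5 hL]
      calc (⌊lam * L⌋₊ : ℝ) * Lam ≤ lam * L * Lam := mul_le_mul_of_nonneg_right hH hL.le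
        _ = 4 * lam * (Lam * L / 4) := by ring
        _ ≤ 4 * lam * (w.K * Real.log (y : ℝ)) := mul_le_mul_of_nonneg_left h4 (by positivity)
    · rw [hwe]
      refine hwlv.trans ?_
      rw [hq]
      exact mul_le_mul_of_nonneg_left hYu he.le
  · rw [hh, hu2]
    push_cast
    exact hY0ge
  · rw [hh, hu2]
    push_cast
    exact hY0le
  · rw [hh, hu2, hsum]
    push_cast
    nlinarith
  · rw [hq, hsum]
    push_cast
    linarith

end Pool.Agent.Lib.H15P
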