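import Pool.Agent.Lib.H15P.FIN0

/-!
# Chunk FIN1: windows without rough numbers
-/

open Finset

namespace Pool.Agent.Lib.H15P

theorem fin1_wt_nonneg (w : WD) (H M n : ℕ) : 0 ≤ w.wt H M n := by
  unfold WD.wt
  split_ifs
  · exact w.om_nonneg _
  · exact le_rfl

theorem fin1_C_pos (w : WD) : 0 < w.C := lt_of_lt_of_le (Real.exp_pos _) w.hC

/-- if `rg n = 0` then every `n + h`, `1 ≤ h ≤ H`, has a prime factor in `P` or `≤ y`. -/
theorem fin1_factor (w : WD) (H y n : ℕ) (hn : 1 ≤ n) (h0 : w.rg H (primorial y) n = 0)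
    (h : ℕ) (hh : h ∈ Icc 1 H) :
    ((n + h).minFac ∈ Icc 1 y) ∨ ∃ p ∈ w.P, (n + h).minFac ≤ p := by
  by_cases hc : Nat.Coprime (n + h) (primorial y)
  · right
    have hmem : h ∈ CC H (primorial y) n := by
      unfold CC
      exact mem_filter.mpr ⟨hh, hc⟩
    unfold WD.rg WD.rough at h0
    rw [Finset.card_eq_zero] at h0
    by_contra hcon
    push Not at hcon
    have hmem2 : n + h ∈ ((CC H (primorial y) n).image (fun h => n + h)).filter
        (fun e => ∀ p ∈ w.P, ¬ p ∣ e) := by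
      rw [mem_filter]
      refine ⟨mem_image.mpr ⟨h, hmem, rfl⟩, fun p hp hdvd => ?_⟩
      have h1 := hcon p hp
      have h2 := Nat.minFac_le_of_dvd (w.prime p hp).two_le hdvd
      omega
    rw [h0] at hmem2
    simp at hmem2
  · left
    obtain ⟨q, hq, hq1, hq2⟩ := Nat.Prime.not_coprime_iff_dvd.mp hc
    have hqy : q ≤ y := by
      unfold primorial at hq2
      rw [Prime.dvd_finsetProd_iff hq.prime] at hq2
      obtain ⟨r, hr, hr2⟩ := hq2
      rw [mem_filter, mem_range] at hr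
      have := Nat.le_of_dvd hr.2.pos hr2
      omega
    rw [mem_Icc]
    refine ⟨Nat.minFac_pos _, (Nat.minFac_le_of_dvd hq.two_le hq1).trans hqy⟩

/-- A positive proportion of the `n ≤ x` is such that every `m ∈ (n, n + lam log x]` has a prime
factor `≤ x^δ`. `exists_setup` with `Lam = 40 lam`, `e = 1/20`; `N = primorial y * Y ≥ x/2`. With
`G = {rg = 0}`: `Σ_{n ∈ G} wt ≥ Σ wt - Σ wt rg ≥ (1 - 1/10 - 4/20 - 3/20) N`, so by Cauchy-Schwarz
`#G ≥ (N/2)^2/(2 C N)`. If `rg n = 0`: for `h ∈ CC` some `p ∈ P` divides `n + h`; for `h ∉ CC`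
some prime `≤ y ≤ log x ≤ x^δ` divides `n + h`. -/
theorem rough_windows (lam δ : ℝ) (hl : 0 < lam) (hδ : 0 < δ) : ∃ c : ℝ, 0 < c ∧ ∃ x0 : ℝ,
    ∀ x : ℝ, x0 ≤ x →
      c * x ≤ (((Icc 1 ⌊x⌋₊).filter
        (fun n => ∀ h ∈ Icc 1 ⌊lam * Real.log x⌋₊, ((n + h).minFac : ℝ) ≤ x ^ δ)).card : ℝ) := by
  obtain ⟨C, x0, hset⟩ := exists_setup lam (40 * lam) δ (1 / 20) hl (by positivity) hδ
    (by norm_num) (by norm_num)
  have hCpos : 0 < C := by
    obtain ⟨w, y, Y0, Y, hw, -⟩ := hset x0 le_rfl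
    rw [← hw]
    exact fin1_C_pos w
  -- large x
  have hlog : ∀ᶠ x : ℝ in Filter.atTop, Real.log x ≤ x ^ δ := by
    have := (isLittleO_log_rpow_atTop hδ).bound (c := 1) one_pos
    filter_upwards [this, Filter.eventually_ge_atTop 1] with x hx hx1
    rw [one_mul, Real.norm_of_nonneg (Real.log_nonneg hx1),
      Real.norm_of_nonneg (by positivity)] at hx
    exact hx
  have hW : ∀ᶠ x : ℝ in Filter.atTop, lam * Real.log x ≤ Real.log x ^ 4 := by
    have h1 : ∀ᶠ x : ℝ in Filter.atTop, max lam 1 ≤ Real.log x :=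
      Real.tendsto_log_atTop.eventually_ge_atTop _
    filter_upwards [h1] with x hx
    have h2 : lam ≤ Real.log x := (le_max_left _ _).trans hx
    have h3 : 1 ≤ Real.log x := (le_max_right _ _).trans hx
    have h4 : Real.log x ≤ Real.log x ^ 3 := by
      nlinarith [sq_nonneg (Real.log x), mul_nonneg (sub_nonneg.mpr h3) (sub_nonneg.mpr h3)]
    calc lam * Real.log x ≤ Real.log x ^ 3 * Real.log x := by
          gcongr
          exact h2.trans h4
      _ = Real.log x ^ 4 := by ring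
  obtain ⟨x1, hx1⟩ := Filter.eventually_atTop.mp (hlog.and hW)
  refine ⟨1 / (20 * C), by positivity, max (max x0 x1) 100, fun x hx => ?_⟩
  have hxx0 : x0 ≤ x := ((le_max_left _ _).trans (le_max_left _ _)).trans hx
  have hxx1 : x1 ≤ x := ((le_max_right _ _).trans (le_max_left _ _)).trans hx
  have hx100 : (100 : ℝ) ≤ x := (le_max_right _ _).trans hx
  obtain ⟨hlogx, hWx⟩ := hx1 x hxx1
  obtain ⟨w, y, Y0, Y, hwC, hwe, hwW, hS, hP, hy, hN0a, hN0b, hN1a, hN1b⟩ := hset x hxx0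
  set H := ⌊lam * Real.log x⌋₊ with hHdef
  set M := primorial y with hMdef
  set N0 := M * Y0 with hN0
  set N1 := M * (Y0 + Y) with hN1
  have hlogpos : 0 < Real.log x := Real.log_pos (by linarith)
  have hHW : H ≤ w.W := by
    rw [hwW]
    have h1 : (H : ℝ) ≤ lam * Real.log x := Nat.floor_le (by positivity)
    have h2 : Real.log x ^ 4 ≤ ⌈Real.log x ^ 4⌉₊ := Nat.le_ceil _
    have h3 : (H : ℝ) ≤ (⌈Real.log x ^ 4⌉₊ : ℕ) := by linarith
    exact_mod_cast h3
  have hbad : 4 * lam / (40 * lam) = 1 / 10 := by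
    field_simp
    norm_num
  rw [hbad] at hS
  have hA := w.sum_wt_ge H y Y0 Y (1 / 10) hS 0 (by simpa using hHW)
  have hB := w.sum_wt_rg_le H y Y0 Y (1 / 10) hS hHW
  have hC2 := w.sum_wt_sq_le H y Y0 Y (1 / 10) hS 0 (by simpa using hHW)
  simp only [add_zero] at hA hC2
  rw [hwe] at hA hB
  rw [hwC] at hC2
  set MY : ℝ := (M : ℝ) * Y with hMY
  have hMYx : x / 2 ≤ MY := by
    have h1 : (N1 : ℝ) = N0 + MY := by
      rw [hN1, hN0, hMY]
      push_cast
      ring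
    have h2 : x ^ (1 / 2 : ℝ) ≤ x / 6 - 0 := by
      have h3 : x ^ (1 / 2 : ℝ) = Real.sqrt x := (Real.sqrt_eq_rpow x).symm
      rw [h3]
      have h4 : Real.sqrt x * Real.sqrt x = x := Real.mul_self_sqrt (by linarith)
      have h5 : 10 ≤ Real.sqrt x := by
        rw [show (10 : ℝ) = Real.sqrt (10 ^ 2) by rw [Real.sqrt_sq (by norm_num)]]
        exact Real.sqrt_le_sqrt (by norm_num; linarith)
      nlinarith
    linarith
  set S := Ico N0 N1 with hSdef
  set G := S.filter (fun n => w.rg H M n = 0) with hG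
  -- weight of G
  have h1 : ∑ n ∈ S, w.wt H M n ≤ ∑ n ∈ G, w.wt H M n + ∑ n ∈ S, w.wt H M n * w.rg H M n := by
    rw [hG, Finset.sum_filter, ← Finset.sum_add_distrib]
    apply Finset.sum_le_sum
    intro n _
    have h2 := fin1_wt_nonneg w H M n
    split_ifs with h3
    · rw [h3]
      simp
    · have h4 : (1 : ℝ) ≤ w.rg H M n := by
        exact_mod_cast Nat.one_le_iff_ne_zero.mpr h3
      nlinarith
  have h2 : (11 / 20 : ℝ) * MY ≤ ∑ n ∈ G, w.wt H M n := by
    have e1 : ∑ n ∈ S, w.wt H M n ≥ (1 - 1 / 10 - 4 * (1 / 20)) * MY := hA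
    have e2 : ∑ n ∈ S, w.wt H M n * w.rg H M n ≤ 3 * (1 / 20) * MY := hB
    linarith
  have h3 : (∑ n ∈ G, w.wt H M n) ^ 2 ≤ G.card * (2 * C * MY) := by
    calc (∑ n ∈ G, w.wt H M n) ^ 2 ≤ G.card * ∑ n ∈ G, w.wt H M n ^ 2 :=
          sq_sum_le_card_mul_sum_sq
      _ ≤ G.card * ∑ n ∈ S, w.wt H M n ^ 2 := by
          gcongr
          exact Finset.filter_subset _ _
      _ ≤ G.card * (2 * C * MY) := by
          gcongr
  have hMYpos : 0 < MY := by linarith
  have h4 : (11 / 20 : ℝ) ^ 2 * MY ≤ G.card * (2 * C) := by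
    have e1 : ((11 / 20 : ℝ) * MY) ^ 2 ≤ G.card * (2 * C * MY) := by
      refine le_trans ?_ h3
      gcongr
    have e2 : ((11 / 20 : ℝ) ^ 2 * MY) * MY ≤ (G.card * (2 * C)) * MY := by
      calc ((11 / 20 : ℝ) ^ 2 * MY) * MY = ((11 / 20 : ℝ) * MY) ^ 2 := by ring
        _ ≤ _ := e1
        _ = _ := by ring
    exact le_of_mul_le_mul_right e2 hMYpos
  have h5 : 1 / (20 * C) * x ≤ G.card := by
    rw [div_mul_eq_mul_div, div_le_iff₀ (by positivity)]
    nlinarith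
  refine h5.trans ?_
  norm_cast
  apply Finset.card_le_card
  intro n hn
  rw [hG, mem_filter, hSdef, mem_Ico] at hn
  obtain ⟨⟨hn1, hn2⟩, hn3⟩ := hn
  have hxs : (1 : ℝ) ≤ x ^ (1 / 2 : ℝ) := Real.one_le_rpow (by linarith) (by norm_num)
  have hN0pos : 1 ≤ N0 := by
    have : (1 : ℝ) ≤ N0 := hxs.trans hN0a
    exact_mod_cast this
  have hx14 : (0 : ℝ) ≤ x ^ (1 / 4 : ℝ) := by positivity
  have hnx : (n : ℝ) ≤ x := by
    have : (n : ℝ) ≤ N1 := by exact_mod_cast hn2.le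
    linarith
  rw [mem_filter, mem_Icc]
  refine ⟨⟨hN0pos.trans hn1, Nat.le_floor hnx⟩, fun h hh => ?_⟩
  rcases fin1_factor w H y n (hN0pos.trans hn1) hn3 h hh with h6 | ⟨p, hp, h6⟩
  · rw [mem_Icc] at h6
    have : ((n + h).minFac : ℝ) ≤ y := by exact_mod_cast h6.2
    linarith
  · have : ((n + h).minFac : ℝ) ≤ p := by exact_mod_cast h6
    exact this.trans (hP p hp)

end Pool.Agent.Lib.H15P
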