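import Pool.Agent.Lib.Helper57.PairCount

/-!
# Chunk PV: a positive proportion of the windows contains a prime
-/

open Finset

namespace Pool.Agent.Lib.H15P

open Pool.Agent.Lib.Helper57

private lemma pv_up (H h : ℕ) (hh : h ∈ Icc 1 H) :
    ∑ h' ∈ (Icc 1 H).filter (fun h' => h < h'), G (h' - h) ≤ ∑ d ∈ Icc 1 H, G d := by
  classical
  have h1 : ∑ h' ∈ (Icc 1 H).filter (fun h' => h < h'), G (h' - h) =
      ∑ d ∈ ((Icc 1 H).filter (fun h' => h < h')).image (fun h' => h' - h), G d := by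
    rw [sum_image]
    intro a ha b hb hab
    have ha' := (mem_filter.1 ha).2
    have hb' := (mem_filter.1 hb).2
    simp only at hab
    omega
  rw [h1]
  refine sum_le_sum_of_subset_of_nonneg ?_ fun i _ _ => zero_le_one.trans (one_le_G i)
  intro d hd
  obtain ⟨a, ha, rfl⟩ := mem_image.1 hd
  obtain ⟨ha1, ha2⟩ := mem_filter.1 ha
  rw [mem_Icc] at ha1 hh ⊢
  omega

private lemma pv_down (H h : ℕ) (hh : h ∈ Icc 1 H) :
    ∑ h' ∈ (Icc 1 H).filter (fun h' => h' < h), G (h - h') ≤ ∑ d ∈ Icc 1 H, G d := by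
  classical
  have h1 : ∑ h' ∈ (Icc 1 H).filter (fun h' => h' < h), G (h - h') =
      ∑ d ∈ ((Icc 1 H).filter (fun h' => h' < h)).image (fun h' => h - h'), G d := by
    rw [sum_image]
    intro a ha b hb hab
    have ha' := (mem_filter.1 ha).2
    have hb' := (mem_filter.1 hb).2
    simp only at hab
    omega
  rw [h1]
  refine sum_le_sum_of_subset_of_nonneg ?_ fun i _ _ => zero_le_one.trans (one_le_G i)
  intro d hd
  obtain ⟨a, ha, rfl⟩ := mem_image.1 hd
  obtain ⟨ha1, ha2⟩ := mem_filter.1 ha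
  rw [mem_Icc] at ha1 hh ⊢
  omega

/-- Number of `n` in `[N0, N1)` with `n + h`, `n + h'` prime. -/
private noncomputable def pvc (N0 N1 h h' : ℕ) : ℕ :=
  ((Ico N0 N1).filter (fun n => (n + h).Prime ∧ (n + h').Prime)).card

private lemma pvc_eq (N0 Y h h' : ℕ) : pvc N0 (N0 + Y) h h' =
    cnt (fun a => (N0 + h + a).Prime ∧ (N0 + h' + a).Prime) Y := by
  classical
  rw [cnt_eq]
  unfold pvc
  symm
  refine card_bij (fun a _ => N0 + a) ?_ ?_ ?_
  · intro a ha
    rw [mem_filter, mem_range] at ha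
    rw [mem_filter, mem_Ico]
    refine ⟨⟨by omega, by omega⟩, ?_, ?_⟩
    · rw [show N0 + a + h = N0 + h + a by ring]; exact ha.2.1
    · rw [show N0 + a + h' = N0 + h' + a by ring]; exact ha.2.2
  · intro a _ b _ hab
    simpa using hab
  · intro n hn
    rw [mem_filter, mem_Ico] at hn
    refine ⟨n - N0, ?_, by omega⟩
    rw [mem_filter, mem_range]
    refine ⟨by omega, ?_, ?_⟩
    · rw [show N0 + h + (n - N0) = n + h by omega]; exact hn.2.1
    · rw [show N0 + h' + (n - N0) = n + h' by omega]; exact hn.2.2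

private lemma pvc_comm (N0 N1 h h' : ℕ) : pvc N0 N1 h h' = pvc N0 N1 h' h := by
  unfold pvc
  congr 1
  refine filter_congr fun n _ => ?_
  exact and_comm

private lemma pvc_diag (N0 Y h : ℕ) (hY : 7000 ≤ Real.log Y) :
    (pvc N0 (N0 + Y) h h : ℝ) ≤ 10 ^ 5 * (Y / Real.log Y) := by
  rw [pvc_eq]
  have h1 : cnt (fun a => (N0 + h + a).Prime ∧ (N0 + h + a).Prime) Y =
      cnt (fun a => (N0 + h + a).Prime) Y := by
    congr 1
    funext a
    exact and_self_iff.eq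
  rw [h1]
  exact cnt_single_le _ _ hY

private lemma pvc_lt (N0 Y h h' : ℕ) (hlt : h < h') (hY : 7000 ≤ Real.log Y) :
    (pvc N0 (N0 + Y) h h' : ℝ) ≤ 10 ^ 9 * (G (h' - h) * (Y / (Real.log Y) ^ 2)) := by
  rw [pvc_eq]
  have h1 := cnt_pair_le (N0 + h) (h' - h) Y (by omega) hY
  have h2 : N0 + h + (h' - h) = N0 + h' := by omega
  rw [h2] at h1
  exact h1

private lemma pv_sq (N0 Y H : ℕ) (hY : 7000 ≤ Real.log Y) :
    ∑ h ∈ Icc 1 H, ∑ h' ∈ Icc 1 H, (pvc N0 (N0 + Y) h h' : ℝ) ≤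
      H * (10 ^ 5 * (Y / Real.log Y)) +
      2 * (H * (10 ^ 9 * ((1500 * H) * (Y / (Real.log Y) ^ 2)))) := by
  classical
  have hm := moment_le 1 H le_rfl
  have hm' : ∑ d ∈ Icc 1 H, G d ≤ 1500 * H := by
    have h1 : ∑ d ∈ Icc 1 H, G d ^ 1 = ∑ d ∈ Icc 1 H, G d := by simp
    rw [h1] at hm
    refine hm.trans ?_
    have h2 : Real.log ((2 * 1 : ℕ) : ℝ) ≤ 1 := by
      push_cast
      have := Real.log_two_lt_d9
      norm_num
      linarith
    have h3 : (0 : ℝ) ≤ H := Nat.cast_nonneg _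
    rw [pow_one]
    nlinarith
  have hY0 : 0 ≤ (Y : ℝ) / (Real.log Y) ^ 2 := by positivity
  have hrow : ∀ h ∈ Icc 1 H, ∑ h' ∈ Icc 1 H, (pvc N0 (N0 + Y) h h' : ℝ) ≤
      10 ^ 5 * (Y / Real.log Y) + 2 * (10 ^ 9 * ((1500 * H) * (Y / (Real.log Y) ^ 2))) := by
    intro h hh
    have h1 : ∀ h' ∈ Icc 1 H, (pvc N0 (N0 + Y) h h' : ℝ) ≤
        (if h' = h then 10 ^ 5 * (Y / Real.log Y) else 0) +
        ((if h < h' then 10 ^ 9 * (G (h' - h) * (Y / (Real.log Y) ^ 2)) else 0) +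
        (if h' < h then 10 ^ 9 * (G (h - h') * (Y / (Real.log Y) ^ 2)) else 0)) := by
      intro h' _
      rcases lt_trichotomy h h' with h2 | h2 | h2
      · rw [if_neg (by omega), if_pos h2, if_neg (by omega), zero_add, add_zero]
        exact pvc_lt _ _ _ _ h2 hY
      · subst h2
        rw [if_pos rfl, if_neg (by omega), add_zero, add_zero]
        exact pvc_diag _ _ _ hY
      · rw [if_neg (by omega), if_neg (by omega), if_pos h2, zero_add, zero_add, pvc_comm]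
        exact pvc_lt _ _ _ _ h2 hY
    refine (sum_le_sum h1).trans ?_
    rw [sum_add_distrib, sum_add_distrib, ← sum_filter, ← sum_filter, ← sum_filter]
    have g1 : ∑ a ∈ (Icc 1 H).filter (fun h' => h < h'),
        (10 : ℝ) ^ 9 * (G (a - h) * (Y / (Real.log Y) ^ 2)) =
        10 ^ 9 * ((∑ i ∈ (Icc 1 H).filter (fun h' => h < h'), G (i - h)) *
          (Y / (Real.log Y) ^ 2)) := by
      rw [← mul_sum, ← sum_mul]
    have g2 : ∑ a ∈ (Icc 1 H).filter (fun h' => h' < h),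
        (10 : ℝ) ^ 9 * (G (h - a) * (Y / (Real.log Y) ^ 2)) =
        10 ^ 9 * ((∑ i ∈ (Icc 1 H).filter (fun h' => h' < h), G (h - i)) *
          (Y / (Real.log Y) ^ 2)) := by
      rw [← mul_sum, ← sum_mul]
    rw [g1, g2]
    have h2 : ∑ a ∈ (Icc 1 H).filter (fun a => a = h), (10 : ℝ) ^ 5 * (Y / Real.log Y) =
        10 ^ 5 * (Y / Real.log Y) := by
      rw [filter_eq' (Icc 1 H) h, if_pos hh, sum_singleton]
    have h3 : (∑ i ∈ (Icc 1 H).filter (fun h' => h < h'), G (i - h)) *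
        (Y / (Real.log Y) ^ 2) ≤ (1500 * H) * (Y / (Real.log Y) ^ 2) :=
      mul_le_mul_of_nonneg_right ((pv_up H h hh).trans hm') hY0
    have h4 : (∑ i ∈ (Icc 1 H).filter (fun h' => h' < h), G (h - i)) *
        (Y / (Real.log Y) ^ 2) ≤ (1500 * H) * (Y / (Real.log Y) ^ 2) :=
      mul_le_mul_of_nonneg_right ((pv_down H h hh).trans hm') hY0
    rw [h2]
    linarith
  refine (sum_le_sum hrow).trans ?_
  rw [sum_const, Nat.card_Icc, nsmul_eq_mul]
  have h5 : ((H + 1 - 1 : ℕ) : ℝ) = H := by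
    congr 1
  rw [h5]
  exact le_of_eq (by ring)

/-- Lower bound for one shift. -/
private lemma pv_low (N0 N1 H h : ℕ) (hh : h ∈ Icc 1 H) :
    (N1.primeCounting : ℝ) - 1 - (N0 + H) ≤
      (((Ico N0 N1).filter (fun n => (n + h).Prime)).card : ℝ) := by
  classical
  have h1 : ((range (N1 + 1)).filter Nat.Prime).card ≤
      ((Ico N0 N1).filter (fun n => (n + h).Prime)).card + (range (N0 + H)).card + 1 := by
    have h2 : (range (N1 + 1)).filter Nat.Prime ⊆
        (((Ico N0 N1).filter (fun n => (n + h).Prime)).image (fun n => n + h) ∪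
          range (N0 + H)) ∪ {N1} := by
      intro p hp
      rw [mem_filter, mem_range] at hp
      rw [mem_union, mem_union, mem_image, mem_range, mem_singleton]
      by_cases h3 : p < N0 + H
      · exact Or.inl (Or.inr h3)
      · by_cases h4 : p = N1
        · exact Or.inr h4
        · left; left
          rw [mem_Icc] at hh
          refine ⟨p - h, ?_, by omega⟩
          rw [mem_filter, mem_Ico]
          refine ⟨⟨by omega, by omega⟩, ?_⟩
          rw [show p - h + h = p by omega]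
          exact hp.2
    refine (card_le_card h2).trans ?_
    refine (card_union_le _ _).trans ?_
    rw [card_singleton]
    refine Nat.add_le_add_right ((card_union_le _ _).trans ?_) 1
    exact Nat.add_le_add_right card_image_le _
  have h3 : N1.primeCounting = ((range (N1 + 1)).filter Nat.Prime).card := by
    rw [Nat.primeCounting, Nat.primeCounting', Nat.count_eq_card_filter_range]
  rw [← h3, card_range] at h1
  have h4 : (N1.primeCounting : ℝ) ≤
      (((Ico N0 N1).filter (fun n => (n + h).Prime)).card : ℝ) + (N0 + H) + 1 := by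
    exact_mod_cast h1
  linarith

/-- Cauchy-Schwarz. -/
private lemma pv_cs (S : Finset ℕ) (I : Finset ℕ) :
    (∑ h ∈ I, ((S.filter (fun n => (n + h).Prime)).card : ℝ)) ^ 2 ≤
      ((S.filter (fun n => ∃ h ∈ I, (n + h).Prime)).card : ℝ) *
      ∑ h ∈ I, ∑ h' ∈ I, ((S.filter (fun n => (n + h).Prime ∧ (n + h').Prime)).card : ℝ) := by
  classical
  set f : ℕ → ℝ := fun n => ∑ h ∈ I, if (n + h).Prime then (1 : ℝ) else 0 with hf
  set T := S.filter (fun n => ∃ h ∈ I, (n + h).Prime) with hT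
  have h1 : ∑ h ∈ I, ((S.filter (fun n => (n + h).Prime)).card : ℝ) = ∑ n ∈ T, f n := by
    have h2 : ∑ n ∈ T, f n = ∑ n ∈ S, f n := by
      refine sum_subset (filter_subset _ _) fun n hn hn' => ?_
      refine sum_eq_zero fun h hh => if_neg fun hp => hn' ?_
      exact mem_filter.2 ⟨hn, h, hh, hp⟩
    rw [h2, sum_comm]
    refine sum_congr rfl fun h _ => ?_
    rw [sum_boole]
  have h3 : ∑ h ∈ I, ∑ h' ∈ I, ((S.filter (fun n => (n + h).Prime ∧ (n + h').Prime)).card : ℝ) =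
      ∑ n ∈ S, f n ^ 2 := by
    have h4 : ∀ n ∈ S, f n ^ 2 = ∑ h ∈ I, ∑ h' ∈ I,
        if (n + h).Prime ∧ (n + h').Prime then (1 : ℝ) else 0 := by
      intro n _
      rw [pow_two, hf, sum_mul_sum]
      refine sum_congr rfl fun h _ => sum_congr rfl fun h' _ => ?_
      by_cases h5 : (n + h).Prime <;> by_cases h6 : (n + h').Prime <;> simp [h5, h6]
    have h5 : ∑ n ∈ S, ∑ h ∈ I, ∑ h' ∈ I,
        (if (n + h).Prime ∧ (n + h').Prime then (1 : ℝ) else 0) =
        ∑ h ∈ I, ∑ h' ∈ I, ∑ n ∈ S,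
        (if (n + h).Prime ∧ (n + h').Prime then (1 : ℝ) else 0) := by
      rw [sum_comm]
      exact sum_congr rfl fun h _ => sum_comm
    rw [sum_congr rfl h4, h5]
    refine sum_congr rfl fun h _ => sum_congr rfl fun h' _ => ?_
    rw [sum_boole]
  rw [h1, h3]
  have h7 := sq_sum_le_card_mul_sum_sq (s := T) (f := f)
  refine h7.trans ?_
  refine mul_le_mul_of_nonneg_left ?_ (Nat.cast_nonneg _)
  exact sum_le_sum_of_subset_of_nonneg (filter_subset _ _) fun n _ _ => sq_nonneg _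

/-- `f(n) = #{h ∈ [1, H] : n + h prime}`, `H = ⌊λ log x⌋`. Cauchy-Schwarz:
`(Σ f)^2 ≤ #{f ≥ 1} Σ f^2`. `Σ_{n ∈ [N0, N1)} f(n) ≥ H (π(N1) - π(N0 + H)) ≥ H x/(4 log x)`
(`Helper57.primeCounting_ge`; `N0 + H ≤ 3 x^(1/2)`, and `π(N1) ≥ π(x) - x^(1/2) - 1`), and
`Σ f^2 = Σ f + 2 Σ_{h < h'} #{n : n + h, n + h' prime} ≤ C H x/log x + C H^2 x/(log x)^2`
(`Helper57.cnt_single_le`, `Helper57.cnt_pair_le` with `n = N0 + h`, `Y = N1 - N0`, and
`Helper57.moment_le` with `k = 1` for the average of `G (h' - h)`). -/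
theorem windows_with_prime (lam : ℝ) (hl : 0 < lam) : ∃ c0 : ℝ, 0 < c0 ∧ c0 ≤ 1 ∧ ∃ x0 : ℝ,
    ∀ x : ℝ, x0 ≤ x → ∀ N0 N1 : ℕ, (N0 : ℝ) ≤ 2 * x ^ (1 / 2 : ℝ) →
      x - x ^ (1 / 2 : ℝ) ≤ N1 → (N1 : ℝ) ≤ x →
      c0 * x ≤ (((Ico N0 N1).filter
        (fun n => ∃ h ∈ Icc 1 ⌊lam * Real.log x⌋₊, (n + h).Prime)).card : ℝ) := by
  classical
  -- constants
  set C : ℝ := 2 * 10 ^ 5 + 12 * 10 ^ 12 * lam with hC
  have hC0 : 0 < C := by positivity
  refine ⟨min 1 (lam / (32 * C)), lt_min one_pos (by positivity), min_le_left _ _, ?_⟩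
  -- all asymptotic conditions
  have e1 : ∀ᶠ x : ℝ in Filter.atTop, 14000 + 1 / lam ≤ Real.log x :=
    Real.tendsto_log_atTop.eventually_ge_atTop _
  have e2 : ∀ᶠ x : ℝ in Filter.atTop, 10000 ≤ x := Filter.eventually_ge_atTop _
  -- `(x - √x)/(2 log x) - 1 - (2 √x + lam log x) ≥ x/(4 log x)`
  have e3 : ∀ᶠ x : ℝ in Filter.atTop, x ^ (1 / 2 : ℝ) ≤ x / 16 ∧
      (1 + 2 * x ^ (1 / 2 : ℝ) + lam * Real.log x) * Real.log x ≤ x / 8 := by
    have l2 : (fun x : ℝ => Real.log x) =o[Filter.atTop] (fun x : ℝ => x ^ (1 / 8 : ℝ)) :=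
      isLittleO_log_rpow_atTop (by norm_num)
    have b1 : ∀ᶠ x : ℝ in Filter.atTop, 2 ≤ x ^ (1 / 8 : ℝ) :=
      (tendsto_rpow_atTop (show (0 : ℝ) < 1 / 8 by norm_num)).eventually_ge_atTop _
    have b2 := l2.bound (show (0 : ℝ) < 1 by norm_num)
    have b3 : ∀ᶠ x : ℝ in Filter.atTop, (3 + lam) * 8 ≤ x ^ (3 / 8 : ℝ) :=
      (tendsto_rpow_atTop (show (0 : ℝ) < 3 / 8 by norm_num)).eventually_ge_atTop _
    filter_upwards [b1, b2, b3, Filter.eventually_ge_atTop (1 : ℝ), e1] with x h1 h2 h3 h4 h5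
    have hx0 : 0 < x := by linarith
    have hlog : 0 ≤ Real.log x := Real.log_nonneg h4
    rw [Real.norm_of_nonneg hlog, Real.norm_of_nonneg (by positivity), one_mul] at h2
    have p0 : (1 : ℝ) ≤ x ^ (1 / 8 : ℝ) := Real.one_le_rpow h4 (by norm_num)
    have p1 : x ^ (1 / 2 : ℝ) = (x ^ (1 / 8 : ℝ)) ^ 4 := by
      rw [← Real.rpow_natCast, ← Real.rpow_mul hx0.le]; norm_num
    have p2 : x = (x ^ (1 / 8 : ℝ)) ^ 8 := by
      rw [← Real.rpow_natCast, ← Real.rpow_mul hx0.le]; norm_num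
    have p3 : x ^ (3 / 8 : ℝ) = (x ^ (1 / 8 : ℝ)) ^ 3 := by
      rw [← Real.rpow_natCast, ← Real.rpow_mul hx0.le]; norm_num
    rw [p3] at h3
    have p4 : x ^ (1 / 2 : ℝ) ≤ x / 16 := by
      rw [p1]
      nth_rewrite 2 [p2]
      have p5 : (2 : ℝ) ^ 4 ≤ (x ^ (1 / 8 : ℝ)) ^ 4 := pow_le_pow_left₀ (by norm_num) h1 4
      have p6 : (x ^ (1 / 8 : ℝ)) ^ 8 = (x ^ (1 / 8 : ℝ)) ^ 4 * (x ^ (1 / 8 : ℝ)) ^ 4 := by ring
      rw [p6]
      have p7 : 0 ≤ (x ^ (1 / 8 : ℝ)) ^ 4 := by positivity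
      nlinarith
    refine ⟨p4, ?_⟩
    set y := x ^ (1 / 8 : ℝ) with hy
    have hy0 : 0 < y := by linarith
    have q1 : 1 + 2 * x ^ (1 / 2 : ℝ) + lam * Real.log x ≤ (3 + lam) * y ^ 4 := by
      rw [p1]
      have q2 : y ≤ y ^ 4 := le_self_pow₀ p0 (by norm_num)
      have q3 : (1 : ℝ) ≤ y ^ 4 := one_le_pow₀ p0
      have q4 : lam * Real.log x ≤ lam * y ^ 4 :=
        mul_le_mul_of_nonneg_left (h2.trans q2) hl.le
      nlinarith
    have q5 : (1 + 2 * x ^ (1 / 2 : ℝ) + lam * Real.log x) * Real.log x ≤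
        ((3 + lam) * y ^ 4) * y := by
      refine mul_le_mul q1 h2 hlog (by positivity)
    refine q5.trans ?_
    have q6 : (3 + lam) * y ^ 4 * y * 8 ≤ y ^ 8 := by
      calc (3 + lam) * y ^ 4 * y * 8 = ((3 + lam) * 8) * y ^ 5 := by ring
        _ ≤ y ^ 3 * y ^ 5 := by gcongr
        _ = y ^ 8 := by ring
    rw [p2]
    linarith
  obtain ⟨x0, hx0⟩ := Filter.eventually_atTop.1 ((e1.and e2).and e3)
  refine ⟨x0, fun x hx N0 N1 hN0 hN1 hN1' => ?_⟩
  obtain ⟨⟨c1, c2⟩, c3, c4⟩ := hx0 x hx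
  have hxpos : 0 < x := by linarith
  set L := Real.log x with hL
  have hL0 : 14000 ≤ L := by
    have : 0 ≤ 1 / lam := by positivity
    linarith
  have hLpos : 0 < L := by linarith
  set H := ⌊lam * L⌋₊ with hH
  have hlamL : 1 ≤ lam * L := by
    have h1 : 1 / lam ≤ L := by linarith
    rw [div_le_iff₀ hl] at h1
    linarith
  have hH1 : (H : ℝ) ≤ lam * L := Nat.floor_le (by positivity)
  have hH2 : lam * L / 2 ≤ H := by
    have h1 : lam * L < (H : ℝ) + 1 := Nat.lt_floor_add_one _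
    have h2 : 1 ≤ H := Nat.le_floor (by exact_mod_cast hlamL)
    have h3 : (1 : ℝ) ≤ H := by exact_mod_cast h2
    linarith
  have hHpos : (0 : ℝ) < H := by
    have : 0 < lam * L / 2 := by positivity
    linarith
  have hsq : 0 ≤ x ^ (1 / 2 : ℝ) := by positivity
  have hlt : N0 < N1 := by
    have : (N0 : ℝ) < N1 := by linarith
    exact_mod_cast this
  obtain ⟨Y, rfl⟩ := Nat.exists_eq_add_of_le hlt.le
  have hcast : ((N0 + Y : ℕ) : ℝ) = N0 + Y := by push_cast; ring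
  rw [hcast] at hN1 hN1'
  have hN0' : (0 : ℝ) ≤ N0 := Nat.cast_nonneg _
  have hYx : (Y : ℝ) ≤ x := by linarith
  have hYx' : x / 2 ≤ Y := by linarith
  have hYpos : (0 : ℝ) < Y := by linarith
  have hlogY : L / 2 ≤ Real.log Y := by
    have h1 : Real.log (x / 2) ≤ Real.log Y := Real.log_le_log (by positivity) hYx'
    rw [Real.log_div (by positivity) (by norm_num)] at h1
    have h2 := Real.log_two_lt_d9
    linarith
  have hlogY0 : 7000 ≤ Real.log Y := by linarith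
  -- the first moment
  have hA : H * (x / (4 * L)) ≤ ∑ h ∈ Icc 1 H,
      ((((Ico N0 (N0 + Y)).filter (fun n => (n + h).Prime)).card : ℕ) : ℝ) := by
    have h1 : ∀ h ∈ Icc 1 H, x / (4 * L) ≤
        ((((Ico N0 (N0 + Y)).filter (fun n => (n + h).Prime)).card : ℕ) : ℝ) := by
      intro h hh
      refine le_trans ?_ (pv_low N0 (N0 + Y) H h hh)
      have h2 : 100 ≤ N0 + Y := by
        have : (100 : ℝ) ≤ ((N0 + Y : ℕ) : ℝ) := by rw [hcast]; linarith
        exact_mod_cast this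
      have h3 := primeCounting_ge (N0 + Y) h2
      rw [hcast] at h3
      have h4 : Real.log (N0 + Y : ℝ) ≤ L := Real.log_le_log (by linarith) hN1'
      have h5 : 0 < Real.log (N0 + Y : ℝ) := by
        apply Real.log_pos; linarith
      have h6 : (x - x ^ (1 / 2 : ℝ)) / (2 * L) ≤ (N0 + Y : ℝ) / (2 * Real.log (N0 + Y : ℝ)) := by
        apply div_le_div₀ (by linarith) hN1 (by positivity)
        linarith
      have h7 : (N0 : ℝ) + H ≤ 2 * x ^ (1 / 2 : ℝ) + lam * L := by linarith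
      have h8 : 1 + 2 * x ^ (1 / 2 : ℝ) + lam * L ≤ x / 8 / L := by
        rw [le_div_iff₀ hLpos]; exact c4
      have h9 : x / (4 * L) + x / 8 / L ≤ (x - x ^ (1 / 2 : ℝ)) / (2 * L) := by
        have : x / (4 * L) + x / 8 / L = (3 * x / 4) / (2 * L) := by
          field_simp; ring
        rw [this]
        apply div_le_div_of_nonneg_right _ (by positivity)
        linarith
      linarith
    calc H * (x / (4 * L)) = ∑ h ∈ Icc 1 H, x / (4 * L) := by
          rw [sum_const, Nat.card_Icc, nsmul_eq_mul]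
          simp
      _ ≤ _ := sum_le_sum h1
  -- the second moment
  have hB := pv_sq N0 Y H hlogY0
  have hB' : ∑ h ∈ Icc 1 H, ∑ h' ∈ Icc 1 H, (pvc N0 (N0 + Y) h h' : ℝ) ≤
      C * (H * (x / L)) := by
    refine hB.trans ?_
    have h1 : (Y : ℝ) / Real.log Y ≤ 2 * (x / L) := by
      calc (Y : ℝ) / Real.log Y ≤ x / (L / 2) :=
            div_le_div₀ hxpos.le hYx (by positivity) hlogY
        _ = _ := by field_simp
    have h2 : (Y : ℝ) / (Real.log Y) ^ 2 ≤ 4 * (x / L ^ 2) := by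
      calc (Y : ℝ) / (Real.log Y) ^ 2 ≤ x / (L / 2) ^ 2 :=
            div_le_div₀ hxpos.le hYx (by positivity) (pow_le_pow_left₀ (by positivity) hlogY 2)
        _ = _ := by field_simp; ring
    have h3 : (H : ℝ) * (x / L ^ 2) ≤ lam * (x / L) := by
      calc (H : ℝ) * (x / L ^ 2) ≤ (lam * L) * (x / L ^ 2) := by gcongr
        _ = _ := by field_simp
    have h4 : (1500 * (H : ℝ)) * (Y / (Real.log Y) ^ 2) ≤ 6000 * (lam * (x / L)) := by
      calc (1500 * (H : ℝ)) * (Y / (Real.log Y) ^ 2) ≤ (1500 * (H : ℝ)) * (4 * (x / L ^ 2)) := by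
            gcongr
        _ = 6000 * ((H : ℝ) * (x / L ^ 2)) := by ring
        _ ≤ _ := by gcongr
    calc (H : ℝ) * (10 ^ 5 * (Y / Real.log Y)) +
        2 * (H * (10 ^ 9 * ((1500 * H) * (Y / (Real.log Y) ^ 2))))
        ≤ H * (10 ^ 5 * (2 * (x / L))) + 2 * (H * (10 ^ 9 * (6000 * (lam * (x / L))))) := by
          gcongr
      _ = C * (H * (x / L)) := by rw [hC]; ring
  -- conclusion
  have hcs := pv_cs (Ico N0 (N0 + Y)) (Icc 1 H)
  set T : ℝ := (((Ico N0 (N0 + Y)).filter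
        (fun n => ∃ h ∈ Icc 1 H, (n + h).Prime)).card : ℝ) with hT
  have hT0 : 0 ≤ T := Nat.cast_nonneg _
  have h1 : (H * (x / (4 * L))) ^ 2 ≤ T * (C * (H * (x / L))) := by
    calc (H * (x / (4 * L))) ^ 2 ≤ (∑ h ∈ Icc 1 H,
      ((((Ico N0 (N0 + Y)).filter (fun n => (n + h).Prime)).card : ℕ) : ℝ)) ^ 2 :=
          pow_le_pow_left₀ (by positivity) hA 2
      _ ≤ _ := hcs
      _ ≤ _ := mul_le_mul_of_nonneg_left hB' hT0
  have h2 : lam / (32 * C) * x ≤ T := by
    have h3 : 0 < C * (H * (x / L)) := by positivity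
    have h4 : (lam / (32 * C) * x) * (C * (H * (x / L))) ≤ (H * (x / (4 * L))) ^ 2 := by
      have h5 : (H * (x / (4 * L))) ^ 2 = (H / 16) * (H * (x / L)) * (x / L) := by
        field_simp; ring
      have h6 : (lam / (32 * C) * x) * (C * (H * (x / L))) =
          (lam * L / 2 / 16) * (H * (x / L)) * (x / L) := by
        field_simp; ring
      rw [h5, h6]
      gcongr
    exact le_of_mul_le_mul_right (h4.trans h1) h3
  refine le_trans ?_ h2
  exact mul_le_mul_of_nonneg_right (min_le_right _ _) hxpos.le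

end Pool.Agent.Lib.H15P
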