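import Mathlib

/-!
# Chunk TRN: voids and long gaps
-/

open Finset

namespace Pool.Agent.Lib.H15P

/-- Indicator of the event that `n + 1, .., n + H` are all composite. -/
noncomputable def vd (H n : ℕ) : ℝ := if ∀ h ∈ Icc 1 H, ¬ (n + h).Prime then 1 else 0

/-- The primes `p ≤ X` such that `p + 1, .., p + H` are composite. -/
def lg (H X : ℕ) : Finset ℕ := (Icc 1 X).filter (fun p => p.Prime ∧ ∀ h ∈ Icc 1 H, ¬ (p + h).Prime)

theorem trn_mem_lg {H X p : ℕ} : p ∈ lg H X ↔
    (1 ≤ p ∧ p ≤ X) ∧ p.Prime ∧ ∀ h, 1 ≤ h → h ≤ H → ¬ (p + h).Prime := by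
  rw [lg, mem_filter, mem_Icc]
  simp only [mem_Icc, and_imp]

/-- If `vd n = 0` and `vd (n+1) = 1` then `n + 1` is prime and in `lg`. If `vd n = 1` and
`vd (n+1) = 0` then `n + 1 + H` is prime and the largest prime `p ≤ n` is in `lg` (no prime in
`(p, n + H]`); different `n` of the second kind give different `p` (`n + 1 + H` is the next prime
after `p`). `n ≥ 2` guarantees a prime `≤ n`. -/
theorem sum_abs_vd_le (H N0 N1 : ℕ) (hH : 1 ≤ H) (h0 : 2 ≤ N0) :
    ∑ n ∈ Ico N0 N1, |vd H (n + 1) - vd H n| ≤ 2 * (lg H N1).card := by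
  classical
  set V : ℕ → Prop := fun n => ∀ h ∈ Icc 1 H, ¬ (n + h).Prime with hV
  have hVd : ∀ n, vd H n = if V n then 1 else 0 := fun n => rfl
  have hV1 : ∀ n, V n → ∀ h, 1 ≤ h → h ≤ H → ¬ (n + h).Prime := fun n hn h h1 h2 =>
    hn h (mem_Icc.mpr ⟨h1, h2⟩)
  set A := (Ico N0 N1).filter (fun n => ¬ V n ∧ V (n + 1)) with hA
  set B := (Ico N0 N1).filter (fun n => V n ∧ ¬ V (n + 1)) with hB
  have h1 : ∑ n ∈ Ico N0 N1, |vd H (n + 1) - vd H n| = (A.card : ℝ) + B.card := by
    rw [hA, hB, card_filter, card_filter]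
    push_cast
    rw [← sum_add_distrib]
    apply sum_congr rfl
    intro n _
    rw [hVd, hVd]
    by_cases ha : V n <;> by_cases hb : V (n + 1) <;> simp [ha, hb]
  have hAc : A.card ≤ (lg H N1).card := by
    apply card_le_card_of_injOn (fun n => n + 1)
    · intro n hn
      rw [mem_coe, hA, mem_filter, mem_Ico] at hn
      obtain ⟨⟨hn1, hn2⟩, hn3, hn4⟩ := hn
      change n + 1 ∈ ((lg H N1 : Finset ℕ) : Set ℕ)
      rw [mem_coe, trn_mem_lg]
      refine ⟨⟨by omega, by omega⟩, ?_, hV1 _ hn4⟩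
      by_contra hnp
      apply hn3
      intro h hh
      rw [mem_Icc] at hh
      rcases eq_or_lt_of_le hh.1 with h5 | h5
      · rw [← h5]; exact hnp
      · have h6 := hV1 _ hn4 (h - 1) (by omega) (by omega)
        rwa [show n + 1 + (h - 1) = n + h by omega] at h6
    · intro a _ b _ hab
      exact Nat.add_right_cancel hab
  have hBp : ∀ n ∈ B, (n + 1 + H).Prime := by
    intro n hn
    rw [hB, mem_filter, mem_Ico] at hn
    obtain ⟨⟨hn1, hn2⟩, hn3, hn4⟩ := hn
    by_contra hnp
    apply hn4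
    intro h hh
    rw [mem_Icc] at hh
    rcases eq_or_lt_of_le hh.2 with h5 | h5
    · rw [h5]; exact hnp
    · have h6 := hV1 _ hn3 (h + 1) (by omega) (by omega)
      rwa [show n + (h + 1) = n + 1 + h by omega] at h6
  have hgp : ∀ n, 2 ≤ n → (Nat.findGreatest Nat.Prime n).Prime := fun n hn =>
    Nat.findGreatest_spec (P := Nat.Prime) hn Nat.prime_two
  have hBc : B.card ≤ (lg H N1).card := by
    apply card_le_card_of_injOn (fun n => Nat.findGreatest Nat.Prime n)
    · intro n hn
      rw [mem_coe] at hn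
      rw [hB, mem_filter, mem_Ico] at hn
      obtain ⟨⟨hn1, hn2⟩, hn3, hn4⟩ := hn
      have hle := Nat.findGreatest_le (P := Nat.Prime) n
      have hp := hgp n (by omega)
      change Nat.findGreatest Nat.Prime n ∈ ((lg H N1 : Finset ℕ) : Set ℕ)
      rw [mem_coe, trn_mem_lg]
      refine ⟨⟨hp.one_lt.le, by omega⟩, hp, ?_⟩
      intro h h1 h2 hprime
      rcases le_or_gt (Nat.findGreatest Nat.Prime n + h) n with h3 | h3
      · exact Nat.findGreatest_is_greatest (P := Nat.Prime)
          (by omega : Nat.findGreatest Nat.Prime n < Nat.findGreatest Nat.Prime n + h) h3 hprime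
      · have h4 := hV1 _ hn3 (Nat.findGreatest Nat.Prime n + h - n) (by omega) (by omega)
        apply h4
        rwa [show n + (Nat.findGreatest Nat.Prime n + h - n) =
          Nat.findGreatest Nat.Prime n + h by omega]
    · have key : ∀ a ∈ B, ∀ b ∈ B, a < b →
          Nat.findGreatest Nat.Prime a ≠ Nat.findGreatest Nat.Prime b := by
        intro a ha b hb hab heq
        have hpa := hBp a ha
        rw [hB, mem_filter, mem_Ico] at ha hb
        have hlea := Nat.findGreatest_le (P := Nat.Prime) a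
        rcases le_or_gt (a + 1 + H) b with h3 | h3
        · exact Nat.findGreatest_is_greatest (P := Nat.Prime)
            (by omega : Nat.findGreatest Nat.Prime b < a + 1 + H) h3 hpa
        · have h4 := hV1 _ hb.2.1 (a + 1 + H - b) (by omega) (by omega)
          apply h4
          rwa [show b + (a + 1 + H - b) = a + 1 + H by omega]
      intro a ha b hb hab
      rcases lt_trichotomy a b with h | h | h
      · exact absurd hab (key a ha b hb h)
      · exact h
      · exact absurd hab.symm (key b hb a ha h)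
  rw [h1]
  have h2 : (A.card : ℝ) ≤ (lg H N1).card := by exact_mod_cast hAc
  have h3 : (B.card : ℝ) ≤ (lg H N1).card := by exact_mod_cast hBc
  linarith

/-- `p ∈ lg H X` is `p_n` for some `n`, `p_n ≤ X`, and the next prime is `≥ p_n + H + 1`. -/
theorem card_lg_le (H X : ℕ) (lam x : ℝ) (hX : (X : ℝ) ≤ x) (hl : lam * Real.log x ≤ H + 1) :
    ((lg H X).card : ℝ) ≤ (Set.ncard {n : ℕ | (Nat.nth Nat.Prime n : ℝ) ≤ x ∧
      lam * Real.log x ≤ (Nat.nth Nat.Prime (n + 1) : ℝ) - Nat.nth Nat.Prime n} : ℝ) := by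
  classical
  set S : Set ℕ := {n : ℕ | (Nat.nth Nat.Prime n : ℝ) ≤ x ∧
      lam * Real.log x ≤ (Nat.nth Nat.Prime (n + 1) : ℝ) - Nat.nth Nat.Prime n} with hS
  have hinf := Nat.infinite_setOfPred_prime
  have hfin : S.Finite := by
    apply (Set.finite_Iic ⌊x⌋₊).subset
    intro n hn
    rw [Set.mem_Iic]
    apply Nat.le_floor
    have h1 : n ≤ Nat.nth Nat.Prime n := (Nat.nth_strictMono hinf).le_apply
    have h2 : (n : ℝ) ≤ (Nat.nth Nat.Prime n : ℝ) := by exact_mod_cast h1
    exact h2.trans hn.1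
  have hinj : Set.InjOn (Nat.count Nat.Prime) (lg H X : Set ℕ) := by
    intro a ha b hb hab
    rw [mem_coe, trn_mem_lg] at ha hb
    rw [← Nat.nth_count ha.2.1, ← Nat.nth_count hb.2.1, hab]
  have h1 : (lg H X).card = ((lg H X).image (Nat.count Nat.Prime)).card :=
    (card_image_of_injOn hinj).symm
  rw [h1, ← Set.ncard_coe_finset]
  have h2 : (((lg H X).image (Nat.count Nat.Prime) : Finset ℕ) : Set ℕ) ⊆ S := by
    intro n hn
    rw [mem_coe, mem_image] at hn
    obtain ⟨p, hp, rfl⟩ := hn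
    rw [trn_mem_lg] at hp
    obtain ⟨⟨hp1, hp2⟩, hp3, hp4⟩ := hp
    have hnp := Nat.nth_count hp3
    rw [hS, Set.mem_ofPred_eq, hnp]
    refine ⟨le_trans (by exact_mod_cast hp2) hX, hl.trans ?_⟩
    have h5 : p < Nat.nth Nat.Prime (Nat.count Nat.Prime p + 1) := by
      conv_lhs => rw [← hnp]
      exact (Nat.nth_strictMono hinf) (Nat.lt_succ_self _)
    have h6 : (Nat.nth Nat.Prime (Nat.count Nat.Prime p + 1)).Prime :=
      Nat.nth_mem_of_infinite hinf _
    have h7 : p + H + 1 ≤ Nat.nth Nat.Prime (Nat.count Nat.Prime p + 1) := by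
      by_contra hlt
      push Not at hlt
      apply hp4 (Nat.nth Nat.Prime (Nat.count Nat.Prime p + 1) - p) (by omega) (by omega)
      rwa [show p + (Nat.nth Nat.Prime (Nat.count Nat.Prime p + 1) - p) =
        Nat.nth Nat.Prime (Nat.count Nat.Prime p + 1) by omega]
    have h8 : ((p : ℝ) + H + 1) ≤ (Nat.nth Nat.Prime (Nat.count Nat.Prime p + 1) : ℝ) := by
      exact_mod_cast h7
    linarith
  exact_mod_cast Set.ncard_le_ncard h2 hfin

end Pool.Agent.Lib.H15P
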