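import Pool.Agent.Lib.H15P.FIN1
import Pool.Agent.Lib.H15P.FIN2

/-!
# FIN3: a positive proportion of the gaps between primes contains a long interval of integers
with a small prime factor
-/

open Finset

namespace Pool.Agent.Lib.H15P

/-- `p` is a prime and the gap between `p` and the next prime contains an interval `(a, a + H]` of
integers with least prime factor `≤ z`. -/
def gd (H : ℕ) (z : ℝ) (p : ℕ) : Prop := p.Prime ∧ ∃ a : ℕ, p ≤ a ∧
  (∀ q : ℕ, p < q → q ≤ a + H → ¬ q.Prime) ∧ ∀ h ∈ Icc 1 H, ((a + h).minFac : ℝ) ≤ z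

open Classical in
/-- The good primes `≤ X`. -/
noncomputable def lgz (H : ℕ) (z : ℝ) (X : ℕ) : Finset ℕ := (Icc 1 X).filter (fun p => gd H z p)

open Classical in
/-- Indicator of: `(n, n + H]` lies in the gap after a good prime. -/
noncomputable def vz (H : ℕ) (z : ℝ) (n : ℕ) : ℝ :=
  if (∀ h ∈ Icc 1 H, ¬ (n + h).Prime) ∧ gd H z (Nat.findGreatest Nat.Prime n) then 1 else 0

theorem fin3_vz_nonneg (H : ℕ) (z : ℝ) (n : ℕ) : 0 ≤ vz H z n := by
  unfold vz
  split_ifs <;> norm_num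

theorem fin3_vz_le_one (H : ℕ) (z : ℝ) (n : ℕ) : vz H z n ≤ 1 := by
  unfold vz
  split_ifs <;> norm_num

theorem fin3_vz_le_vd (H : ℕ) (z : ℝ) (n : ℕ) : vz H z n ≤ vd H n := by
  unfold vz vd
  by_cases h : ∀ h ∈ Icc 1 H, ¬ (n + h).Prime
  · rw [if_pos h]
    split_ifs <;> norm_num
  · rw [if_neg h, if_neg (fun h' => h h'.1)]

theorem fin3_fg_succ (n : ℕ) (hn : ¬ (n + 1).Prime) :
    Nat.findGreatest Nat.Prime (n + 1) = Nat.findGreatest Nat.Prime n :=
  Nat.findGreatest_of_not hn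

/-- The number of switches of `vz`. -/
theorem fin3_sum_abs_vz_le (H : ℕ) (z : ℝ) (N0 N1 : ℕ) (hH : 1 ≤ H) (h0 : 2 ≤ N0) :
    ∑ n ∈ Ico N0 N1, |vz H z (n + 1) - vz H z n| ≤ 2 * (lgz H z N1).card := by
  classical
  set V : ℕ → Prop := fun n => (∀ h ∈ Icc 1 H, ¬ (n + h).Prime) ∧
    gd H z (Nat.findGreatest Nat.Prime n) with hV
  have hVd : ∀ n, vz H z n = if V n then 1 else 0 := by
    intro n
    unfold vz
    by_cases h : V n
    · rw [if_pos h]
    · rw [if_neg h]
  have hV1 : ∀ n, V n → ∀ h, 1 ≤ h → h ≤ H → ¬ (n + h).Prime := fun n hn h h1 h2 =>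
    hn.1 h (mem_Icc.mpr ⟨h1, h2⟩)
  set A := (Ico N0 N1).filter (fun n => ¬ V n ∧ V (n + 1)) with hA
  set B := (Ico N0 N1).filter (fun n => V n ∧ ¬ V (n + 1)) with hB
  have h1 : ∑ n ∈ Ico N0 N1, |vz H z (n + 1) - vz H z n| = (A.card : ℝ) + B.card := by
    rw [hA, hB, card_filter, card_filter]
    push_cast
    rw [← sum_add_distrib]
    apply sum_congr rfl
    intro n _
    rw [hVd, hVd]
    by_cases ha : V n <;> by_cases hb : V (n + 1) <;> simp [ha, hb]
  have hAc : A.card ≤ (lgz H z N1).card := by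
    apply card_le_card_of_injOn (fun n => n + 1)
    · intro n hn
      rw [mem_coe, hA, mem_filter, mem_Ico] at hn
      obtain ⟨⟨hn1, hn2⟩, hn3, hn4⟩ := hn
      change n + 1 ∈ ((lgz H z N1 : Finset ℕ) : Set ℕ)
      have hpr : (n + 1).Prime := by
        by_contra hnp
        apply hn3
        constructor
        · intro h hh
          rw [mem_Icc] at hh
          rcases eq_or_lt_of_le hh.1 with h5 | h5
          · rw [← h5]; exact hnp
          · have h6 := hV1 _ hn4 (h - 1) (by omega) (by omega)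
            rwa [show n + 1 + (h - 1) = n + h by omega] at h6
        · have h6 := hn4.2
          rwa [fin3_fg_succ n hnp] at h6
      have hfg : Nat.findGreatest Nat.Prime (n + 1) = n + 1 := Nat.findGreatest_eq hpr
      rw [mem_coe, lgz, mem_filter, mem_Icc]
      refine ⟨⟨by omega, by omega⟩, ?_⟩
      have h6 := hn4.2
      rwa [hfg] at h6
    · intro a _ b _ hab
      exact Nat.add_right_cancel hab
  have hBn : ∀ n ∈ B, ¬ (n + 1).Prime := by
    intro n hn
    rw [hB, mem_filter] at hn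
    exact hV1 n hn.2.1 1 le_rfl hH
  have hBp : ∀ n ∈ B, (n + 1 + H).Prime := by
    intro n hn
    have hnn := hBn n hn
    rw [hB, mem_filter, mem_Ico] at hn
    obtain ⟨⟨hn1, hn2⟩, hn3, hn4⟩ := hn
    by_contra hnp
    apply hn4
    constructor
    · intro h hh
      rw [mem_Icc] at hh
      rcases eq_or_lt_of_le hh.2 with h5 | h5
      · rw [h5]; exact hnp
      · have h6 := hV1 _ hn3 (h + 1) (by omega) (by omega)
        rwa [show n + (h + 1) = n + 1 + h by omega] at h6
    · rw [fin3_fg_succ n hnn]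
      exact hn3.2
  have hBc : B.card ≤ (lgz H z N1).card := by
    apply card_le_card_of_injOn (fun n => Nat.findGreatest Nat.Prime n)
    · intro n hn
      rw [mem_coe] at hn
      rw [hB, mem_filter, mem_Ico] at hn
      obtain ⟨⟨hn1, hn2⟩, hn3, hn4⟩ := hn
      have hle := Nat.findGreatest_le (P := Nat.Prime) n
      have hgd := hn3.2
      change Nat.findGreatest Nat.Prime n ∈ ((lgz H z N1 : Finset ℕ) : Set ℕ)
      rw [mem_coe, lgz, mem_filter, mem_Icc]
      exact ⟨⟨hgd.1.one_lt.le, by omega⟩, hgd⟩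
    · have key : ∀ a ∈ B, ∀ b ∈ B, a < b →
          Nat.findGreatest Nat.Prime a ≠ Nat.findGreatest Nat.Prime b := by
        intro a ha b hb hab heq
        have hpa := hBp a ha
        rw [hB, mem_filter, mem_Ico] at ha hb
        have hlea := Nat.findGreatest_le (P := Nat.Prime) a
        rcases le_or_gt (a + 1 + H) b with h3 | h3
        · exact Nat.findGreatest_is_greatest (P := Nat.Prime)
            (by omega : Nat.findGreatest Nat.Prime b < a + 1 + H) h3 hpa
        · have h4 := hV1 _ hb.2.1 (a + 1 + H - b) (by omega) (by omega)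
          apply h4
          rwa [show b + (a + 1 + H - b) = a + 1 + H by omega]
      intro a ha b hb hab
      rcases lt_trichotomy a b with h | h | h
      · exact absurd hab (key a ha b hb h)
      · exact h
      · exact absurd hab.symm (key b hb a ha h)
  rw [h1]
  have h2 : (A.card : ℝ) ≤ (lgz H z N1).card := by exact_mod_cast hAc
  have h3 : (B.card : ℝ) ≤ (lgz H z N1).card := by exact_mod_cast hBc
  linarith

/-- The set counted in the theorem. -/
def SZ (lam δ x : ℝ) : Set ℕ := {n : ℕ | (Nat.nth Nat.Prime n : ℝ) ≤ x ∧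
  ∃ a : ℕ, Nat.nth Nat.Prime n ≤ a ∧ (a : ℝ) + lam * Real.log x ≤ Nat.nth Nat.Prime (n + 1) ∧
    ∀ m : ℕ, a < m → (m : ℝ) ≤ a + lam * Real.log x → (m.minFac : ℝ) ≤ x ^ δ}

/-- Good primes `≤ X` give elements of `SZ`. -/
theorem fin3_card_lgz_le (H X : ℕ) (lam δ x : ℝ) (hX : (X : ℝ) ≤ x)
    (hl : lam * Real.log x < H + 1) :
    ((lgz H (x ^ δ) X).card : ℝ) ≤ (Set.ncard (SZ lam δ x) : ℝ) := by
  classical
  have hinf := Nat.infinite_setOfPred_prime
  have hfin : (SZ lam δ x).Finite := by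
    apply (Set.finite_Iic ⌊x⌋₊).subset
    intro n hn
    rw [Set.mem_Iic]
    apply Nat.le_floor
    have h1 : n ≤ Nat.nth Nat.Prime n := (Nat.nth_strictMono hinf).le_apply
    have h2 : (n : ℝ) ≤ (Nat.nth Nat.Prime n : ℝ) := by exact_mod_cast h1
    exact h2.trans hn.1
  have hmem : ∀ p ∈ lgz H (x ^ δ) X, (1 ≤ p ∧ p ≤ X) ∧ gd H (x ^ δ) p := by
    intro p hp
    rw [lgz, mem_filter, mem_Icc] at hp
    exact hp
  have hinj : Set.InjOn (Nat.count Nat.Prime) (lgz H (x ^ δ) X : Set ℕ) := by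
    intro a ha b hb hab
    rw [mem_coe] at ha hb
    rw [← Nat.nth_count (hmem a ha).2.1, ← Nat.nth_count (hmem b hb).2.1, hab]
  have h1 : (lgz H (x ^ δ) X).card = ((lgz H (x ^ δ) X).image (Nat.count Nat.Prime)).card :=
    (card_image_of_injOn hinj).symm
  rw [h1, ← Set.ncard_coe_finset]
  have h2 : (((lgz H (x ^ δ) X).image (Nat.count Nat.Prime) : Finset ℕ) : Set ℕ) ⊆
      SZ lam δ x := by
    intro n hn
    rw [mem_coe, mem_image] at hn
    obtain ⟨p, hp, rfl⟩ := hn
    obtain ⟨⟨hp1, hp2⟩, hp3, a, hpa, hq, hmf⟩ := hmem p hp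
    have hnp := Nat.nth_count hp3
    unfold SZ
    rw [Set.mem_ofPred_eq, hnp]
    refine ⟨le_trans (by exact_mod_cast hp2) hX, a, hpa, ?_, ?_⟩
    · have h5 : p < Nat.nth Nat.Prime (Nat.count Nat.Prime p + 1) := by
        conv_lhs => rw [← hnp]
        exact (Nat.nth_strictMono hinf) (Nat.lt_succ_self _)
      have h6 : (Nat.nth Nat.Prime (Nat.count Nat.Prime p + 1)).Prime :=
        Nat.nth_mem_of_infinite hinf _
      have h7 : a + H + 1 ≤ Nat.nth Nat.Prime (Nat.count Nat.Prime p + 1) := by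
        by_contra hlt
        push Not at hlt
        exact hq _ h5 (by omega) h6
      have h8 : ((a : ℝ) + H + 1) ≤ (Nat.nth Nat.Prime (Nat.count Nat.Prime p + 1) : ℝ) := by
        exact_mod_cast h7
      linarith
    · intro m hm hm2
      have h4 : ((m - a : ℕ) : ℝ) < H + 1 := by
        rw [Nat.cast_sub hm.le]
        linarith
      have h4' : m - a < H + 1 := by exact_mod_cast h4
      have h5 := hmf (m - a) (mem_Icc.mpr ⟨by omega, by omega⟩)
      rwa [Nat.add_sub_of_le hm.le] at h5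
  exact_mod_cast Set.ncard_le_ncard h2 hfin

/-- If `rg n = 0` then `(n, n + H]` lies in the gap after a good prime. -/
theorem fin3_rg (w : WD) (H y n : ℕ) (z : ℝ) (hn : 2 ≤ n) (hzn : z < n) (hy : (y : ℝ) ≤ z)
    (hP : ∀ p ∈ w.P, (p : ℝ) ≤ z) (h0 : w.rg H (primorial y) n = 0) : vz H z n = 1 := by
  have hmf : ∀ h ∈ Icc 1 H, ((n + h).minFac : ℝ) ≤ z := by
    intro h hh
    rcases fin1_factor w H y n (by omega) h0 h hh with h6 | ⟨p, hp, h6⟩
    · rw [mem_Icc] at h6
      have : ((n + h).minFac : ℝ) ≤ y := by exact_mod_cast h6.2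
      linarith
    · have : ((n + h).minFac : ℝ) ≤ p := by exact_mod_cast h6
      exact this.trans (hP p hp)
  have hnp : ∀ h ∈ Icc 1 H, ¬ (n + h).Prime := by
    intro h hh hpr
    have h1 := hmf h hh
    rw [hpr.minFac_eq] at h1
    push_cast at h1
    have : (0 : ℝ) ≤ h := Nat.cast_nonneg h
    linarith
  unfold vz
  rw [if_pos]
  refine ⟨hnp, Nat.findGreatest_spec (P := Nat.Prime) hn Nat.prime_two, n,
    Nat.findGreatest_le n, ?_, hmf⟩
  intro q hq1 hq2 hqp
  rcases le_or_gt q n with h3 | h3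
  · exact Nat.findGreatest_is_greatest (P := Nat.Prime) hq1 h3 hqp
  · have h4 := hnp (q - n) (mem_Icc.mpr ⟨by omega, by omega⟩)
    rw [Nat.add_sub_of_le h3.le] at h4
    exact h4 hqp

/-- A positive proportion of the gaps between primes contains an interval of length `lam log x` of
integers with least prime factor `≤ x^δ` (`δ ≤ 1/4`). Same proof as `many_large_gaps`, with `vz` in
place of `vd`. -/
theorem many_large_rough_gaps (lam δ : ℝ) (hl : 0 < lam) (hδ : 0 < δ) (hδ4 : δ ≤ 1 / 4) :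
    ∃ c : ℝ, 0 < c ∧ ∃ x0 : ℝ, ∀ x : ℝ, x0 ≤ x →
      c * (x / Real.log x) ≤ (Set.ncard (SZ lam δ x) : ℝ) := by
  obtain ⟨c0, hc0, hc01, xv, hPV⟩ := windows_with_prime lam hl
  have hc0sq : c0 ^ 2 ≤ 1 := by nlinarith
  have hc0c : c0 ^ 2 ≤ c0 := by nlinarith
  obtain ⟨C, x0, hset⟩ := exists_setup lam (4000 * lam / c0 ^ 2) δ (c0 ^ 2 / 1000) hl
    (by positivity) hδ (by positivity) (by linarith)
  have hCpos : 0 < C := by
    obtain ⟨w, y, Y0, Y, hw, -⟩ := hset x0 le_rfl
    rw [← hw]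
    exact lt_of_lt_of_le (Real.exp_pos _) w.hC
  set a : ℝ := 2000 * C / c0 ^ 2 with ha
  have hapos : 0 < a := by positivity
  set A : ℝ := lam + (2 * lam + 1) * a + 1 with hA
  have hApos : 0 < A := by positivity
  -- large x
  have E1 : ∀ᶠ x : ℝ in Filter.atTop, max (1 / lam) (max (2 * A) 1) ≤ Real.log x :=
    Real.tendsto_log_atTop.eventually_ge_atTop _
  have E2 : ∀ᶠ x : ℝ in Filter.atTop, A * Real.log x ≤ x ^ (1 / 4 : ℝ) := by
    have := (isLittleO_log_rpow_atTop (r := 1 / 4) (by norm_num)).bound (c := 1 / A)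
      (by positivity)
    filter_upwards [this, Filter.eventually_ge_atTop 1] with x hx hx1
    rw [Real.norm_of_nonneg (Real.log_nonneg hx1),
      Real.norm_of_nonneg (by positivity)] at hx
    calc A * Real.log x ≤ A * (1 / A * x ^ (1 / 4 : ℝ)) := by gcongr
      _ = x ^ (1 / 4 : ℝ) := by field_simp
  have E3 : ∀ᶠ x : ℝ in Filter.atTop, 400 * C * A * Real.log x ≤ c0 ^ 2 * x := by
    have := (isLittleO_log_rpow_atTop (r := 1) (by norm_num)).bound
      (c := c0 ^ 2 / (400 * C * A)) (by positivity)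
    filter_upwards [this, Filter.eventually_ge_atTop 1] with x hx hx1
    rw [Real.norm_of_nonneg (Real.log_nonneg hx1), Real.rpow_one,
      Real.norm_of_nonneg (by linarith)] at hx
    calc 400 * C * A * Real.log x ≤ 400 * C * A * (c0 ^ 2 / (400 * C * A) * x) := by gcongr
      _ = c0 ^ 2 * x := by field_simp
  have E4 : ∀ᶠ x : ℝ in Filter.atTop, Real.log x < x ^ (1 / 2 : ℝ) := by
    have := (isLittleO_log_rpow_atTop (r := 1 / 2) (by norm_num)).bound (c := 1 / 2)
      (by norm_num)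
    filter_upwards [this, Filter.eventually_ge_atTop 1] with x hx hx1
    rw [Real.norm_of_nonneg (Real.log_nonneg hx1),
      Real.norm_of_nonneg (by positivity)] at hx
    have : 0 < x ^ (1 / 2 : ℝ) := by positivity
    linarith
  have E5 : ∀ᶠ x : ℝ in Filter.atTop, Real.log x ≤ x ^ δ := by
    have := (isLittleO_log_rpow_atTop hδ).bound (c := 1) one_pos
    filter_upwards [this, Filter.eventually_ge_atTop 1] with x hx hx1
    rw [one_mul, Real.norm_of_nonneg (Real.log_nonneg hx1),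
      Real.norm_of_nonneg (by positivity)] at hx
    exact hx
  obtain ⟨x1, hx1⟩ := Filter.eventually_atTop.mp (E1.and (E2.and (E3.and (E4.and E5))))
  refine ⟨c0 ^ 2 / (20 * C * A), by positivity, max (max x0 x1) (max xv 100), fun x hx => ?_⟩
  have hxx0 : x0 ≤ x := ((le_max_left _ _).trans (le_max_left _ _)).trans hx
  have hxx1 : x1 ≤ x := ((le_max_right _ _).trans (le_max_left _ _)).trans hx
  have hxv : xv ≤ x := ((le_max_left _ _).trans (le_max_right _ _)).trans hx
  have hx100 : (100 : ℝ) ≤ x := ((le_max_right _ _).trans (le_max_right _ _)).trans hx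
  obtain ⟨h1, h2, h3, h4, h5⟩ := hx1 x hxx1
  have hL1 : 1 / lam ≤ Real.log x := (le_max_left _ _).trans h1
  have hL2 : 2 * A ≤ Real.log x := ((le_max_left _ _).trans (le_max_right _ _)).trans h1
  have hL3 : 1 ≤ Real.log x := ((le_max_right _ _).trans (le_max_right _ _)).trans h1
  obtain ⟨w, y, Y0, Y, hwC, hwe, hwW, hS, hP, hy, hN0a, hN0b, hN1a, hN1b⟩ := hset x hxx0
  set L := Real.log x with hLdef
  set H := ⌊lam * L⌋₊ with hHdef
  set M := primorial y with hMdef
  set N0 := M * Y0 with hN0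
  set N1 := M * (Y0 + Y) with hN1
  have hLpos : 0 < L := by linarith
  have hHle : (H : ℝ) ≤ lam * L := Nat.floor_le (by positivity)
  have hH1 : 1 ≤ H := by
    apply Nat.le_floor
    rw [Nat.cast_one]
    calc (1 : ℝ) = lam * (1 / lam) := by field_simp
      _ ≤ lam * L := by gcongr
  set U := ⌈(2 * (H : ℝ) + 1) * a⌉₊ with hU
  have hU1 : 1 ≤ U := Nat.one_le_iff_ne_zero.mpr (Nat.pos_iff_ne_zero.mp
    (Nat.ceil_pos.mpr (by positivity)))
  have hUge : (2 * (H : ℝ) + 1) * a ≤ U := Nat.le_ceil _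
  have hUle : (U : ℝ) ≤ (2 * (H : ℝ) + 1) * a + 1 := (Nat.ceil_lt_add_one (by positivity)).le
  have hHU : (H : ℝ) + U ≤ A * L := by
    calc (H : ℝ) + U ≤ lam * L + ((2 * (lam * L) + 1) * a + 1) := by
          have : (2 * (H : ℝ) + 1) * a ≤ (2 * (lam * L) + 1) * a := by gcongr
          linarith
      _ ≤ lam * L + ((2 * (lam * L) + L) * a + L) := by
          have : (2 * (lam * L) + 1) * a ≤ (2 * (lam * L) + L) * a := by gcongr
          linarith
      _ = A * L := by rw [hA]; ring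
  have hW2 : 2 * (H + U) ≤ w.W := by
    rw [hwW]
    have e1 : (2 : ℝ) * (H + U) ≤ L ^ 4 := by
      calc (2 : ℝ) * (H + U) ≤ 2 * (A * L) := by gcongr
        _ = (2 * A) * L := by ring
        _ ≤ L * L := by gcongr
        _ ≤ L * L * (L * L) := fin2_four L hL3
        _ = L ^ 4 := by ring
    have e2 : L ^ 4 ≤ (⌈L ^ 4⌉₊ : ℕ) := Nat.le_ceil _
    have e3 : ((2 * (H + U) : ℕ) : ℝ) ≤ (⌈L ^ 4⌉₊ : ℕ) := by
      push_cast
      linarith
    exact_mod_cast e3
  have hbad : 4 * lam / (4000 * lam / c0 ^ 2) = c0 ^ 2 / 1000 := by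
    field_simp
    norm_num
  rw [hbad] at hS
  set MY : ℝ := (M : ℝ) * Y with hMY
  have hN1N0 : (N1 : ℝ) - N0 = MY := by
    rw [hN1, hN0, hMY]
    push_cast
    ring
  obtain ⟨hxs, hxs10⟩ := fin2_sqrt x hx100
  have hxs14 : x ^ (1 / 4 : ℝ) ≤ x ^ (1 / 2 : ℝ) :=
    Real.rpow_le_rpow_of_exponent_le (by linarith) (by norm_num)
  have hx14pos : 0 < x ^ (1 / 4 : ℝ) := by positivity
  have hMYge : x / 2 ≤ MY := by linarith
  have hMYle : MY ≤ x := by
    have : (0 : ℝ) ≤ N0 := Nat.cast_nonneg _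
    linarith
  have hMYpos : 0 < MY := by linarith
  have h01 : N0 + H + U ≤ N1 := by
    have : (N0 : ℝ) + H + U ≤ N1 := by linarith
    exact_mod_cast this
  have hN0x : x ^ (1 / 2 : ℝ) ≤ N0 := hN0a
  have hN02 : 2 ≤ N0 := by
    have : (2 : ℝ) ≤ N0 := by linarith
    exact_mod_cast this
  have hX : ((N1 + H + U : ℕ) : ℝ) ≤ x := by
    push_cast
    linarith
  set K : ℝ := ((lgz H (x ^ δ) (N1 + H + U)).card : ℝ) with hK
  have hKnn : 0 ≤ K := Nat.cast_nonneg _
  -- the decorrelation inequality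
  have hdec := decorrelate N0 N1 H U hU1 h01 (w.wt H M) (vz H (x ^ δ)) (2 * C) c0 (8 * c0 ^ 2 / 1000)
    (3 * c0 ^ 2 / 1000) (2 * K) (fun n => fin2_wt_nonneg w H M n) (fin3_vz_nonneg H _)
    (fin3_vz_le_one H _) (by positivity) (by positivity) (by positivity) (by positivity)
    (by
      rw [hN1N0]
      have e1 := w.sum_wt_ge H y Y0 Y (c0 ^ 2 / 1000) hS 0 (by omega)
      have e2 := w.sum_wt_rg_le H y Y0 Y (c0 ^ 2 / 1000) hS (by omega)
      simp only [add_zero] at e1
      rw [hwe] at e1 e2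
      have e3 : ∑ n ∈ Ico N0 N1, w.wt H M n ≤ ∑ n ∈ Ico N0 N1, w.wt H M n * vz H (x ^ δ) n +
          ∑ n ∈ Ico N0 N1, w.wt H M n * w.rg H M n := by
        rw [← Finset.sum_add_distrib]
        apply Finset.sum_le_sum
        intro n hn
        rw [mem_Ico] at hn
        have f1 := fin2_wt_nonneg w H M n
        have hd4 : x ^ δ ≤ x ^ (1 / 4 : ℝ) :=
          Real.rpow_le_rpow_of_exponent_le (by linarith only [hx100]) hδ4
        have g0 : x ^ (1 / 4 : ℝ) < x ^ (1 / 2 : ℝ) :=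
          Real.rpow_lt_rpow_of_exponent_lt (by linarith only [hx100]) (by norm_num)
        by_cases hv : w.rg H M n = 0
        · have f2 : vz H (x ^ δ) n = 1 := by
            apply fin3_rg w H y n (x ^ δ) (by omega) _ _ hP hv
            · have g2 : (N0 : ℝ) ≤ n := by exact_mod_cast hn.1
              linarith only [g2, hd4, g0, hN0x]
            · linarith only [hy, h5]
          rw [f2, mul_one]
          have f3 : (0 : ℝ) ≤ w.rg H M n := Nat.cast_nonneg _
          exact le_add_of_nonneg_right (mul_nonneg f1 f3)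
        · have f5 : (1 : ℝ) ≤ w.rg H M n := by
            exact_mod_cast Nat.one_le_iff_ne_zero.mpr hv
          have f6 := mul_nonneg f1 (fin3_vz_nonneg H (x ^ δ) n)
          have f7 := le_mul_of_one_le_right f1 f5
          linarith only [f6, f7]
      have e4 : (1 - c0 ^ 2 / 1000 - 4 * (c0 ^ 2 / 1000)) * MY ≤ ∑ n ∈ Ico N0 N1, w.wt H M n := e1
      have e5 : ∑ n ∈ Ico N0 N1, w.wt H M n * w.rg H M n ≤ 3 * (c0 ^ 2 / 1000) * MY := e2
      linarith only [e3, e4, e5])
    (by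
      refine le_trans (Finset.sum_le_sum fun n _ => fin3_vz_le_vd H (x ^ δ) n) ?_
      rw [fin2_sum_vd H N0 N1 (by omega), hN1N0]
      have e1 := hPV x hxv N0 N1 hN0b hN1a (by linarith)
      have e2 := mul_le_mul_of_nonneg_left hMYle hc0.le
      linarith only [e1, e2])
    (fun s hs => by
      rw [hN1N0]
      have e1 := w.sum_wt_sq_le H y Y0 Y (c0 ^ 2 / 1000) hS s (by omega)
      rw [hwC] at e1
      exact e1)
    (fun s s' hss hs' => by
      rw [hN1N0]
      have e1 := w.sum_wt_wt_le H y Y0 Y (c0 ^ 2 / 1000) hS s s' (by omega) (by omega)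
      rw [hwe] at e1
      calc _ ≤ _ := e1
        _ = (1 + 3 * c0 ^ 2 / 1000) * MY := by ring)
    (fun s hs => by
      rw [hN1N0]
      have e1 := w.sum_wt_ge H y Y0 Y (c0 ^ 2 / 1000) hS s (by omega)
      rw [hwe] at e1
      refine le_trans ?_ e1
      have e2 := mul_nonneg (sq_nonneg c0) hMYpos.le
      show (1 - 8 * c0 ^ 2 / 1000) * MY ≤ (1 - c0 ^ 2 / 1000 - 4 * (c0 ^ 2 / 1000)) * MY
      linarith only [e2])
    (by
      have e1 := fin3_sum_abs_vz_le H (x ^ δ) N0 (N1 + H + U) hH1 hN02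
      exact e1)
  rw [hN1N0] at hdec
  -- the square root
  have hsqrt : Real.sqrt (3 * c0 ^ 2 / 1000 + 2 * (8 * c0 ^ 2 / 1000) +
      (2 * (H : ℝ) + 1) * (2 * C) / U) ≤ c0 / 7 := by
    rw [Real.sqrt_le_left (by positivity)]
    have hUpos : (0 : ℝ) < U := by exact_mod_cast hU1
    have e1 : (2 * (H : ℝ) + 1) * (2 * C) / U ≤ c0 ^ 2 / 1000 := by
      rw [div_le_iff₀ hUpos]
      calc (2 * (H : ℝ) + 1) * (2 * C) = c0 ^ 2 / 1000 * ((2 * (H : ℝ) + 1) * a) := by
            rw [ha]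
            field_simp
            ring
        _ ≤ c0 ^ 2 / 1000 * U := by gcongr
    have e2 : 0 < c0 ^ 2 := by positivity
    have e3 : (c0 / 7) ^ 2 = c0 ^ 2 / 49 := by ring
    rw [e3]
    linarith only [e1, e2]
  have hHUpos : (0 : ℝ) < (H : ℝ) + U := by positivity
  have hfin := fin2_final c0 C MY ((H : ℝ) + U) (2 * K) hc0 hCpos hMYpos hHUpos
    (by positivity)
    (by
      calc 200 * C * ((H : ℝ) + U) ≤ 200 * C * (A * L) := by gcongr
        _ = 400 * C * A * L / 2 := by ring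
        _ ≤ c0 ^ 2 * x / 2 := by gcongr
        _ = c0 ^ 2 * (x / 2) := by ring
        _ ≤ c0 ^ 2 * MY := by gcongr)
    (by
      refine le_trans ?_ hdec
      have e1 : 4 / 5 * c0 ≤ c0 - 8 * c0 ^ 2 / 1000 - c0 / 7 := by linarith only [hc0c, hc0]
      have e2 : 4 / 5 * c0 ≤ c0 - 8 * c0 ^ 2 / 1000 - Real.sqrt (3 * c0 ^ 2 / 1000 +
          2 * (8 * c0 ^ 2 / 1000) + (2 * (H : ℝ) + 1) * (2 * C) / U) := by linarith
      exact mul_le_mul_of_nonneg_right e2 hMYpos.le)
  have hgap := fin3_card_lgz_le H (N1 + H + U) lam δ x hX (by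
    have := Nat.lt_floor_add_one (lam * L)
    linarith)
  refine le_trans ?_ hgap
  -- numerics
  have e1 : 49 / 200 * c0 ^ 2 * (x / 2) ≤ C * (A * L) * (2 * K) := by
    calc 49 / 200 * c0 ^ 2 * (x / 2) ≤ 49 / 200 * c0 ^ 2 * MY := by gcongr
      _ ≤ C * ((H : ℝ) + U) * (2 * K) := hfin
      _ ≤ C * (A * L) * (2 * K) := by gcongr
  have e2 : c0 ^ 2 / (20 * C * A) * (x / L) = c0 ^ 2 * x / (20 * C * A * L) := by
    field_simp
  rw [e2, div_le_iff₀ (by positivity)]
  have e3 : 0 ≤ c0 ^ 2 * x := by positivity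
  linarith only [e1, e3]

end Pool.Agent.Lib.H15P
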