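import Pool.Agent.Lib.H15P.LV1
import Pool.Agent.Lib.H15P.PB1

/-!
# Chunk LV3: level of the one form functions
-/

open Finset

namespace Pool.Agent.Lib.H15P

theorem lv3_esymm {α : Type} [DecidableEq α] (x : α → ℝ) (hx : ∀ i, 0 ≤ x i) (S : Finset α) :
    ∀ l : ℕ, ∑ B ∈ S.powersetCard l, ∏ i ∈ B, x i ≤ (∑ i ∈ S, x i) ^ l := by
  induction S using Finset.induction_on with
  | empty =>
    intro l
    cases l with
    | zero => simp
    | succ l =>
      have h1 : powersetCard (l + 1) (∅ : Finset α) = ∅ := by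
        apply Finset.powersetCard_eq_empty.2
        simp
      rw [h1]
      simp
  | insert a S ha ih =>
    intro l
    cases l with
    | zero => simp
    | succ l =>
      rw [Finset.powersetCard_succ_insert ha]
      have h1 := ih (l + 1)
      have h2 := ih l
      have hX : 0 ≤ ∑ i ∈ S, x i := Finset.sum_nonneg fun i _ => hx i
      have hdisj : Disjoint (powersetCard (l + 1) S) ((powersetCard l S).image (insert a)) := by
        rw [Finset.disjoint_left]
        intro B hB hB'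
        rw [Finset.mem_powersetCard] at hB
        obtain ⟨B', -, rfl⟩ := Finset.mem_image.1 hB'
        exact ha (hB.1 (Finset.mem_insert_self a B'))
      rw [Finset.sum_union hdisj, Finset.sum_insert ha]
      have h3 : ∑ B ∈ (powersetCard l S).image (insert a), ∏ i ∈ B, x i =
          x a * ∑ B ∈ powersetCard l S, ∏ i ∈ B, x i := by
        rw [Finset.sum_image, Finset.mul_sum]
        · apply Finset.sum_congr rfl
          intro B hB
          rw [Finset.mem_powersetCard] at hB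
          rw [Finset.prod_insert fun h => ha (hB.1 h)]
        · intro B hB B' hB' h
          rw [Finset.mem_coe, Finset.mem_powersetCard] at hB hB'
          have h4 : a ∉ B := fun h => ha (hB.1 h)
          have h5 : a ∉ B' := fun h => ha (hB'.1 h)
          have h6 : (insert a B).erase a = (insert a B').erase a := by rw [h]
          rwa [Finset.erase_insert h4, Finset.erase_insert h5] at h6
      rw [h3]
      have ha0 := hx a
      have h4 : (∑ i ∈ S, x i) ^ l ≤ (x a + ∑ i ∈ S, x i) ^ l :=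
        pow_le_pow_left₀ hX (by linarith) l
      calc ∑ B ∈ powersetCard (l + 1) S, ∏ i ∈ B, x i + x a * ∑ B ∈ powersetCard l S, ∏ i ∈ B, x i
          ≤ (∑ i ∈ S, x i) ^ (l + 1) + x a * (∑ i ∈ S, x i) ^ l :=
            add_le_add h1 (mul_le_mul_of_nonneg_left h2 ha0)
        _ = (x a + ∑ i ∈ S, x i) * (∑ i ∈ S, x i) ^ l := by ring
        _ ≤ (x a + ∑ i ∈ S, x i) * (x a + ∑ i ∈ S, x i) ^ l :=
            mul_le_mul_of_nonneg_left h4 (by linarith)
        _ = (x a + ∑ i ∈ S, x i) ^ (l + 1) := by ring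

theorem lv3_choose {ι : Type} [Fintype ι] [DecidableEq ι] (blk : ι → ℕ) (b l : ℕ) (A : Finset ι) :
    (((AB blk b A).card.choose l : ℕ) : ℝ) =
      ∑ B ∈ (univ.filter (fun i => blk i = b)).powersetCard l, if B ⊆ A then (1 : ℝ) else 0 := by
  rw [← Finset.card_powersetCard, ← Finset.sum_filter, Finset.sum_const, nsmul_eq_mul, mul_one]
  congr 2
  ext B
  rw [Finset.mem_powersetCard, Finset.mem_filter, Finset.mem_powersetCard]
  unfold AB
  constructor
  · rintro ⟨h1, h2⟩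
    refine ⟨⟨?_, h2⟩, ?_⟩
    · intro i hi
      exact Finset.mem_filter.2 ⟨Finset.mem_univ i, (Finset.mem_filter.1 (h1 hi)).2⟩
    · intro i hi
      exact (Finset.mem_filter.1 (h1 hi)).1
  · rintro ⟨⟨h1, h2⟩, h3⟩
    refine ⟨?_, h2⟩
    intro i hi
    exact Finset.mem_filter.2 ⟨h3 hi, (Finset.mem_filter.1 (h1 hi)).2⟩

theorem lv3_ind (P : Finset ℕ) (hP : ∀ p ∈ P, p.Prime) (B : Finset {p // p ∈ P}) (M b0 : ℕ) :
    Lev (∏ p ∈ P, p) (fun t => if B ⊆ hit P (b0 + M * t) then (1 : ℝ) else 0)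
      (∏ i ∈ B, (i.1 : ℝ)) := by
  have hd : (∏ i ∈ B, i.1) ∣ ∏ p ∈ P, p := by
    have h1 : ∏ i ∈ B, i.1 = ∏ p ∈ B.map ⟨Subtype.val, Subtype.val_injective⟩, p := by
      rw [Finset.prod_map]
      rfl
    rw [h1]
    apply Finset.prod_dvd_prod_of_subset
    intro p hp
    rw [Finset.mem_map] at hp
    obtain ⟨i, -, rfl⟩ := hp
    exact i.2
  have h := Lev.base (Q := ∏ p ∈ P, p) (fun t => if B ⊆ hit P (b0 + M * t) then (1 : ℝ) else 0)
    (∏ i ∈ B, i.1) 1 (Finset.prod_pos fun i _ => (hP i.1 i.2).pos) hd (by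
      intro t
      have h1 : B ⊆ hit P (b0 + M * (t + ∏ i ∈ B, i.1)) ↔ B ⊆ hit P (b0 + M * t) := by
        have h2 : ∀ i ∈ B, (i ∈ hit P (b0 + M * (t + ∏ i ∈ B, i.1)) ↔ i ∈ hit P (b0 + M * t)) := by
          intro i hi
          unfold hit
          rw [Finset.mem_filter, Finset.mem_filter]
          simp only [Finset.mem_univ, true_and]
          have h3 : i.1 ∣ M * ∏ i ∈ B, i.1 := Dvd.dvd.mul_left (Finset.dvd_prod_of_mem _ hi) M
          have h4 : b0 + M * (t + ∏ i ∈ B, i.1) = (b0 + M * t) + M * ∏ i ∈ B, i.1 := by ring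
          rw [h4]
          exact (Nat.dvd_add_left h3)
        exact ⟨fun h i hi => (h2 i hi).1 (h hi), fun h i hi => (h2 i hi).2 (h hi)⟩
      simp only [h1]) (by
      intro t
      split_ifs <;> simp)
  simpa using h

/-- `t ↦ 1[p ∣ b + M t]` for all `p ∈ B` is periodic mod `∏_{p ∈ B} p`; and
`(s choose l) = Σ_{B ⊆ block, |B| = l} 1[B ⊆ A]` for `s = |A ∩ block|`. So the level is at most
`Σ_{l ≤ 2r} Σ_{|B| = l} ∏_{p ∈ B} p ≤ Σ_{l ≤ 2r} X^l/l! ≤ (1 + X)^(2r)`, `X = Σ_{p ∈ block} p`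
(elementary symmetric functions: `Finset.prod_pow_le..`/ or
`Σ_{|B| = l} ∏_B p ≤ X^l` and `Σ_{l ≤ 2r} X^l` with `X ≥ 2` or `X = 0`; any proof). -/
theorem levS_TT (P : Finset ℕ) (hP : ∀ p ∈ P, p.Prime) (blk : {p // p ∈ P} → ℕ) (r b : ℕ) :
    LevS P (fun A => TT r (AB blk b A).card) ((1 + XB (fun i : {p // p ∈ P} => i.1) blk b) ^ (2 * r)) := by
  intro M b0
  have hQ : 0 < ∏ p ∈ P, p := Finset.prod_pos fun p hp => (hP p hp).pos
  set X := XB (fun i : {p // p ∈ P} => i.1) blk b with hX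
  have hX0 : 0 ≤ X := Finset.sum_nonneg fun i _ => by positivity
  have hl : ∀ l ∈ range (2 * r + 1), Lev (∏ p ∈ P, p)
      (fun t => (-1 : ℝ) ^ l * ∑ B ∈ (univ.filter (fun i => blk i = b)).powersetCard l,
        if B ⊆ hit P (b0 + M * t) then (1 : ℝ) else 0) (X ^ l * ((2 * r).choose l : ℕ)) := by
    intro l hlr
    have h1 := Lev.sum ((univ.filter (fun i => blk i = b)).powersetCard l)
      (fun B t => if B ⊆ hit P (b0 + M * t) then (1 : ℝ) else 0)
      (fun B => ∏ i ∈ B, (i.1 : ℝ)) hQ (fun B _ => lv3_ind P hP B M b0)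
    have h2 := h1.const_mul ((-1 : ℝ) ^ l)
    refine Lev.mono _ _ _ h2 ?_
    have h3 : |(-1 : ℝ) ^ l| = 1 := by rw [abs_pow, abs_neg, abs_one, one_pow]
    rw [h3, one_mul]
    have h4 := lv3_esymm (fun i : {p // p ∈ P} => (i.1 : ℝ)) (fun i => by positivity)
      (univ.filter (fun i => blk i = b)) l
    have h5 : (1 : ℝ) ≤ (((2 * r).choose l : ℕ) : ℝ) := by
      have : 0 < (2 * r).choose l := Nat.choose_pos (by
        have := Finset.mem_range.1 hlr
        omega)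
      exact_mod_cast this
    calc ∑ B ∈ (univ.filter (fun i => blk i = b)).powersetCard l, ∏ i ∈ B, (i.1 : ℝ) ≤ X ^ l := h4
      _ ≤ X ^ l * (((2 * r).choose l : ℕ) : ℝ) := le_mul_of_one_le_right (by positivity) h5
  have h := Lev.sum (range (2 * r + 1)) (fun l t => (-1 : ℝ) ^ l *
    ∑ B ∈ (univ.filter (fun i => blk i = b)).powersetCard l,
        if B ⊆ hit P (b0 + M * t) then (1 : ℝ) else 0)
    (fun l => X ^ l * ((2 * r).choose l : ℕ)) hQ hl
  have h1 : (fun t => TT r (AB blk b (hit P (b0 + M * t))).card) = fun t =>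
      ∑ l ∈ range (2 * r + 1), (-1 : ℝ) ^ l *
        ∑ B ∈ (univ.filter (fun i => blk i = b)).powersetCard l,
          if B ⊆ hit P (b0 + M * t) then (1 : ℝ) else 0 := by
    funext t
    unfold TT
    apply Finset.sum_congr rfl
    intro l _
    rw [lv3_choose]
  rw [h1]
  refine Lev.mono _ _ _ h (le_of_eq ?_)
  rw [add_comm 1 X, add_pow]
  apply Finset.sum_congr rfl
  intro l _
  rw [one_pow, mul_one]

/-- Product of `levS_TT` over the blocks. -/
theorem levS_lam (P : Finset ℕ) (hP : ∀ p ∈ P, p.Prime) (blk : {p // p ∈ P} → ℕ) (r0 N i : ℕ) :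
    LevS P (lam blk r0 N i)
      (∏ b ∈ Ico i N, (1 + XB (fun i : {p // p ∈ P} => i.1) blk b) ^ (2 * (r0 + (b - i)))) := by
  intro M b0
  have hQ : 0 < ∏ p ∈ P, p := Finset.prod_pos fun p hp => (hP p hp).pos
  exact Lev.prod (Ico i N) (fun b t => TT (r0 + (b - i)) (AB blk b (hit P (b0 + M * t))).card)
    (fun b => (1 + XB (fun i : {p // p ∈ P} => i.1) blk b) ^ (2 * (r0 + (b - i)))) hQ
    (fun b _ => levS_TT P hP blk (r0 + (b - i)) b M b0)

/-- The last factor has level at most `((1 + X)^(2 r0) + 1/2)/(1 - tau) ≤ 4 (1 + X)^(2 r0)`. -/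
theorem levS_DB (P : Finset ℕ) (hP : ∀ p ∈ P, p.Prime) (q : {p // p ∈ P} → ℝ)
    (blk : {p // p ∈ P} → ℕ) (r0 N i : ℕ) (hi : i < N) (ht0 : 0 ≤ tau q blk r0 i)
    (ht : tau q blk r0 i ≤ 1 / 2) :
    LevS P (DB q blk r0 N i)
      (4 * ∏ b ∈ Ico i N, (1 + XB (fun i : {p // p ∈ P} => i.1) blk b) ^ (2 * (r0 + (b - i)))) := by
  intro M b0
  have hQ : 0 < ∏ p ∈ P, p := Finset.prod_pos fun p hp => (hP p hp).pos
  set X : ℕ → ℝ := fun b => XB (fun i : {p // p ∈ P} => i.1) blk b with hX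
  have hX0 : ∀ b, 0 ≤ X b := fun b => Finset.sum_nonneg fun i _ => by positivity
  set τ := tau q blk r0 i with hτ
  have h1 := Lev.prod (Ico (i + 1) N)
    (fun b t => TT (r0 + (b - i)) (AB blk b (hit P (b0 + M * t))).card)
    (fun b => (1 + X b) ^ (2 * (r0 + (b - i)))) hQ
    (fun b _ => levS_TT P hP blk (r0 + (b - i)) b M b0)
  have h2 := Lev.add _ _ _ _ (levS_TT P hP blk r0 i M b0) (Lev.const hQ (-τ))
  have h3 := h2.const_mul (1 / (1 - τ))
  have h4 := Lev.mul hQ h1 h3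
  have h5 : (fun t => (∏ b ∈ Ico (i + 1) N, TT (r0 + (b - i)) (AB blk b (hit P (b0 + M * t))).card) *
      (1 / (1 - τ) * (TT r0 (AB blk i (hit P (b0 + M * t))).card + -τ))) =
      fun t => DB q blk r0 N i (hit P (b0 + M * t)) := by
    funext t
    unfold DB
    rw [← hτ]
    ring
  rw [h5] at h4
  refine Lev.mono _ _ _ h4 ?_
  rw [Finset.prod_eq_prod_Ico_succ_bot hi]
  have h6 : r0 + (i - i) = r0 := by omega
  rw [h6]
  have h7 : (0 : ℝ) ≤ ∏ b ∈ Ico (i + 1) N, (1 + X b) ^ (2 * (r0 + (b - i))) :=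
    Finset.prod_nonneg fun b _ => pow_nonneg (by linarith [hX0 b]) _
  have h8 : (1 : ℝ) ≤ (1 + X i) ^ (2 * r0) := one_le_pow₀ (by linarith [hX0 i])
  have h9 : |1 / (1 - τ)| ≤ 2 := by
    have : 0 < 1 - τ := by linarith
    rw [abs_of_nonneg (by positivity), div_le_iff₀ this]
    linarith
  have h10 : |(-τ)| ≤ 1 / 2 := by
    rw [abs_neg, abs_of_nonneg ht0]
    exact ht
  have h11 : |1 / (1 - τ)| * ((1 + X i) ^ (2 * r0) + |(-τ)|) ≤ 4 * (1 + X i) ^ (2 * r0) := by
    calc |1 / (1 - τ)| * ((1 + X i) ^ (2 * r0) + |(-τ)|) ≤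
          2 * ((1 + X i) ^ (2 * r0) + |(-τ)|) := by
            apply mul_le_mul_of_nonneg_right h9
            positivity
      _ ≤ 4 * (1 + X i) ^ (2 * r0) := by linarith
  calc (∏ b ∈ Ico (i + 1) N, (1 + X b) ^ (2 * (r0 + (b - i)))) *
        (|1 / (1 - τ)| * ((1 + X i) ^ (2 * r0) + |(-τ)|))
      ≤ (∏ b ∈ Ico (i + 1) N, (1 + X b) ^ (2 * (r0 + (b - i)))) * (4 * (1 + X i) ^ (2 * r0)) :=
        mul_le_mul_of_nonneg_left h11 h7
    _ = 4 * ((1 + X i) ^ (2 * r0) * ∏ b ∈ Ico (i + 1) N, (1 + X b) ^ (2 * (r0 + (b - i)))) := by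
        ring

end Pool.Agent.Lib.H15P
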