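import Pool.Agent.Lib.H15P.LV1

/-!
# Chunk LV4: level of `LL` and `LP`
-/

open Finset

namespace Pool.Agent.Lib.H15P

variable {J I : Type} [Fintype J] [DecidableEq J] [Fintype I] [DecidableEq I]

theorem lv4_mem_adm {B : Finset J} {m : I → ℕ} {l : J → Option I} :
    l ∈ adm B m ↔ (∀ j, j ∉ B → l j = none) ∧ ∀ i, cnt l i ≤ m i := by
  unfold adm
  simp

theorem lv4_card_labelled (l : J → Option I) :
    (univ.filter (fun j => l j ≠ none)).card ≤ ∑ i, cnt l i := by
  have h1 : univ.filter (fun j => l j ≠ none) ⊆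
      (univ : Finset I).biUnion (fun i => univ.filter (fun j => l j = some i)) := by
    intro j hj
    rw [Finset.mem_filter] at hj
    obtain ⟨i, hi⟩ := Option.ne_none_iff_exists'.1 hj.2
    rw [Finset.mem_biUnion]
    exact ⟨i, Finset.mem_univ i, Finset.mem_filter.2 ⟨Finset.mem_univ j, hi⟩⟩
  exact (Finset.card_le_card h1).trans Finset.card_biUnion_le

/-- `#adm ≤ Σ_l y^(Σ m - Σ cnt l) ≤ y^(Σ m) (1 + |I|/y)^|J|` with `y = |I| |J| + 1`
(`Σ_l ∏_j a (l j)` with `a none = 1`, `a (some i) = 1/y`), and `(1 + |I|/y)^|J| ≤ e ≤ 3`. -/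
theorem card_adm_le (B : Finset J) (m : I → ℕ) :
    ((adm B m).card : ℝ) ≤
      3 * ((Fintype.card I : ℝ) * Fintype.card J + 1) ^ (∑ i, m i) := by
  set y : ℝ := (Fintype.card I : ℝ) * Fintype.card J + 1 with hy
  have hy1 : 1 ≤ y := by
    rw [hy]
    have : (0 : ℝ) ≤ (Fintype.card I : ℝ) * Fintype.card J := by positivity
    linarith
  have hy0 : 0 < y := by linarith
  set a : Option I → ℝ := fun o => o.elim 1 (fun _ => y⁻¹) with ha
  have ha0 : ∀ o, 0 ≤ a o := by
    intro o
    cases o with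
    | none => simp [ha]
    | some i => simp only [ha, Option.elim]; positivity
  have hterm : ∀ l ∈ adm B m, (1 : ℝ) ≤ y ^ (∑ i, m i) * ∏ j, a (l j) := by
    intro l hl
    rw [lv4_mem_adm] at hl
    have h1 : ∏ j, a (l j) = (y⁻¹) ^ (univ.filter (fun j => l j ≠ none)).card := by
      rw [← Finset.prod_const, Finset.prod_filter]
      apply Finset.prod_congr rfl
      intro j _
      by_cases hj : l j = none
      · simp [hj, ha]
      · obtain ⟨i, hi⟩ := Option.ne_none_iff_exists'.1 hj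
        simp [hi, ha]
    have h2 : (univ.filter (fun j => l j ≠ none)).card ≤ ∑ i, m i :=
      (lv4_card_labelled l).trans (Finset.sum_le_sum fun i _ => hl.2 i)
    rw [h1]
    obtain ⟨c, hc⟩ := Nat.exists_eq_add_of_le h2
    rw [hc, pow_add, inv_pow]
    have h3 : y ^ (univ.filter (fun j => l j ≠ none)).card ≠ 0 := pow_ne_zero _ hy0.ne'
    have h4 : y ^ (univ.filter (fun j => l j ≠ none)).card * y ^ c *
        (y ^ (univ.filter (fun j => l j ≠ none)).card)⁻¹ = y ^ c := by
      field_simp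
    rw [h4]
    exact one_le_pow₀ hy1
  have hsum : ∑ l : J → Option I, ∏ j, a (l j) =
      (1 + (Fintype.card I : ℝ) * y⁻¹) ^ Fintype.card J := by
    have h1 := Finset.prod_univ_sum (fun _ : J => (univ : Finset (Option I))) (fun _ o => a o)
    rw [Fintype.piFinset_univ] at h1
    rw [← h1, Fintype.sum_option]
    simp [ha]
  have hexp : (1 + (Fintype.card I : ℝ) * y⁻¹) ^ Fintype.card J ≤ 3 := by
    have h1 : 1 + (Fintype.card I : ℝ) * y⁻¹ ≤ Real.exp ((Fintype.card I : ℝ) * y⁻¹) := by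
      have := Real.add_one_le_exp ((Fintype.card I : ℝ) * y⁻¹)
      linarith
    have h0 : 0 ≤ 1 + (Fintype.card I : ℝ) * y⁻¹ := by positivity
    calc (1 + (Fintype.card I : ℝ) * y⁻¹) ^ Fintype.card J
        ≤ (Real.exp ((Fintype.card I : ℝ) * y⁻¹)) ^ Fintype.card J := pow_le_pow_left₀ h0 h1 _
      _ = Real.exp (Fintype.card J * ((Fintype.card I : ℝ) * y⁻¹)) := by
          rw [← Real.exp_nat_mul]
      _ ≤ Real.exp 1 := by
          apply Real.exp_le_exp.2
          have h2 : (Fintype.card J : ℝ) * ((Fintype.card I : ℝ) * y⁻¹) =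
              ((Fintype.card I : ℝ) * Fintype.card J) / y := by
            field_simp
          rw [h2, div_le_one hy0, hy]
          linarith
      _ ≤ 3 := by
          have := Real.exp_one_lt_d9
          linarith
  calc ((adm B m).card : ℝ) = ∑ l ∈ adm B m, (1 : ℝ) := by simp
    _ ≤ ∑ l ∈ adm B m, y ^ (∑ i, m i) * ∏ j, a (l j) := Finset.sum_le_sum hterm
    _ ≤ ∑ l : J → Option I, y ^ (∑ i, m i) * ∏ j, a (l j) := by
        apply Finset.sum_le_sum_of_subset_of_nonneg (Finset.subset_univ _)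
        intro l _ _
        exact mul_nonneg (by positivity) (Finset.prod_nonneg fun j _ => ha0 _)
    _ = y ^ (∑ i, m i) * (1 + (Fintype.card I : ℝ) * y⁻¹) ^ Fintype.card J := by
        rw [← Finset.mul_sum, hsum]
    _ ≤ y ^ (∑ i, m i) * 3 := by
        apply mul_le_mul_of_nonneg_left hexp (by positivity)
    _ = 3 * y ^ (∑ i, m i) := by ring

theorem lv4_prod_kd (KD : I → ℝ) (l : J → Option I) :
    ∏ j, (l j).elim 1 KD = ∏ i, KD i ^ cnt l i := by
  have h1 := Finset.prod_fiberwise' (univ : Finset J) l (fun o => o.elim 1 KD)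
  rw [← h1, Fintype.prod_option]
  simp only [Option.elim, Finset.prod_const_one, one_mul, Finset.prod_const]
  rfl

/-- common generalisation of `lev_LL` and `lev_LP` -/
theorem lv4_main (P : Finset ℕ) (hP : ∀ p ∈ P, p.Prime) (D : I → Finset {p // p ∈ P} → ℝ)
    (KD : I → ℝ) (hK : ∀ i, 1 ≤ KD i) (hD : ∀ i, LevS P (D i) (KD i))
    (hI : 0 < Fintype.card I) (m : I → ℕ) (B : Finset J) (M : ℕ) (b : J → ℕ)
    (w : (J → Option I) → ℝ) (hw : ∀ l, |w l| ≤ 1) :
    Lev (∏ p ∈ P, p) (fun t => ∑ l ∈ adm B m, w l * ∏ j, dd D (l j) (hit P (b j + M * t)))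
      (3 * ((Fintype.card I : ℝ) * Fintype.card J + 1) ^ (∑ i, m i) * ∏ i, KD i ^ m i) := by
  have hQ : 0 < ∏ p ∈ P, p := Finset.prod_pos fun p hp => (hP p hp).pos
  have hI1 : (1 : ℝ) ≤ Fintype.card I := by exact_mod_cast hI
  -- one factor
  have hfac : ∀ (o : Option I) (j : J), Lev (∏ p ∈ P, p)
      (fun t => dd D o (hit P (b j + M * t))) (o.elim 1 KD) := by
    intro o j
    cases o with
    | none =>
      have h1 := Lev.const hQ 1
      rw [abs_one] at h1
      exact h1
    | some i =>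
      have h1 := (hD i M (b j)).const_mul (-1 / (Fintype.card I : ℝ))
      have h2 : (fun t => -1 / (Fintype.card I : ℝ) * D i (hit P (b j + M * t))) =
          fun t => dd D (some i) (hit P (b j + M * t)) := by
        funext t
        simp only [dd]
        ring
      rw [h2] at h1
      refine Lev.mono _ _ _ h1 ?_
      have h3 : |(-1 / (Fintype.card I : ℝ))| ≤ 1 := by
        rw [abs_div, abs_neg, abs_one, abs_of_nonneg (by linarith), div_le_one (by linarith)]
        exact hI1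
      calc |(-1 / (Fintype.card I : ℝ))| * KD i ≤ 1 * KD i :=
            mul_le_mul_of_nonneg_right h3 (by linarith [hK i])
        _ = (some i).elim 1 KD := by simp
  have hterm : ∀ l ∈ adm B m, Lev (∏ p ∈ P, p)
      (fun t => w l * ∏ j, dd D (l j) (hit P (b j + M * t))) (∏ i, KD i ^ m i) := by
    intro l hl
    rw [lv4_mem_adm] at hl
    have h1 := Lev.prod (univ : Finset J) (fun j t => dd D (l j) (hit P (b j + M * t)))
      (fun j => (l j).elim 1 KD) hQ (fun j _ => hfac (l j) j)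
    have h2 := h1.const_mul (w l)
    refine Lev.mono _ _ _ h2 ?_
    rw [lv4_prod_kd]
    have h3 : ∏ i, KD i ^ cnt l i ≤ ∏ i, KD i ^ m i := by
      apply Finset.prod_le_prod
      · intro i _
        exact pow_nonneg (by linarith [hK i]) _
      · intro i _
        exact pow_le_pow_right₀ (hK i) (hl.2 i)
    have h4 : 0 ≤ ∏ i, KD i ^ cnt l i :=
      Finset.prod_nonneg fun i _ => pow_nonneg (by linarith [hK i]) _
    calc |w l| * ∏ i, KD i ^ cnt l i ≤ 1 * ∏ i, KD i ^ cnt l i :=
          mul_le_mul_of_nonneg_right (hw l) h4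
      _ ≤ ∏ i, KD i ^ m i := by rw [one_mul]; exact h3
  have hs := Lev.sum (adm B m) (fun l t => w l * ∏ j, dd D (l j) (hit P (b j + M * t)))
    (fun _ => ∏ i, KD i ^ m i) hQ hterm
  refine Lev.mono _ _ _ hs ?_
  rw [Finset.sum_const, nsmul_eq_mul]
  apply mul_le_mul_of_nonneg_right (card_adm_le B m)
  exact Finset.prod_nonneg fun i _ => pow_nonneg (by linarith [hK i]) _

/-- Every term of `LL` has level at most `∏_i KD_i^(cnt l i) ≤ ∏_i KD_i^(m i)` (`KD ≥ 1`, the
division by `|I| ≥ 1` only helps). -/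
theorem lev_LL (P : Finset ℕ) (hP : ∀ p ∈ P, p.Prime) (D : I → Finset {p // p ∈ P} → ℝ)
    (KD : I → ℝ) (hK : ∀ i, 1 ≤ KD i) (hD : ∀ i, LevS P (D i) (KD i))
    (hI : 0 < Fintype.card I) (m : I → ℕ) (B : Finset J) (M : ℕ) (b : J → ℕ) :
    Lev (∏ p ∈ P, p) (fun t => LL D m B (fun j => hit P (b j + M * t)))
      (3 * ((Fintype.card I : ℝ) * Fintype.card J + 1) ^ (∑ i, m i) * ∏ i, KD i ^ m i) := by
  have h := lv4_main P hP D KD hK hD hI m B M b (fun _ => 1) (fun _ => by simp)
  simpa only [LL, one_mul] using h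

/-- The same with `0 ≤ sat ≤ 1`. -/
theorem lev_LP (P : Finset ℕ) (hP : ∀ p ∈ P, p.Prime) (D : I → Finset {p // p ∈ P} → ℝ)
    (KD : I → ℝ) (hK : ∀ i, 1 ≤ KD i) (hD : ∀ i, LevS P (D i) (KD i))
    (hI : 0 < Fintype.card I) (m : I → ℕ) (B : Finset J) (M : ℕ) (b : J → ℕ) :
    Lev (∏ p ∈ P, p) (fun t => LP D m B (fun j => hit P (b j + M * t)))
      (3 * ((Fintype.card I : ℝ) * Fintype.card J + 1) ^ (∑ i, m i) * ∏ i, KD i ^ m i) := by
  have hI0 : (0 : ℝ) < Fintype.card I := by exact_mod_cast hI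
  refine lv4_main P hP D KD hK hD hI m B M b (fun l => sat m l) ?_
  intro l
  unfold sat
  rw [abs_of_nonneg (by positivity), div_le_one hI0]
  exact_mod_cast Finset.card_le_univ _

end Pool.Agent.Lib.H15P
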