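import Pool.Agent.Lib.H15P.Defs

/-!
# Chunk NT2: sizes of the blocks
-/

open Finset

namespace Pool.Agent.Lib.H15P

variable (κ W : ℕ) (T : ℝ)

/-- The block `b` of a prime `p`: `κ^b ≤ T/log p < κ^(b+1)`. -/
theorem bk_spec (hκ : 2 ≤ κ) (p : ℕ) (hp : p.Prime) (hT : Real.log p ≤ T) :
    (κ : ℝ) ^ bk κ T p ≤ T / Real.log p ∧ T / Real.log p < (κ : ℝ) ^ (bk κ T p + 1) := by
  have hlog : 0 < Real.log p := Real.log_pos (by exact_mod_cast hp.one_lt)
  have h1 : 1 ≤ T / Real.log p := by rw [le_div_iff₀ hlog]; linarith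
  have h0 : ⌊T / Real.log p⌋₊ ≠ 0 := by
    have := Nat.le_floor (n := 1) (by exact_mod_cast h1 : ((1 : ℕ) : ℝ) ≤ T / Real.log p)
    omega
  unfold bk
  constructor
  · have h2 := Nat.pow_log_le_self κ h0
    have h3 : ((κ ^ Nat.log κ ⌊T / Real.log p⌋₊ : ℕ) : ℝ) ≤ (⌊T / Real.log p⌋₊ : ℕ) := by
      exact_mod_cast h2
    rw [Nat.cast_pow] at h3
    exact h3.trans (Nat.floor_le (by linarith))
  · have h2 := Nat.lt_pow_succ_log_self (by omega : 1 < κ) ⌊T / Real.log p⌋₊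
    have h3 : T / Real.log p < ((κ ^ (Nat.log κ ⌊T / Real.log p⌋₊ + 1) : ℕ) : ℝ) :=
      (Nat.floor_lt (by linarith)).1 h2
    rwa [Nat.cast_pow] at h3

theorem NT2_mem (p : ℕ) (hp : p ∈ PP W T) : p.Prime ∧ W < p ∧ Real.log p ≤ T := by
  unfold PP at hp
  rw [mem_filter, mem_Ioc] at hp
  obtain ⟨⟨h1, h2⟩, h3⟩ := hp
  refine ⟨h3, h1, ?_⟩
  have h4 : (p : ℝ) ≤ Real.exp T := (Nat.le_floor_iff (Real.exp_pos T).le).1 h2
  rwa [Real.log_le_iff_le_exp (by exact_mod_cast h3.pos)]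

theorem NT2_log_le (hκ : 2 ≤ κ) (p : ℕ) (hp : p.Prime) (hT : Real.log p ≤ T) :
    Real.log p ≤ T / (κ : ℝ) ^ bk κ T p := by
  have hlog : 0 < Real.log p := Real.log_pos (by exact_mod_cast hp.one_lt)
  have hκ0 : (0 : ℝ) < (κ : ℝ) ^ bk κ T p := by
    have : (0 : ℝ) < κ := by exact_mod_cast (by omega : 0 < κ)
    positivity
  have h := (bk_spec κ T hκ p hp hT).1
  rw [le_div_iff₀ hlog] at h
  rw [le_div_iff₀ hκ0]
  linarith

/-- If the block is empty the left side is `1`. Otherwise it has a prime `≥ 2`, all its primes are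
`≤ y = exp (T/κ^b)`, `y ≥ 2`, and `1 + Σ_{m ≤ y} m ≤ y^3`. -/
theorem XB_le (hκ : 2 ≤ κ) (hT : 0 ≤ T) (b : ℕ) :
    1 + XB (fun i : {p // p ∈ PP W T} => i.1) (fun i => bk κ T i.1) b
      ≤ Real.exp (3 * (T / κ ^ b)) := by
  set y : ℝ := Real.exp (T / (κ : ℝ) ^ b) with hy
  have hy1 : 1 ≤ y := Real.one_le_exp (by positivity)
  have hy3 : Real.exp (3 * (T / (κ : ℝ) ^ b)) = y ^ 3 := by
    rw [hy, ← Real.exp_nat_mul]
    push_cast
    rfl
  rw [hy3]
  unfold XB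
  rcases (univ.filter (fun i : {p // p ∈ PP W T} => bk κ T i.1 = b)).eq_empty_or_nonempty with
    h | ⟨i0, hi0⟩
  · rw [h, sum_empty, add_zero]
    exact one_le_pow₀ hy1
  · have hle : ∀ i ∈ univ.filter (fun i : {p // p ∈ PP W T} => bk κ T i.1 = b),
        (i.1 : ℝ) ≤ y := by
      intro i hi
      obtain ⟨h1, h2, h3⟩ := NT2_mem W T i.1 i.2
      have h4 := NT2_log_le κ T hκ i.1 h1 h3
      rw [(mem_filter.1 hi).2] at h4
      rw [hy]
      exact (Real.log_le_iff_le_exp (by exact_mod_cast h1.pos)).1 h4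
    have hy2 : 2 ≤ y := by
      have h1 := hle i0 hi0
      have h2 : (2 : ℝ) ≤ i0.1 := by exact_mod_cast (NT2_mem W T i0.1 i0.2).1.two_le
      linarith
    have hsum : ∑ i ∈ univ.filter (fun i : {p // p ∈ PP W T} => bk κ T i.1 = b), (i.1 : ℝ) ≤
        ∑ m ∈ range (⌊y⌋₊ + 1), (m : ℝ) := by
      have e1 : ∑ i ∈ univ.filter (fun i : {p // p ∈ PP W T} => bk κ T i.1 = b), (i.1 : ℝ) =
          ∑ m ∈ (univ.filter (fun i : {p // p ∈ PP W T} => bk κ T i.1 = b)).map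
            (Function.Embedding.subtype _), (m : ℝ) := by
        rw [sum_map]
        rfl
      rw [e1]
      refine sum_le_sum_of_subset_of_nonneg ?_ fun _ _ _ => Nat.cast_nonneg _
      intro m hm
      rw [mem_map] at hm
      obtain ⟨i, hi, rfl⟩ := hm
      rw [mem_range]
      exact Nat.lt_succ_of_le (Nat.le_floor (hle i hi))
    have hgauss : ∀ n : ℕ, ∑ m ∈ range (n + 1), (m : ℝ) = (n : ℝ) * (n + 1) / 2 := by
      intro n
      induction n with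
      | zero => simp
      | succ n ih =>
        rw [sum_range_succ, ih]
        push_cast
        ring
    rw [hgauss] at hsum
    have hfl : ((⌊y⌋₊ : ℕ) : ℝ) ≤ y := Nat.floor_le (by linarith)
    have hfl0 : (0 : ℝ) ≤ (⌊y⌋₊ : ℕ) := Nat.cast_nonneg _
    have h5 : ((⌊y⌋₊ : ℕ) : ℝ) * ((⌊y⌋₊ : ℕ) + 1) ≤ y * (y + 1) :=
      mul_le_mul hfl (by linarith) (by positivity) (by linarith)
    have h6 : 1 + y * (y + 1) / 2 ≤ y ^ 3 := by nlinarith [mul_nonneg (by linarith : 0 ≤ y - 2) (sq_nonneg y)]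
    linarith

/-- `Σ_{b ≥ i} 2 (r0 + b - i) 3 T/κ^b ≤ 6 (T/κ^i) Σ_c (r0 + c) 2^-c ≤ 12 (r0 + 1) T/κ^i`. -/
theorem prod_XB_le (hκ : 2 ≤ κ) (hT : 0 ≤ T) (r0 i N : ℕ) :
    ∏ b ∈ Ico i N,
        (1 + XB (fun i : {p // p ∈ PP W T} => i.1) (fun i => bk κ T i.1) b) ^ (2 * (r0 + (b - i)))
      ≤ Real.exp (12 * ((r0 : ℝ) + 1) * (T / κ ^ i)) := by
  have hκ2 : (2 : ℝ) ≤ κ := by exact_mod_cast hκ
  set U : ℝ := T / (κ : ℝ) ^ i with hU
  have hU0 : 0 ≤ U := by positivity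
  rw [prod_Ico_eq_prod_range]
  have hterm : ∀ c ∈ range (N - i),
      (1 + XB (fun i : {p // p ∈ PP W T} => i.1) (fun i => bk κ T i.1) (i + c)) ^
        (2 * (r0 + (i + c - i))) ≤ Real.exp (6 * U * (((r0 : ℝ) + c) / 2 ^ c)) := by
    intro c _
    have hXB0 : 0 ≤ XB (fun i : {p // p ∈ PP W T} => i.1) (fun i => bk κ T i.1) (i + c) := by
      unfold XB
      exact sum_nonneg fun _ _ => Nat.cast_nonneg _
    have h1 := pow_le_pow_left₀ (by linarith) (XB_le κ W T hκ hT (i + c)) (2 * (r0 + (i + c - i)))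
    refine h1.trans ?_
    rw [← Real.exp_nat_mul]
    refine Real.exp_le_exp.2 ?_
    have h2 : i + c - i = c := by omega
    rw [h2]
    push_cast
    have h3 : T / (κ : ℝ) ^ (i + c) = U / (κ : ℝ) ^ c := by
      rw [hU, pow_add, div_div]
    rw [h3]
    have h4 : U / (κ : ℝ) ^ c ≤ U / 2 ^ c :=
      div_le_div_of_nonneg_left hU0 (by positivity) (pow_le_pow_left₀ (by norm_num) hκ2 c)
    have h5 : 2 * ((r0 : ℝ) + c) * (3 * (U / (κ : ℝ) ^ c)) ≤
        2 * ((r0 : ℝ) + c) * (3 * (U / 2 ^ c)) :=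
      mul_le_mul_of_nonneg_left (by linarith) (by positivity)
    refine h5.trans (le_of_eq ?_)
    ring
  refine (prod_le_prod (fun c _ => ?_) hterm).trans ?_
  · have hXB0 : 0 ≤ XB (fun i : {p // p ∈ PP W T} => i.1) (fun i => bk κ T i.1) (i + c) := by
      unfold XB
      exact sum_nonneg fun _ _ => Nat.cast_nonneg _
    exact pow_nonneg (by linarith) _
  · rw [← Real.exp_sum, ← mul_sum]
    refine Real.exp_le_exp.2 ?_
    have hS : ∀ n : ℕ, ∑ c ∈ range n, ((r0 : ℝ) + c) / 2 ^ c =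
        2 * ((r0 : ℝ) + 1) - 2 * ((r0 : ℝ) + n + 1) / 2 ^ n := by
      intro n
      induction n with
      | zero => simp
      | succ n ih =>
        rw [sum_range_succ, ih, pow_succ]
        push_cast
        field_simp
        ring
    rw [hS]
    have h6 : 0 ≤ 2 * ((r0 : ℝ) + (N - i : ℕ) + 1) / 2 ^ (N - i) := by positivity
    have h7 := mul_nonneg hU0 h6
    nlinarith

/-- `T/log p ≤ 2 T` for `p ≥ 2` (`log 2 ≥ 1/2`). -/
theorem bk_lt (hT : 0 ≤ T) (p : ℕ) (hp : p ∈ PP W T) :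
    bk κ T p < Nat.log κ ⌊2 * T⌋₊ + 1 := by
  obtain ⟨h1, -, -⟩ := NT2_mem W T p hp
  unfold bk
  refine Nat.lt_succ_of_le (Nat.log_mono_right (Nat.floor_le_floor ?_))
  have h2 : (2 : ℝ) ≤ p := by exact_mod_cast h1.two_le
  have h3 : 1 / 2 ≤ Real.log p := by
    have := Real.log_le_log (by norm_num) h2
    linarith [Real.log_two_gt_d9]
  rw [div_le_iff₀ (by linarith)]
  nlinarith

end Pool.Agent.Lib.H15P
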