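import Pool.Agent.Lib.H15P.TR2
import Pool.Agent.Lib.H15P.NT2
import Pool.Agent.Lib.Helper57.Mertens
import Pool.Agent.Lib.Sieve.Averages

/-!
# Chunk NT1: Mertens products over blocks
-/

open Finset

namespace Pool.Agent.Lib.H15P

theorem NT1_split (f : ℕ → ℝ) (a b : ℕ) (hab : a ≤ b) :
    ∏ p ∈ Sieve.primesUpTo b, f p =
      (∏ p ∈ Sieve.primesUpTo a, f p) * ∏ p ∈ (Ioc a b).filter Nat.Prime, f p := by
  have h1 : Sieve.primesUpTo b = Sieve.primesUpTo a ∪ (Ioc a b).filter Nat.Prime := by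
    ext p
    rw [mem_union, Sieve.mem_primesUpTo, Sieve.mem_primesUpTo, mem_filter, mem_Ioc]
    constructor
    · rintro ⟨h1, h2⟩
      rcases le_or_gt p a with h | h
      · exact Or.inl ⟨h1, h⟩
      · exact Or.inr ⟨⟨h, h2⟩, h1⟩
    · rintro (⟨h1, h2⟩ | ⟨⟨h1, h2⟩, h3⟩)
      · exact ⟨h1, h2.trans hab⟩
      · exact ⟨h3, h2⟩
  rw [h1, prod_union]
  rw [disjoint_left]
  intro p hp hp'
  rw [Sieve.mem_primesUpTo] at hp
  rw [mem_filter, mem_Ioc] at hp'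
  omega

theorem NT1_pos (p : ℕ) (hp : p.Prime) : 0 < 1 - 1 / (p : ℝ) := by
  have h2 : (2 : ℝ) ≤ p := by exact_mod_cast hp.two_le
  have : 1 / (p : ℝ) ≤ 1 / 2 := one_div_le_one_div_of_le (by norm_num) h2
  linarith

/-- `∏_{a < p ≤ b} (1 - 1/p) ≤ 500 log a / log b`, from `Sieve.prod_one_sub_inv_le b` and
`Helper57.prod_one_sub_inv_inv_le a`. -/
theorem mertens_prod_le (a b : ℕ) (ha : 2 ≤ a) (hab : a ≤ b) :
    ∏ p ∈ (Ioc a b).filter Nat.Prime, (1 - 1 / (p : ℝ)) ≤ 500 * (Real.log a / Real.log b) := by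
  have hloga : 0 < Real.log a := Real.log_pos (by exact_mod_cast (by omega : 1 < a))
  have hlogb : 0 < Real.log b := Real.log_pos (by exact_mod_cast (by omega : 1 < b))
  have h1 := Sieve.prod_one_sub_inv_le b (ha.trans hab)
  have h2 := Helper57.prod_one_sub_inv_inv_le a ha
  rw [NT1_split _ a b hab] at h1
  have hpos : 0 < ∏ p ∈ Sieve.primesUpTo a, (1 - 1 / (p : ℝ)) :=
    prod_pos fun p hp => NT1_pos p (Sieve.mem_primesUpTo.mp hp).1
  rw [prod_inv_distrib] at h2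
  have h3 : ∏ p ∈ (Ioc a b).filter Nat.Prime, (1 - 1 / (p : ℝ)) ≤
      (∏ p ∈ Sieve.primesUpTo a, (1 - 1 / (p : ℝ)))⁻¹ * (1 / Real.log b) := by
    rw [inv_mul_eq_div, le_div_iff₀ hpos]
    linarith
  refine h3.trans ((mul_le_mul_of_nonneg_right h2 (by positivity)).trans (le_of_eq ?_))
  ring

/-- `Σ_{a < p ≤ b} 1/p ≤ -Σ log (1 - 1/p) ≤ log (500 log b/log a)`. -/
theorem mertens_sum_le (a b : ℕ) (ha : 2 ≤ a) (hab : a ≤ b) :
    ∑ p ∈ (Ioc a b).filter Nat.Prime, 1 / (p : ℝ)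
      ≤ Real.log (500 * (Real.log b / Real.log a)) := by
  have hloga : 0 < Real.log a := Real.log_pos (by exact_mod_cast (by omega : 1 < a))
  have hlogb : 0 < Real.log b := Real.log_pos (by exact_mod_cast (by omega : 1 < b))
  have h1 := Sieve.prod_one_sub_inv_le a ha
  have h2 := Helper57.prod_one_sub_inv_inv_le b (ha.trans hab)
  have hposa : 0 < ∏ p ∈ Sieve.primesUpTo a, (1 - 1 / (p : ℝ)) :=
    prod_pos fun p hp => NT1_pos p (Sieve.mem_primesUpTo.mp hp).1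
  have hposab : 0 < ∏ p ∈ (Ioc a b).filter Nat.Prime, (1 - 1 / (p : ℝ)) :=
    prod_pos fun p hp => NT1_pos p (mem_filter.1 hp).2
  rw [prod_inv_distrib, NT1_split _ a b hab] at h2
  have h3 : (∏ p ∈ (Ioc a b).filter Nat.Prime, (1 - 1 / (p : ℝ)))⁻¹ ≤
      500 * (Real.log b / Real.log a) := by
    rw [mul_inv] at h2
    have e1 : (∏ p ∈ (Ioc a b).filter Nat.Prime, (1 - 1 / (p : ℝ)))⁻¹ =
        (∏ p ∈ Sieve.primesUpTo a, (1 - 1 / (p : ℝ))) *
          ((∏ p ∈ Sieve.primesUpTo a, (1 - 1 / (p : ℝ)))⁻¹ *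
          (∏ p ∈ (Ioc a b).filter Nat.Prime, (1 - 1 / (p : ℝ)))⁻¹) := by
      field_simp
    rw [e1]
    calc _ ≤ (1 / Real.log a) * (500 * Real.log b) :=
          mul_le_mul h1 h2 (by positivity) (by positivity)
      _ = _ := by ring
  refine le_trans ?_ (Real.log_le_log (by positivity) h3)
  rw [Real.log_inv, Real.log_prod (fun p hp => (NT1_pos p (mem_filter.1 hp).2).ne'),
    ← sum_neg_distrib]
  refine sum_le_sum fun p hp => ?_
  have := Real.log_le_sub_one_of_pos (NT1_pos p (mem_filter.1 hp).2)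
  linarith

variable (κ W K : ℕ) (T : ℝ)

theorem NT1_frac (hK : 1 ≤ K) (hKW : 4 * K ^ 2 ≤ W) (p : ℕ) (hp : p.Prime) (hWp : W < p) :
    (1 / (p : ℝ) + 2 * K / (p : ℝ) ^ 2) / (1 + 2 * K / (p : ℝ) ^ 2) /
      (1 - (1 / (p : ℝ) + 2 * K / (p : ℝ) ^ 2) / (1 + 2 * K / (p : ℝ) ^ 2)) ≤ 4 * (1 / (p : ℝ)) ∧
    1 - (1 / (p : ℝ) + 2 * K / (p : ℝ) ^ 2) / (1 + 2 * K / (p : ℝ) ^ 2) ≤ 1 - 1 / (p : ℝ) ∧
    0 ≤ 1 - (1 / (p : ℝ) + 2 * K / (p : ℝ) ^ 2) / (1 + 2 * K / (p : ℝ) ^ 2) := by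
  have hp2 : (2 : ℝ) ≤ p := by exact_mod_cast hp.two_le
  have hp0 : (0 : ℝ) < p := by linarith
  have hK1 : (1 : ℝ) ≤ K := by exact_mod_cast hK
  have hKp : 4 * (K : ℝ) ≤ p := by
    have h1 : 4 * K ≤ p := by nlinarith
    exact_mod_cast h1
  set x : ℝ := 1 / (p : ℝ) with hx
  have hx0 : 0 < x := by positivity
  have hx2 : x ≤ 1 / 2 := one_div_le_one_div_of_le (by norm_num) hp2
  set y : ℝ := 2 * K / (p : ℝ) ^ 2 with hy
  have hy0 : 0 < y := by positivity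
  have hyx : y ≤ x / 2 := by
    rw [hy, hx, div_div, div_le_div_iff₀ (by positivity) (by positivity)]
    nlinarith
  have hden : 0 < 1 + y := by linarith
  have h1 : 1 - (x + y) / (1 + y) = (1 - x) / (1 + y) := by
    field_simp
    ring
  rw [h1]
  have h1x : 0 < 1 - x := by linarith
  refine ⟨?_, ?_, by positivity⟩
  · rw [div_div_div_cancel_right₀ hden.ne', div_le_iff₀ h1x]
    nlinarith
  · rw [div_le_iff₀ hden]
    nlinarith

theorem NT1_bk (hκ : 2 ≤ κ) (p b : ℕ) (h1 : (κ : ℝ) ^ b ≤ T / Real.log p)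
    (h2 : T / Real.log p < (κ : ℝ) ^ (b + 1)) : bk κ T p = b := by
  have h0 : 0 ≤ T / Real.log p := le_trans (by positivity) h1
  unfold bk
  refine Nat.log_eq_of_pow_le_of_lt_pow ?_ ?_
  · exact Nat.le_floor (by rw [Nat.cast_pow]; exact h1)
  · rw [Nat.floor_lt h0, Nat.cast_pow]
    exact h2

/-- `qq/(1 - qq) = (1/p + 2K/p^2)/(1 - 1/p) ≤ 4/p`. In a block the logarithms of two primes differ
at most by the factor `κ`; with `a` = the smallest and `b` = the largest prime of the block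
`Σ 1/p ≤ 1/a + log (500 κ) ≤ log (1000 κ)`. -/
theorem block_sum_le (hκ : 2 ≤ κ) (hW : 2 ≤ W) (hK : 1 ≤ K) (hKW : 4 * K ^ 2 ≤ W)
    (hT : 0 ≤ T) (b : ℕ) :
    ∑ i ∈ univ.filter (fun i : {p // p ∈ PP W T} => bk κ T i.1 = b),
        qq (PP W T) K i / (1 - qq (PP W T) K i) ≤ 4 * Real.log (1000 * κ) := by
  have hκ2 : (2 : ℝ) ≤ κ := by exact_mod_cast hκ
  have h1 : ∑ i ∈ univ.filter (fun i : {p // p ∈ PP W T} => bk κ T i.1 = b),
        qq (PP W T) K i / (1 - qq (PP W T) K i) ≤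
      ∑ i ∈ univ.filter (fun i : {p // p ∈ PP W T} => bk κ T i.1 = b), 4 * (1 / (i.1 : ℝ)) := by
    refine sum_le_sum fun i _ => ?_
    obtain ⟨h1, h2, -⟩ := NT2_mem W T i.1 i.2
    exact (NT1_frac W K hK hKW i.1 h1 h2).1
  refine h1.trans ?_
  rw [← mul_sum]
  refine mul_le_mul_of_nonneg_left ?_ (by norm_num)
  have h2 : ∑ i ∈ univ.filter (fun i : {p // p ∈ PP W T} => bk κ T i.1 = b), 1 / (i.1 : ℝ) =
      ∑ p ∈ (PP W T).filter (fun p => bk κ T p = b), 1 / (p : ℝ) := by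
    rw [sum_filter, sum_filter]
    exact Finset.sum_coe_sort (PP W T) (fun p => if bk κ T p = b then 1 / (p : ℝ) else 0)
  rw [h2]
  set B := (PP W T).filter (fun p => bk κ T p = b) with hB
  have hmem : ∀ p ∈ B, p.Prime ∧ W < p ∧ Real.log p ≤ T ∧ bk κ T p = b := by
    intro p hp
    rw [hB, mem_filter] at hp
    obtain ⟨h1, h2, h3⟩ := NT2_mem W T p hp.1
    exact ⟨h1, h2, h3, hp.2⟩
  rcases B.eq_empty_or_nonempty with h | h
  · rw [h, sum_empty]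
    exact Real.log_nonneg (by linarith)
  · set a := B.min' h with ha
    set c := B.max' h with hc
    obtain ⟨a1, a2, a3, a4⟩ := hmem a (B.min'_mem h)
    obtain ⟨c1, c2, c3, c4⟩ := hmem c (B.max'_mem h)
    have hac : a ≤ c := B.min'_le_max' h
    have ha2 : 2 ≤ a := a1.two_le
    have hloga : 0 < Real.log a := Real.log_pos (by exact_mod_cast (by omega : 1 < a))
    have hlogc : 0 < Real.log c := Real.log_pos (by exact_mod_cast (by omega : 1 < c))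
    have hsa := (bk_spec κ T hκ a a1 a3).2
    have hsc := (bk_spec κ T hκ c c1 c3).1
    rw [a4, div_lt_iff₀ hloga] at hsa
    rw [c4, le_div_iff₀ hlogc] at hsc
    have hratio : Real.log c / Real.log a ≤ κ := by
      rw [div_le_iff₀ hloga]
      have h3 : (κ : ℝ) ^ b * Real.log c ≤ (κ : ℝ) ^ b * (κ * Real.log a) := by
        rw [pow_succ] at hsa
        linarith
      exact le_of_mul_le_mul_left h3 (by positivity)
    have hsub : B ⊆ insert a ((Ioc a c).filter Nat.Prime) := by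
      intro p hp
      rw [mem_insert, mem_filter, mem_Ioc]
      have h3 := B.min'_le p hp
      have h4 := B.le_max' p hp
      rcases eq_or_lt_of_le h3 with h5 | h5
      · exact Or.inl h5.symm
      · exact Or.inr ⟨⟨h5, h4⟩, (hmem p hp).1⟩
    have h3 : ∑ p ∈ B, 1 / (p : ℝ) ≤ 1 / (a : ℝ) + ∑ p ∈ (Ioc a c).filter Nat.Prime, 1 / (p : ℝ) := by
      refine (sum_le_sum_of_subset_of_nonneg hsub fun _ _ _ => by positivity).trans (le_of_eq ?_)
      rw [sum_insert]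
      rw [mem_filter, mem_Ioc]
      omega
    have h4 := mertens_sum_le a c ha2 hac
    have h5 : Real.log (500 * (Real.log c / Real.log a)) ≤ Real.log (500 * κ) :=
      Real.log_le_log (by positivity) (by linarith)
    have h6 : Real.log (1000 * (κ : ℝ)) = Real.log 2 + Real.log (500 * κ) := by
      rw [← Real.log_mul (by norm_num) (by positivity)]
      congr 1
      ring
    have h7 : 1 / (a : ℝ) ≤ 1 / 2 := one_div_le_one_div_of_le (by norm_num) (by exact_mod_cast ha2)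
    have h8 := Real.log_two_gt_d9
    rw [h6]
    linarith

theorem NT1_floor (y : ℝ) (hy : 2 ≤ y) : y / 2 ≤ Real.log (⌊Real.exp y⌋₊ : ℕ) ∧
    Real.log (⌊Real.exp y⌋₊ : ℕ) ≤ y ∧ 2 ≤ ⌊Real.exp y⌋₊ := by
  have h1 : 3 ≤ Real.exp y := by linarith [Real.add_one_le_exp y]
  have h2 : Real.exp y < (⌊Real.exp y⌋₊ : ℕ) + 1 := Nat.lt_floor_add_one _
  have h3 : ((⌊Real.exp y⌋₊ : ℕ) : ℝ) ≤ Real.exp y := Nat.floor_le (by linarith)
  have h4 : 2 ≤ ⌊Real.exp y⌋₊ := Nat.le_floor (by push_cast; linarith)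
  have h4' : (2 : ℝ) ≤ (⌊Real.exp y⌋₊ : ℕ) := by exact_mod_cast h4
  refine ⟨?_, ?_, h4⟩
  · have h5 : Real.exp (y / 2) ≤ (⌊Real.exp y⌋₊ : ℕ) := by
      have h6 : Real.exp y = Real.exp (y / 2) * Real.exp (y / 2) := by
        rw [← Real.exp_add]
        congr 1
        ring
      have h7 : 2 ≤ Real.exp (y / 2) := by linarith [Real.add_one_le_exp (y / 2)]
      nlinarith
    rwa [Real.le_log_iff_exp_le (by linarith)]
  · rw [Real.log_le_iff_le_exp (by linarith)]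
    exact h3

theorem NT1_prod_coe (P : Finset ℕ) (f : ℕ → ℝ) (g : ℕ → Prop) [DecidablePred g] :
    ∏ i ∈ univ.filter (fun i : {p // p ∈ P} => g i.1), f i.1 = ∏ p ∈ P.filter g, f p := by
  rw [prod_filter, prod_filter]
  exact Finset.prod_coe_sort P (fun p => if g p then f p else 1)

/-- products over larger sets of factors in `[0, 1]` -/
theorem NT1_mono (s t : Finset ℕ) (hst : s ⊆ t) (f g : ℕ → ℝ)
    (h0 : ∀ p ∈ t, 0 ≤ f p) (h1 : ∀ p ∈ t, f p ≤ g p) (h2 : ∀ p ∈ t, g p ≤ 1) :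
    ∏ p ∈ t, f p ≤ ∏ p ∈ s, g p := by
  rw [← prod_sdiff hst]
  have h3 : ∏ p ∈ t \ s, f p ≤ 1 :=
    prod_le_one (fun p hp => h0 p (mem_sdiff.1 hp).1) fun p hp =>
      (h1 p (mem_sdiff.1 hp).1).trans (h2 p (mem_sdiff.1 hp).1)
  have h4 : ∏ p ∈ s, f p ≤ ∏ p ∈ s, g p :=
    prod_le_prod (fun p hp => h0 p (hst hp)) fun p hp => h1 p (hst hp)
  calc _ ≤ 1 * ∏ p ∈ s, f p :=
        mul_le_mul_of_nonneg_right h3 (prod_nonneg fun p hp => h0 p (hst hp))
    _ ≤ _ := by rw [one_mul]; exact h4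

/-- The block consists of all primes in `(⌊exp (T/κ^(b+1))⌋, ⌊exp (T/κ^b)⌋]`, because
`W ≤ exp (T/κ^(b+1))`; `1 - qq ≤ 1 - 1/p`, `mertens_prod_le`, and
`log ⌊exp y⌋ ≥ y - log 2 ≥ y/2` for `y ≥ 2`. -/
theorem p0_le (hκ : 2 ≤ κ) (hW : 2 ≤ W) (hK : 1 ≤ K) (hKW : 4 * K ^ 2 ≤ W) (b : ℕ)
    (hT : Real.log W ≤ T / κ ^ (b + 1)) (hT2 : 2 ≤ T / κ ^ b) :
    p0 (qq (PP W T) K) (fun i => bk κ T i.1) b ≤ 1000 / κ := by
  have hκ2 : (2 : ℝ) ≤ κ := by exact_mod_cast hκ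
  have hκ0 : (0 : ℝ) < κ := by linarith
  have hκb : (0 : ℝ) < (κ : ℝ) ^ b := by positivity
  have hT0 : 0 < T := by
    rw [le_div_iff₀ hκb] at hT2
    linarith
  have hTb : T / (κ : ℝ) ^ b ≤ T :=
    div_le_self hT0.le (one_le_pow₀ (by linarith))
  set y : ℝ := T / (κ : ℝ) ^ b with hy
  set y' : ℝ := T / (κ : ℝ) ^ (b + 1) with hy'
  have hyy : y' = y / κ := by rw [hy, hy', pow_succ, div_div]
  have hW2 : (2 : ℝ) ≤ W := by exact_mod_cast hW
  have hWexp : (W : ℝ) ≤ Real.exp y' := (Real.log_le_iff_le_exp (by linarith)).1 hT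
  have hWa : W ≤ ⌊Real.exp y'⌋₊ := Nat.le_floor hWexp
  have hy'y : y' ≤ y := by
    rw [hyy]
    exact div_le_self (by linarith) (by linarith)
  have hac : ⌊Real.exp y'⌋₊ ≤ ⌊Real.exp y⌋₊ := Nat.floor_le_floor (Real.exp_le_exp.2 hy'y)
  have hm := mertens_prod_le ⌊Real.exp y'⌋₊ ⌊Real.exp y⌋₊ (hW.trans hWa) hac
  obtain ⟨f1, f2, f3⟩ := NT1_floor y hT2
  have hloga : Real.log (⌊Real.exp y'⌋₊ : ℕ) ≤ y' := by
    have h1 : (2 : ℝ) ≤ (⌊Real.exp y'⌋₊ : ℕ) := by exact_mod_cast hW.trans hWa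
    rw [Real.log_le_iff_le_exp (by linarith)]
    exact Nat.floor_le (Real.exp_pos _).le
  have h5 : 500 * (Real.log (⌊Real.exp y'⌋₊ : ℕ) / Real.log (⌊Real.exp y⌋₊ : ℕ)) ≤ 1000 / κ := by
    have h6 : Real.log (⌊Real.exp y'⌋₊ : ℕ) / Real.log (⌊Real.exp y⌋₊ : ℕ) ≤ y' / (y / 2) :=
      div_le_div₀ (by rw [hyy]; positivity) hloga (by linarith) f1
    have h7 : y' / (y / 2) = 2 / κ := by
      rw [hyy]
      have : y ≠ 0 := by linarith
      field_simp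
    rw [h7] at h6
    calc _ ≤ 500 * (2 / (κ : ℝ)) := by linarith
      _ = _ := by ring
  refine le_trans ?_ (hm.trans h5)
  unfold p0
  have h8 := NT1_prod_coe (PP W T) (fun p => 1 - (1 / (p : ℝ) + 2 * K / (p : ℝ) ^ 2) /
    (1 + 2 * K / (p : ℝ) ^ 2)) (fun p => bk κ T p = b)
  refine (le_of_eq h8).trans (NT1_mono _ _ ?_ _ _ ?_ ?_ ?_)
  · intro p hp
    rw [mem_filter, mem_Ioc] at hp
    obtain ⟨⟨g1, g2⟩, g3⟩ := hp
    have hlogp : 0 < Real.log p := Real.log_pos (by exact_mod_cast g3.one_lt)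
    have e1 : y' < Real.log p := by
      rw [Real.lt_log_iff_exp_lt (by exact_mod_cast g3.pos)]
      exact (Nat.floor_lt (Real.exp_pos _).le).1 g1
    have e2 : Real.log p ≤ y := by
      rw [Real.log_le_iff_le_exp (by exact_mod_cast g3.pos)]
      exact (Nat.le_floor_iff (Real.exp_pos _).le).1 g2
    rw [mem_filter]
    constructor
    · unfold PP
      rw [mem_filter, mem_Ioc]
      refine ⟨⟨by omega, Nat.le_floor ?_⟩, g3⟩
      rw [← Real.log_le_iff_le_exp (by exact_mod_cast g3.pos)]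
      linarith
    · refine NT1_bk κ T hκ p b ?_ ?_
      · rw [le_div_iff₀ hlogp]
        rw [hy, le_div_iff₀ hκb] at e2
        linarith
      · rw [div_lt_iff₀ hlogp]
        rw [hy', div_lt_iff₀ (by positivity)] at e1
        linarith
  · intro p hp
    obtain ⟨h1, h2, -⟩ := NT2_mem W T p (mem_filter.1 hp).1
    exact (NT1_frac W K hK hKW p h1 h2).2.2
  · intro p hp
    obtain ⟨h1, h2, -⟩ := NT2_mem W T p (mem_filter.1 hp).1
    exact (NT1_frac W K hK hKW p h1 h2).2.1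
  · intro p _
    have : 0 ≤ 1 / (p : ℝ) := by positivity
    linarith

/-- The blocks `i, .., N - 1` contain all primes in `(W, ⌊exp (T/κ^i)⌋]`. -/
theorem prod_p0_le (hκ : 2 ≤ κ) (hW : 2 ≤ W) (hK : 1 ≤ K) (hKW : 4 * K ^ 2 ≤ W) (i N : ℕ)
    (hN : ∀ p ∈ PP W T, bk κ T p < N)
    (hT : Real.log W ≤ T / κ ^ i) (hT2 : 2 ≤ T / κ ^ i) :
    ∏ b ∈ Ico i N, p0 (qq (PP W T) K) (fun i => bk κ T i.1) b
      ≤ 1000 * Real.log W * κ ^ i / T := by
  have hκ2 : (2 : ℝ) ≤ κ := by exact_mod_cast hκ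
  have hκ0 : (0 : ℝ) < κ := by linarith
  have hκb : (0 : ℝ) < (κ : ℝ) ^ i := by positivity
  have hT0 : 0 < T := by
    rw [le_div_iff₀ hκb] at hT2
    linarith
  have hTb : T / (κ : ℝ) ^ i ≤ T :=
    div_le_self hT0.le (one_le_pow₀ (by linarith))
  set y : ℝ := T / (κ : ℝ) ^ i with hy
  have hW2 : (2 : ℝ) ≤ W := by exact_mod_cast hW
  have hWexp : (W : ℝ) ≤ Real.exp y := (Real.log_le_iff_le_exp (by linarith)).1 hT
  have hWa : W ≤ ⌊Real.exp y⌋₊ := Nat.le_floor hWexp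
  have hm := mertens_prod_le W ⌊Real.exp y⌋₊ hW hWa
  obtain ⟨f1, f2, f3⟩ := NT1_floor y hT2
  have hlogW : 0 < Real.log W := Real.log_pos (by linarith)
  have h5 : 500 * (Real.log W / Real.log (⌊Real.exp y⌋₊ : ℕ)) ≤
      1000 * Real.log W * (κ : ℝ) ^ i / T := by
    have h6 : Real.log W / Real.log (⌊Real.exp y⌋₊ : ℕ) ≤ Real.log W / (y / 2) :=
      div_le_div_of_nonneg_left hlogW.le (by linarith) f1
    have h7 : 500 * (Real.log W / (y / 2)) = 1000 * Real.log W * (κ : ℝ) ^ i / T := by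
      rw [hy]
      field_simp
      ring
    linarith
  refine le_trans ?_ (hm.trans h5)
  have h8 : ∀ b, p0 (qq (PP W T) K) (fun i => bk κ T i.1) b =
      ∏ p ∈ (PP W T).filter (fun p => bk κ T p = b),
        (1 - (1 / (p : ℝ) + 2 * K / (p : ℝ) ^ 2) / (1 + 2 * K / (p : ℝ) ^ 2)) := fun b =>
    NT1_prod_coe (PP W T) (fun p => 1 - (1 / (p : ℝ) + 2 * K / (p : ℝ) ^ 2) /
    (1 + 2 * K / (p : ℝ) ^ 2)) (fun p => bk κ T p = b)
  simp only [h8]
  have h9 : ∏ b ∈ Ico i N, ∏ p ∈ (PP W T).filter (fun p => bk κ T p = b),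
        (1 - (1 / (p : ℝ) + 2 * K / (p : ℝ) ^ 2) / (1 + 2 * K / (p : ℝ) ^ 2)) =
      ∏ p ∈ (PP W T).filter (fun p => bk κ T p ∈ Ico i N),
        (1 - (1 / (p : ℝ) + 2 * K / (p : ℝ) ^ 2) / (1 + 2 * K / (p : ℝ) ^ 2)) := by
    rw [← prod_fiberwise_of_maps_to (s := (PP W T).filter (fun p => bk κ T p ∈ Ico i N))
      (t := Ico i N) (g := bk κ T) (fun p hp => (mem_filter.1 hp).2)]
    refine prod_congr rfl fun b hb => ?_
    rw [filter_filter]
    refine prod_congr ?_ fun _ _ => rfl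
    ext p
    rw [mem_filter, mem_filter]
    constructor
    · rintro ⟨g1, g2⟩
      exact ⟨g1, by rw [g2]; exact hb, g2⟩
    · rintro ⟨g1, -, g2⟩
      exact ⟨g1, g2⟩
  rw [h9]
  refine NT1_mono _ _ ?_ _ _ ?_ ?_ ?_
  · intro p hp
    rw [mem_filter, mem_Ioc] at hp
    obtain ⟨⟨g1, g2⟩, g3⟩ := hp
    have hlogp : 0 < Real.log p := Real.log_pos (by exact_mod_cast g3.one_lt)
    have e2 : Real.log p ≤ y := by
      rw [Real.log_le_iff_le_exp (by exact_mod_cast g3.pos)]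
      exact (Nat.le_floor_iff (Real.exp_pos _).le).1 g2
    have hpP : p ∈ PP W T := by
      unfold PP
      rw [mem_filter, mem_Ioc]
      refine ⟨⟨by omega, Nat.le_floor ?_⟩, g3⟩
      rw [← Real.log_le_iff_le_exp (by exact_mod_cast g3.pos)]
      linarith
    rw [mem_filter, mem_Ico]
    refine ⟨hpP, ?_, hN p hpP⟩
    have e3 := (bk_spec κ T hκ p g3 (by linarith)).2
    have e4 : (κ : ℝ) ^ i ≤ T / Real.log p := by
      rw [le_div_iff₀ hlogp]
      rw [hy, le_div_iff₀ hκb] at e2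
      linarith
    have e5 : (κ : ℝ) ^ i < (κ : ℝ) ^ (bk κ T p + 1) := lt_of_le_of_lt e4 e3
    have e6 := (pow_lt_pow_iff_right₀ (by linarith : (1 : ℝ) < κ)).1 e5
    omega
  · intro p hp
    obtain ⟨h1, h2, -⟩ := NT2_mem W T p (mem_filter.1 hp).1
    exact (NT1_frac W K hK hKW p h1 h2).2.2
  · intro p hp
    obtain ⟨h1, h2, -⟩ := NT2_mem W T p (mem_filter.1 hp).1
    exact (NT1_frac W K hK hKW p h1 h2).2.1
  · intro p _
    have : 0 ≤ 1 / (p : ℝ) := by positivity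
    linarith

end Pool.Agent.Lib.H15P
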