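import Pool.Agent.Lib.H15P.BH4
import Pool.Agent.Lib.H15P.NT1
import Pool.Agent.Lib.H15P.NT2

/-!
# Chunk MK1: verification of the hypotheses on the blocks (block ratio `4000`)
-/

open Finset

namespace Pool.Agent.Lib.H15P

/-- The constant bounding the sums over a block. -/
noncomputable def sig : ℝ := 4 * Real.log (1000 * (4000 : ℕ))

theorem mk1_Tpos {n : ℕ} {T : ℝ} (hT2 : 2 ≤ T / 4000 ^ n) : 2 * 4000 ^ n ≤ T := by
  rw [le_div_iff₀ (by positivity)] at hT2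
  exact hT2

/-- `T/κ^i` is decreasing in `i` -/
theorem mk1_div_le {n i : ℕ} {T : ℝ} (hT2 : 2 ≤ T / 4000 ^ n) (hi : i ≤ n) :
    T / 4000 ^ n ≤ T / ((4000 : ℕ) : ℝ) ^ i := by
  have h1 := mk1_Tpos hT2
  have h2 : (0 : ℝ) < 4000 ^ n := by positivity
  push_cast
  apply div_le_div_of_nonneg_left (by linarith) (by positivity)
  exact pow_le_pow_right₀ (by norm_num) hi

theorem mk1_big (W : ℕ) (T : ℝ) : ∀ p ∈ PP W T, W < p := by
  intro p hp
  unfold PP at hp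
  rw [Finset.mem_filter, Finset.mem_Ioc] at hp
  exact hp.1.1

/-- Chunk MK1. `block_sum_le`, `p0_le` (`1000/4000 = 1/4`; for `b < n`:
`T/κ^(b+1) ≥ T/κ^n`), `qq ≤ 2/p ≤ 1/2`, and `4000^n ≤ T/2` gives `n ≤ N`. -/
theorem blocks_ok (W K n r0 : ℕ) (T : ℝ) (hW : 2 ≤ W) (hK : 1 ≤ K) (hKW : 4 * K ^ 2 ≤ W)
    (hr0 : ∀ c S : ℕ, ∑ s ∈ Ioc (2 * (r0 + c)) S, (16 * sig) ^ s / (s.factorial : ℝ)
      ≤ (1 / 4) ^ (c + 1))
    (hT1 : Real.log W ≤ T / 4000 ^ n) (hT2 : 2 ≤ T / 4000 ^ n) :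
    Blocks (qq (PP W T) K) (fun i => bk 4000 T i.1) sig r0 n (Nat.log 4000 ⌊2 * T⌋₊ + 1) := by
  have hT := mk1_Tpos hT2
  have h4 : (0 : ℝ) < 4000 ^ n := by positivity
  refine ⟨fun i => qq_nonneg _ _ i, ?_, ?_, hr0, ?_, ?_⟩
  · intro i
    have h1 := qq_le (PP W T) W K hK hKW (mk1_big W T) i
    refine h1.trans ?_
    have h2 := mk1_big W T i.1 i.2
    have h3 : 4 ≤ W := by nlinarith
    have h5 : (4 : ℝ) ≤ (i.1 : ℝ) := by
      have : 4 ≤ i.1 := by omega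
      exact_mod_cast this
    rw [div_le_iff₀ (by linarith)]
    linarith
  · intro b
    exact block_sum_le 4000 W K T (by norm_num) hW hK hKW (by linarith) b
  · have h1 : (4000 : ℕ) ^ n ≤ ⌊2 * T⌋₊ := by
      apply Nat.le_floor
      push_cast
      linarith
    have h2 : n ≤ Nat.log 4000 ⌊2 * T⌋₊ := Nat.le_log_of_pow_le (by norm_num) h1
    omega
  · intro b hb
    have h1 := p0_le 4000 W K T (by norm_num) hW hK hKW b
      (hT1.trans (mk1_div_le hT2 (by omega))) (hT2.trans (mk1_div_le hT2 (by omega)))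
    refine h1.trans ?_
    norm_num

end Pool.Agent.Lib.H15P
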