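import Pool.Agent.Lib.H15P.WD
import Pool.Agent.Lib.H15P.MK1
import Pool.Agent.Lib.H15P.LV3
import Pool.Agent.Lib.H15P.LV4

/-!
# Chunk MK2: construction of the data from numerical inequalities
-/

open Finset

namespace Pool.Agent.Lib.H15P

theorem mk2_prime (W : ℕ) (T : ℝ) : ∀ p ∈ PP W T, p.Prime := by
  intro p hp
  unfold PP at hp
  rw [Finset.mem_filter] at hp
  exact hp.2

theorem mk2_LevS_mono {P : Finset ℕ} {F : Finset {p // p ∈ P} → ℝ} {K K' : ℝ}
    (h : LevS P F K) (hK : K ≤ K') : LevS P F K' :=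
  fun M b => Lev.mono _ _ _ (h M b) hK

/-- Chunk MK2. `P = PP W T`, `blk = bk 4000 T`, `N = Nat.log 4000 ⌊2 T⌋₊ + 1`,
`D i = DB (qq P (2K)) blk r0 N i` (`i : Fin n`), `lm = lam blk r0 N 0`,
`h = 144 ∏ b ∈ Ico n N, p0 b`. `blocks_ok`, `good_DB`, `ex_DB_sq_le`, `ex_lam_le`, `prod_p0_le`
(all with `2K` in place of `K`), levels by `levS_DB`, `levS_lam`, `prod_XB_le`, `lev_LL`,
`lev_LP`, `Lev.mono`, `tau_le` (the level bounds are increasing in `card J ≤ 2K`). -/
theorem mkWD (W K n r0 : ℕ) (T R C e lv : ℝ) (m : Fin n → ℕ) (hn : 1 ≤ n) (hK : 1 ≤ K)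
    (hKW : 4 * (2 * K) ^ 2 ≤ W)
    (hr0 : ∀ c S : ℕ, ∑ s ∈ Ioc (2 * (r0 + c)) S, (16 * sig) ^ s / (s.factorial : ℝ)
      ≤ (1 / 4) ^ (c + 1))
    (hT1 : Real.log W ≤ T / 4000 ^ n) (hT2 : 2 ≤ T / 4000 ^ n)
    (hm : ∀ i : Fin n, 2 * K * (4000 * Real.log W * 4000 ^ ((i : ℕ) + 1) / (T * (n : ℝ) ^ 2)) + R
      ≤ m i)
    (he0 : 0 < e) (he1 : e ≤ 1 / 10) (hR : n * Real.exp (-R) ≤ e)
    (hC : Real.exp (((n : ℝ) + 1) ^ 4 * (144000 * Real.log W * 4000 ^ n / T) * K) ≤ C)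
    (hlm : K * Real.exp (-R) * (2000 * Real.log W / T) ≤ e)
    (hK1 : Real.exp (2 * ((2 * K : ℕ) : ℝ) ^ 2 / W) ≤ 1 + e)
    (hK2 : ((2 * K : ℕ) : ℝ) ^ 2 / W ≤ e)
    (hK3 : 40 * (((2 * K : ℕ) : ℝ) / Real.sqrt W) * Real.sqrt C ≤ e)
    (hlv1 : 1 ≤ lv)
    (hlv2 : 3 * ((n : ℝ) * (2 * K) + 1) ^ (∑ i, m i) *
      ∏ i : Fin n, (4 * Real.exp (12 * ((r0 : ℝ) + 1) * (T / 4000 ^ (i : ℕ)))) ^ m i ≤ lv)
    (hlv3 : Real.exp (12 * ((r0 : ℝ) + 1) * T) ≤ lv) :
    ∃ w : WD, w.P = PP W T ∧ w.W = W ∧ w.K = K ∧ w.C = C ∧ w.lv = lv ∧ w.e = e := by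
  have hK2' : 1 ≤ 2 * K := by omega
  have hW2 : 2 ≤ W := by nlinarith
  have hT := mk1_Tpos hT2
  have h4n : (1 : ℝ) ≤ 4000 ^ n := one_le_pow₀ (by norm_num)
  have hTpos : 0 < T := by linarith
  have hBl := blocks_ok W (2 * K) n r0 T hW2 hK2' hKW hr0 hT1 hT2
  set P := PP W T with hP
  set N := Nat.log 4000 ⌊2 * T⌋₊ + 1 with hN
  set q := qq P (2 * K) with hq
  set blk : {p // p ∈ P} → ℕ := fun i => bk 4000 T i.1 with hblk
  have hprime : ∀ p ∈ P, p.Prime := mk2_prime W T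
  have hNb : ∀ p ∈ PP W T, bk 4000 T p < N := fun p hp => bk_lt 4000 W T hTpos.le p hp
  have hlogW : 0 ≤ Real.log W := Real.log_natCast_nonneg W
  -- products of the p0
  have hp0 : ∀ i, i ≤ n → ∏ b ∈ Ico i N, p0 q blk b ≤ 1000 * Real.log W * 4000 ^ i / T := by
    intro i hi
    have h1 := prod_p0_le 4000 W (2 * K) T (by norm_num) hW2 hK2' hKW i N hNb
      (hT1.trans (mk1_div_le hT2 hi)) (hT2.trans (mk1_div_le hT2 hi))
    push_cast at h1
    exact h1
  have hp0nn : ∀ i, 0 ≤ ∏ b ∈ Ico i N, p0 q blk b := fun i =>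
    Finset.prod_nonneg fun b _ => bh4_p0_nonneg hBl b
  -- levels
  have hXB : ∀ i, ∏ b ∈ Ico i N, (1 + XB (fun i : {p // p ∈ P} => i.1) blk b) ^ (2 * (r0 + (b - i)))
      ≤ Real.exp (12 * ((r0 : ℝ) + 1) * (T / 4000 ^ i)) := by
    intro i
    have h1 := prod_XB_le 4000 W T (by norm_num) hTpos.le r0 i N
    push_cast at h1
    exact h1
  set KD : Fin n → ℝ := fun i => 4 * Real.exp (12 * ((r0 : ℝ) + 1) * (T / 4000 ^ (i : ℕ))) with hKD
  have hKD1 : ∀ i, 1 ≤ KD i := by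
    intro i
    have h1 : 1 ≤ Real.exp (12 * ((r0 : ℝ) + 1) * (T / 4000 ^ (i : ℕ))) := by
      apply Real.one_le_exp
      positivity
    show 1 ≤ 4 * Real.exp (12 * ((r0 : ℝ) + 1) * (T / 4000 ^ (i : ℕ)))
    linarith
  have hlevD : ∀ i : Fin n, LevS P (DB q blk r0 N i) (KD i) := by
    intro i
    have h1 := tau_le q blk sig r0 n N hBl i i.2
    have h2 := levS_DB P hprime q blk r0 N i (lt_of_lt_of_le i.2 hBl.nN) h1.1 h1.2
    exact mk2_LevS_mono h2 (mul_le_mul_of_nonneg_left (hXB i) (by norm_num))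
  have hcardI : 0 < Fintype.card (Fin n) := by
    rw [Fintype.card_fin]
    omega
  have hlvb : ∀ k : ℕ, k ≤ 2 * K → 3 * ((Fintype.card (Fin n) : ℝ) * k + 1) ^ (∑ i, m i) *
      ∏ i, KD i ^ m i ≤ lv := by
    intro k hk
    refine le_trans ?_ hlv2
    apply mul_le_mul_of_nonneg_right
    · apply mul_le_mul_of_nonneg_left _ (by norm_num)
      apply pow_le_pow_left₀ (by positivity)
      rw [Fintype.card_fin]
      have : (k : ℝ) ≤ 2 * K := by exact_mod_cast hk
      have h1 := mul_le_mul_of_nonneg_left this (Nat.cast_nonneg n : (0 : ℝ) ≤ n)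
      linarith
    · exact Finset.prod_nonneg fun i _ => pow_nonneg (by linarith [hKD1 i]) _
  refine ⟨{ P := P, W := W, K := K, n := n, D := fun i => DB q blk r0 N i, m := m,
            lm := lam blk r0 N 0, h := 144 * ∏ b ∈ Ico n N, p0 q blk b, R := R, C := C, lv := lv,
            e := e
            prime := hprime
            big := mk1_big W T
            npos := hn
            Kpos := hK
            KW := hKW
            good := good_DB q blk sig r0 n N hBl
            h0 := mul_nonneg (by norm_num) (hp0nn n)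
            hm := ?_
            lm0 := lam_nonneg blk r0 N 0
            lm1 := lam_empty blk r0 N 0
            e0 := he0
            e1 := he1
            hR := hR
            hC := ?_
            hlm := ?_
            hKW := hK1
            hKW2 := hK2
            hKW3 := hK3
            lv1 := hlv1
            levL := ?_
            levP := ?_
            levlm := ?_ }, rfl, rfl, rfl, rfl, rfl, rfl⟩
  · intro i
    refine le_trans ?_ (hm i)
    have h1 := ex_DB_sq_le q blk sig r0 n N hBl i i.2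
    have h2 := hp0 ((i : ℕ) + 1) i.2
    have h3 : GG q (fun i : Fin n => DB q blk r0 N i) (some i) ≤
        4000 * Real.log W * 4000 ^ ((i : ℕ) + 1) / (T * (n : ℝ) ^ 2) := by
      show ex q (fun A => DB q blk r0 N i A ^ 2) / (Fintype.card (Fin n) : ℝ) ^ 2 ≤ _
      rw [Fintype.card_fin]
      have hn0 : (0 : ℝ) < n := by exact_mod_cast hn
      have h4 : ex q (fun A => DB q blk r0 N i A ^ 2) ≤
          4 * (1000 * Real.log W * 4000 ^ ((i : ℕ) + 1) / T) :=
        h1.trans (mul_le_mul_of_nonneg_left h2 (by norm_num))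
      refine (div_le_div_of_nonneg_right h4 (by positivity)).trans (le_of_eq ?_)
      field_simp
      ring
    have h5 := mul_le_mul_of_nonneg_left h3 (by positivity : (0 : ℝ) ≤ 2 * K)
    linarith
  · refine le_trans ?_ hC
    apply Real.exp_le_exp.2
    have h1 : 144 * ∏ b ∈ Ico n N, p0 q blk b ≤ 144000 * Real.log W * 4000 ^ n / T := by
      have := mul_le_mul_of_nonneg_left (hp0 n le_rfl) (by norm_num : (0 : ℝ) ≤ 144)
      refine this.trans (le_of_eq ?_)
      ring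
    apply mul_le_mul_of_nonneg_right _ (Nat.cast_nonneg K)
    exact mul_le_mul_of_nonneg_left h1 (by positivity)
  · refine le_trans ?_ hlm
    have h1 := ex_lam_le q blk sig r0 n N hBl 0
    have h2 : ex q (lam blk r0 N 0) ≤ 2000 * Real.log W / T := by
      have := mul_le_mul_of_nonneg_left (hp0 0 (Nat.zero_le n)) (by norm_num : (0 : ℝ) ≤ 2)
      refine (h1.trans this).trans (le_of_eq ?_)
      ring
    exact mul_le_mul_of_nonneg_left h2 (by positivity)
  · intro J _ _ B M b hJ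
    exact Lev.mono _ _ _ (lev_LL P hprime (fun i : Fin n => DB q blk r0 N i) KD hKD1 hlevD hcardI
      m B M b) (hlvb _ hJ)
  · intro J _ _ B M b hJ
    exact Lev.mono _ _ _ (lev_LP P hprime (fun i : Fin n => DB q blk r0 N i) KD hKD1 hlevD hcardI
      m B M b) (hlvb _ hJ)
  · refine mk2_LevS_mono (levS_lam P hprime blk r0 N 0) ((hXB 0).trans ?_)
    rw [pow_zero, div_one]
    exact hlv3

end Pool.Agent.Lib.H15P
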