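import Pool.Agent.Lib.H15P.PB1

/-!
# Chunk PB2: second moments (orthogonality)
-/

open Finset

namespace Pool.Agent.Lib.H15P

variable {ι J I : Type} [Fintype ι] [DecidableEq ι] [Fintype J] [DecidableEq J]
  [Fintype I] [DecidableEq I]

/-- From `Good`: mean `0`, orthogonality (signs: `(-1)^2 = 1`). -/
theorem ex_dd_dd (q : ι → ℝ) (D : I → Finset ι → ℝ) (h : ℝ) (hg : Good q D h)
    (o o' : Option I) :
    ex q (fun A => dd D o A * dd D o' A) = if o = o' then GG q D o else 0 := by
  have h1 : ∀ (i : I) (A : Finset ι), - (D i A) / (Fintype.card I : ℝ) =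
      (-(Fintype.card I : ℝ)⁻¹) * D i A := by
    intro i A
    rw [div_eq_mul_inv]
    ring
  rcases o with _ | i <;> rcases o' with _ | i'
  · simp only [dd, mul_one, if_true, GG]
    exact ex_one q
  · simp only [dd, one_mul, reduceCtorEq, if_false]
    simp only [h1]
    rw [ex_const_mul, hg.mean, mul_zero]
  · simp only [dd, mul_one, reduceCtorEq, if_false]
    simp only [h1]
    rw [ex_const_mul, hg.mean, mul_zero]
  · simp only [dd, Option.some.injEq, GG]
    by_cases hii : i = i'
    · subst hii
      rw [if_pos rfl]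
      have h2 : (fun A => - (D i A) / (Fintype.card I : ℝ) * (- (D i A) / (Fintype.card I : ℝ))) =
          fun A => (1 / (Fintype.card I : ℝ) ^ 2) * (D i A ^ 2) := by
        funext A
        ring
      rw [h2, ex_const_mul]
      ring
    · rw [if_neg hii]
      have h2 : (fun A => - (D i A) / (Fintype.card I : ℝ) * (- (D i' A) / (Fintype.card I : ℝ))) =
          fun A => (1 / (Fintype.card I : ℝ) ^ 2) * (D i A * D i' A) := by
        funext A
        ring
      rw [h2, ex_const_mul, hg.orth i i' hii, mul_zero]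

theorem GG_nonneg (q : ι → ℝ) (D : I → Finset ι → ℝ) (h : ℝ) (hg : Good q D h)
    (o : Option I) : 0 ≤ GG q D o := by
  rcases o with _ | i
  · exact zero_le_one
  · simp only [GG]
    exact div_nonneg (ex_nonneg q hg.q0 hg.q1 _ fun A => sq_nonneg _) (sq_nonneg _)

/-- General form: for coefficients `c l` and one more factor `F` at the form `j0`, which is not
labelled. Square out, exchange, `EX_prod`; for `l ≠ l'` some factor `ex_dd_dd` is `0` (at `j0` both
labels are `none`). -/
theorem EX_sq_mul (q : ι → ℝ) (D : I → Finset ι → ℝ) (h : ℝ) (hg : Good q D h)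
    (s : Finset (J → Option I)) (c : (J → Option I) → ℝ) (j0 : J) (hj0 : ∀ l ∈ s, l j0 = none)
    (F : Finset ι → ℝ) :
    EX q (fun S : J → Finset ι => (∑ l ∈ s, c l * ∏ j, dd D (l j) (S j)) ^ 2 * F (S j0))
      = (∑ l ∈ s, c l ^ 2 * ∏ j, GG q D (l j)) * ex q F := by
  have hsplit : ∀ (g : J → ℝ), ∏ j, g j = g j0 * ∏ j ∈ univ.erase j0, g j := fun g =>
    (mul_prod_erase univ g (mem_univ j0)).symm
  have h1 : ∀ S : J → Finset ι,
      (∑ l ∈ s, c l * ∏ j, dd D (l j) (S j)) ^ 2 * F (S j0) =
      ∑ l ∈ s, ∑ l' ∈ s, c l * c l' * ∏ j,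
        (dd D (l j) (S j) * dd D (l' j) (S j) * if j = j0 then F (S j) else 1) := by
    intro S
    rw [sq, sum_mul_sum, sum_mul]
    refine sum_congr rfl fun l _ => ?_
    rw [sum_mul]
    refine sum_congr rfl fun l' _ => ?_
    rw [prod_mul_distrib, prod_mul_distrib]
    have e : ∏ j, (if j = j0 then F (S j) else 1) = F (S j0) := by
      rw [prod_ite_eq' univ j0 (fun j => F (S j)), if_pos (mem_univ _)]
    rw [e]
    ring
  simp only [h1]
  rw [EX_sum]
  have h2 : ∀ l ∈ s, EX q (fun S : J → Finset ι => ∑ l' ∈ s, c l * c l' * ∏ j,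
        (dd D (l j) (S j) * dd D (l' j) (S j) * if j = j0 then F (S j) else 1)) =
      c l ^ 2 * (∏ j, GG q D (l j)) * ex q F := by
    intro l hl
    rw [EX_sum]
    have h3 : ∀ l' ∈ s, EX q (fun S : J → Finset ι => c l * c l' * ∏ j,
        (dd D (l j) (S j) * dd D (l' j) (S j) * if j = j0 then F (S j) else 1)) =
        if l' = l then c l ^ 2 * (∏ j, GG q D (l j)) * ex q F else 0 := by
      intro l' hl'
      rw [EX_const_mul, EX_prod q (fun j A => dd D (l j) A * dd D (l' j) A *
        if j = j0 then F A else 1)]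
      by_cases hll : l' = l
      · subst hll
        rw [if_pos rfl, hsplit, hsplit (fun j => GG q D (l' j)), hj0 l' hl]
        have e1 : ex q (fun A => dd D none A * dd D none A * if j0 = j0 then F A else 1) =
            ex q F := by
          congr 1
          funext A
          simp [dd]
        have e2 : ∏ j ∈ univ.erase j0, ex q (fun A => dd D (l' j) A * dd D (l' j) A *
            if j = j0 then F A else 1) = ∏ j ∈ univ.erase j0, GG q D (l' j) := by
          refine prod_congr rfl fun j hj => ?_
          have e3 : (fun A => dd D (l' j) A * dd D (l' j) A * if j = j0 then F A else 1) =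
              fun A => dd D (l' j) A * dd D (l' j) A := by
            funext A
            rw [if_neg (ne_of_mem_erase hj), mul_one]
          rw [e3, ex_dd_dd q D h hg, if_pos rfl]
        rw [e1, e2]
        simp only [GG]
        ring
      · rw [if_neg hll]
        obtain ⟨j, hj⟩ := Function.ne_iff.1 hll
        have hjj0 : j ≠ j0 := by
          rintro rfl
          exact hj (by rw [hj0 l hl, hj0 l' hl'])
        have e1 : ex q (fun A => dd D (l j) A * dd D (l' j) A * if j = j0 then F A else 1) =
            0 := by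
          have e3 : (fun A => dd D (l j) A * dd D (l' j) A * if j = j0 then F A else 1) =
              fun A => dd D (l j) A * dd D (l' j) A := by
            funext A
            rw [if_neg hjj0, mul_one]
          rw [e3, ex_dd_dd q D h hg, if_neg (fun hh => hj hh.symm)]
        rw [prod_eq_zero (mem_univ j) e1, mul_zero]
    rw [sum_congr rfl h3, sum_ite_eq' s l, if_pos hl]
  rw [sum_congr rfl h2, sum_mul]

/-- The same without the extra factor. -/
theorem EX_sq (q : ι → ℝ) (D : I → Finset ι → ℝ) (h : ℝ) (hg : Good q D h)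
    (s : Finset (J → Option I)) (c : (J → Option I) → ℝ) :
    EX q (fun S : J → Finset ι => (∑ l ∈ s, c l * ∏ j, dd D (l j) (S j)) ^ 2)
      = ∑ l ∈ s, c l ^ 2 * ∏ j, GG q D (l j) := by
  have h1 : ∀ S : J → Finset ι,
      (∑ l ∈ s, c l * ∏ j, dd D (l j) (S j)) ^ 2 =
      ∑ l ∈ s, ∑ l' ∈ s, c l * c l' * ∏ j, (dd D (l j) (S j) * dd D (l' j) (S j)) := by
    intro S
    rw [sq, sum_mul_sum]
    refine sum_congr rfl fun l _ => ?_
    refine sum_congr rfl fun l' _ => ?_
    rw [prod_mul_distrib]
    ring
  simp only [h1]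
  rw [EX_sum]
  refine sum_congr rfl fun l hl => ?_
  rw [EX_sum]
  have h3 : ∀ l' ∈ s, EX q (fun S : J → Finset ι => c l * c l' * ∏ j,
      (dd D (l j) (S j) * dd D (l' j) (S j))) =
      if l' = l then c l ^ 2 * (∏ j, GG q D (l j)) else 0 := by
    intro l' hl'
    rw [EX_const_mul, EX_prod q (fun j A => dd D (l j) A * dd D (l' j) A)]
    by_cases hll : l' = l
    · subst hll
      rw [if_pos rfl, sq]
      congr 1
      exact prod_congr rfl fun j _ => by rw [ex_dd_dd q D h hg, if_pos rfl]
    · rw [if_neg hll]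
      obtain ⟨j, hj⟩ := Function.ne_iff.1 hll
      have e1 : ex q (fun A => dd D (l j) A * dd D (l' j) A) = 0 := by
        rw [ex_dd_dd q D h hg, if_neg (fun hh => hj hh.symm)]
      rw [prod_eq_zero (mem_univ j) e1, mul_zero]
  rw [sum_congr rfl h3, sum_ite_eq' s l, if_pos hl]

end Pool.Agent.Lib.H15P
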