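import Pool.Agent.Lib.H15P.PB2
import Pool.Agent.Lib.H15P.PB3

/-!
# Chunk PB4: second moments of `LL` and `LP`
-/

open Finset

namespace Pool.Agent.Lib.H15P

variable {ι J I : Type} [Fintype ι] [DecidableEq ι] [Fintype J] [DecidableEq J]
  [Fintype I] [DecidableEq I]

theorem one_le_ZZ (q : ι → ℝ) (D : I → Finset ι → ℝ) (h : ℝ) (hg : Good q D h) (k : ℕ) :
    1 ≤ ZZ q D k := by
  unfold ZZ
  refine one_le_pow₀ ?_
  have : 0 ≤ ∑ i, GG q D (some i) := sum_nonneg fun i _ => GG_nonneg q D h hg _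
  linarith

theorem PB4_ZZ (q : ι → ℝ) (D : I → Finset ι → ℝ) (B : Finset J) :
    ∑ l ∈ univ.filter (fun l : J → Option I => ∀ j, j ∉ B → l j = none), ∏ j, GG q D (l j) =
      ZZ q D B.card := by
  rw [sum_supp none (GG q D) rfl B, Fintype.sum_option]
  rfl

theorem PB4_prod_nonneg (q : ι → ℝ) (D : I → Finset ι → ℝ) (h : ℝ) (hg : Good q D h)
    (l : J → Option I) : 0 ≤ ∏ j, GG q D (l j) :=
  prod_nonneg fun _ _ => GG_nonneg q D h hg _

theorem PB4_EX (q : ι → ℝ) (D : I → Finset ι → ℝ) (h : ℝ) (hg : Good q D h) (m : I → ℕ)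
    (B : Finset J) : EX q (fun S : J → Finset ι => LL D m B S ^ 2) =
      ∑ l ∈ adm B m, ∏ j, GG q D (l j) := by
  have h1 := EX_sq q D h hg (adm B m) (fun _ => 1)
  simp only [one_mul, one_pow] at h1
  exact h1

/-- `EX_sq` with `c = 1`, `s = adm B m` is a subset of all labelings supported in `B`;
`sum_supp`. -/
theorem EX_LL_sq_le (q : ι → ℝ) (D : I → Finset ι → ℝ) (h : ℝ) (hg : Good q D h) (m : I → ℕ)
    (B : Finset J) : EX q (fun S : J → Finset ι => LL D m B S ^ 2) ≤ ZZ q D B.card := by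
  rw [PB4_EX q D h hg, ← PB4_ZZ q D B]
  refine sum_le_sum_of_subset_of_nonneg ?_ fun l _ _ => PB4_prod_nonneg q D h hg l
  intro l hl
  exact mem_filter.2 ⟨mem_univ _, (mem_filter.1 hl).2.1⟩

/-- The labelings supported in `B` which are not in `adm B m` have `m i ≤ cnt l i` for some `i`:
union bound and `tail_supp`. -/
theorem le_EX_LL_sq (q : ι → ℝ) (D : I → Finset ι → ℝ) (h : ℝ) (hg : Good q D h) (m : I → ℕ)
    (B : Finset J) (R : ℝ) (hm : ∀ i, 2 * B.card * GG q D (some i) + R ≤ m i) :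
    (1 - Fintype.card I * Real.exp (-R)) * ZZ q D B.card
      ≤ EX q (fun S : J → Finset ι => LL D m B S ^ 2) := by
  rw [PB4_EX q D h hg]
  have h1 : ∑ l ∈ univ.filter (fun l : J → Option I => ∀ j, j ∉ B → l j = none),
      ∏ j, GG q D (l j) ≤ ∑ l ∈ adm B m, ∏ j, GG q D (l j) +
        ∑ i, ∑ l ∈ univ.filter (fun l : J → Option I => (∀ j, j ∉ B → l j = none) ∧
          m i ≤ cnt l i), ∏ j, GG q D (l j) := by
    have h2 : ∀ l ∈ univ.filter (fun l : J → Option I => ∀ j, j ∉ B → l j = none),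
        ∏ j, GG q D (l j) ≤ (if l ∈ adm B m then ∏ j, GG q D (l j) else 0) +
          ∑ i, if m i ≤ cnt l i then ∏ j, GG q D (l j) else 0 := by
      intro l hl
      have hl2 := (mem_filter.1 hl).2
      have h0 := PB4_prod_nonneg q D h hg l
      have h0' : ∀ i ∈ (univ : Finset I), 0 ≤ if m i ≤ cnt l i then ∏ j, GG q D (l j) else 0 := by
        intro i _
        split_ifs
        · exact h0
        · exact le_rfl
      by_cases h3 : ∀ i, cnt l i ≤ m i
      · have hadm : l ∈ adm B m := mem_filter.2 ⟨mem_univ _, hl2, h3⟩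
        rw [if_pos hadm]
        have := sum_nonneg h0'
        linarith
      · push Not at h3
        obtain ⟨i, hi⟩ := h3
        have h4 := single_le_sum h0' (mem_univ i)
        rw [if_pos hi.le] at h4
        have h5 : 0 ≤ if l ∈ adm B m then ∏ j, GG q D (l j) else 0 := by
          split_ifs
          · exact h0
          · exact le_rfl
        linarith
    refine (sum_le_sum h2).trans (le_of_eq ?_)
    rw [sum_add_distrib]
    congr 1
    · rw [sum_ite_mem]
      refine sum_congr ?_ fun _ _ => rfl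
      rw [inter_eq_right]
      intro l hl
      exact mem_filter.2 ⟨mem_univ _, (mem_filter.1 hl).2.1⟩
    · rw [sum_comm]
      refine sum_congr rfl fun i _ => ?_
      rw [← filter_filter, ← sum_filter]
  rw [PB4_ZZ] at h1
  have h6 : ∑ i, ∑ l ∈ univ.filter (fun l : J → Option I => (∀ j, j ∉ B → l j = none) ∧
          m i ≤ cnt l i), ∏ j, GG q D (l j) ≤
      ∑ _i : I, Real.exp (-R) * ZZ q D B.card := by
    refine sum_le_sum fun i _ => ?_
    exact tail_supp (GG q D) (fun o => GG_nonneg q D h hg o) rfl B i (m i) R (hm i)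
  rw [sum_const, card_univ, nsmul_eq_mul] at h6
  linarith

theorem PB4_ZZ_mono (q : ι → ℝ) (D : I → Finset ι → ℝ) (h : ℝ) (hg : Good q D h) {k k' : ℕ}
    (hk : k ≤ k') : ZZ q D k ≤ ZZ q D k' := by
  unfold ZZ
  have : 0 ≤ ∑ i, GG q D (some i) := sum_nonneg fun i _ => GG_nonneg q D h hg _
  exact pow_le_pow_right₀ (by linarith) hk

/-- `EX_sq_mul` with `c = sat m`; `0 ≤ sat ≤ 1`, so `sat^2 ≤ sat = (1/|I|) Σ_i 1[cnt l i = m i]`;
`tail_supp` for the set `B.erase j0` (smaller cardinality), and `ZZ` is increasing. -/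
theorem EX_LP_sq_mul_le (q : ι → ℝ) (D : I → Finset ι → ℝ) (h : ℝ) (hg : Good q D h)
    (hI : 0 < Fintype.card I) (m : I → ℕ) (B : Finset J) (R : ℝ)
    (hm : ∀ i, 2 * B.card * GG q D (some i) + R ≤ m i) (j0 : J) (hj0 : j0 ∈ B)
    (F : Finset ι → ℝ) (hF : ∀ A, 0 ≤ F A) :
    EX q (fun S : J → Finset ι => LP D m (B.erase j0) S ^ 2 * F (S j0))
      ≤ Real.exp (-R) * ZZ q D B.card * ex q F := by
  have hIR : (0 : ℝ) < Fintype.card I := by exact_mod_cast hI
  have h1 := EX_sq_mul q D h hg (adm (B.erase j0) m) (sat m) j0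
    (fun l hl => (mem_filter.1 hl).2.1 j0 (notMem_erase _ _)) F
  have h2 : EX q (fun S : J → Finset ι => LP D m (B.erase j0) S ^ 2 * F (S j0)) =
      (∑ l ∈ adm (B.erase j0) m, sat m l ^ 2 * ∏ j, GG q D (l j)) * ex q F := h1
  rw [h2]
  refine mul_le_mul_of_nonneg_right ?_ (ex_nonneg q hg.q0 hg.q1 F hF)
  have hsat0 : ∀ l : J → Option I, 0 ≤ sat m l := fun l => by unfold sat; positivity
  have hsat1 : ∀ l : J → Option I, sat m l ≤ 1 := by
    intro l
    unfold sat
    rw [div_le_one hIR]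
    exact_mod_cast card_filter_le _ _
  have h3 : ∀ l : J → Option I, sat m l ^ 2 ≤
      (∑ i, if m i ≤ cnt l i then (1 : ℝ) else 0) / Fintype.card I := by
    intro l
    have h4 : sat m l ^ 2 ≤ sat m l := by
      have := hsat0 l
      have := hsat1 l
      nlinarith
    refine h4.trans ?_
    unfold sat
    refine div_le_div_of_nonneg_right ?_ hIR.le
    rw [card_filter]
    push_cast
    refine sum_le_sum fun i _ => ?_
    by_cases h5 : cnt l i = m i
    · rw [if_pos h5, if_pos h5.ge]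
    · rw [if_neg h5]
      split_ifs <;> norm_num
  have h5 : ∑ l ∈ adm (B.erase j0) m, sat m l ^ 2 * ∏ j, GG q D (l j) ≤
      ∑ l ∈ univ.filter (fun l : J → Option I => ∀ j, j ∉ B.erase j0 → l j = none),
        (∑ i, if m i ≤ cnt l i then (1 : ℝ) else 0) / Fintype.card I * ∏ j, GG q D (l j) := by
    refine (sum_le_sum fun l _ => mul_le_mul_of_nonneg_right (h3 l)
      (PB4_prod_nonneg q D h hg l)).trans ?_
    refine sum_le_sum_of_subset_of_nonneg ?_ fun l _ _ => ?_
    · intro l hl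
      exact mem_filter.2 ⟨mem_univ _, (mem_filter.1 hl).2.1⟩
    · refine mul_nonneg (div_nonneg (sum_nonneg fun i _ => ?_) hIR.le)
        (PB4_prod_nonneg q D h hg l)
      split_ifs <;> norm_num
  refine h5.trans ?_
  have h6 : ∑ l ∈ univ.filter (fun l : J → Option I => ∀ j, j ∉ B.erase j0 → l j = none),
        (∑ i, if m i ≤ cnt l i then (1 : ℝ) else 0) / Fintype.card I * ∏ j, GG q D (l j) =
      (∑ i, ∑ l ∈ univ.filter (fun l : J → Option I => (∀ j, j ∉ B.erase j0 → l j = none) ∧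
          m i ≤ cnt l i), ∏ j, GG q D (l j)) / Fintype.card I := by
    have h7 : ∀ i : I, ∑ l ∈ univ.filter (fun l : J → Option I =>
        (∀ j, j ∉ B.erase j0 → l j = none) ∧ m i ≤ cnt l i), ∏ j, GG q D (l j) =
        ∑ l ∈ univ.filter (fun l : J → Option I => ∀ j, j ∉ B.erase j0 → l j = none),
          (if m i ≤ cnt l i then (1 : ℝ) else 0) * ∏ j, GG q D (l j) := by
      intro i
      rw [← filter_filter, sum_filter]
      refine sum_congr rfl fun l _ => ?_
      split_ifs <;> simp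
    simp only [h7]
    rw [sum_comm, sum_div]
    refine sum_congr rfl fun l _ => ?_
    rw [← sum_mul]
    ring
  rw [h6, div_le_iff₀ hIR]
  have hcard : (B.erase j0).card ≤ B.card := card_le_card (erase_subset _ _)
  have h8 : ∑ i, ∑ l ∈ univ.filter (fun l : J → Option I => (∀ j, j ∉ B.erase j0 → l j = none) ∧
          m i ≤ cnt l i), ∏ j, GG q D (l j) ≤
      ∑ _i : I, Real.exp (-R) * ZZ q D B.card := by
    refine sum_le_sum fun i _ => ?_
    refine (tail_supp (GG q D) (fun o => GG_nonneg q D h hg o) rfl (B.erase j0) i (m i) R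
      ?_).trans ?_
    · refine le_trans ?_ (hm i)
      have h9 : ((B.erase j0).card : ℝ) ≤ B.card := by exact_mod_cast hcard
      have h10 := GG_nonneg q D h hg (some i)
      nlinarith
    · exact mul_le_mul_of_nonneg_left (PB4_ZZ_mono q D h hg hcard) (Real.exp_pos _).le
  rw [sum_const, card_univ, nsmul_eq_mul] at h8
  linarith

end Pool.Agent.Lib.H15P
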