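import Pool.Agent.Lib.H15P.Defs

/-!
# Chunk PB8: change of the index type of the forms
-/

open Finset

namespace Pool.Agent.Lib.H15P

variable {ι J J' I : Type} [Fintype J] [DecidableEq J] [Fintype J'] [DecidableEq J']
  [Fintype I] [DecidableEq I]

omit [DecidableEq J] [DecidableEq J'] [Fintype I] in
theorem PB8_cnt (f : J' ↪ J) (l : J → Option I) (hl : ∀ j, j ∉ Set.range f → l j = none) (i : I) :
    cnt (fun j => l (f j)) i = cnt l i := by
  unfold cnt
  rw [← card_map f]
  congr 1
  ext j
  simp only [mem_map, mem_filter, mem_univ, true_and]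
  constructor
  · rintro ⟨j', h1, rfl⟩
    exact h1
  · intro h
    by_cases hj : j ∈ Set.range f
    · obtain ⟨j', rfl⟩ := hj
      exact ⟨j', h, rfl⟩
    · rw [hl j hj] at h
      cases h

/-- Labelings of `J` supported in the image of `f` correspond to labelings of `J'`
(`l ↦ l ∘ f`, inverse: extension by `none`); the counts agree and the factors outside the image
are `1`. -/
theorem LL_map (D : I → Finset ι → ℝ) (m : I → ℕ) (f : J' ↪ J) (B : Finset J')
    (S : J → Finset ι) : LL D m (B.map f) S = LL D m B (fun j => S (f j)) := by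
  classical
  unfold LL
  have hout : ∀ l ∈ adm (B.map f) m, ∀ j, j ∉ Set.range f → l j = none := by
    intro l hl j hj
    refine (mem_filter.1 hl).2.1 j fun h => hj ?_
    obtain ⟨j', -, rfl⟩ := mem_map.1 h
    exact ⟨j', rfl⟩
  refine sum_nbij' (fun l j => l (f j)) (fun l => Function.extend f l (fun _ => none)) ?_ ?_ ?_ ?_ ?_
  · intro l hl
    have h1 := hout l hl
    obtain ⟨h2, h3⟩ := (mem_filter.1 hl).2
    refine mem_filter.2 ⟨mem_univ _, fun j hj => ?_, fun i => ?_⟩
    · exact h2 (f j) fun h => hj ((mem_map' f).1 h)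
    · rw [PB8_cnt f l h1 i]
      exact h3 i
  · intro l hl
    obtain ⟨h2, h3⟩ := (mem_filter.1 hl).2
    have h4 : ∀ j, j ∉ Set.range f → Function.extend f l (fun _ => none) j = none := by
      intro j hj
      rw [Function.extend_apply' _ _ _ (fun ⟨a, ha⟩ => hj ⟨a, ha⟩)]
    refine mem_filter.2 ⟨mem_univ _, fun j hj => ?_, fun i => ?_⟩
    · by_cases hr : j ∈ Set.range f
      · obtain ⟨j', rfl⟩ := hr
        rw [f.injective.extend_apply]
        exact h2 j' fun h => hj ((mem_map' f).2 h)
      · exact h4 j hr
    · rw [← PB8_cnt f _ h4 i]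
      have h5 : (fun j => Function.extend f l (fun _ => none) (f j)) = l := by
        funext j
        rw [f.injective.extend_apply]
      rw [h5]
      exact h3 i
  · intro l hl
    have h1 := hout l hl
    funext j
    by_cases hr : j ∈ Set.range f
    · obtain ⟨j', rfl⟩ := hr
      rw [f.injective.extend_apply]
    · rw [Function.extend_apply' _ _ _ (fun ⟨a, ha⟩ => hr ⟨a, ha⟩), h1 j hr]
  · intro l hl
    funext j
    rw [f.injective.extend_apply]
  · intro l hl
    have h1 := hout l hl
    symm
    refine Fintype.prod_of_injective f f.injective _ _ ?_ ?_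
    · intro j hj
      rw [h1 j hj]
      rfl
    · intro j
      rfl

end Pool.Agent.Lib.H15P
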