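import Mathlib

/-!
# Chunk PN1: choice of the constants
-/

namespace Pool.Agent.Lib.H15P

/-- Chunk PN1. `n` large (for the first half of the last but one inequality), then `R` large with
`τ = min δ (1/(48000 (r0+1)(R+1)))`, using `exp(-R) (R+1) → 0`. -/
theorem exists_consts (Lam e δ : ℝ) (hL : 0 < Lam) (he : 0 < e) (hδ : 0 < δ) (r0 : ℕ) :
    ∃ (n : ℕ) (R τ : ℝ), 1 ≤ n ∧ 0 < R ∧ 0 < τ ∧ τ ≤ δ ∧ n * Real.exp (-R) ≤ e ∧
      10000 * Lam * Real.exp (-R) / τ ≤ e ∧
      12 * ((r0 : ℝ) + 1) * (160000000 * Lam / n + 2 * (R + 1) * τ) ≤ 1 / 1000 ∧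
      12 * ((r0 : ℝ) + 1) * τ ≤ 1 / 400 := by
  set B : ℝ := (r0 : ℝ) + 1 with hB
  have hB1 : 1 ≤ B := by
    have : (0 : ℝ) ≤ r0 := Nat.cast_nonneg r0
    linarith
  have hB0 : 0 < B := by linarith
  set n : ℕ := ⌈24000 * B * 160000000 * Lam⌉₊ + 1 with hn
  have hn1 : 1 ≤ n := by omega
  have hnr : 24000 * B * 160000000 * Lam ≤ (n : ℝ) := by
    have h1 := Nat.le_ceil (24000 * B * 160000000 * Lam)
    rw [hn]
    push_cast
    linarith
  have hn0 : (0 : ℝ) < n := by exact_mod_cast hn1
  set K : ℝ := n + 10000 * Lam * (1 / δ + 96000 * B) + 1 with hK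
  have hK0 : 0 < K := by positivity
  have hlim := Real.tendsto_pow_mul_exp_neg_atTop_nhds_zero 1
  have hev : ∀ᶠ R : ℝ in Filter.atTop, R ^ 1 * Real.exp (-R) < e / K :=
    hlim.eventually (gt_mem_nhds (by positivity))
  obtain ⟨R, hR, hR1⟩ := (hev.and (Filter.eventually_ge_atTop 1)).exists
  rw [pow_one, lt_div_iff₀ hK0] at hR
  have hR0 : 0 < R := by linarith
  have hE : 0 < Real.exp (-R) := Real.exp_pos _
  set τ : ℝ := min δ (1 / (48000 * B * (R + 1))) with hτ
  have hτ0 : 0 < τ := lt_min hδ (by positivity)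
  have hτ1 : τ ≤ δ := min_le_left _ _
  have hτ2 : τ ≤ 1 / (48000 * B * (R + 1)) := min_le_right _ _
  have hτ3 : τ * (48000 * B * (R + 1)) ≤ 1 := by
    rwa [le_div_iff₀ (by positivity)] at hτ2
  have hinv : 1 / τ ≤ 1 / δ + 48000 * B * (R + 1) := by
    rcases min_choice δ (1 / (48000 * B * (R + 1))) with h | h
    · rw [hτ, h]
      have : 0 ≤ 48000 * B * (R + 1) := by positivity
      linarith
    · rw [hτ, h, one_div_one_div]
      have : 0 ≤ 1 / δ := by positivity
      linarith
  refine ⟨n, R, τ, hn1, hR0, hτ0, hτ1, ?_, ?_, ?_, ?_⟩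
  · -- `n exp (-R) ≤ e`
    have h1 : (n : ℝ) * Real.exp (-R) ≤ R * Real.exp (-R) * K := by
      have h2 : (n : ℝ) ≤ K := by
        rw [hK]
        have : 0 ≤ 10000 * Lam * (1 / δ + 96000 * B) := by positivity
        linarith
      have h3 : (n : ℝ) * Real.exp (-R) ≤ K * Real.exp (-R) :=
        mul_le_mul_of_nonneg_right h2 hE.le
      have h4 : K * Real.exp (-R) ≤ R * (K * Real.exp (-R)) :=
        le_mul_of_one_le_left (by positivity) hR1
      calc (n : ℝ) * Real.exp (-R) ≤ R * (K * Real.exp (-R)) := h3.trans h4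
        _ = R * Real.exp (-R) * K := by ring
    linarith
  · have h1 : 10000 * Lam * Real.exp (-R) / τ ≤ R * Real.exp (-R) * K := by
      have h2 : 10000 * Lam * Real.exp (-R) / τ = 10000 * Lam * Real.exp (-R) * (1 / τ) := by
        ring
      rw [h2]
      have h3 : 1 / δ + 48000 * B * (R + 1) ≤ R * (1 / δ + 96000 * B) := by
        have h4 : 1 / δ ≤ R * (1 / δ) := le_mul_of_one_le_left (by positivity) hR1
        have h5 : 48000 * B * (R + 1) ≤ 48000 * B * (2 * R) :=
          mul_le_mul_of_nonneg_left (by linarith) (by positivity)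
        linarith
      calc 10000 * Lam * Real.exp (-R) * (1 / τ)
          ≤ 10000 * Lam * Real.exp (-R) * (R * (1 / δ + 96000 * B)) :=
            mul_le_mul_of_nonneg_left (hinv.trans h3) (by positivity)
        _ = R * Real.exp (-R) * (10000 * Lam * (1 / δ + 96000 * B)) := by ring
        _ ≤ R * Real.exp (-R) * K := by
            apply mul_le_mul_of_nonneg_left _ (by positivity)
            rw [hK]
            linarith
    linarith
  · have h1 : 160000000 * Lam / n ≤ 1 / (24000 * B) := by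
      rw [div_le_div_iff₀ hn0 (by positivity)]
      linarith
    have h2 : 12 * B * (160000000 * Lam / n) ≤ 1 / 2000 := by
      calc 12 * B * (160000000 * Lam / n) ≤ 12 * B * (1 / (24000 * B)) :=
            mul_le_mul_of_nonneg_left h1 (by positivity)
        _ = 1 / 2000 := by
            field_simp
            norm_num
    have h3 : 12 * B * (2 * (R + 1) * τ) ≤ 1 / 2000 := by
      have h4 : 12 * B * (2 * (R + 1) * τ) = (τ * (48000 * B * (R + 1))) / 2000 := by ring
      rw [h4]
      linarith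
    calc 12 * B * (160000000 * Lam / n + 2 * (R + 1) * τ)
        = 12 * B * (160000000 * Lam / n) + 12 * B * (2 * (R + 1) * τ) := by ring
      _ ≤ 1 / 1000 := by linarith
  · have h1 : τ * (48000 * B) ≤ τ * (48000 * B * (R + 1)) := by
      apply mul_le_mul_of_nonneg_left _ hτ0.le
      exact le_mul_of_one_le_right (by positivity) (by linarith)
    linarith

end Pool.Agent.Lib.H15P
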