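import Pool.Agent.Lib.H15P.MK2
import Pool.Agent.Lib.H15P.PN1

/-!
# Chunk PN2: the data for large x (asymptotics)
-/

open Finset

namespace Pool.Agent.Lib.H15P

/-- powers are small compared with exponentials -/
theorem pn2_pow_exp (k : ℕ) (b c : ℝ) (hb : 0 < b) (hc : 0 < c) :
    ∀ᶠ L : ℝ in Filter.atTop, L ^ k ≤ c * Real.exp (b * L) := by
  have h := (isLittleO_pow_exp_pos_mul_atTop (k := k) hb).bound hc
  filter_upwards [h, Filter.eventually_ge_atTop 0] with L hL h0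
  rw [Real.norm_of_nonneg (pow_nonneg h0 k), Real.norm_of_nonneg (Real.exp_pos _).le] at hL
  exact hL

/-- the logarithm is small compared with the identity -/
theorem pn2_log (c : ℝ) (hc : 0 < c) : ∀ᶠ L : ℝ in Filter.atTop, Real.log L ≤ c * L := by
  have h := (Real.isLittleO_log_id_atTop).bound hc
  filter_upwards [h, Filter.eventually_ge_atTop 1] with L hL h0
  rw [Real.norm_of_nonneg (Real.log_nonneg h0)] at hL
  simp only [id_eq] at hL
  rw [Real.norm_of_nonneg (by linarith)] at hL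
  exact hL

/-- the geometric sum -/
theorem pn2_geom (n : ℕ) : ∑ i : Fin n, (1 / (4000 : ℝ) ^ (i : ℕ)) ≤ 2 := by
  have h : ∀ n : ℕ, ∑ i ∈ range n, (1 / (4000 : ℝ) ^ i) ≤ 2 - 2 * (1 / 4000 ^ n) := by
    intro n
    induction n with
    | zero => norm_num
    | succ n ih =>
      rw [sum_range_succ]
      have h1 : (1 : ℝ) / 4000 ^ n = 4000 * (1 / 4000 ^ (n + 1)) := by
        rw [pow_succ]; field_simp
      have h2 : (0 : ℝ) < 1 / 4000 ^ (n + 1) := by positivity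
      rw [h1] at ih ⊢
      linarith
  rw [Fin.sum_univ_eq_sum_range (fun i => (1 / (4000 : ℝ) ^ i)) n]
  have h2 : (0 : ℝ) < 1 / 4000 ^ n := by positivity
  linarith [h n]

/-- the level sum -/
theorem pn2_lev (Lam τ R T L : ℝ) (n r0 : ℕ) (m : Fin n → ℕ) (hLam : 0 < Lam) (hτ : 0 < τ)
    (hn : 1 ≤ n) (hR : 0 < R) (hT : T = τ * L) (hL : 0 ≤ L)
    (hm : ∀ i : Fin n, (m i : ℝ) ≤ 40000 * Lam * 4000 ^ ((i : ℕ) + 1) / (τ * (n : ℝ) ^ 2) + R + 1)
    (hc : 12 * ((r0 : ℝ) + 1) * (160000000 * Lam / n + 2 * (R + 1) * τ) ≤ 1 / 1000) :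
    ∏ i : Fin n, (4 * Real.exp (12 * ((r0 : ℝ) + 1) * (T / 4000 ^ (i : ℕ)))) ^ m i
      ≤ 4 ^ (∑ i, m i) * Real.exp (L / 1000) := by
  have hn0 : (0 : ℝ) < n := by exact_mod_cast hn
  have h1 : ∏ i : Fin n, (4 * Real.exp (12 * ((r0 : ℝ) + 1) * (T / 4000 ^ (i : ℕ)))) ^ m i
      = 4 ^ (∑ i, m i) *
        Real.exp (∑ i : Fin n, (m i : ℝ) * (12 * ((r0 : ℝ) + 1) * (T / 4000 ^ (i : ℕ)))) := by
    rw [Real.exp_sum, ← prod_pow_eq_pow_sum, ← prod_mul_distrib]
    apply prod_congr rfl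
    intro i _
    rw [mul_pow, ← Real.exp_nat_mul]
  rw [h1]
  apply mul_le_mul_of_nonneg_left _ (by positivity)
  apply Real.exp_le_exp.mpr
  have hT0 : 0 ≤ T := by rw [hT]; positivity
  have h2 : ∑ i : Fin n, (m i : ℝ) * (12 * ((r0 : ℝ) + 1) * (T / 4000 ^ (i : ℕ)))
      ≤ ∑ i : Fin n, (12 * ((r0 : ℝ) + 1)) * L *
        (160000000 * Lam / (n : ℝ) ^ 2 + (R + 1) * τ * (1 / 4000 ^ (i : ℕ))) := by
    apply sum_le_sum
    intro i _
    have hp : (0 : ℝ) < 4000 ^ (i : ℕ) := by positivity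
    have h3 : (m i : ℝ) * (12 * ((r0 : ℝ) + 1) * (T / 4000 ^ (i : ℕ)))
        ≤ (40000 * Lam * 4000 ^ ((i : ℕ) + 1) / (τ * (n : ℝ) ^ 2) + R + 1) *
          (12 * ((r0 : ℝ) + 1) * (T / 4000 ^ (i : ℕ))) :=
      mul_le_mul_of_nonneg_right (hm i) (by positivity)
    refine h3.trans (le_of_eq ?_)
    rw [hT, pow_succ]
    field_simp
    ring
  refine h2.trans ?_
  rw [← mul_sum, sum_add_distrib, ← mul_sum]
  simp only [sum_const, card_univ, Fintype.card_fin, nsmul_eq_mul]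
  have h4 := pn2_geom n
  have h5 : (n : ℝ) * (160000000 * Lam / (n : ℝ) ^ 2) = 160000000 * Lam / n := by
    field_simp
  rw [h5]
  have h6 : 160000000 * Lam / n + (R + 1) * τ * ∑ i : Fin n, (1 / (4000 : ℝ) ^ (i : ℕ))
      ≤ 160000000 * Lam / n + 2 * (R + 1) * τ := by
    have : (R + 1) * τ * ∑ i : Fin n, (1 / (4000 : ℝ) ^ (i : ℕ)) ≤ (R + 1) * τ * 2 :=
      mul_le_mul_of_nonneg_left h4 (by positivity)
    linarith
  calc 12 * ((r0 : ℝ) + 1) * L *
        (160000000 * Lam / n + (R + 1) * τ * ∑ i : Fin n, (1 / (4000 : ℝ) ^ (i : ℕ)))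
      ≤ 12 * ((r0 : ℝ) + 1) * L * (160000000 * Lam / n + 2 * (R + 1) * τ) :=
        mul_le_mul_of_nonneg_left h6 (by positivity)
    _ = (12 * ((r0 : ℝ) + 1) * (160000000 * Lam / n + 2 * (R + 1) * τ)) * L := by ring
    _ ≤ 1 / 1000 * L := mul_le_mul_of_nonneg_right hc hL
    _ = L / 1000 := by ring

/-- Chunk PN2. All numerical hypotheses of `mkWD` for large `x`, with `K = ⌊Lam L/log L⌋`,
`W = ⌈L^4⌉`, `T = τ L`, `L = log x`, `lv = exp (L/400)`,
`m i = ⌈40000 Lam 4000^(i+1)/(τ n^2) + R⌉`, `C = exp ((n+1)^4 720000 Lam 4000^n/τ)`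
(`log W ≤ 5 log L`, so `K log W/T ≤ 5 Lam/τ`). Level:
`Σ_i m_i 4000^(-i) ≤ 160000000 Lam/(τ n) + 2 (R + 1)`, so the product is at most
`3 (2nK+1)^(Σ m) 4^(Σ m) exp (L/1000) ≤ exp (L/400)`. -/
theorem exists_WD (Lam e δ : ℝ) (hL : 0 < Lam) (he : 0 < e) (he1 : e ≤ 1 / 10) (hδ : 0 < δ) :
    ∃ C x0 : ℝ, ∀ x : ℝ, x0 ≤ x → ∃ w : WD, w.C = C ∧ w.e = e ∧
      w.W = ⌈Real.log x ^ 4⌉₊ ∧ w.K = ⌊Lam * Real.log x / Real.log (Real.log x)⌋₊ ∧
      (∀ p ∈ w.P, (p : ℝ) ≤ x ^ δ) ∧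
      4 * w.K * w.lv ^ 4 ≤ e * x ^ (1 / 4 : ℝ) := by
  have hsig : 0 ≤ sig := by
    unfold sig
    have : 0 ≤ Real.log (1000 * (4000 : ℕ)) := Real.log_nonneg (by norm_num)
    linarith
  obtain ⟨r0, hr0⟩ := exists_r0 sig hsig
  obtain ⟨n, R, τ, hn, hR, hτ, hτδ, hnR, hRτ, hlev, hlev2⟩ := exists_consts Lam e δ hL he hδ r0
  have hn0 : (0 : ℝ) < n := by exact_mod_cast hn
  set m : Fin n → ℕ := fun i => ⌈40000 * Lam * 4000 ^ ((i : ℕ) + 1) / (τ * (n : ℝ) ^ 2) + R⌉₊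
    with hmdef
  set S : ℕ := ∑ i, m i with hS
  set C : ℝ := Real.exp (((n : ℝ) + 1) ^ 4 * (720000 * Lam * 4000 ^ n / τ)) with hC
  have hC0 : 0 < C := Real.exp_pos _
  -- the small number
  obtain ⟨ρ, hρ0, hρ1, hρ2, hρ3, hρ4⟩ : ∃ ρ : ℝ, 0 < ρ ∧ ρ ≤ 1 / 2 ∧ 2 * ρ ^ 2 ≤ Real.log (1 + e) ∧
      ρ ^ 2 ≤ e ∧ 40 * ρ * Real.sqrt C ≤ e := by
    have hlog : 0 < Real.log (1 + e) := Real.log_pos (by linarith)
    have hsC : 0 < Real.sqrt C := Real.sqrt_pos.mpr hC0
    refine ⟨min (1 / 2) (min (Real.log (1 + e) / 2) (min e (e / (40 * Real.sqrt C)))), ?_, ?_, ?_,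
      ?_, ?_⟩
    · refine lt_min (by norm_num) (lt_min (by positivity) (lt_min he (by positivity)))
    · exact min_le_left _ _
    all_goals
      set ρ := min (1 / 2) (min (Real.log (1 + e) / 2) (min e (e / (40 * Real.sqrt C)))) with hρ
      have h0 : 0 < ρ :=
        lt_min (by norm_num) (lt_min (by positivity) (lt_min he (by positivity)))
      have h1 : ρ ≤ 1 / 2 := min_le_left _ _
      have h2 : ρ ≤ Real.log (1 + e) / 2 := (min_le_right _ _).trans (min_le_left _ _)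
      have h3 : ρ ≤ e := (min_le_right _ _).trans ((min_le_right _ _).trans (min_le_left _ _))
      have h4 : ρ ≤ e / (40 * Real.sqrt C) :=
        (min_le_right _ _).trans ((min_le_right _ _).trans (min_le_right _ _))
      have h5 : ρ ^ 2 ≤ ρ := by nlinarith
    · linarith
    · linarith
    · rw [le_div_iff₀ (by positivity)] at h4
      linarith
  -- eventual facts
  have hev : ∀ᶠ L : ℝ in Filter.atTop, 2 ≤ L ∧ 1 ≤ Real.log L ∧
      5 * Real.log L ≤ τ * L / 4000 ^ n ∧ 2 ≤ τ * L / 4000 ^ n ∧ Real.log L ≤ Lam * L ∧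
      2 * Lam / L ≤ ρ ∧ 2 * n * (Lam * L) + 1 ≤ L ^ 2 ∧
      3 * 4 ^ S * L ^ (2 * S) ≤ Real.exp (1 / 1000 * L) ∧
      4 * Lam * L ≤ e * Real.exp (1 / 5 * L) := by
    have hp : (0 : ℝ) < 4000 ^ n := by positivity
    have e1 := pn2_log (τ / 4000 ^ n / 5) (by positivity)
    have e2 := pn2_log Lam hL
    have e3 := pn2_pow_exp (2 * S) (1 / 1000) (1 / (3 * 4 ^ S)) (by norm_num) (by positivity)
    have e4 := pn2_pow_exp 1 (1 / 5) (e / (4 * Lam)) (by norm_num) (by positivity)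
    filter_upwards [e1, e2, e3, e4, Filter.eventually_ge_atTop 2,
      Filter.eventually_ge_atTop (Real.exp 1), Filter.eventually_ge_atTop (2 * 4000 ^ n / τ),
      Filter.eventually_ge_atTop (2 * Lam / ρ), Filter.eventually_ge_atTop (2 * n * Lam + 1)]
      with L e1 e2 e3 e4 a1 a2 a3 a4 a5
    have hL0 : 0 < L := by linarith
    refine ⟨a1, ?_, ?_, ?_, e2, ?_, ?_, ?_, ?_⟩
    · rw [Real.le_log_iff_exp_le hL0]; exact a2
    · have : 5 * (τ / 4000 ^ n / 5 * L) = τ * L / 4000 ^ n := by field_simp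
      linarith
    · rw [le_div_iff₀ hp]
      rw [div_le_iff₀ hτ] at a3
      linarith
    · rw [div_le_iff₀ hL0]
      rw [div_le_iff₀ hρ0] at a4
      linarith
    · nlinarith
    · have h3 : (0 : ℝ) < 3 * 4 ^ S := by positivity
      calc 3 * 4 ^ S * L ^ (2 * S) ≤ 3 * 4 ^ S * (1 / (3 * 4 ^ S) * Real.exp (1 / 1000 * L)) :=
            mul_le_mul_of_nonneg_left e3 h3.le
        _ = Real.exp (1 / 1000 * L) := by field_simp
    · rw [pow_one] at e4
      calc 4 * Lam * L ≤ 4 * Lam * (e / (4 * Lam) * Real.exp (1 / 5 * L)) :=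
            mul_le_mul_of_nonneg_left e4 (by positivity)
        _ = e * Real.exp (1 / 5 * L) := by field_simp
  have hev2 := (Real.tendsto_log_atTop.eventually hev).and (Filter.eventually_gt_atTop (0 : ℝ))
  rw [Filter.eventually_atTop] at hev2
  obtain ⟨x0, hx0⟩ := hev2
  refine ⟨C, x0, fun x hx => ?_⟩
  obtain ⟨⟨f1, f2, f3, f4, f5, f6, f7, f8, f9⟩, hxpos⟩ := hx0 x hx
  set L := Real.log x with hLdef
  set L2 := Real.log L with hL2def
  have hL0 : 0 < L := by linarith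
  have hL20 : 0 < L2 := by linarith
  set K : ℕ := ⌊Lam * L / L2⌋₊ with hKdef
  set W : ℕ := ⌈L ^ 4⌉₊ with hWdef
  have hKle : (K : ℝ) ≤ Lam * L / L2 := Nat.floor_le (by positivity)
  have hKle2 : (K : ℝ) ≤ Lam * L := hKle.trans (div_le_self (by positivity) f2)
  have hK1 : 1 ≤ K := by
    rw [hKdef, Nat.one_le_floor_iff, le_div_iff₀ hL20]
    linarith
  have hWge : L ^ 4 ≤ W := Nat.le_ceil _
  have hWle : (W : ℝ) ≤ L ^ 5 := by
    have h1 : (W : ℝ) < L ^ 4 + 1 := Nat.ceil_lt_add_one (by positivity)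
    have h2 : (1 : ℝ) ≤ L ^ 4 := one_le_pow₀ (by linarith)
    have h3 : L ^ 5 = L * L ^ 4 := by ring
    nlinarith
  have hL4 : (0 : ℝ) < L ^ 4 := by positivity
  have hW0 : (0 : ℝ) < W := by linarith
  have hlogW : Real.log W ≤ 5 * L2 := by
    calc Real.log W ≤ Real.log (L ^ 5) := Real.log_le_log hW0 hWle
      _ = 5 * L2 := by rw [Real.log_pow, hL2def]; norm_num
  have hlogW0 : 0 ≤ Real.log W := by
    apply Real.log_nonneg
    have : (1 : ℝ) ≤ L ^ 4 := one_le_pow₀ (by linarith)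
    linarith
  have hsW : L ^ 2 ≤ Real.sqrt W := by
    apply Real.le_sqrt_of_sq_le
    have h1 : (L ^ 2) ^ 2 = L ^ 4 := by ring
    rw [h1]
    exact hWge
  have hsW0 : 0 < Real.sqrt W := Real.sqrt_pos.mpr hW0
  have hρK : ((2 * K : ℕ) : ℝ) / Real.sqrt W ≤ ρ := by
    refine le_trans ?_ f6
    rw [div_le_div_iff₀ hsW0 hL0]
    push_cast
    calc 2 * (K : ℝ) * L ≤ 2 * (Lam * L) * L := by nlinarith
      _ = 2 * Lam * L ^ 2 := by ring
      _ ≤ 2 * Lam * Real.sqrt W := by nlinarith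
  have hρK0 : 0 ≤ ((2 * K : ℕ) : ℝ) / Real.sqrt W := by positivity
  have hρK2 : ((2 * K : ℕ) : ℝ) ^ 2 / W ≤ ρ ^ 2 := by
    calc ((2 * K : ℕ) : ℝ) ^ 2 / W = (((2 * K : ℕ) : ℝ) / Real.sqrt W) ^ 2 := by
          rw [div_pow, Real.sq_sqrt hW0.le]
      _ ≤ ρ ^ 2 := pow_le_pow_left₀ hρK0 hρK 2
  set T := τ * L with hTdef
  have hT0 : 0 < T := by positivity
  -- the main ratio
  have hratio : (K : ℝ) * Real.log W / T ≤ 5 * Lam / τ := by
    rw [div_le_div_iff₀ hT0 hτ]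
    calc (K : ℝ) * Real.log W * τ ≤ (Lam * L / L2) * (5 * L2) * τ := by
          apply mul_le_mul_of_nonneg_right _ hτ.le
          exact mul_le_mul hKle hlogW hlogW0 (by positivity)
      _ = 5 * Lam * T := by rw [hTdef]; field_simp
  have hratio0 : 0 ≤ (K : ℝ) * Real.log W / T := by positivity
  have hmain : ∃ w : WD, w.P = PP W T ∧ w.W = W ∧ w.K = K ∧ w.C = C ∧
      w.lv = Real.exp (L / 400) ∧ w.e = e := by
    refine mkWD W K n r0 T R C e (Real.exp (L / 400)) m hn hK1 ?_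
      hr0 (hlogW.trans f3) f4 ?_ he he1 hnR ?_ ?_ ?_ ?_ ?_ ?_ ?_ ?_
    · -- hKW
      have h1 : 4 * ((2 * K : ℕ) : ℝ) ^ 2 ≤ W := by
        have h2 : ρ ^ 2 ≤ 1 / 4 := by nlinarith
        have h3 := hρK2.trans h2
        rw [div_le_iff₀ hW0] at h3
        linarith
      exact_mod_cast h1
    · -- hm
      intro i
      have h1 : 2 * (K : ℝ) * (4000 * Real.log W * 4000 ^ ((i : ℕ) + 1) / (T * (n : ℝ) ^ 2))
          = (K * Real.log W / T) * (8000 * 4000 ^ ((i : ℕ) + 1) / (n : ℝ) ^ 2) := by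
        field_simp
        ring
      have h2 : (K * Real.log W / T) * (8000 * 4000 ^ ((i : ℕ) + 1) / (n : ℝ) ^ 2)
          ≤ (5 * Lam / τ) * (8000 * 4000 ^ ((i : ℕ) + 1) / (n : ℝ) ^ 2) :=
        mul_le_mul_of_nonneg_right hratio (by positivity)
      have h3 : (5 * Lam / τ) * (8000 * 4000 ^ ((i : ℕ) + 1) / (n : ℝ) ^ 2)
          = 40000 * Lam * 4000 ^ ((i : ℕ) + 1) / (τ * (n : ℝ) ^ 2) := by
        field_simp
        ring
      have h4 := Nat.le_ceil (40000 * Lam * 4000 ^ ((i : ℕ) + 1) / (τ * (n : ℝ) ^ 2) + R)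
      rw [h1]
      linarith
    · -- hC
      rw [hC]
      apply Real.exp_le_exp.mpr
      have h1 : ((n : ℝ) + 1) ^ 4 * (144000 * Real.log W * 4000 ^ n / T) * K
          = ((n : ℝ) + 1) ^ 4 * 144000 * 4000 ^ n * (K * Real.log W / T) := by
        field_simp
      have h2 : ((n : ℝ) + 1) ^ 4 * (720000 * Lam * 4000 ^ n / τ)
          = ((n : ℝ) + 1) ^ 4 * 144000 * 4000 ^ n * (5 * Lam / τ) := by
        field_simp
        ring
      rw [h1, h2]
      exact mul_le_mul_of_nonneg_left hratio (by positivity)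
    · -- hlm
      refine le_trans ?_ hRτ
      have h1 : (K : ℝ) * Real.exp (-R) * (2000 * Real.log W / T)
          = 2000 * Real.exp (-R) * (K * Real.log W / T) := by
        field_simp
      have h2 : 10000 * Lam * Real.exp (-R) / τ = 2000 * Real.exp (-R) * (5 * Lam / τ) := by
        field_simp
        ring
      rw [h1, h2]
      exact mul_le_mul_of_nonneg_left hratio (by positivity)
    · -- hK1
      rw [← Real.exp_log (show (0 : ℝ) < 1 + e by linarith)]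
      apply Real.exp_le_exp.mpr
      rw [mul_div_assoc]
      linarith
    · exact hρK2.trans hρ3
    · refine le_trans ?_ hρ4
      apply mul_le_mul_of_nonneg_right _ (Real.sqrt_nonneg _)
      exact mul_le_mul_of_nonneg_left hρK (by norm_num)
    · apply Real.one_le_exp
      positivity
    · -- hlv2
      have hm' : ∀ i : Fin n, (m i : ℝ)
          ≤ 40000 * Lam * 4000 ^ ((i : ℕ) + 1) / (τ * (n : ℝ) ^ 2) + R + 1 := by
        intro i
        exact (Nat.ceil_lt_add_one (by positivity)).le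
      have h1 := pn2_lev Lam τ R T L n r0 m hL hτ hn hR rfl hL0.le hm' hlev
      have h2 : ((n : ℝ) * (2 * K) + 1) ^ S ≤ L ^ (2 * S) := by
        rw [pow_mul]
        apply pow_le_pow_left₀ (by positivity)
        refine le_trans ?_ f7
        nlinarith
      calc 3 * ((n : ℝ) * (2 * K) + 1) ^ S *
            ∏ i : Fin n, (4 * Real.exp (12 * ((r0 : ℝ) + 1) * (T / 4000 ^ (i : ℕ)))) ^ m i
          ≤ 3 * L ^ (2 * S) * (4 ^ S * Real.exp (L / 1000)) := by
            apply mul_le_mul _ h1 (prod_nonneg fun i _ => by positivity) (by positivity)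
            exact mul_le_mul_of_nonneg_left h2 (by norm_num)
        _ = (3 * 4 ^ S * L ^ (2 * S)) * Real.exp (L / 1000) := by ring
        _ ≤ Real.exp (1 / 1000 * L) * Real.exp (L / 1000) :=
            mul_le_mul_of_nonneg_right f8 (Real.exp_pos _).le
        _ = Real.exp (L / 500) := by rw [← Real.exp_add]; ring_nf
        _ ≤ Real.exp (L / 400) := by
            apply Real.exp_le_exp.mpr
            linarith
    · -- hlv3
      apply Real.exp_le_exp.mpr
      calc 12 * ((r0 : ℝ) + 1) * T = (12 * ((r0 : ℝ) + 1) * τ) * L := by rw [hTdef]; ring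
        _ ≤ 1 / 400 * L := mul_le_mul_of_nonneg_right hlev2 hL0.le
        _ = L / 400 := by ring

  obtain ⟨w, w1, w2, w3, w4, w5, w6⟩ := hmain
  · refine ⟨w, w4, w6, w2, w3, ?_, ?_⟩
    · intro p hp
      rw [w1] at hp
      unfold PP at hp
      rw [mem_filter, mem_Ioc] at hp
      have h1 : (p : ℝ) ≤ Real.exp T := by
        refine le_trans (by exact_mod_cast hp.1.2) (Nat.floor_le (Real.exp_pos _).le)
      refine h1.trans ?_
      rw [Real.rpow_def_of_pos hxpos]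
      apply Real.exp_le_exp.mpr
      rw [hTdef, mul_comm]
      exact mul_le_mul_of_nonneg_left hτδ hL0.le
    · rw [w3, w5, ← Real.exp_nat_mul, Real.rpow_def_of_pos hxpos]
      have h1 : 4 * (K : ℝ) ≤ e * Real.exp (1 / 5 * L) := by
        refine le_trans ?_ f9
        nlinarith
      calc 4 * (K : ℝ) * Real.exp (((4 : ℕ) : ℝ) * (L / 400))
          ≤ e * Real.exp (1 / 5 * L) * Real.exp (((4 : ℕ) : ℝ) * (L / 400)) :=
            mul_le_mul_of_nonneg_right h1 (Real.exp_pos _).le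
        _ = e * Real.exp (1 / 5 * L + ((4 : ℕ) : ℝ) * (L / 400)) := by
            rw [Real.exp_add]; ring
        _ ≤ e * Real.exp (L * (1 / 4)) := by
            apply mul_le_mul_of_nonneg_left _ he.le
            apply Real.exp_le_exp.mpr
            push_cast
            linarith

end Pool.Agent.Lib.H15P
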