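import Pool.Agent.Lib.H15P.FIN3
import Pool.Agent.Lib.H56G.ErLarge

/-!
# A positive proportion of the gaps between consecutive primes exceeds any multiple of the average

For EVERY real `lam` a positive proportion of the primes `p n ≤ x` satisfies
`p (n+1) - p n ≥ lam log x`; moreover, for every `δ > 0`, the gap may be required to contain an
interval of length `lam log x` in which every integer has a prime factor `≤ x^δ`.

Method (`Pool/Agent/Lib/H15P/PROOF.md`): a multi-scale sieve weight on the whole window, a product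
over prime scales of squares of truncated sums over the elements of the window, with bounded second
moment, which suppresses all elements of the window at once for a positive proportion of `n`;
then a decorrelation argument for gaps.
-/

open Filter

namespace Pool.Agent.Lib.H15P.Proportion

/-- `p n` is the `n`-th prime number, numbered from `0`: `p 0 = 2`, `p 1 = 3`, ... -/
noncomputable def p (n : ℕ) : ℕ := Nat.nth Nat.Prime n

/-- `π(x) ≤ C x / log x`. -/
theorem pi_le : ∃ C : ℝ, 0 < C ∧ ∀ x : ℝ, 4 ≤ x →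
    (Nat.primeCounting ⌊x⌋₊ : ℝ) ≤ C * (x / Real.log x) := by
  obtain ⟨C, hC, hpi⟩ := Pool.Agent.Lib.H56G.exists_pi_le
  refine ⟨2 * C, by positivity, fun x hx4 => ?_⟩
  have hx0 : (0 : ℝ) < x := by linarith
  have hf2 : 2 ≤ ⌊x⌋₊ := Nat.le_floor (by norm_num; linarith)
  have hf : ((⌊x⌋₊ : ℕ) : ℝ) ≤ x := Nat.floor_le hx0.le
  have hf' : x / 2 ≤ ((⌊x⌋₊ : ℕ) : ℝ) := by
    have := Nat.lt_floor_add_one x
    linarith
  have hsq : Real.sqrt x ≤ ((⌊x⌋₊ : ℕ) : ℝ) := by
    refine le_trans ?_ hf'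
    rw [Real.sqrt_le_left (by positivity)]
    have : 4 * x ≤ x * x := by
      have := mul_le_mul_of_nonneg_right hx4 hx0.le
      linarith
    calc x = (4 * x) / 4 := by ring
      _ ≤ (x * x) / 4 := by linarith
      _ = (x / 2) ^ 2 := by ring
  have hlogx : 0 < Real.log x := Real.log_pos (by linarith)
  have hlog : Real.log x / 2 ≤ Real.log ((⌊x⌋₊ : ℕ) : ℝ) := by
    rw [← Real.log_sqrt hx0.le]
    exact Real.log_le_log (Real.sqrt_pos.mpr hx0) hsq
  have h1 := hpi ⌊x⌋₊ hf2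
  have h2 : ((⌊x⌋₊ : ℕ) : ℝ) / Real.log ((⌊x⌋₊ : ℕ) : ℝ) ≤ x / (Real.log x / 2) :=
    div_le_div₀ hx0.le hf (by positivity) hlog
  calc (Nat.primeCounting ⌊x⌋₊ : ℝ) ≤ C * (x / (Real.log x / 2)) :=
        h1.trans (mul_le_mul_of_nonneg_left h2 hC.le)
    _ = 2 * C * (x / Real.log x) := by field_simp

/-- For all `lam, δ > 0` there is `c > 0` such that, for all sufficiently large `x`, at least
`c π(x)` indices `n` with `p n ≤ x` have the following property: the gap from `p n` to `p (n+1)`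
contains an interval `(a, a + lam log x]` (so `p n ≤ a` and `a + lam log x ≤ p (n+1)`, in
particular `p (n+1) - p n ≥ lam log x`) in which every integer `m` has its least prime factor
at most `x^δ`. -/
theorem result (lam δ : ℝ) (hl : 0 < lam) (hδ : 0 < δ) : ∃ c : ℝ, 0 < c ∧ ∀ᶠ x : ℝ in atTop,
    c * (Nat.primeCounting ⌊x⌋₊ : ℝ) ≤
      (Set.ncard {n : ℕ | (p n : ℝ) ≤ x ∧
        ∃ a : ℕ, p n ≤ a ∧ (a : ℝ) + lam * Real.log x ≤ p (n + 1) ∧
          ∀ m : ℕ, a < m → (m : ℝ) ≤ a + lam * Real.log x → (m.minFac : ℝ) ≤ x ^ δ} : ℝ) := by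
  obtain ⟨c, hc, x0, h⟩ := Pool.Agent.Lib.H15P.many_large_rough_gaps lam (min δ (1 / 4)) hl
    (lt_min hδ (by norm_num)) (min_le_right _ _)
  obtain ⟨C, hC, hpi⟩ := pi_le
  refine ⟨c / C, by positivity, ?_⟩
  filter_upwards [eventually_ge_atTop x0, eventually_ge_atTop 4] with x hx hx4
  have h1 : c / C * (Nat.primeCounting ⌊x⌋₊ : ℝ) ≤ c * (x / Real.log x) := by
    calc c / C * (Nat.primeCounting ⌊x⌋₊ : ℝ)
        ≤ c / C * (C * (x / Real.log x)) :=
          mul_le_mul_of_nonneg_left (hpi x hx4) (by positivity)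
      _ = c * (x / Real.log x) := by field_simp
  refine h1.trans ((h x hx).trans ?_)
  have hfin : Set.Finite {n : ℕ | (p n : ℝ) ≤ x ∧
        ∃ a : ℕ, p n ≤ a ∧ (a : ℝ) + lam * Real.log x ≤ p (n + 1) ∧
          ∀ m : ℕ, a < m → (m : ℝ) ≤ a + lam * Real.log x → (m.minFac : ℝ) ≤ x ^ δ} := by
    apply (Set.finite_Iic ⌊x⌋₊).subset
    intro n hn
    rw [Set.mem_Iic]
    apply Nat.le_floor
    have h1 : n ≤ Nat.nth Nat.Prime n := (Nat.nth_strictMono Nat.infinite_setOfPred_prime).le_apply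
    have h2 : (n : ℝ) ≤ (Nat.nth Nat.Prime n : ℝ) := by exact_mod_cast h1
    exact h2.trans hn.1
  have hle : x ^ min δ (1 / 4) ≤ x ^ δ :=
    Real.rpow_le_rpow_of_exponent_le (by linarith) (min_le_left _ _)
  have hsub : Pool.Agent.Lib.H15P.SZ lam (min δ (1 / 4)) x ⊆ {n : ℕ | (p n : ℝ) ≤ x ∧
        ∃ a : ℕ, p n ≤ a ∧ (a : ℝ) + lam * Real.log x ≤ p (n + 1) ∧
          ∀ m : ℕ, a < m → (m : ℝ) ≤ a + lam * Real.log x → (m.minFac : ℝ) ≤ x ^ δ} := by
    rintro n ⟨hn1, a, ha1, ha2, ha3⟩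
    exact ⟨hn1, a, ha1, ha2, fun m hm hm2 => (ha3 m hm hm2).trans hle⟩
  exact_mod_cast Set.ncard_le_ncard hsub hfin

end Pool.Agent.Lib.H15P.Proportion
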