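import Pool.Agent.Lib.H15P.Defs
import Pool.Agent.Lib.H56G.Crt

/-!
# Chunk TR1: the mean value over a full period, as a sum over exclusive configurations
-/

open Finset

namespace Pool.Agent.Lib.H15P

variable {J : Type} [Fintype J] [DecidableEq J]

/-- Probabilities at the prime `p`: `1/p` for each form, the rest for none of them. -/
noncomputable def ww (J : Type) [Fintype J] (p : ℕ) : Option J → ℝ
  | none => 1 - (Fintype.card J : ℝ) / p
  | some _ => 1 / p

/-- The sets of primes of the forms in the configuration `κ`. -/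
def cfg {P : Finset ℕ} (κ : {p // p ∈ P} → Option J) (j : J) : Finset {p // p ∈ P} :=
  univ.filter (fun i => κ i = some j)

theorem tr1_T (M b p : ℕ) (hp : p.Prime) (hM : ¬ p ∣ M) : ∃ T, T < p ∧
    ∀ t < p, (p ∣ b + M * t ↔ t = T) := by
  have : Fact p.Prime := ⟨hp⟩
  have hM' : (M : ZMod p) ≠ 0 := by
    rw [Ne, ZMod.natCast_eq_zero_iff]
    exact hM
  refine ⟨(-(b : ZMod p) * (M : ZMod p)⁻¹).val, ZMod.val_lt _, fun t ht => ?_⟩
  rw [← ZMod.natCast_eq_zero_iff]
  push_cast
  constructor
  · intro h
    have h1 : (t : ZMod p) = -(b : ZMod p) * (M : ZMod p)⁻¹ := by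
      field_simp
      linear_combination h
    rw [← h1, ZMod.val_cast_of_lt ht]
  · intro h
    have h1 : (t : ZMod p) = -(b : ZMod p) * (M : ZMod p)⁻¹ := by
      rw [h, ZMod.natCast_zmod_val]
    rw [h1]
    field_simp
    ring

/-- Indicator that the prime `p` has the state `o` at `t`. -/
noncomputable def tr1_ind (M : ℕ) (b : J → ℕ) (p : ℕ) (t : ℕ) : Option J → ℝ
  | none => 1 - ∑ j, (if p ∣ b j + M * t then (1 : ℝ) else 0)
  | some j => if p ∣ b j + M * t then 1 else 0

/-- At most one form is divisible by a prime of `P`. -/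
theorem tr1_unique {P : Finset ℕ} {W K M : ℕ} {b : J → ℕ} (hF : Forms P W K M b)
    {p : ℕ} (hp : p ∈ P) (t : ℕ) {j j' : J} (h1 : p ∣ b j + M * t) (h2 : p ∣ b j' + M * t) :
    j = j' := by
  by_contra hne
  apply hF.dist p hp j j' hne
  have h3 : b j + M * t ≡ b j' + M * t [MOD p] :=
    ((Nat.modEq_zero_iff_dvd.2 h1).trans (Nat.modEq_zero_iff_dvd.2 h2).symm)
  exact Nat.ModEq.add_right_cancel' _ h3

theorem tr1_sum_one {P : Finset ℕ} {W K M : ℕ} {b : J → ℕ} (hF : Forms P W K M b)
    {p : ℕ} (hp : p ∈ P) (t : ℕ) {j : J} (h1 : p ∣ b j + M * t) :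
    ∑ j', (if p ∣ b j' + M * t then (1 : ℝ) else 0) = 1 := by
  rw [Finset.sum_eq_single j]
  · rw [if_pos h1]
  · intro j' _ hj'
    rw [if_neg]
    intro h2
    exact hj' (tr1_unique hF hp t h2 h1)
  · intro h
    exact absurd (Finset.mem_univ j) h

theorem tr1_expand {P : Finset ℕ} {W K M : ℕ} {b : J → ℕ} (hF : Forms P W K M b)
    (F : (J → Finset {p // p ∈ P}) → ℝ) (t : ℕ) :
    F (fun j => hit P (b j + M * t)) = ∑ κ : {p // p ∈ P} → Option J, F (cfg κ) *
      ∏ i, tr1_ind M b i.1 t (κ i) := by
  classical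
  set κ0 : {p // p ∈ P} → Option J := fun i =>
    if h : ∃ j, i.1 ∣ b j + M * t then some h.choose else none with hκ0
  have hsome : ∀ i j, κ0 i = some j ↔ i.1 ∣ b j + M * t := by
    intro i j
    by_cases h : ∃ j, i.1 ∣ b j + M * t
    · have e : κ0 i = some h.choose := by simp only [hκ0]; rw [dif_pos h]
      rw [e, Option.some_inj]
      constructor
      · intro hj
        rw [← hj]
        exact h.choose_spec
      · intro hj
        exact tr1_unique hF i.2 t h.choose_spec hj
    · have e : κ0 i = none := by simp only [hκ0]; rw [dif_neg h]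
      rw [e]
      constructor
      · intro h'; exact absurd h' (by simp)
      · intro hj; exact absurd ⟨j, hj⟩ h
  have hnone : ∀ i, κ0 i = none → ∀ j, ¬ i.1 ∣ b j + M * t := by
    intro i hi j hj
    rw [← hsome i j, hi] at hj
    exact absurd hj (by simp)
  rw [Finset.sum_eq_single κ0]
  · have h1 : (fun j => hit P (b j + M * t)) = cfg κ0 := by
      funext j
      unfold hit cfg
      apply Finset.filter_congr
      intro i _
      exact (hsome i j).symm
    have h2 : ∏ i, tr1_ind M b i.1 t (κ0 i) = 1 := by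
      apply Finset.prod_eq_one
      intro i _
      rcases h : κ0 i with _ | j
      · unfold tr1_ind
        simp only
        rw [Finset.sum_eq_zero]
        · ring
        · intro j _
          rw [if_neg (hnone i h j)]
      · unfold tr1_ind
        simp only
        rw [if_pos ((hsome i j).1 h)]
    rw [h1, h2, mul_one]
  · intro κ _ hκ
    obtain ⟨i, hi⟩ : ∃ i, κ i ≠ κ0 i := by
      by_contra hcon
      push Not at hcon
      exact hκ (funext hcon)
    have : tr1_ind M b i.1 t (κ i) = 0 := by
      rcases h : κ i with _ | j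
      · rcases h' : κ0 i with _ | j'
        · rw [h, h'] at hi
          exact absurd rfl hi
        · unfold tr1_ind
          simp only
          rw [tr1_sum_one hF i.2 t ((hsome i j').1 h')]
          ring
      · unfold tr1_ind
        simp only
        rw [if_neg]
        intro hd
        rw [h, (hsome i j).2 hd] at hi
        exact absurd rfl hi
    rw [Finset.prod_eq_zero (Finset.mem_univ i) this, mul_zero]
  · intro h
    exact absurd (Finset.mem_univ κ0) h

theorem tr1_periodic (M : ℕ) (b : J → ℕ) (p : ℕ) (o : Option J) :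
    Function.Periodic (fun t => tr1_ind M b p t o) p := by
  intro t
  have h : ∀ j, (p ∣ b j + M * (t + p)) ↔ (p ∣ b j + M * t) := by
    intro j
    have e : b j + M * (t + p) = (b j + M * t) + p * M := by ring
    rw [e]
    exact (Nat.dvd_add_left (Dvd.intro M rfl))
  rcases o with _ | j
  · simp only [tr1_ind, h]
  · simp only [tr1_ind, h]

theorem tr1_sum_some {P : Finset ℕ} {W K M : ℕ} {b : J → ℕ} (hF : Forms P W K M b)
    {p : ℕ} (hp : p ∈ P) (j : J) :
    ∑ t ∈ range p, (if p ∣ b j + M * t then (1 : ℝ) else 0) = 1 := by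
  obtain ⟨T, hT, hT'⟩ := tr1_T M (b j) p (hF.prime p hp) (hF.cop p hp)
  rw [Finset.sum_eq_single T]
  · rw [if_pos ((hT' T hT).2 rfl)]
  · intro t ht hne
    rw [if_neg]
    intro h
    exact hne ((hT' t (Finset.mem_range.1 ht)).1 h)
  · intro h
    exact absurd (Finset.mem_range.2 hT) h

theorem tr1_sum_period {P : Finset ℕ} {W K M : ℕ} {b : J → ℕ} (hF : Forms P W K M b)
    {p : ℕ} (hp : p ∈ P) (o : Option J) :
    ∑ t ∈ range p, tr1_ind M b p t o = p * ww J p o := by
  have hp0 : (p : ℝ) ≠ 0 := by
    have := (hF.prime p hp).pos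
    positivity
  rcases o with _ | j
  · simp only [tr1_ind, ww]
    rw [Finset.sum_sub_distrib, Finset.sum_comm]
    rw [Finset.sum_congr rfl (fun j _ => tr1_sum_some hF hp j)]
    simp only [sum_const, card_range, nsmul_eq_mul, mul_one, card_univ]
    field_simp
  · simp only [tr1_ind, ww]
    rw [tr1_sum_some hF hp j]
    field_simp

/-- Let `κ_t(p)` be the form divisible by `p` at `t` (at most one by `dist`), or `none`. Then
`F(hit ..) = Σ_κ F(cfg κ) ∏_p 1[κ_t(p) = κ p]`; the factor of `p` has period `p`, and by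
`H56G.sum_range_prod` (index type `{p // p ∈ P}`) the sum over a full period is
`∏_p #{t < p : κ_t(p) = κ p}`, where the factor is `1` if `κ p = some j` (`p ∤ M`: exactly one class,
see `H56G.gram1_T`), and `p - |J|` if `κ p = none`. -/
theorem EP_eq (P : Finset ℕ) (W K M : ℕ) (b : J → ℕ) (hF : Forms P W K M b)
    (F : (J → Finset {p // p ∈ P}) → ℝ) :
    EP P M b F = ∑ κ : {p // p ∈ P} → Option J, F (cfg κ) * ∏ i, ww J i.1 (κ i) := by
  classical
  have hprod : (∏ p ∈ P, p) = ∏ i : {p // p ∈ P}, i.1 := by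
    rw [← Finset.prod_coe_sort P (fun p => p)]
  have hpos : (0 : ℝ) < ((∏ p ∈ P, p : ℕ) : ℝ) := by
    have : 0 < ∏ p ∈ P, p := Finset.prod_pos (fun p hp => (hF.prime p hp).pos)
    exact_mod_cast this
  unfold EP
  rw [div_eq_iff hpos.ne', Finset.sum_mul]
  rw [Finset.sum_congr rfl (fun t _ => tr1_expand hF F t), Finset.sum_comm]
  refine Finset.sum_congr rfl (fun κ _ => ?_)
  rw [← Finset.mul_sum, mul_assoc]
  congr 1
  rw [hprod, H56G.sum_range_prod (fun i : {p // p ∈ P} => i.1) (fun i => hF.prime i.1 i.2)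
    Subtype.val_injective univ (fun i t => tr1_ind M b i.1 t (κ i))
    (fun i => tr1_periodic M b i.1 (κ i))]
  rw [Finset.prod_congr rfl (fun i _ => tr1_sum_period hF i.2 (κ i))]
  rw [Finset.prod_mul_distrib]
  push_cast
  ring

end Pool.Agent.Lib.H15P
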