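import Pool.Agent.Lib.H15P.Defs

/-!
# The data of the weights for one value of `x`, and the weight `om`
-/

open Finset

namespace Pool.Agent.Lib.H15P

/-- All data of the weight function and the inequalities between them. `K` = bound for the number of
forms of one window, `e` = small number, `C` = bound for the fourth moment, `lv` = level. -/
structure WD where
  P : Finset ℕ
  W : ℕ
  K : ℕ
  n : ℕ
  D : Fin n → Finset {p // p ∈ P} → ℝ
  m : Fin n → ℕ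
  lm : Finset {p // p ∈ P} → ℝ
  h : ℝ
  R : ℝ
  C : ℝ
  lv : ℝ
  e : ℝ
  prime : ∀ p ∈ P, p.Prime
  big : ∀ p ∈ P, W < p
  npos : 0 < n
  Kpos : 1 ≤ K
  KW : 4 * (2 * K) ^ 2 ≤ W
  good : Good (qq P (2 * K)) D h
  h0 : 0 ≤ h
  hm : ∀ i, 2 * K * GG (qq P (2 * K)) D (some i) + R ≤ m i
  lm0 : ∀ A, 0 ≤ lm A
  lm1 : lm ∅ = 1
  e0 : 0 < e
  e1 : e ≤ 1 / 10
  hR : n * Real.exp (-R) ≤ e
  hC : Real.exp (((n : ℝ) + 1) ^ 4 * h * K) ≤ C
  hlm : K * Real.exp (-R) * ex (qq P (2 * K)) lm ≤ e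
  hKW : Real.exp (2 * ((2 * K : ℕ) : ℝ) ^ 2 / W) ≤ 1 + e
  hKW2 : ((2 * K : ℕ) : ℝ) ^ 2 / W ≤ e
  hKW3 : 40 * (((2 * K : ℕ) : ℝ) / Real.sqrt W) * Real.sqrt C ≤ e
  lv1 : 1 ≤ lv
  levL : ∀ (J : Type) [Fintype J] [DecidableEq J] (B : Finset J) (M : ℕ) (b : J → ℕ),
    Fintype.card J ≤ 2 * K →
      Lev (∏ p ∈ P, p) (fun t => LL D m B (fun j => hit P (b j + M * t))) lv
  levP : ∀ (J : Type) [Fintype J] [DecidableEq J] (B : Finset J) (M : ℕ) (b : J → ℕ),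
    Fintype.card J ≤ 2 * K →
      Lev (∏ p ∈ P, p) (fun t => LP D m B (fun j => hit P (b j + M * t))) lv
  levlm : LevS P lm lv

/-- The weight of a finite set of integers. -/
noncomputable def WD.om (w : WD) (E : Finset ℕ) : ℝ :=
  (LL w.D w.m (univ : Finset {e // e ∈ E}) (fun e => hit w.P e.1)) ^ 2 /
    ZZ (qq w.P (2 * w.K)) w.D E.card

/-- Number of the elements of `E` without prime factor in `P`. -/
def WD.rough (w : WD) (E : Finset ℕ) : ℕ := (E.filter (fun e => ∀ p ∈ w.P, ¬ p ∣ e)).card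

end Pool.Agent.Lib.H15P
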