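import Pool.Agent.Lib.H15P.WD
import Pool.Agent.Lib.H15P.PB4
import Pool.Agent.Lib.H15P.PB8
import Pool.Agent.Lib.H15P.TR1

/-!
# Chunk WIN1: the weight as a function on a system of forms
-/

open Finset

namespace Pool.Agent.Lib.H15P

theorem WD.om_nonneg (w : WD) (E : Finset ℕ) : 0 ≤ w.om E := by
  unfold WD.om
  exact div_nonneg (sq_nonneg _) (zero_le_one.trans (one_le_ZZ _ _ _ w.good _))

/-- `LL_map` for the bijection of `{e // e ∈ B.image E}` with `B` (an embedding into `J`). -/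
theorem WD.om_image (w : WD) {J : Type} [Fintype J] [DecidableEq J] (E : J → ℕ)
    (hE : Function.Injective E) (B : Finset J) :
    w.om (B.image E) =
      (LL w.D w.m B (fun j => hit w.P (E j))) ^ 2 / ZZ (qq w.P (2 * w.K)) w.D B.card := by
  unfold WD.om
  have hf : ∀ e : {e // e ∈ B.image E}, ∃ j, j ∈ B ∧ E j = e.1 := fun e => Finset.mem_image.1 e.2
  choose f hfB hfE using hf
  have hinj : Function.Injective f := by
    intro a b hab
    apply Subtype.ext
    rw [← hfE a, ← hfE b, hab]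
  have hmap : (univ : Finset {e // e ∈ B.image E}).map ⟨f, hinj⟩ = B := by
    ext j
    rw [Finset.mem_map]
    constructor
    · rintro ⟨a, _, rfl⟩
      exact hfB a
    · intro hj
      refine ⟨⟨E j, Finset.mem_image_of_mem E hj⟩, Finset.mem_univ _, ?_⟩
      exact hE (hfE ⟨E j, Finset.mem_image_of_mem E hj⟩)
  have h1 := LL_map w.D w.m ⟨f, hinj⟩ (univ : Finset {e // e ∈ B.image E})
    (fun j => hit w.P (E j))
  rw [hmap] at h1
  have h2 : (fun e : {e // e ∈ B.image E} => hit w.P (E ((⟨f, hinj⟩ : {e // e ∈ B.image E} ↪ J) e))) =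
      fun e => hit w.P e.1 := by
    funext e
    have : E ((⟨f, hinj⟩ : {e // e ∈ B.image E} ↪ J) e) = e.1 := hfE e
    rw [this]
  rw [h2] at h1
  rw [h1, Finset.card_image_of_injective B hE]

/-- The system of the forms `b + M t`, `b ∈ B`. Distinct `b, b'` differ by at most `W < p`. -/
theorem WD.forms (w : WD) (M : ℕ) (hM : ∀ p ∈ w.P, ¬ p ∣ M) (B : Finset ℕ)
    (hB : B.card ≤ 2 * w.K) (hd : ∀ b ∈ B, ∀ b' ∈ B, b ≤ b' + w.W) :
    Forms w.P w.W (2 * w.K) M (fun j : {b // b ∈ B} => j.1) := by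
  refine ⟨w.prime, w.big, hM, ?_, ?_, ?_, w.KW⟩
  · intro p hp j j' hne h
    apply hne
    apply Subtype.ext
    have h1 := hd j.1 j.2 j'.1 j'.2
    have h2 := hd j'.1 j'.2 j.1 j.2
    have h3 := w.big p hp
    rcases le_total j.1 j'.1 with h4 | h4
    · have h5 := (Nat.modEq_iff_dvd' h4).1 h
      have h6 := Nat.eq_zero_of_dvd_of_lt h5 (by omega)
      omega
    · have h5 := (Nat.modEq_iff_dvd' h4).1 h.symm
      have h6 := Nat.eq_zero_of_dvd_of_lt h5 (by omega)
      omega
  · have := w.Kpos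
    omega
  · rw [Fintype.card_coe]
    exact hB

end Pool.Agent.Lib.H15P
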